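import Pool.Agent.NbT.Defs

/-!
# Permutations
-/

set_option autoImplicit false
set_option linter.unusedSectionVars false

namespace Pool.Agent.NbT

open Equiv Pool.Agent.NbS

-- BEGIN cdo
theorem cdo_odd (l : List ℕ) (h : (l.filter fun a => a % 2 = 0).length = 0) :
    l.prod % 2 = 1 := by
  induction l with
  | nil => rfl
  | cons a t ih =>
    have ha : ¬ a % 2 = 0 := by
      intro ha
      rw [List.filter_cons_of_pos (by simpa using ha)] at h
      simp at h
    rw [List.filter_cons_of_neg (by simpa using ha)] at h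
    have h1 := ih h
    have h2 : a % 2 = 1 := by omega
    rw [List.prod_cons, Nat.mul_mod, h1, h2]

theorem cdo_lcm_dvd (l : List ℕ) : (l : Multiset ℕ).lcm ∣ l.prod := by
  rw [Multiset.lcm_dvd]
  intro b hb
  exact List.dvd_prod (by simpa using hb)

theorem cdo_list (l : List ℕ) (h : (l.filter fun a => a % 2 = 0).length ≤ 1) :
    ∃ r : ℕ, r % 2 = 1 ∧ l.prod = r * (l : Multiset ℕ).lcm := by
  induction l with
  | nil => exact ⟨1, rfl, by simp⟩
  | cons a t ih =>
    rw [List.filter_cons] at h
    have key : ∀ b c : ℕ, (b % 2 = 1 ∨ c % 2 = 1) → Nat.gcd b c % 2 = 1 := by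
      intro b c hbc
      by_contra hc
      have h2 : 2 ∣ Nat.gcd b c := by omega
      have h3 := h2.trans (Nat.gcd_dvd_left b c)
      have h4 := h2.trans (Nat.gcd_dvd_right b c)
      omega
    have main : ((a % 2 = 1 ∨ (t : Multiset ℕ).lcm % 2 = 1) ∧
        (t.filter fun a => a % 2 = 0).length ≤ 1) := by
      split_ifs at h with ha
      · have h0 : (t.filter fun a => a % 2 = 0).length = 0 := by
          simpa using h
        refine ⟨Or.inr ?_, by omega⟩
        have h1 := cdo_odd t h0
        obtain ⟨c, hc⟩ := cdo_lcm_dvd t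
        rw [hc] at h1
        by_contra h2
        have h3 : (t : Multiset ℕ).lcm % 2 = 0 := by omega
        rw [Nat.mul_mod, h3, zero_mul] at h1
        simp at h1
      · refine ⟨Or.inl ?_, h⟩
        have : ¬ a % 2 = 0 := by simpa using ha
        omega
    obtain ⟨r, hr, hp⟩ := ih main.2
    have hg := key a (t : Multiset ℕ).lcm main.1
    refine ⟨r * Nat.gcd a (t : Multiset ℕ).lcm, by rw [Nat.mul_mod, hr, hg], ?_⟩
    have e1 : ((a :: t : List ℕ) : Multiset ℕ).lcm = Nat.lcm a (t : Multiset ℕ).lcm := by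
      rw [← Multiset.cons_coe, Multiset.lcm_cons]
      rfl
    rw [e1, List.prod_cons, hp, mul_assoc, Nat.gcd_mul_lcm]
    ring

/-- PROOF. `Equiv.Perm.nat_card_centralizer`: the order of the centralizer is `f! * l.prod = l.prod` (distinct parts); `orderOf σ` is the least common multiple of `l` (`Equiv.Perm.lcm_cycleType`) and divides `l.prod`; the quotient is
odd, because at most one part is even (the power of `2` in `l.prod` is the one in this part, which divides the least common multiple). -/
theorem cent_do {n f : ℕ} {l : List ℕ} (h : Do n f l) (hf : f ≤ 1) {σ : Perm (Fin n)}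
    (hσ : σ.cycleType = (l : Multiset ℕ)) :
    ∃ r : ℕ, r % 2 = 1 ∧ Nat.card (Subgroup.centralizer {σ}) = r * orderOf σ := by
  obtain ⟨r, hr, hp⟩ := cdo_list l h.ev
  refine ⟨r, hr, ?_⟩
  rw [Equiv.Perm.nat_card_centralizer, ← Equiv.Perm.lcm_cycleType σ, hσ, ← hp, Fintype.card_fin,
    Multiset.sum_coe, Multiset.prod_coe]
  have e1 : n - l.sum = f := by
    have := h.sum
    omega
  have e2 : (n - l.sum).factorial = 1 := by
    rw [e1]
    interval_cases f <;> rfl
  have e3 : ∏ k ∈ (l : Multiset ℕ).toFinset, ((l : Multiset ℕ).count k).factorial = 1 := by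
    apply Finset.prod_eq_one
    intro k hk
    have h1 : (l : Multiset ℕ).count k = 1 := by
      rw [Multiset.mem_toFinset, Multiset.mem_coe] at hk
      rw [Multiset.coe_count]
      exact List.count_eq_one_of_mem h.nd hk
    rw [h1]
    rfl
  rw [e2, e3, one_mul, mul_one]
-- END cdo

-- BEGIN mF
/-- PROOF. `g` a generator of the cyclic group `Fˣ`, `m x = g * x`, `α` the same map as an additive equivalence. `m` is a cycle on the nonzero elements (`card F - 1 ≥ 2` of them). `α^[j] a = g ^ j * a = a` with `a ≠ 0` gives `g ^ j = 1`. -/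
theorem exists_mF (F : Type) [Field F] [Fintype F] [DecidableEq F] (h3 : 3 ≤ Fintype.card F) :
    ∃ (m : Perm F) (α : F ≃+ F), m.cycleType = {Fintype.card F - 1} ∧ m ^ (Fintype.card F - 1) = 1 ∧
      (∀ a : F, m * Equiv.addRight a = Equiv.addRight (α a) * m) ∧
      ∀ j, 0 < j → j < Fintype.card F - 1 → ∀ a : F, (α^[j]) a = a → a = 0 := by
  obtain ⟨g, hg⟩ := IsCyclic.exists_generator (α := Fˣ)
  have hcu : Fintype.card Fˣ = Fintype.card F - 1 := Fintype.card_units F
  have hord : orderOf g = Fintype.card F - 1 := by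
    rw [← hcu, ← Nat.card_eq_fintype_card]
    exact orderOf_eq_card_of_forall_mem_zpowers hg
  have hg1 : g ≠ 1 := by
    intro h
    rw [h, orderOf_one] at hord
    omega
  have hg1' : (g : F) ≠ 1 := fun h => hg1 (Units.ext h)
  let m : Perm F := MulAction.toPermHom Fˣ F g
  have hm : ∀ x : F, m x = g * x := fun x => rfl
  have hmz : ∀ (i : ℤ) (x : F), (m ^ i) x = ((g ^ i : Fˣ) : F) * x := by
    intro i x
    show ((MulAction.toPermHom Fˣ F g) ^ i) x = _
    rw [← map_zpow]
    rfl
  have hmn : ∀ (i : ℕ) (x : F), (m ^ i) x = ((g ^ i : Fˣ) : F) * x := by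
    intro i x
    show ((MulAction.toPermHom Fˣ F g) ^ i) x = _
    rw [← map_pow]
    rfl
  let α : F ≃+ F :=
    { toFun := fun x => g * x
      invFun := fun x => (g⁻¹ : Fˣ) * x
      left_inv := fun x => by simp
      right_inv := fun x => by simp
      map_add' := fun x y => mul_add _ x y }
  have hα : ∀ x : F, α x = g * x := fun x => rfl
  have hmove : ∀ y : F, m y ≠ y ↔ y ≠ 0 := by
    intro y
    rw [hm]
    constructor
    · rintro h rfl
      exact h (mul_zero _)
    · intro hy h
      exact hg1' (mul_right_cancel₀ hy (by rw [h, one_mul]))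
  have hcyc : m.IsCycle := by
    refine ⟨1, (hmove 1).2 one_ne_zero, fun y hy => ?_⟩
    have hy0 := (hmove y).1 hy
    obtain ⟨i, hi⟩ := Subgroup.mem_zpowers_iff.1 (hg (Units.mk0 y hy0))
    refine ⟨i, ?_⟩
    rw [hmz, hi, mul_one]
    rfl
  refine ⟨m, α, ?_, ?_, ?_, ?_⟩
  · rw [hcyc.cycleType]
    have hs : m.support = Finset.univ.erase 0 := by
      ext y
      rw [Perm.mem_support, hmove, Finset.mem_erase]
      simp
    rw [hs, Finset.card_erase_of_mem (Finset.mem_univ _), Finset.card_univ]
  · ext x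
    rw [hmn, ← hord, pow_orderOf_eq_one]
    simp
  · intro a
    ext x
    show m (x + a) = m x + α a
    rw [hm, hm, hα, mul_add]
  · intro j hj hj2 a ha
    have hit : ∀ (k : ℕ) (x : F), (α^[k]) x = ((g ^ k : Fˣ) : F) * x := by
      intro k
      induction k with
      | zero => intro x; simp
      | succ k ih =>
        intro x
        rw [Function.iterate_succ_apply, ih, hα, pow_succ]
        push_cast
        ring
    rw [hit] at ha
    by_contra h0
    have h1 : ((g ^ j : Fˣ) : F) = 1 := mul_right_cancel₀ h0 (by rw [ha, one_mul])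
    have h2 : g ^ j = 1 := Units.ext h1
    have h4 := Nat.le_of_dvd hj (orderOf_dvd_of_pow_eq_one h2)
    omega
-- END mF

-- BEGIN wr
private def wr_g (m q : ℕ) [NeZero m] : Perm (Fin m × ZMod q) where
  toFun x := (x.1 + 1, x.2 + if x.1 + 1 = 0 then 1 else 0)
  invFun x := (x.1 - 1, x.2 - if x.1 = 0 then 1 else 0)
  left_inv x := by simp
  right_inv x := by simp

private theorem wr_g_pow (m q : ℕ) [NeZero m] (hm : 2 ≤ m) (k : ℕ) (i : Fin m) (x : ZMod q) :
    ((wr_g m q) ^ k) (i, x) = (⟨((i : ℕ) + k) % m, Nat.mod_lt _ (by omega)⟩, x + (((i : ℕ) + k) / m : ℕ)) := by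
  induction k with
  | zero =>
    have h1 : (i : ℕ) % m = i := Nat.mod_eq_of_lt i.2
    have h2 : (i : ℕ) / m = 0 := Nat.div_eq_of_lt i.2
    simp only [pow_zero, Perm.coe_one, id_eq, add_zero, h1, h2, Nat.cast_zero, Fin.eta]
  | succ k ih =>
    rw [pow_succ', Perm.mul_apply, ih]
    have hv : ((⟨((i : ℕ) + k) % m, Nat.mod_lt _ (by omega)⟩ : Fin m) + 1 : Fin m) =
        ⟨((i : ℕ) + (k + 1)) % m, Nat.mod_lt _ (by omega)⟩ := by
      apply Fin.ext
      rw [Fin.val_add]
      simp only [Fin.val_one']
      rw [← Nat.add_mod, Nat.add_assoc]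
    have h0 : ((⟨((i : ℕ) + (k + 1)) % m, Nat.mod_lt _ (by omega)⟩ : Fin m) = 0) ↔ m ∣ (i : ℕ) + k + 1 := by
      rw [Fin.ext_iff]
      simp only [Fin.val_zero, Nat.dvd_iff_mod_eq_zero, Nat.add_assoc]
    show ((⟨((i : ℕ) + k) % m, Nat.mod_lt _ (by omega)⟩ : Fin m) + 1, x + (((i : ℕ) + k) / m : ℕ) +
      if ((⟨((i : ℕ) + k) % m, Nat.mod_lt _ (by omega)⟩ : Fin m) + 1 : Fin m) = 0 then 1 else 0) = _
    rw [hv]
    refine Prod.ext rfl ?_
    show x + (((i : ℕ) + k) / m : ℕ) + (if _ then 1 else 0) = x + (((i : ℕ) + k + 1) / m : ℕ)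
    rw [Nat.succ_div, if_congr h0 rfl rfl]
    split_ifs <;> push_cast <;> ring

private theorem wr_g_cycle (m q : ℕ) [NeZero m] [Fact q.Prime] (hm : 2 ≤ m) : (wr_g m q).cycleType = {q * m} := by
  have hne : ∀ z : Fin m × ZMod q, (wr_g m q) z ≠ z := by
    rintro ⟨i, x⟩ h
    have h1 : i + 1 = i := congrArg Prod.fst h
    have h2 : (1 : Fin m) = 0 := by simpa using h1
    have h3 := congrArg Fin.val h2
    simp only [Fin.val_one', Fin.val_zero] at h3
    rw [Nat.mod_eq_of_lt (by omega)] at h3
    omega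
  have hor : ∀ z : Fin m × ZMod q, ∃ k : ℕ, ((wr_g m q) ^ k) ((0 : Fin m), (0 : ZMod q)) = z := by
    rintro ⟨i, x⟩
    have : NeZero q := ⟨(Fact.out : q.Prime).ne_zero⟩
    refine ⟨(i : ℕ) + m * x.val, ?_⟩
    rw [wr_g_pow m q hm]
    have hmpos : 0 < m := by omega
    refine Prod.ext ?_ ?_
    · apply Fin.ext
      simp only [Fin.val_zero, zero_add, Nat.add_mul_mod_self_left]
      exact Nat.mod_eq_of_lt i.2
    · simp only [Fin.val_zero, zero_add]
      rw [Nat.add_mul_div_left _ _ hmpos, Nat.div_eq_of_lt i.2, zero_add, ZMod.natCast_zmod_val]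
  have hcyc : (wr_g m q).IsCycle := by
    refine ⟨(0, 0), hne _, ?_⟩
    intro y _
    obtain ⟨k, hk⟩ := hor y
    exact ⟨(k : ℤ), by rw [zpow_natCast]; exact hk⟩
  have hsup : (wr_g m q).support = Finset.univ := by
    ext z
    simp only [Perm.mem_support, Finset.mem_univ, iff_true]
    exact hne z
  rw [hcyc.cycleType, hsup, Finset.card_univ, Fintype.card_prod, Fintype.card_fin, ZMod.card, mul_comm]

private def wr_psi (m q : ℕ) [Fact q.Prime] (s : Perm (Fin m)) (c : Fin m → ZMod q) (hc : ∀ i, c i ≠ 0) :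
    Perm (Fin m × ZMod q) where
  toFun x := (s x.1, c x.1 * x.2)
  invFun x := (s.symm x.1, (c (s.symm x.1))⁻¹ * x.2)
  left_inv x := by
    refine Prod.ext ?_ ?_
    · simp
    · simp only [Equiv.symm_apply_apply]
      rw [← mul_assoc, inv_mul_cancel₀ (hc _), one_mul]
  right_inv x := by
    refine Prod.ext ?_ ?_
    · simp
    · show c (s.symm x.1) * ((c (s.symm x.1))⁻¹ * x.2) = x.2
      rw [← mul_assoc, mul_inv_cancel₀ (hc _), one_mul]

private def wr_al (m q : ℕ) [NeZero m] [Fact q.Prime] (s : Perm (Fin m)) (c : Fin m → ZMod q) (hc : ∀ i, c i ≠ 0) :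
    (Fin m → ZMod q) ≃+ (Fin m → ZMod q) where
  toFun a := fun j => c (s.symm j) * (c (s.symm j - 1))⁻¹ * a (s (s.symm j - 1))
  invFun b := fun j => c (s.symm j) * (c (s.symm j + 1))⁻¹ * b (s (s.symm j + 1))
  left_inv a := by
    funext j
    simp only [Equiv.symm_apply_apply, add_sub_cancel_right, Equiv.apply_symm_apply]
    have h1 := hc (s.symm j)
    have h2 := hc (s.symm j + 1)
    field_simp
  right_inv a := by
    funext j
    simp only [Equiv.symm_apply_apply, sub_add_cancel, Equiv.apply_symm_apply]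
    have h1 := hc (s.symm j)
    have h2 := hc (s.symm j - 1)
    field_simp
  map_add' a b := by
    funext j
    simp only [Pi.add_apply]
    ring

/-- PROOF. `g (s i, x) = (s (i + 1), (c (i + 1) / c i) * x + (if i + 1 = 0 then c 0 else 0))` (addition modulo `m` in `Fin m`); `g ^ m (s i, x) = (s i, x + c i)` (the ratios have product `1`); so `g ^ m` has no fixed point and order `q`, `g` permutes the `m`
blocks cyclically: one cycle of length `m q` (the orbit of a point under `g ^ m` is its block). `α a` is defined by `(α a) (s (i + 1)) = (c (i + 1) / c i) * a (s i)`. -/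
theorem exists_wr (m q : ℕ) [NeZero m] [Fact q.Prime] (hm : 2 ≤ m) (s : Perm (Fin m)) (c : Fin m → ZMod q) (hc : ∀ i, c i ≠ 0) :
    ∃ (g : Perm (Fin m × ZMod q)) (α : (Fin m → ZMod q) ≃+ (Fin m → ZMod q)), g.cycleType = {q * m} ∧
      (∀ a : Fin m → ZMod q, g * tr m q (Multiplicative.ofAdd a) = tr m q (Multiplicative.ofAdd (α a)) * g) ∧
      g ^ m = tr m q (Multiplicative.ofAdd fun j => c (s.symm j)) ∧
      ∀ i, α.symm (Pi.single (s i) (c i)) = Pi.single (s (i - 1)) (c (i - 1)) := by
  refine ⟨wr_psi m q s c hc * wr_g m q * (wr_psi m q s c hc)⁻¹, wr_al m q s c hc, ?_, ?_, ?_, ?_⟩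
  · rw [Perm.cycleType_conj, wr_g_cycle m q hm]
  · intro a
    refine Equiv.ext ?_
    rintro ⟨j, y⟩
    refine Prod.ext rfl ?_
    show c (s.symm j + 1) * ((c (s.symm j))⁻¹ * (y + a j) + if s.symm j + 1 = 0 then 1 else 0) =
      c (s.symm j + 1) * ((c (s.symm j))⁻¹ * y + if s.symm j + 1 = 0 then 1 else 0) +
        c (s.symm (s (s.symm j + 1))) * (c (s.symm (s (s.symm j + 1)) - 1))⁻¹ *
          a (s (s.symm (s (s.symm j + 1)) - 1))
    simp only [Equiv.symm_apply_apply, add_sub_cancel_right, Equiv.apply_symm_apply]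
    ring
  · rw [conj_pow]
    refine Equiv.ext ?_
    rintro ⟨j, y⟩
    show (wr_psi m q s c hc) (((wr_g m q) ^ m) (s.symm j, (c (s.symm j))⁻¹ * y)) = (j, y + c (s.symm j))
    rw [wr_g_pow m q hm]
    have hmpos : 0 < m := by omega
    have h1 : ((⟨(((s.symm j : Fin m) : ℕ) + m) % m, Nat.mod_lt _ (by omega)⟩ : Fin m)) = s.symm j := by
      apply Fin.ext
      simp only [Nat.add_mod_right]
      exact Nat.mod_eq_of_lt (s.symm j).2
    have h2 : (((s.symm j : Fin m) : ℕ) + m) / m = 1 := by
      rw [Nat.add_div_right _ hmpos, Nat.div_eq_of_lt (s.symm j).2]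
    rw [h1, h2]
    refine Prod.ext ?_ ?_
    · show s (s.symm j) = j
      simp
    · show c (s.symm j) * ((c (s.symm j))⁻¹ * y + ((1 : ℕ) : ZMod q)) = y + c (s.symm j)
      have h3 := hc (s.symm j)
      rw [mul_add, ← mul_assoc, mul_inv_cancel₀ h3]
      push_cast
      ring
  · intro i
    rw [AddEquiv.symm_apply_eq]
    funext j
    show (Pi.single (s i) (c i) : Fin m → ZMod q) j = c (s.symm j) * (c (s.symm j - 1))⁻¹ *
      (Pi.single (s (i - 1)) (c (i - 1)) : Fin m → ZMod q) (s (s.symm j - 1))
    by_cases h : j = s i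
    · subst h
      simp only [Equiv.symm_apply_apply, Pi.single_eq_same]
      rw [mul_assoc, inv_mul_cancel₀ (hc _), mul_one]
    · have h' : s (s.symm j - 1) ≠ s (i - 1) := by
        intro h2
        have h3 := s.injective h2
        have h4 : s.symm j = i := by simpa using h3
        exact h (by rw [← h4]; simp)
      rw [Pi.single_eq_of_ne h, Pi.single_eq_of_ne h', mul_zero]
-- END wr

-- BEGIN pat
/-- The set of the `i < m` with `E i ≠ c` is a proper initial interval: `E` is aperiodic. -/
private theorem pat_ap {R : Type*} {m s : ℕ} {E : ℕ → R} {c : R} (hs : 0 < s) (hsm : s < m)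
    (h : ∀ i < m, E i ≠ c ↔ i < s) : ∀ j, 0 < j → j < m → ∃ a < m, E ((a + j) % m) ≠ E a := by
  intro j hj hjm
  by_cases hjs : s ≤ j
  · refine ⟨0, by omega, ?_⟩
    rw [zero_add, Nat.mod_eq_of_lt hjm]
    have h1 : E j = c := by
      by_contra h2
      exact absurd ((h j hjm).1 h2) (by omega)
    rw [h1]
    exact fun h2 => ((h 0 (by omega)).2 hs) h2.symm
  · refine ⟨s - j, by omega, ?_⟩
    rw [Nat.sub_add_cancel (by omega), Nat.mod_eq_of_lt hsm]
    have h1 : E s = c := by
      by_contra h2
      exact absurd ((h s hsm).1 h2) (by omega)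
    rw [h1]
    exact fun h2 => ((h (s - j) (by omega)).2 (by omega)) h2.symm

private theorem pat_sum {R : Type*} [CommRing R] {m w : ℕ} (hw : 2 ≤ w) (hwm : w ≤ m) (x y : R) :
    ∑ i ∈ Finset.range m, (if i = 0 then x else if i = 1 then y else if i < w then (1 : R) else 0) =
      x + y + (w - 2 : ℕ) := by
  obtain ⟨m, rfl⟩ : ∃ m', m = m' + 2 := ⟨m - 2, by omega⟩
  rw [Finset.sum_range_succ', Finset.sum_range_succ']
  have h1 : ∀ i ∈ Finset.range m, (if i + 1 + 1 = 0 then x else if i + 1 + 1 = 1 then y else if i + 1 + 1 < w then (1 : R) else 0) =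
      if i < w - 2 then (1 : R) else 0 := by
    intro i _
    rw [if_neg (by omega), if_neg (by omega)]
    congr 1
    exact propext ⟨fun h => by omega, fun h => by omega⟩
  rw [Finset.sum_congr rfl h1, Finset.sum_boole]
  have h2 : (Finset.range m).filter (fun i => i < w - 2) = Finset.range (w - 2) := by
    ext i
    simp only [Finset.mem_filter, Finset.mem_range]
    omega
  rw [h2, Finset.card_range, if_neg (by omega), if_pos rfl, if_pos rfl]
  ring

/-- PROOF. `w < m`: values `1, …, 1, t, - (t + w - 2)` on `0, …, w - 1` with `t = 1` or `t = -1` (one of the two makes the last one nonzero), `0` elsewhere: aperiodic, because the support is an interval (not everything, not empty).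
`w = m`: `m = 2`: `(1, -1)`. `m ≥ 3`: `m ≢ 0, 1` mod `q`: `(- (m - 1), 1, …, 1)`; `m ≡ 1`: `(2, -1, 1, …, 1)`; `m ≡ 0`, `q ≥ 5`: `(3, -1, 1, …, 1)`; `q = 3`, `m ≡ 0`, `m ≥ 6`: `(2, 2, 2, 1, …, 1)`: the entries different from `1` form an
interval which is not everything. -/
theorem pat {q m w : ℕ} [Fact q.Prime] (h3 : 3 ≤ q) (hm : 2 ≤ m) (hqm : ¬ (q = 3 ∧ m = 3)) (hw : 2 ≤ w) (hwm : w ≤ m) :
    ∃ E : ℕ → ZMod q, (∀ i < m, E i ≠ 0 ↔ i < w) ∧ ∑ i ∈ Finset.range m, E i = 0 ∧
      ∀ j, 0 < j → j < m → ∃ a < m, E ((a + j) % m) ≠ E a := by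
  have hne : ∀ k : ℕ, 0 < k → k < q → ((k : ℕ) : ZMod q) ≠ 0 := by
    intro k h0 hk h
    rw [ZMod.natCast_eq_zero_iff] at h
    exact absurd (Nat.le_of_dvd h0 h) (by omega)
  have h1 : (1 : ZMod q) ≠ 0 := one_ne_zero
  have h2 : (2 : ZMod q) ≠ 0 := by
    have := hne 2 (by omega) (by omega)
    exact_mod_cast this
  rcases Nat.lt_or_ge w m with hlt | hge
  · -- `w < m`
    have key : ∀ t : ZMod q, t ≠ 0 → t + (w - 2 : ℕ) ≠ 0 →
        ∃ E : ℕ → ZMod q, (∀ i < m, E i ≠ 0 ↔ i < w) ∧ ∑ i ∈ Finset.range m, E i = 0 ∧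
          ∀ j, 0 < j → j < m → ∃ a < m, E ((a + j) % m) ≠ E a := by
      intro t ht ht2
      have hE : ∀ i < m, (if i = 0 then -(t + ((w - 2 : ℕ) : ZMod q)) else if i = 1 then t else if i < w then (1 : ZMod q) else 0) ≠ 0 ↔
          i < w := by
        intro i _
        split_ifs with a1 a2 a3
        · exact ⟨fun _ => by omega, fun _ => neg_ne_zero.2 ht2⟩
        · exact ⟨fun _ => by omega, fun _ => ht⟩
        · exact ⟨fun _ => a3, fun _ => h1⟩
        · exact ⟨fun h => absurd rfl h, fun h => absurd h a3⟩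
      refine ⟨fun i => if i = 0 then -(t + ((w - 2 : ℕ) : ZMod q)) else if i = 1 then t else if i < w then 1 else 0, hE, ?_,
        pat_ap (by omega) hlt hE⟩
      rw [pat_sum hw hwm]
      ring
    by_cases hw1 : (1 : ZMod q) + ((w - 2 : ℕ) : ZMod q) = 0
    · refine key (-1) (neg_ne_zero.2 h1) ?_
      intro h
      apply h2
      linear_combination hw1 - h
    · exact key 1 h1 hw1
  · -- `w = m`
    obtain rfl : w = m := le_antisymm hwm hge
    have key : ∀ x y : ZMod q, x ≠ 0 → y ≠ 0 → x ≠ 1 → (y = 1 ∨ y ≠ 1 ∧ 3 ≤ w) → x + y + ((w - 2 : ℕ) : ZMod q) = 0 →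
        ∃ E : ℕ → ZMod q, (∀ i < w, E i ≠ 0 ↔ i < w) ∧ ∑ i ∈ Finset.range w, E i = 0 ∧
          ∀ j, 0 < j → j < w → ∃ a < w, E ((a + j) % w) ≠ E a := by
      intro x y hx hy hx1 hy1 hxy
      refine ⟨fun i => if i = 0 then x else if i = 1 then y else if i < w then 1 else 0, ?_, ?_, ?_⟩
      · intro i hi
        refine ⟨fun _ => hi, fun _ => ?_⟩
        show (if i = 0 then x else if i = 1 then y else if i < w then (1 : ZMod q) else 0) ≠ 0
        split_ifs with a1 a2
        · exact hx
        · exact hy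
        · exact h1
      · rw [pat_sum hw hwm]
        exact hxy
      · rcases hy1 with hy1 | ⟨hy1, hw3⟩
        · refine pat_ap (E := fun i => if i = 0 then x else if i = 1 then y else if i < w then (1 : ZMod q) else 0) (c := 1)
            (s := 1) one_pos (by omega) fun i hi => ?_
          show (if i = 0 then x else if i = 1 then y else if i < w then (1 : ZMod q) else 0) ≠ 1 ↔ i < 1
          split_ifs with a1 a2
          · exact ⟨fun _ => by omega, fun _ => hx1⟩
          · exact ⟨fun h => absurd hy1 h, fun h => absurd h (by omega)⟩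
          · exact ⟨fun h => absurd rfl h, fun h => absurd h (by omega)⟩
        · refine pat_ap (E := fun i => if i = 0 then x else if i = 1 then y else if i < w then (1 : ZMod q) else 0) (c := 1)
            (s := 2) two_pos (by omega) fun i hi => ?_
          show (if i = 0 then x else if i = 1 then y else if i < w then (1 : ZMod q) else 0) ≠ 1 ↔ i < 2
          split_ifs with a1 a2
          · exact ⟨fun _ => by omega, fun _ => hx1⟩
          · exact ⟨fun _ => by omega, fun _ => hy1⟩
          · exact ⟨fun h => absurd rfl h, fun h => absurd h (by omega)⟩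
    have hcw : ((w - 2 : ℕ) : ZMod q) = (w : ZMod q) - 2 := by
      rw [Nat.cast_sub hw]
      norm_num
    have h11 : (-1 : ZMod q) ≠ 1 := by
      intro h
      apply h2
      linear_combination -h
    by_cases c1 : (w : ZMod q) = 1
    · -- `(2, -1, 1, …)`
      have hq : w ≠ 2 := by
        rintro rfl
        apply h1
        have : ((2 : ℕ) : ZMod q) = 2 := by norm_num
        linear_combination c1 - this
      refine key 2 (-1) h2 (neg_ne_zero.2 h1) ?_ (Or.inr ⟨h11, by omega⟩) ?_
      · intro h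
        apply h1
        linear_combination h
      · rw [hcw, c1]
        ring
    by_cases c0 : (w : ZMod q) = 0
    · have hqw : q ∣ w := (ZMod.natCast_eq_zero_iff w q).1 c0
      have hqw' : q ≤ w := Nat.le_of_dvd (by omega) hqw
      rcases Nat.lt_or_ge 3 q with hq | hq
      · -- `(3, -1, 1, …)`
        have h33 : (3 : ZMod q) ≠ 0 := by
          have := hne 3 (by omega) hq
          exact_mod_cast this
        refine key 3 (-1) h33 (neg_ne_zero.2 h1) ?_ (Or.inr ⟨h11, by omega⟩) ?_
        · intro h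
          apply h2
          linear_combination h
        · rw [hcw, c0]
          ring
      · -- `(2, 2, 2, 1, …)`
        have hq3 : q = 3 := by omega
        subst hq3
        have hw6 : 6 ≤ w := by
          obtain ⟨r, rfl⟩ := hqw
          have : r ≠ 1 := by
            rintro rfl
            exact hqm ⟨rfl, rfl⟩
          omega
        refine ⟨fun i => if i < 3 then 2 else 1, ?_, ?_, ?_⟩
        · intro i hi
          refine ⟨fun _ => hi, fun _ => ?_⟩
          show (if i < 3 then (2 : ZMod 3) else 1) ≠ 0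
          split_ifs
          · exact h2
          · exact h1
        · have e1 : ∀ i ∈ Finset.range w, (if i < 3 then (2 : ZMod 3) else 1) = 1 + if i < 3 then (1 : ZMod 3) else 0 := by
            intro i _
            split_ifs
            · norm_num
            · norm_num
          rw [Finset.sum_congr rfl e1, Finset.sum_add_distrib, Finset.sum_boole, Finset.sum_const, Finset.card_range]
          have e2 : (Finset.range w).filter (fun i => i < 3) = Finset.range 3 := by
            ext i
            simp only [Finset.mem_filter, Finset.mem_range]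
            omega
          rw [e2, Finset.card_range, nsmul_eq_mul, mul_one, c0, ZMod.natCast_self,
            add_zero]
        · refine pat_ap (E := fun i => if i < 3 then (2 : ZMod 3) else 1) (c := 1) (s := 3) (by omega) (by omega) fun i hi => ?_
          show (if i < 3 then (2 : ZMod 3) else 1) ≠ 1 ↔ i < 3
          split_ifs with a1
          · refine ⟨fun _ => a1, fun _ h => h1 ?_⟩
            linear_combination h
          · exact ⟨fun h => absurd rfl h, fun h => absurd h a1⟩
    · -- `(-(w - 1), 1, …)`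
      refine key (1 - w) 1 ?_ h1 ?_ (Or.inl rfl) ?_
      · intro h
        apply c1
        linear_combination -h
      · intro h
        apply c0
        linear_combination -h
      · rw [hcw]
        ring
-- END pat

end Pool.Agent.NbT
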