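import Pool.Agent.NbT.Mod
import Pool.Agent.NbT.Prm

/-!
# The moves
-/

set_option autoImplicit false
set_option linter.unusedSectionVars false

namespace Pool.Agent.NbT

open Equiv Pool.Agent.NbS

section

variable {k : ℕ} {U : Type*} [AddCommGroup U] {ρ : Perm (Fin k) →* AddMonoid.End U} {p : ℕ}

/-- MOVE T1. -/
theorem mT (hne : ∃ u : U, u ≠ 0) : FxT ρ {2} ∨ AltFx ρ := by
  obtain ⟨u, hu⟩ := hne
  by_cases h : FxT ρ {2}
  · exact Or.inl h
  · exact Or.inr fun σ hσ => R1 hu h σ hσ

-- BEGIN mM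
/-- the translations of a finite additive group -/
private def mM_tr (F : Type) [AddCommGroup F] : Multiplicative F →* Perm F where
  toFun a := Equiv.addRight a.toAdd
  map_one' := by
    ext x
    simp
  map_mul' a b := by
    ext x
    simp only [toAdd_mul, Equiv.coe_addRight, Perm.coe_mul, Function.comp_apply]
    rw [add_assoc, add_comm a.toAdd]

/-- MOVE M. PROOF. Embed a field `F` with `q` elements (`GaloisField`, `IsPrimePow`) in `Fin k` (`Equiv.Perm.viaEmbeddingHom`, or `Equiv.Perm.extendDomainHom`; `cycleType_extendDomain`); `exists_mF`, `MT` with `τ` = the translations. If `{q - 1}` is not fixed all translations act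
trivially; the kernel of `ρ` is normal and not trivial, so it contains all even permutations (`Equiv.Perm.alternatingGroup_le_of_normal`). -/
theorem mM (hp : p.Prime) (hU : ∀ u : U, p • u = 0) (hne : ∃ u : U, u ≠ 0) (q : ℕ) (hq : IsPrimePow q) (h3 : 3 ≤ q)
    (hpq : ¬ p ∣ q) (hqk : q ≤ k) (hk : 5 ≤ k) : FxT ρ {q - 1} ∨ AltFx ρ := by
  by_cases hF : FxT ρ {q - 1}
  · exact Or.inl hF
  right
  obtain ⟨r, n, hr, hn, hrn⟩ := hq
  have hr' : r.Prime := hr.nat_prime
  have : Fact r.Prime := ⟨hr'⟩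
  let _ : Fintype (GaloisField r n) := Fintype.ofFinite _
  classical
  have hcard : Fintype.card (GaloisField r n) = q := by
    rw [← Nat.card_eq_fintype_card, GaloisField.card r n hn.ne', hrn]
  obtain ⟨m, α, hmc, hm1, hma, hmj⟩ := exists_mF (GaloisField r n) (by rw [hcard]; exact h3)
  rw [hcard] at hmc hm1 hmj
  obtain ⟨ι⟩ : Nonempty (GaloisField r n ↪ Fin k) :=
    Function.Embedding.nonempty_of_card_le (by rw [hcard, Fintype.card_fin]; exact hqk)
  have hct : (Perm.viaEmbeddingHom ι m).cycleType = {q - 1} := by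
    rw [← hmc]
    exact @Perm.cycleType_extendDomain _ _ _ _ _ _ _ (fun _ => Classical.propDecidable _)
      (Equiv.ofInjective ι.1 ι.2) m
  have hMT := MT ρ hp hU (A := GaloisField r n) (by rw [hcard]; exact hpq)
    ((Perm.viaEmbeddingHom ι).comp (mM_tr (GaloisField r n))) (Perm.viaEmbeddingHom ι m) α (q - 1)
    (by omega) (by rw [← map_pow, hm1, map_one]) (fun a => by
      have := congrArg (Perm.viaEmbeddingHom ι) (hma a)
      rw [map_mul, map_mul] at this
      exact this) hmj (fun ⟨v, hv, hv'⟩ => hF ⟨_, hct, v, hv, hv' _ rfl⟩)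
  obtain ⟨u, hu⟩ := hne
  have hker : Nontrivial ρ.ker := by
    refine ⟨⟨⟨(Perm.viaEmbeddingHom ι) (mM_tr (GaloisField r n) (Multiplicative.ofAdd 1)), ?_⟩, 1, ?_⟩⟩
    · rw [MonoidHom.mem_ker]
      ext u
      exact hMT 1 u
    · intro h
      have h1 : (Perm.viaEmbeddingHom ι) (mM_tr (GaloisField r n) (Multiplicative.ofAdd 1)) = 1 :=
        congrArg Subtype.val h
      have h2 : mM_tr (GaloisField r n) (Multiplicative.ofAdd 1) = 1 :=
        Perm.viaEmbeddingHom_injective ι (by rw [h1, map_one])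
      have h3 : (mM_tr (GaloisField r n) (Multiplicative.ofAdd 1)) 0 = (1 : Perm (GaloisField r n)) 0 := by
        rw [h2]
      have h4 : (0 : GaloisField r n) + 1 = 0 := h3
      rw [zero_add] at h4
      exact one_ne_zero h4
  have hle := Perm.alternatingGroup_le_of_normal (α := Fin k) (by rw [Nat.card_fin]; exact hk) (N := ρ.ker) hker
  intro σ hσ
  refine ⟨σ, rfl, u, hu, ?_⟩
  have h5 : ρ σ = 1 := MonoidHom.mem_ker.1 (hle (Perm.mem_alternatingGroup.2 hσ))
  rw [h5]
  rfl
-- END mM

-- BEGIN P1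
private theorem P1_emb {m q k : ℕ} [Fact q.Prime] (hk : q * m ≤ k) :
    ∃ Φ : Perm (Fin m × ZMod q) →* Perm (Fin k), (∀ x, (Φ x).cycleType = x.cycleType) ∧
      ∀ x y, Perm.Disjoint x y → Perm.Disjoint (Φ x) (Φ y) := by
  classical
  have hcard : Fintype.card (Fin m × ZMod q) ≤ Fintype.card (Fin k) := by
    rw [Fintype.card_prod, Fintype.card_fin, Fintype.card_fin, ZMod.card, mul_comm]
    exact hk
  obtain ⟨ι⟩ := Function.Embedding.nonempty_of_card_le hcard
  refine ⟨Perm.extendDomainHom (Equiv.ofInjective ι ι.injective), fun x => ?_, fun x y h => ?_⟩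
  · exact Perm.cycleType_extendDomain (Equiv.ofInjective ι ι.injective)
  · exact Perm.Disjoint.extendDomain (Equiv.ofInjective ι ι.injective) h

private theorem P1_tr_apply {m q : ℕ} (a : Fin m → ZMod q) (x : Fin m × ZMod q) :
    tr m q (Multiplicative.ofAdd a) x = (x.1, x.2 + a x.1) := rfl

private theorem P1_cyc {m q : ℕ} [Fact q.Prime] (i : Fin m) :
    (tr m q (Multiplicative.ofAdd (Pi.single i 1))).cycleType = {q} := by
  classical
  have hq1 : (1 : ZMod q) ≠ 0 := one_ne_zero
  have hcyc : (tr m q (Multiplicative.ofAdd (Pi.single i 1))).IsCycle := by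
    refine ⟨(i, 0), ?_, ?_⟩
    · rw [P1_tr_apply]
      intro h
      have h2 := congrArg Prod.snd h
      simp at h2
    · rintro ⟨j, x⟩ hy
      have hji : j = i := by
        by_contra hne
        apply hy
        rw [P1_tr_apply]
        simp [Pi.single_eq_of_ne hne]
      subst hji
      refine ⟨(x.val : ℤ), ?_⟩
      rw [zpow_natCast, ← map_pow, ← ofAdd_nsmul, P1_tr_apply]
      simp
  rw [hcyc.cycleType]
  have hs : (tr m q (Multiplicative.ofAdd (Pi.single i 1))).support =
      ({i} : Finset (Fin m)) ×ˢ (Finset.univ : Finset (ZMod q)) := by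
    ext ⟨j, x⟩
    rw [Perm.mem_support, P1_tr_apply]
    simp only [Finset.mem_product, Finset.mem_singleton, Finset.mem_univ, and_true]
    constructor
    · intro h
      by_contra hne
      apply h
      simp [Pi.single_eq_of_ne hne]
    · rintro rfl h
      have h2 := congrArg Prod.snd h
      simp at h2
  rw [hs, Finset.card_product, Finset.card_singleton, Finset.card_univ, ZMod.card, one_mul]

private theorem P1_dis {m q : ℕ} {i j : Fin m} (hij : i ≠ j) :
    Perm.Disjoint (tr m q (Multiplicative.ofAdd (Pi.single i 1)))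
      (tr m q (Multiplicative.ofAdd (Pi.single j 1))) := by
  rintro ⟨l, x⟩
  rw [P1_tr_apply, P1_tr_apply]
  by_cases h : l = i
  · right
    subst h
    simp [Pi.single_eq_of_ne hij]
  · left
    simp [Pi.single_eq_of_ne h]

private theorem P1_conj {k q : ℕ} {y y' z z' : Perm (Fin k)} (hy : y.cycleType = {q})
    (hy' : y'.cycleType = {q}) (hyd : Perm.Disjoint y y') (hz : z.cycleType = {q})
    (hz' : z'.cycleType = {q}) (hd : Perm.Disjoint z z') :
    ∃ g : Perm (Fin k), (g * y * g⁻¹ = z ∧ g * y' * g⁻¹ = z') ∨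
      (g * y * g⁻¹ = z' ∧ g * y' * g⁻¹ = z) := by
  have hc : (y * y').cycleType = (z * z').cycleType := by
    rw [hyd.cycleType_mul, hd.cycleType_mul, hy, hy', hz, hz']
  obtain ⟨g, hg⟩ := isConj_iff.mp ((Perm.isConj_iff_cycleType_eq).mpr hc)
  have hcy : ∀ x : Perm (Fin k), x.cycleType = {q} → x.IsCycle := by
    intro x hx
    rw [← Perm.card_cycleType_eq_one, hx]
    rfl
  have hY : (g * y * g⁻¹).cycleType = {q} := by rw [Perm.cycleType_conj, hy]
  have hY' : (g * y' * g⁻¹).cycleType = {q} := by rw [Perm.cycleType_conj, hy']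
  have hYd : Perm.Disjoint (g * y * g⁻¹) (g * y' * g⁻¹) := by
    intro x
    rcases hyd (g⁻¹ x) with h | h
    · left
      rw [Perm.mul_apply, Perm.mul_apply, h]
      exact g.apply_symm_apply x
    · right
      rw [Perm.mul_apply, Perm.mul_apply, h]
      exact g.apply_symm_apply x
  have hprod : (g * y * g⁻¹) * (g * y' * g⁻¹) = z * z' := by
    rw [← hg]
    group
  have hfac := congrArg Perm.cycleFactorsFinset hprod
  rw [hYd.cycleFactorsFinset_mul_eq_union, hd.cycleFactorsFinset_mul_eq_union,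
    (hcy _ hY).cycleFactorsFinset_eq_singleton, (hcy _ hY').cycleFactorsFinset_eq_singleton,
    (hcy _ hz).cycleFactorsFinset_eq_singleton, (hcy _ hz').cycleFactorsFinset_eq_singleton] at hfac
  have hmem : g * y * g⁻¹ ∈ ({z} ∪ {z'} : Finset (Perm (Fin k))) := by
    rw [← hfac]
    simp
  refine ⟨g, ?_⟩
  simp only [Finset.mem_union, Finset.mem_singleton] at hmem
  rcases hmem with h | h
  · left
    refine ⟨h, ?_⟩
    rw [h] at hprod
    exact mul_left_cancel hprod
  · right
    refine ⟨h, ?_⟩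
    rw [h, hd.commute.eq] at hprod
    exact mul_left_cancel hprod

private theorem P1_s {m q : ℕ} [Fact q.Prime] (e : Fin m → ZMod q) :
    ∃ s : Perm (Fin m), ∀ i, e (s i) ≠ 0 ↔ (i : ℕ) < (Finset.univ.filter fun j => e j ≠ 0).card := by
  classical
  have hle : (Finset.univ.filter fun j => e j ≠ 0).card ≤ m := by
    refine le_trans (Finset.card_le_univ _) ?_
    rw [Fintype.card_fin]
  have hcard : Fintype.card {i : Fin m // (i : ℕ) < (Finset.univ.filter fun j => e j ≠ 0).card} =
      Fintype.card {i : Fin m // e i ≠ 0} := by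
    rw [Fintype.card_subtype, Fintype.card_subtype]
    generalize (Finset.univ.filter fun j => e j ≠ 0).card = w at hle
    rw [Fin.card_filter_val_lt]
    omega
  let E := Fintype.equivOfCardEq hcard
  refine ⟨E.extendSubtype, fun i => ⟨fun h => ?_, fun h => ?_⟩⟩
  · by_contra hn
    exact Equiv.extendSubtype_not_mem E i hn h
  · exact Equiv.extendSubtype_mem E i h

private theorem P1_val {m : ℕ} [NeZero m] (n : ℕ) : ((n • (1 : Fin m) : Fin m) : ℕ) = n % m := by
  induction n with
  | zero => simp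
  | succ n ih => rw [succ_nsmul, Fin.val_add, ih, Fin.val_one', ← Nat.add_mod]

/-- MOVE P, the main step. PROOF. Embed `Fin m × ZMod q` in `Fin k` (`q * m ≤ k`) such that `z`, `z'` become the translations `tr (Pi.single 0 1)`, `tr (Pi.single 1 1)` (or: the images of these two translations are disjoint `q`-cycles, their product is
conjugate to `z * z'`; the cycle factors of the product are the two, so up to exchange `z, z'` are the conjugates; the claim is symmetric in `z, z'` and invariant under conjugation). Suppose the claim fails for `u`: `EV` with `A = Fin m → ZMod q`, `τ = tr` (followed by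
the embedding), `a₀ = Pi.single 0 1`, `a₁ = Pi.single 1 1` gives `v, χ`. `e i = χ (Pi.single i 1)`, `e 0 = 1`, `e 1 ≠ 0`; `w` = the number of `i` with `e i ≠ 0`. `pat` gives `E`. `s : Perm (Fin m)` with `e (s i) ≠ 0 ↔ i < w`. `c i = E i / e (s i)` for `i < w`, `c i = 1`
otherwise; so `χ (Pi.single (s i) (c i)) = E i`. `exists_wr` for `s, c`, `core`: `g` (of cycle type `{q * m}`) has a nonzero fixed vector. -/
theorem P1 (hp : p.Prime) (hU : ∀ u : U, p • u = 0) {q m : ℕ} (hq : q.Prime) (h3 : 3 ≤ q) (hqp : q ≠ p) (hm : 2 ≤ m)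
    (hqm : ¬ (q = 3 ∧ m = 3)) (hk : q * m ≤ k) (hF : ¬ FxT ρ {q * m}) (z z' : Perm (Fin k)) (hz : z.cycleType = {q})
    (hz' : z'.cycleType = {q}) (hd : Perm.Disjoint z z') (u : U) : ρ z (ρ z' u) + u = ρ z u + ρ z' u := by
  classical
  have : Fact q.Prime := ⟨hq⟩
  have : NeZero m := ⟨by omega⟩
  obtain ⟨Φ, hΦ, hΦd⟩ := P1_emb (m := m) hk
  have h01 : (0 : Fin m) ≠ 1 := by
    intro h
    have h1 := congrArg Fin.val h
    rw [Fin.val_one', Fin.val_zero, Nat.mod_eq_of_lt (by omega)] at h1
    omega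
  obtain ⟨τ, hτ⟩ : ∃ τ : Multiplicative (Fin m → ZMod q) →* Perm (Fin k),
      ∀ a, τ a = Φ (tr m q a) := ⟨Φ.comp (tr m q), fun _ => rfl⟩
  have hA : ∀ a : Fin m → ZMod q, q • a = 0 := by
    intro a
    funext i
    simp
  have key : ∀ w : U, ρ (τ (Multiplicative.ofAdd (Pi.single 0 1)))
      (ρ (τ (Multiplicative.ofAdd (Pi.single 1 1))) w) + w =
      ρ (τ (Multiplicative.ofAdd (Pi.single 0 1))) w +
        ρ (τ (Multiplicative.ofAdd (Pi.single 1 1))) w := by
    intro w
    by_contra hw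
    obtain ⟨v, χ, hv, hχ0, hχ1, h1, h2⟩ := EV ρ hp hU hq hqp hA τ (Pi.single 0 1) (Pi.single 1 1) w hw
    have hχ : ∀ (j : Fin m) (x : ZMod q), χ (Pi.single j x) = x * χ (Pi.single j 1) := by
      intro j x
      have h4 : (Pi.single j x : Fin m → ZMod q) = x.val • Pi.single j 1 := by
        rw [← Pi.single_smul]
        simp
      rw [h4, map_nsmul, nsmul_eq_mul, ZMod.natCast_zmod_val]
    obtain ⟨e, he⟩ : ∃ e : Fin m → ZMod q, ∀ i, e i = χ (Pi.single i 1) := ⟨_, fun _ => rfl⟩
    obtain ⟨s, hs⟩ := P1_s e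
    have hw2 : 2 ≤ (Finset.univ.filter fun j => e j ≠ 0).card := by
      have h5 : ({0, 1} : Finset (Fin m)) ⊆ Finset.univ.filter fun j => e j ≠ 0 := by
        intro j hj
        simp only [Finset.mem_insert, Finset.mem_singleton] at hj
        simp only [Finset.mem_filter, Finset.mem_univ, true_and]
        rcases hj with rfl | rfl
        · rw [he, hχ0]
          exact one_ne_zero
        · rw [he]
          exact hχ1
      have h6 := Finset.card_le_card h5
      rwa [Finset.card_pair h01] at h6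
    have hwm : (Finset.univ.filter fun j => e j ≠ 0).card ≤ m := by
      refine le_trans (Finset.card_le_univ _) ?_
      rw [Fintype.card_fin]
    obtain ⟨E, hE1, hE2, hE3⟩ := pat h3 hm hqm hw2 hwm
    obtain ⟨c, hc⟩ : ∃ c : Fin m → ZMod q, ∀ i, c i =
        if (i : ℕ) < (Finset.univ.filter fun j => e j ≠ 0).card then E i / e (s i) else 1 :=
      ⟨_, fun _ => rfl⟩
    have hc0 : ∀ i, c i ≠ 0 := by
      intro i
      rw [hc]
      split_ifs with hi
      · exact div_ne_zero ((hE1 i i.2).mpr hi) ((hs i).mpr hi)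
      · exact one_ne_zero
    have hcE : ∀ i : Fin m, χ (Pi.single (s i) (c i)) = E i := by
      intro i
      rw [hχ, ← he, hc]
      split_ifs with hi
      · exact div_mul_cancel₀ _ ((hs i).mpr hi)
      · have h5 : e (s i) = 0 := by
          by_contra h6
          exact hi ((hs i).mp h6)
        have h6 : E i = 0 := by
          by_contra h7
          exact hi ((hE1 i i.2).mp h7)
        rw [h5, h6, mul_zero]
    obtain ⟨g, α, hg1, hg2, hg3, hg4⟩ := exists_wr m q hm s c hc0
    have hiter : ∀ (n : ℕ) (t : Fin m), (α.symm^[n]) (Pi.single (s t) (c t)) =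
        Pi.single (s (t - n • 1)) (c (t - n • 1)) := by
      intro n
      induction n with
      | zero => intro t; simp
      | succ n ih =>
        intro t
        rw [Function.iterate_succ_apply', ih, hg4, succ_nsmul, sub_sub]
    have hfx : Fx ρ {Φ g} := by
      refine core ρ hp hU hq hqp hA τ (Pi.single 0 1) χ hχ0 v hv h1 h2 (Φ g) α ?_ m (by omega)
        (fun j => c (s.symm j)) ?_ ?_ ?_
      · intro a
        rw [hτ, hτ, ← map_mul, ← map_mul, hg2]
      · rw [hτ, ← map_pow, hg3]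
      · have h5 : (fun j => c (s.symm j)) = ∑ i, Pi.single (s i) (c i) := by
          rw [← Finset.univ_sum_single (fun j => c (s.symm j))]
          rw [← Equiv.sum_comp s]
          simp
        rw [h5, map_sum, Finset.sum_congr rfl fun i _ => hcE i]
        rw [Fin.sum_univ_eq_sum_range (fun i => E i) m]
        exact hE2
      · intro i hi0 him
        obtain ⟨a, ham, haE⟩ := hE3 i hi0 him
        refine ⟨Pi.single (s (⟨a, ham⟩ + i • 1)) (c (⟨a, ham⟩ + i • 1)), ?_⟩
        rw [hiter, add_sub_cancel_right, hcE, hcE, Fin.val_add, P1_val, Nat.mod_eq_of_lt him]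
        exact fun h => haE h.symm
    obtain ⟨v', hv', hfix⟩ := hfx
    exact hF ⟨Φ g, by rw [hΦ, hg1], v', hv', hfix _ rfl⟩
  have hy : (τ (Multiplicative.ofAdd (Pi.single 0 1))).cycleType = {q} := by
    rw [hτ, hΦ, P1_cyc]
  have hy' : (τ (Multiplicative.ofAdd (Pi.single 1 1))).cycleType = {q} := by
    rw [hτ, hΦ, P1_cyc]
  have hyd : Perm.Disjoint (τ (Multiplicative.ofAdd (Pi.single 0 1)))
      (τ (Multiplicative.ofAdd (Pi.single 1 1))) := by
    rw [hτ, hτ]
    exact hΦd _ _ (P1_dis h01)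
  obtain ⟨g, hg⟩ := P1_conj hy hy' hyd hz hz' hd
  have hkey : ∀ (w : U), ρ (g * τ (Multiplicative.ofAdd (Pi.single 0 1)) * g⁻¹)
      (ρ (g * τ (Multiplicative.ofAdd (Pi.single 1 1)) * g⁻¹) w) + w =
      ρ (g * τ (Multiplicative.ofAdd (Pi.single 0 1)) * g⁻¹) w +
        ρ (g * τ (Multiplicative.ofAdd (Pi.single 1 1)) * g⁻¹) w := by
    intro w
    have hgg : ∀ x : U, ρ g⁻¹ (ρ g x) = x := by
      intro x
      have h5 : ρ (g⁻¹ * g) x = x := by
        rw [inv_mul_cancel, map_one]
        rfl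
      rw [map_mul] at h5
      exact h5
    have hgg' : ∀ x : U, ρ g (ρ g⁻¹ x) = x := by
      intro x
      have h5 : ρ (g * g⁻¹) x = x := by
        rw [mul_inv_cancel, map_one]
        rfl
      rw [map_mul] at h5
      exact h5
    have h5 := congrArg (ρ g) (key (ρ g⁻¹ w))
    rw [map_add, map_add, hgg'] at h5
    have h6 : ∀ (t : Perm (Fin k)) (x : U), ρ (g * t * g⁻¹) x = ρ g (ρ t (ρ g⁻¹ x)) := by
      intro t x
      rw [map_mul, map_mul]
      rfl
    rw [h6, h6, h6, hgg]
    exact h5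
  rcases hg with ⟨h5, h6⟩ | ⟨h5, h6⟩
  · rw [← h5, ← h6]
    exact hkey u
  · have h7 := hkey u
    rw [h5, h6] at h7
    have h8 : ρ z (ρ z' u) = ρ z' (ρ z u) := by
      have h9 : ρ (z * z') u = ρ (z' * z) u := by rw [hd.commute.eq]
      rw [map_mul, map_mul] at h9
      exact h9
    rw [h8, h7, add_comm]
-- END P1

/-- MOVE P. -/
theorem mP (hp : p.Prime) (hU : ∀ u : U, p • u = 0) {b : ℕ} (hb : Pm b p) (hk : b ≤ k) : FxT ρ {b} ∨ Small ρ := by
  obtain ⟨q, m, hq, h3, hqp, hm, hqm, rfl⟩ := hb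
  by_cases h : FxT ρ {q * m}
  · exact Or.inl h
  · right
    have hq2 : q % 2 = 1 := by
      rcases hq.eq_two_or_odd with h | h
      · omega
      · exact h
    refine small1 ρ hq2 h3 (le_trans ?_ hk) fun z z' hz hz' hd u => P1 hp hU hq h3 hqp hm hqm hk h z z' hz hz' hd u
    rw [mul_comm]
    exact Nat.mul_le_mul_left q hm

-- BEGIN mS
private theorem mS_par : ∀ l : List ℕ, (∀ x ∈ l, x % 2 = 1) → (l.sum + l.length) % 2 = 0
  | [], _ => rfl
  | a :: l, hl => by
    have h1 := hl a (by simp)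
    have h2 := mS_par l fun x hx => hl x (by simp [hx])
    simp only [List.sum_cons, List.length_cons]
    omega

private theorem mS_lcm {p : ℕ} (hp : p.Prime) : ∀ l : List ℕ, (∀ x ∈ l, ¬ p ∣ x) → ¬ p ∣ (l : Multiset ℕ).lcm
  | [], _ => by
    simpa using hp.one_lt.ne'
  | a :: l, hl => by
    rw [← Multiset.cons_coe, Multiset.lcm_cons]
    intro h
    rcases (hp.dvd_mul).1 (h.trans (lcm_dvd_mul a _)) with h1 | h1
    · exact hl a (by simp) h1
    · exact mS_lcm hp l (fun x hx => hl x (by simp [hx])) h1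

private theorem mS_even {k : ℕ} (σ : Perm (Fin k)) (l : List ℕ) (h : σ.cycleType = (l : Multiset ℕ)) (hl : ∀ x ∈ l, x % 2 = 1) :
    Perm.sign σ = 1 := by
  rw [Perm.sign_of_cycleType, h]
  have key := mS_par l hl
  simp only [Multiset.sum_coe, Multiset.coe_card]
  exact Even.neg_one_pow (Nat.even_iff.2 key)

/-- PROOF. `ν = x :: ν'`; choose `σ` with the cycle type `ν` (`Equiv.Perm.exists_with_cycleType_iff`), a fixed point `w` (`ν.sum + 1 ≤ k`); write `σ = s * t`, `s` a cycle of length `x`, `t` of cycle type `ν'`, disjoint (for instance by `Equiv.Perm.cycleFactorsFinset`,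
or take `s`, then `exists_phi s` for `t`). `s`, `t` are even (odd lengths), `≠ 1`, of order prime to `p`. `SM`: a common fixed vector, fixed by `s * t`. -/
theorem mS (hp : p.Prime) (hU : ∀ u : U, p • u = 0) (hne : ∃ u : U, u ≠ 0) (h : Small ρ) (ν : List ℕ) (h2 : 2 ≤ ν.length)
    (hν : ∀ x ∈ ν, x % 2 = 1 ∧ 3 ≤ x ∧ ¬ p ∣ x) (hs : ν.sum + 1 ≤ k) : FxT ρ (ν : Multiset ℕ) := by
  classical
  obtain ⟨x, ν', rfl⟩ : ∃ x ν', ν = x :: ν' := by
    cases ν with
    | nil => simp at h2
    | cons x ν' => exact ⟨x, ν', rfl⟩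
  have hx := hν x (by simp)
  have hν' : ∀ y ∈ ν', y % 2 = 1 ∧ 3 ≤ y ∧ ¬ p ∣ y := fun y hy => hν y (by simp [hy])
  have hl' : 1 ≤ ν'.length := by simpa using h2
  rw [List.sum_cons] at hs
  obtain ⟨s, hsc⟩ : ∃ s : Perm (Fin k), s.cycleType = (([x] : List ℕ) : Multiset ℕ) := by
    refine (Perm.exists_with_cycleType_iff (Fin k)).2 ⟨?_, fun a ha => ?_⟩
    · simp only [Fintype.card_fin, Multiset.sum_coe, List.sum_cons, List.sum_nil]; omega
    · have : a = x := by simpa using ha
      omega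
  obtain ⟨φ, hφ⟩ := exists_phi (k := k - x) s (by
    rw [hsc]; simp only [Multiset.sum_coe, List.sum_cons, List.sum_nil]; omega)
  obtain ⟨τ, hτ⟩ : ∃ τ : Perm (Fin (k - x)), τ.cycleType = (ν' : Multiset ℕ) := by
    refine (Perm.exists_with_cycleType_iff (Fin (k - x))).2 ⟨?_, fun a ha => ?_⟩
    · simp only [Fintype.card_fin, Multiset.sum_coe]; omega
    · have := (hν' a (by simpa using ha)).2.1
      omega
  have htc : (φ τ).cycleType = (ν' : Multiset ℕ) := (hφ τ).1.trans hτ
  have hd : Perm.Disjoint s (φ τ) := (hφ τ).2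
  obtain ⟨w, hw⟩ : ∃ w : Fin k, w ∉ s.support ∪ (φ τ).support := by
    by_contra hcon
    push Not at hcon
    have h1 : (s.support ∪ (φ τ).support).card = k := by
      rw [Finset.eq_univ_iff_forall.2 hcon, Finset.card_univ, Fintype.card_fin]
    have h3 : (s.support ∪ (φ τ).support).card ≤ s.support.card + (φ τ).support.card :=
      Finset.card_union_le _ _
    rw [← Perm.sum_cycleType s, ← Perm.sum_cycleType (φ τ), hsc, htc] at h3
    simp only [Multiset.sum_coe, List.sum_cons, List.sum_nil] at h3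
    omega
  rw [Finset.mem_union, not_or, Perm.notMem_support, Perm.notMem_support] at hw
  obtain ⟨u, hu0, hu1, hu2⟩ := SM ρ hp hU hne h s (φ τ) hd
    (mS_even s [x] hsc fun y hy => by rw [List.mem_singleton.1 hy]; exact hx.1)
    (mS_even (φ τ) ν' htc fun y hy => (hν' y hy).1)
    (fun h0 => by rw [h0, Perm.cycleType_one] at hsc; simp at hsc)
    (fun h0 => by
      rw [h0, Perm.cycleType_one] at htc
      have h4 := congrArg Multiset.card htc
      simp only [Multiset.card_zero, Multiset.coe_card] at h4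
      omega)
    (by
      rw [← Perm.lcm_cycleType, hsc]
      exact mS_lcm hp [x] fun y hy => by rw [List.mem_singleton.1 hy]; exact hx.2.2)
    (by
      rw [← Perm.lcm_cycleType, htc]
      exact mS_lcm hp ν' fun y hy => (hν' y hy).2.2) w hw.1 hw.2
  refine ⟨s * φ τ, ?_, u, hu0, ?_⟩
  · rw [hd.cycleType_mul, hsc, htc, Multiset.coe_add]
    rfl
  · rw [map_mul]
    show ρ s (ρ (φ τ) u) = u
    rw [hu2, hu1]
-- END mS

/-- Small modules or trivial action of the even permutations: the types of `Ev` are fixed. -/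
theorem mE (hp : p.Prime) (hU : ∀ u : U, p • u = 0) (hne : ∃ u : U, u ≠ 0) (h : Small ρ ∨ AltFx ρ) (ν : List ℕ)
    (h2 : 2 ≤ ν.length) (hν : ∀ x ∈ ν, x % 2 = 1 ∧ 3 ≤ x ∧ ¬ p ∣ x) (hs : ν.sum + 1 ≤ k) : FxT ρ (ν : Multiset ℕ) := by
  rcases h with h | h
  · exact mS hp hU hne h ν h2 hν hs
  · obtain ⟨σ, hσ⟩ : ∃ σ : Perm (Fin k), σ.cycleType = (ν : Multiset ℕ) := by
      refine (Perm.exists_with_cycleType_iff (Fin k)).2 ⟨?_, fun a ha => ?_⟩
      · simp only [Fintype.card_fin, Multiset.sum_coe]; omega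
      · have := (hν a (by simpa using ha)).2.1
        omega
    rw [← hσ]
    refine h σ ?_
    rw [Perm.sign_of_cycleType, hσ]
    have key : ∀ l : List ℕ, (∀ x ∈ l, x % 2 = 1) → (l.sum + l.length) % 2 = 0 := by
      intro l
      induction l with
      | nil => intro _; rfl
      | cons a l ih =>
          intro hl
          have h1 := hl a (by simp)
          have h2 := ih fun x hx => hl x (by simp [hx])
          simp only [List.sum_cons, List.length_cons]
          omega
    have := key ν fun x hx => (hν x hx).1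
    simp only [Multiset.sum_coe, Multiset.coe_card]
    exact Even.neg_one_pow (Nat.even_iff.2 this)

end

-- BEGIN lift
/-- PROOF. `σ, v` from `h`; `φ` from `exists_phi σ`; `U` = the additive subgroup of the vectors fixed by `σ`, `ρ' τ u = ρ (φ τ) u` (`φ τ` commutes with `σ`). If `u` is fixed by `φ τ` it is fixed by `φ τ * σ`, of cycle type `ν + μ`. -/
theorem lift {n k p : ℕ} {V : Type} [AddCommGroup V] {ρ : Perm (Fin n) →* AddMonoid.End V} (hV : ∀ v : V, p • v = 0)
    {μ : Multiset ℕ} (h : FxT ρ μ) (hk : μ.sum + k ≤ n) :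
    ∃ (U : Type) (_ : AddCommGroup U) (ρ' : Perm (Fin k) →* AddMonoid.End U), (∀ u : U, p • u = 0) ∧ (∃ u : U, u ≠ 0) ∧
      ∀ ν : Multiset ℕ, FxT ρ' ν → FxT ρ (ν + μ) := by
  obtain ⟨σ, hσ, v, hv, hfix⟩ := h
  obtain ⟨φ, hφ⟩ := exists_phi (k := k) σ (by rw [hσ]; exact hk)
  let W : AddSubgroup V :=
    { carrier := {u | ρ σ u = u}
      add_mem' := fun {a b} ha hb => by
        show ρ σ (a + b) = a + b
        rw [map_add, show ρ σ a = a from ha, show ρ σ b = b from hb]
      zero_mem' := map_zero _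
      neg_mem' := fun {a} ha => by
        show ρ σ (-a) = -a
        rw [map_neg, show ρ σ a = a from ha] }
  have hW : ∀ u : V, u ∈ W ↔ ρ σ u = u := fun u => Iff.rfl
  have hst : ∀ (τ : Perm (Fin k)) (u : V), u ∈ W → ρ (φ τ) u ∈ W := by
    intro τ u hu
    rw [hW] at hu ⊢
    have hc : σ * φ τ = φ τ * σ := (hφ τ).2.commute
    calc ρ σ (ρ (φ τ) u) = ρ (σ * φ τ) u := by rw [map_mul]; rfl
      _ = ρ (φ τ) (ρ σ u) := by rw [hc, map_mul]; rfl
      _ = ρ (φ τ) u := by rw [hu]
  let ρ' : Perm (Fin k) →* AddMonoid.End W :=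
    { toFun := fun τ =>
        { toFun := fun u => ⟨ρ (φ τ) u, hst τ u u.2⟩
          map_zero' := Subtype.ext (map_zero _)
          map_add' := fun a b => Subtype.ext (map_add _ _ _) }
      map_one' := by
        refine AddMonoidHom.ext fun u => Subtype.ext ?_
        show ρ (φ 1) (u : V) = u
        rw [map_one, map_one]
        rfl
      map_mul' := fun a b => by
        refine AddMonoidHom.ext fun u => Subtype.ext ?_
        show ρ (φ (a * b)) (u : V) = ρ (φ a) (ρ (φ b) (u : V))
        rw [map_mul, map_mul]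
        rfl }
  refine ⟨W, inferInstance, ρ', fun u => Subtype.ext (hV u), ⟨⟨v, hfix⟩, fun h0 => hv (congrArg Subtype.val h0)⟩, ?_⟩
  rintro ν ⟨τ, hτ, u, hu, hfu⟩
  refine ⟨φ τ * σ, ?_, u, fun h0 => hu (Subtype.ext h0), ?_⟩
  · rw [Perm.Disjoint.cycleType_mul (hφ τ).2.symm, (hφ τ).1, hτ, hσ]
  · have h1 : ρ (φ τ) (u : V) = u := congrArg Subtype.val hfu
    have h2 : ρ σ (u : V) = u := u.2
    rw [map_mul]
    show ρ (φ τ) (ρ σ (u : V)) = u
    rw [h2, h1]
-- END lift

section

variable {n : ℕ} {V : Type} [AddCommGroup V] {ρ : Perm (Fin n) →* AddMonoid.End V} {p : ℕ}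

theorem RD (hD : DoFree ρ p) {f : ℕ} (l : List ℕ) (hf : f ≤ 1) (hl : Do n f l) (hp : ∀ a ∈ l, ¬ p ∣ a) {μ : Multiset ℕ}
    (hμ : μ = (l : Multiset ℕ)) : ¬ FxT ρ μ := by
  rintro ⟨σ, hσ, v, hv, hf'⟩
  exact hv (hD f l hf hl hp σ (hσ.trans hμ) v hf')

-- BEGIN RE
/-- PROOF. As `NbS.RC`: take `s` with the cycle type `l`, it is free (`hE`), `s ^ p ^ e` is free (`free_pow`) and has the cycle type `pw (p ^ e) l` (`ct_pow`); a permutation with the same cycle type is conjugate. -/
theorem RE (hp : p.Prime) (hV : ∀ v : V, p • v = 0) (hE : EgFree ρ) {f : ℕ} (l : List ℕ) (e q r : ℕ) (hf : f ≤ 1)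
    (hl : Cp n f l) (hqr : ∀ a ∈ l, ∀ t : ℕ, t.Prime → t ∣ a → t = 2 ∨ t = q ∨ t = r) {μ : Multiset ℕ}
    (hμ : μ = pw (p ^ e) (l : Multiset ℕ)) : ¬ FxT ρ μ := by
  rintro ⟨σ, hσ, v, hv, hfix⟩
  obtain ⟨s, hs⟩ := (Equiv.Perm.exists_with_cycleType_iff (α := Fin n) (m := (l : Multiset ℕ))).mpr
    ⟨by
      have h1 := hl.sum
      rw [Multiset.sum_coe, Fintype.card_fin]
      omega, fun a ha => hl.two a (Multiset.mem_coe.mp ha)⟩
  have hfree := free_pow ρ hp hV s (hE f l q r hf hl hqr s hs) e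
  have hct : σ.cycleType = (s ^ p ^ e).cycleType := by rw [hσ, hμ, ct_pow, hs]
  obtain ⟨g, hg⟩ := isConj_iff.mp (Equiv.Perm.isConj_iff_cycleType_eq.mpr hct)
  have hgg : ∀ w : V, ρ g⁻¹ (ρ g w) = w := by
    intro w
    have h1 : (ρ g⁻¹ * ρ g) w = w := by
      rw [← map_mul, inv_mul_cancel, map_one]
      rfl
    exact h1
  have h1 : ρ g v = 0 := by
    apply hfree
    rw [← hg, map_mul, map_mul]
    show ρ g (ρ σ (ρ g⁻¹ (ρ g v))) = ρ g v
    rw [hgg, hfix]
  apply hv
  rw [← hgg v, h1, map_zero]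
-- END RE

/-- The main scheme. -/
theorem noDo_of_gd (hp : p.Prime) (h2 : p ≠ 2) (hg : Gd n p) : NoDo n p := by
  intro V _ ρ hV hD v
  by_contra hv
  obtain ⟨⟨ν, hν2, hνd, hνx, hνs⟩, hg⟩ := hg
  have hne : ∃ v : V, v ≠ 0 := ⟨v, hv⟩
  have hdo : Do n 1 ν := by
    refine ⟨hνd, fun a ha => by have := (hνx a ha).2.1; omega, ?_, hνs⟩
    have : ν.filter (fun a => a % 2 = 0) = [] := by
      rw [List.filter_eq_nil_iff]
      intro a ha
      have := (hνx a ha).1
      simp [this]
    rw [this]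
    simp
  have hE : ¬ (Small ρ ∨ AltFx ρ) := fun h =>
    RD hD ν le_rfl hdo (fun a ha => (hνx a ha).2.2) rfl (mE hp hV hne h ν hν2 hνx (by omega))
  have hb0 : ∀ b, Pm b p → b ≤ n → FxT ρ {b} := fun b hb hbn => (mP hp hV hb hbn).resolve_right fun h => hE (Or.inl h)
  have hb6 : ∀ b, Pm b p → 6 ≤ b := by
    rintro b ⟨q, m, -, h3, -, hm, -, rfl⟩
    calc 6 = 3 * 2 := rfl
      _ ≤ q * m := Nat.mul_le_mul h3 hm
  rcases hg with ⟨b, hbn, hpb, hPb⟩ | ⟨a, b, ha, hb, hab, hpa, hpb, hFa, hPb, ν', hν2', hνd', hνx', hνs'⟩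
  · have h6 := hb6 b hPb
    refine RD hD (f := n - b) [b] (by omega) ⟨by simp, by simp; omega, ?_, by simp; omega⟩ (by simpa using hpb) rfl
      (hb0 b hPb (by omega))
    exact le_trans (List.length_filter_le _ _) (by simp)
  · have h6 := hb6 b hPb
    have ha2 : 2 ≤ a := by
      rcases hFa with rfl | ⟨h, -⟩ | h
      · exact le_rfl
      · omega
      · have := hb6 a h; omega
    have hfa : FxT ρ {a} := by
      rcases hFa with rfl | ⟨h4, hq, hpq⟩ | h
      · exact (mT hne).resolve_right fun h => hE (Or.inr h)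
      · have := (mM hp hV hne (a + 1) hq (by omega) hpq (by omega) (by omega) : FxT ρ {a + 1 - 1} ∨ AltFx ρ)
        exact this.resolve_right fun h => hE (Or.inr h)
      · exact hb0 a h (by omega)
    obtain ⟨U, _, ρ', hU, hneU, hl⟩ := lift (k := n - a) hV hfa (by simp; omega)
    rcases mP (ρ := ρ') hp hU hPb (by omega) with h | h
    · refine RD hD (f := n - a - b) [b, a] (by omega) ⟨?_, ?_, ?_, by simp; omega⟩ ?_ ?_ (hl _ h)
      · simp only [List.nodup_cons, List.mem_singleton, List.not_mem_nil, not_false_eq_true, List.nodup_nil, and_true]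
        omega
      · intro x hx
        simp only [List.mem_cons, List.not_mem_nil, or_false] at hx
        omega
      · have : ([b, a].filter fun a => a % 2 = 0) = [a] := by
          simp [List.filter_cons, hb, ha]
        rw [this]
        simp
      · intro x hx
        simp only [List.mem_cons, List.not_mem_nil, or_false] at hx
        rcases hx with rfl | rfl
        · exact hpb
        · exact hpa
      · rfl
    · have h1 := mE hp hU hneU (Or.inl h) ν' hν2' hνx' (by omega)
      have h2 := hl _ h1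
      refine RD hD (f := 1) (a :: ν') le_rfl ⟨?_, ?_, ?_, ?_⟩ ?_ ?_ h2
      · refine List.nodup_cons.2 ⟨fun h => ?_, hνd'⟩
        have := (hνx' a h).1
        omega
      · intro x hx
        rcases List.mem_cons.1 hx with rfl | hx
        · exact ha2
        · have := (hνx' x hx).2.1; omega
      · have : (ν'.filter fun a => a % 2 = 0) = [] := by
          rw [List.filter_eq_nil_iff]
          intro a ha
          have := (hνx' a ha).1
          simp [this]
        rw [List.filter_cons, this]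
        split <;> simp
      · simp only [List.sum_cons]; omega
      · intro x hx
        rcases List.mem_cons.1 hx with rfl | hx
        · exact hpa
        · exact (hνx' x hx).2.2
      · rw [← Multiset.cons_coe, ← Multiset.singleton_add, add_comm]

end

end Pool.Agent.NbT
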