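import Pool.Agent.NbS.Fin

/-!
# Groups with classes of distinct sizes and a symmetric quotient (MP_3a125c_al), second part: definitions
-/

set_option autoImplicit false

namespace Pool.Agent.NbT

open Equiv Pool.Agent.NbS

/-- `l` is the list of the cycle lengths `≥ 2` of a permutation of `n` points with `f` fixed points, the lengths are distinct, at most one is even. -/
structure Do (n f : ℕ) (l : List ℕ) : Prop where
  nd : l.Nodup
  two : ∀ a ∈ l, 2 ≤ a
  ev : (l.filter fun a => a % 2 = 0).length ≤ 1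
  sum : l.sum + f = n

/-- An elementary abelian `p`-quotient `V` of the kernel of `π`, with the action of `H`. -/
structure Top {G H : Type*} [Group G] [Group H] (π : G →* H) (p : ℕ) (V : Type*) [AddCommGroup V] where
  ρ : H →* AddMonoid.End V
  f : π.ker → V
  mul : ∀ a b, f (a * b) = f a + f b
  sur : Function.Surjective f
  pV : ∀ v : V, p • v = 0
  eqv : ∀ (g : G) (a b : π.ker), (b : G) = g * a * g⁻¹ → f b = ρ (π g) (f a)

section

variable {n : ℕ} {V : Type*} [AddCommGroup V]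

/-- The permutations with distinct cycle lengths prime to `p` (at most one fixed point, at most one even length) have no nonzero fixed vector. -/
def DoFree (ρ : Perm (Fin n) →* AddMonoid.End V) (p : ℕ) : Prop :=
  ∀ (f : ℕ) (l : List ℕ), f ≤ 1 → Do n f l → (∀ a ∈ l, ¬ p ∣ a) → ∀ σ : Perm (Fin n), σ.cycleType = (l : Multiset ℕ) → Free ρ σ

/-- The permutations with pairwise coprime cycle lengths, whose order has at most two odd prime divisors, have no nonzero fixed vector. -/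
def EgFree (ρ : Perm (Fin n) →* AddMonoid.End V) : Prop :=
  ∀ (f : ℕ) (l : List ℕ) (q r : ℕ), f ≤ 1 → Cp n f l → (∀ a ∈ l, ∀ t : ℕ, t.Prime → t ∣ a → t = 2 ∨ t = q ∨ t = r) →
    ∀ σ : Perm (Fin n), σ.cycleType = (l : Multiset ℕ) → Free ρ σ

/-- `(σ - 1) (τ - 1) = 0` for all disjoint even permutations. -/
def Small (ρ : Perm (Fin n) →* AddMonoid.End V) : Prop :=
  ∀ σ τ : Perm (Fin n), Perm.Disjoint σ τ → Perm.sign σ = 1 → Perm.sign τ = 1 → ∀ v : V, ρ σ (ρ τ v) + v = ρ σ v + ρ τ v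

/-- Every even permutation has a nonzero fixed vector. -/
def AltFx (ρ : Perm (Fin n) →* AddMonoid.End V) : Prop :=
  ∀ σ : Perm (Fin n), Perm.sign σ = 1 → FxT ρ σ.cycleType

end

/-- There is no nonzero `F_p S_n`-module with `DoFree`. -/
def NoDo (n p : ℕ) : Prop :=
  ∀ (V : Type) [AddCommGroup V] (ρ : Perm (Fin n) →* AddMonoid.End V), (∀ v : V, p • v = 0) → DoFree ρ p → ∀ v : V, v = 0

/-- There is no nonzero `F_p S_n`-module with `DoFree` and `EgFree`. -/
def NoOdd (n p : ℕ) : Prop :=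
  ∀ (V : Type) [AddCommGroup V] (ρ : Perm (Fin n) →* AddMonoid.End V), (∀ v : V, p • v = 0) → DoFree ρ p → EgFree ρ → ∀ v : V, v = 0

/-- The translations of `Fin m × ZMod q`. -/
def tr (m q : ℕ) : Multiplicative (Fin m → ZMod q) →* Perm (Fin m × ZMod q) where
  toFun a :=
    { toFun := fun x => (x.1, x.2 + a.toAdd x.1)
      invFun := fun x => (x.1, x.2 - a.toAdd x.1)
      left_inv := fun x => by simp
      right_inv := fun x => by simp }
  map_one' := by ext x <;> simp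
  map_mul' a b := by
    refine Equiv.ext fun x => Prod.ext rfl ?_
    simp only [toAdd_mul, Pi.add_apply, Equiv.coe_fn_mk, Perm.coe_mul, Function.comp_apply]
    rw [add_assoc, add_comm (a.toAdd x.1)]

/-- `m` is a sum of at least two distinct odd numbers `≥ 3` prime to `p`, and `1`. -/
def Ev (m p : ℕ) : Prop :=
  ∃ ν : List ℕ, 2 ≤ ν.length ∧ ν.Nodup ∧ (∀ x ∈ ν, x % 2 = 1 ∧ 3 ≤ x ∧ ¬ p ∣ x) ∧ ν.sum + 1 = m

/-- The condition for the move `P`. -/
def Pm (b p : ℕ) : Prop :=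
  ∃ q m : ℕ, q.Prime ∧ 3 ≤ q ∧ q ≠ p ∧ 2 ≤ m ∧ ¬ (q = 3 ∧ m = 3) ∧ b = q * m

/-- Length which can be added in the first step. -/
def Fs (a p : ℕ) : Prop := a = 2 ∨ (4 ≤ a ∧ IsPrimePow (a + 1) ∧ ¬ p ∣ a + 1) ∨ Pm a p

/-- The numerical certificate. -/
def Gd (n p : ℕ) : Prop :=
  Ev n p ∧ ((∃ b, (b = n ∨ b + 1 = n) ∧ ¬ p ∣ b ∧ Pm b p) ∨
    ∃ a b, a % 2 = 0 ∧ b % 2 = 1 ∧ (a + b = n ∨ a + b + 1 = n) ∧ ¬ p ∣ a ∧ ¬ p ∣ b ∧ Fs a p ∧ Pm b p ∧ Ev (n - a) p)

end Pool.Agent.NbT
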