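import Pool.Agent.NbT.Sml

/-!
# Degrees with `NoDo`
-/

set_option autoImplicit false
set_option linter.unusedVariables false

namespace Pool.Agent.NbT

open Equiv Pool.Agent.NbS

theorem nd8_3 : NoDo 8 3 := by
  intro V _ ρ hV hD v
  by_contra hv
  have hne : ∃ v : V, v ≠ 0 := ⟨v, hv⟩
  have h0 : FxT ρ 0 := R0 hv
  have hp : Nat.Prime 3 := by norm_num
  rcases mM (ρ := ρ) hp hV hne 8 (by rw [show (8 : ℕ) = 2 ^ 3 by norm_num]; exact (Nat.Prime.isPrimePow (by norm_num)).pow (by norm_num)) (by norm_num) (by decide) (by norm_num) (by norm_num) with h1 | h1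
  · exact RD hD (f := 1) [7] (by decide) ⟨by decide, by decide, by decide, by decide⟩ (by decide) (by decide) h1
  · have h3 := (altfx h1 ({7} : Multiset ℕ) (by decide) (by decide) (by decide))
    exact RD hD (f := 1) [7] (by decide) ⟨by decide, by decide, by decide, by decide⟩ (by decide) (by decide) h3

theorem nd8_5 : NoDo 8 5 := by
  intro V _ ρ hV hD v
  by_contra hv
  have hne : ∃ v : V, v ≠ 0 := ⟨v, hv⟩
  have h0 : FxT ρ 0 := R0 hv
  have hp : Nat.Prime 5 := by norm_num
  rcases mM (ρ := ρ) hp hV hne 8 (by rw [show (8 : ℕ) = 2 ^ 3 by norm_num]; exact (Nat.Prime.isPrimePow (by norm_num)).pow (by norm_num)) (by norm_num) (by decide) (by norm_num) (by norm_num) with h1 | h1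
  · exact RD hD (f := 1) [7] (by decide) ⟨by decide, by decide, by decide, by decide⟩ (by decide) (by decide) h1
  · have h3 := (altfx h1 ({7} : Multiset ℕ) (by decide) (by decide) (by decide))
    exact RD hD (f := 1) [7] (by decide) ⟨by decide, by decide, by decide, by decide⟩ (by decide) (by decide) h3

theorem nd8_7 : NoDo 8 7 := by
  intro V _ ρ hV hD v
  by_contra hv
  have hne : ∃ v : V, v ≠ 0 := ⟨v, hv⟩
  have h0 : FxT ρ 0 := R0 hv
  have hp : Nat.Prime 7 := by norm_num
  rcases mM (ρ := ρ) hp hV hne 4 (by rw [show (4 : ℕ) = 2 ^ 2 by norm_num]; exact (Nat.Prime.isPrimePow (by norm_num)).pow (by norm_num)) (by norm_num) (by decide) (by norm_num) (by norm_num) with h1 | h1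
  · obtain ⟨U, _, ρ', hU, hneU, hl⟩ := lift (k := 5) hV h1 (by decide)
    rcases mM (ρ := ρ') hp hU hneU 5 (Nat.Prime.isPrimePow (by norm_num)) (by norm_num) (by decide) (by norm_num) (by norm_num) with h1 | h1
    · have h2 := hl _ h1
      exact RD hD (f := 1) [4, 3] (by decide) ⟨by decide, by decide, by decide, by decide⟩ (by decide) (by decide) h2
    · have h3 := (hl _ (altfx h1 ({5} : Multiset ℕ) (by decide) (by decide) (by decide)))
      exact RD hD (f := 0) [5, 3] (by decide) ⟨by decide, by decide, by decide, by decide⟩ (by decide) (by decide) h3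
  · have h3 := (altfx h1 ({5, 3} : Multiset ℕ) (by decide) (by decide) (by decide))
    exact RD hD (f := 0) [5, 3] (by decide) ⟨by decide, by decide, by decide, by decide⟩ (by decide) (by decide) h3

theorem nd8 {p : ℕ} (hp : p.Prime) (h2 : p ≠ 2) : NoDo 8 p := by
  by_cases h3 : p = 3
  · rw [h3]; exact nd8_3
  by_cases h5 : p = 5
  · rw [h5]; exact nd8_5
  by_cases h7 : p = 7
  · rw [h7]; exact nd8_7
  have d2 : ¬ p ∣ 2 := ndv1 hp (by norm_num) h2
  have d3 : ¬ p ∣ 3 := ndv1 hp (by norm_num) h3
  have d5 : ¬ p ∣ 5 := ndv1 hp (by norm_num) h5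
  have d7 : ¬ p ∣ 7 := ndv1 hp (by norm_num) h7
  have e3 : ¬ p ∣ 3 := d3
  have e5 : ¬ p ∣ 5 := d5
  have e7 : ¬ p ∣ 7 := d7
  have e8 : ¬ p ∣ 8 := (ndvm hp (ndvm hp d2 d2) d2)
  intro V _ ρ hV hD v
  by_contra hv
  have hne : ∃ v : V, v ≠ 0 := ⟨v, hv⟩
  have h0 : FxT ρ 0 := R0 hv
  rcases mM (ρ := ρ) hp hV hne 8 (by rw [show (8 : ℕ) = 2 ^ 3 by norm_num]; exact (Nat.Prime.isPrimePow (by norm_num)).pow (by norm_num)) (by norm_num) e8 (by norm_num) (by norm_num) with h1 | h1
  · exact RD hD (f := 1) [7] (by decide) ⟨by decide, by decide, by decide, by decide⟩ (by intro x hx; simp only [List.mem_cons, List.not_mem_nil, or_false] at hx; rcases hx with rfl <;> assumption) (by decide) h1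
  · have h3 := (altfx h1 ({5, 3} : Multiset ℕ) (by decide) (by decide) (by decide))
    exact RD hD (f := 0) [5, 3] (by decide) ⟨by decide, by decide, by decide, by decide⟩ (by intro x hx; simp only [List.mem_cons, List.not_mem_nil, or_false] at hx; rcases hx with rfl | rfl <;> assumption) (by decide) h3

theorem nd11_5 : NoDo 11 5 := by
  intro V _ ρ hV hD v
  by_contra hv
  have hne : ∃ v : V, v ≠ 0 := ⟨v, hv⟩
  have h0 : FxT ρ 0 := R0 hv
  have hp : Nat.Prime 5 := by norm_num
  rcases mM (ρ := ρ) hp hV hne 4 (by rw [show (4 : ℕ) = 2 ^ 2 by norm_num]; exact (Nat.Prime.isPrimePow (by norm_num)).pow (by norm_num)) (by norm_num) (by decide) (by norm_num) (by norm_num) with h1 | h1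
  · obtain ⟨U, _, ρ', hU, hneU, hl⟩ := lift (k := 8) hV h1 (by decide)
    rcases mM (ρ := ρ') hp hU hneU 8 (by rw [show (8 : ℕ) = 2 ^ 3 by norm_num]; exact (Nat.Prime.isPrimePow (by norm_num)).pow (by norm_num)) (by norm_num) (by decide) (by norm_num) (by norm_num) with h1 | h1
    · have h2 := hl _ h1
      exact RD hD (f := 1) [7, 3] (by decide) ⟨by decide, by decide, by decide, by decide⟩ (by decide) (by decide) h2
    · have h3 := (hl _ (altfx h1 ({7} : Multiset ℕ) (by decide) (by decide) (by decide)))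
      exact RD hD (f := 1) [7, 3] (by decide) ⟨by decide, by decide, by decide, by decide⟩ (by decide) (by decide) h3
  · have h3 := (altfx h1 ({11} : Multiset ℕ) (by decide) (by decide) (by decide))
    exact RD hD (f := 0) [11] (by decide) ⟨by decide, by decide, by decide, by decide⟩ (by decide) (by decide) h3

theorem nd11_11 : NoDo 11 11 := by
  intro V _ ρ hV hD v
  by_contra hv
  have hne : ∃ v : V, v ≠ 0 := ⟨v, hv⟩
  have h0 : FxT ρ 0 := R0 hv
  have hp : Nat.Prime 11 := by norm_num
  rcases mP (ρ := ρ) hp hV (b := 10) ⟨5, 2, by norm_num, by norm_num, (by decide), by norm_num, by norm_num, by norm_num⟩ (by norm_num) with h1 | h1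
  · exact RD hD (f := 1) [10] (by decide) ⟨by decide, by decide, by decide, by decide⟩ (by decide) (by decide) h1
  · have h3 := (mS hp hV hne h1 [7, 3] (by decide) (by decide) (by decide))
    exact RD hD (f := 1) [7, 3] (by decide) ⟨by decide, by decide, by decide, by decide⟩ (by decide) (by decide) h3

theorem nd11 {p : ℕ} (hp : p.Prime) (h2 : p ≠ 2) : NoDo 11 p := by
  by_cases h5 : p = 5
  · rw [h5]; exact nd11_5
  by_cases h11 : p = 11
  · rw [h11]; exact nd11_11
  have d2 : ¬ p ∣ 2 := ndv1 hp (by norm_num) h2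
  have d5 : ¬ p ∣ 5 := ndv1 hp (by norm_num) h5
  have d11 : ¬ p ∣ 11 := ndv1 hp (by norm_num) h11
  have e10 : ¬ p ∣ 10 := (ndvm hp d2 d5)
  have e11 : ¬ p ∣ 11 := d11
  intro V _ ρ hV hD v
  by_contra hv
  have hne : ∃ v : V, v ≠ 0 := ⟨v, hv⟩
  have h0 : FxT ρ 0 := R0 hv
  rcases mM (ρ := ρ) hp hV hne 11 (Nat.Prime.isPrimePow (by norm_num)) (by norm_num) e11 (by norm_num) (by norm_num) with h1 | h1
  · exact RD hD (f := 1) [10] (by decide) ⟨by decide, by decide, by decide, by decide⟩ (by intro x hx; simp only [List.mem_cons, List.not_mem_nil, or_false] at hx; rcases hx with rfl <;> assumption) (by decide) h1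
  · have h3 := (altfx h1 ({11} : Multiset ℕ) (by decide) (by decide) (by decide))
    exact RD hD (f := 0) [11] (by decide) ⟨by decide, by decide, by decide, by decide⟩ (by intro x hx; simp only [List.mem_cons, List.not_mem_nil, or_false] at hx; rcases hx with rfl <;> assumption) (by decide) h3

theorem nd12_3 : NoDo 12 3 := by
  intro V _ ρ hV hD v
  by_contra hv
  have hne : ∃ v : V, v ≠ 0 := ⟨v, hv⟩
  have h0 : FxT ρ 0 := R0 hv
  have hp : Nat.Prime 3 := by norm_num
  rcases mM (ρ := ρ) hp hV hne 5 (Nat.Prime.isPrimePow (by norm_num)) (by norm_num) (by decide) (by norm_num) (by norm_num) with h1 | h1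
  · obtain ⟨U, _, ρ', hU, hneU, hl⟩ := lift (k := 8) hV h1 (by decide)
    rcases mM (ρ := ρ') hp hU hneU 8 (by rw [show (8 : ℕ) = 2 ^ 3 by norm_num]; exact (Nat.Prime.isPrimePow (by norm_num)).pow (by norm_num)) (by norm_num) (by decide) (by norm_num) (by norm_num) with h1 | h1
    · have h2 := hl _ h1
      exact RD hD (f := 1) [7, 4] (by decide) ⟨by decide, by decide, by decide, by decide⟩ (by decide) (by decide) h2
    · have h3 := (hl _ (altfx h1 ({7} : Multiset ℕ) (by decide) (by decide) (by decide)))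
      exact RD hD (f := 1) [7, 4] (by decide) ⟨by decide, by decide, by decide, by decide⟩ (by decide) (by decide) h3
  · have h3 := (altfx h1 ({7, 5} : Multiset ℕ) (by decide) (by decide) (by decide))
    exact RD hD (f := 0) [7, 5] (by decide) ⟨by decide, by decide, by decide, by decide⟩ (by decide) (by decide) h3

theorem nd12 {p : ℕ} (hp : p.Prime) (h2 : p ≠ 2) : NoDo 12 p := by
  by_cases h3 : p = 3
  · rw [h3]; exact nd12_3
  have d2 : ¬ p ∣ 2 := ndv1 hp (by norm_num) h2
  have d3 : ¬ p ∣ 3 := ndv1 hp (by norm_num) h3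
  have e3 : ¬ p ∣ 3 := d3
  have e4 : ¬ p ∣ 4 := (ndvm hp d2 d2)
  have e8 : ¬ p ∣ 8 := (ndvm hp (ndvm hp d2 d2) d2)
  have e9 : ¬ p ∣ 9 := (ndvm hp d3 d3)
  intro V _ ρ hV hD v
  by_contra hv
  have hne : ∃ v : V, v ≠ 0 := ⟨v, hv⟩
  have h0 : FxT ρ 0 := R0 hv
  rcases mM (ρ := ρ) hp hV hne 4 (by rw [show (4 : ℕ) = 2 ^ 2 by norm_num]; exact (Nat.Prime.isPrimePow (by norm_num)).pow (by norm_num)) (by norm_num) e4 (by norm_num) (by norm_num) with h1 | h1
  · obtain ⟨U, _, ρ', hU, hneU, hl⟩ := lift (k := 9) hV h1 (by decide)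
    rcases mM (ρ := ρ') hp hU hneU 9 (by rw [show (9 : ℕ) = 3 ^ 2 by norm_num]; exact (Nat.Prime.isPrimePow (by norm_num)).pow (by norm_num)) (by norm_num) e9 (by norm_num) (by norm_num) with h1 | h1
    · have h2 := hl _ h1
      exact RD hD (f := 1) [8, 3] (by decide) ⟨by decide, by decide, by decide, by decide⟩ (by intro x hx; simp only [List.mem_cons, List.not_mem_nil, or_false] at hx; rcases hx with rfl | rfl <;> assumption) (by decide) h2
    · have h3 := (hl _ (altfx h1 ({9} : Multiset ℕ) (by decide) (by decide) (by decide)))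
      exact RD hD (f := 0) [9, 3] (by decide) ⟨by decide, by decide, by decide, by decide⟩ (by intro x hx; simp only [List.mem_cons, List.not_mem_nil, or_false] at hx; rcases hx with rfl | rfl <;> assumption) (by decide) h3
  · have h3 := (altfx h1 ({9, 3} : Multiset ℕ) (by decide) (by decide) (by decide))
    exact RD hD (f := 0) [9, 3] (by decide) ⟨by decide, by decide, by decide, by decide⟩ (by intro x hx; simp only [List.mem_cons, List.not_mem_nil, or_false] at hx; rcases hx with rfl | rfl <;> assumption) (by decide) h3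

theorem nd17_17 : NoDo 17 17 := by
  intro V _ ρ hV hD v
  by_contra hv
  have hne : ∃ v : V, v ≠ 0 := ⟨v, hv⟩
  have h0 : FxT ρ 0 := R0 hv
  have hp : Nat.Prime 17 := by norm_num
  rcases mT (ρ := ρ) hne with h1 | h1
  · obtain ⟨U, _, ρ', hU, hneU, hl⟩ := lift (k := 15) hV h1 (by decide)
    rcases mP (ρ := ρ') hp hU (b := 15) ⟨3, 5, by norm_num, by norm_num, (by decide), by norm_num, by norm_num, by norm_num⟩ (by norm_num) with h1 | h1
    · have h2 := hl _ h1
      exact RD hD (f := 0) [15, 2] (by decide) ⟨by decide, by decide, by decide, by decide⟩ (by decide) (by decide) h2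
    · have h3 := (hl _ (mS hp hU hneU h1 [11, 3] (by decide) (by decide) (by decide)))
      exact RD hD (f := 1) [11, 3, 2] (by decide) ⟨by decide, by decide, by decide, by decide⟩ (by decide) (by decide) h3
  · have h3 := (altfx h1 ({9, 5, 3} : Multiset ℕ) (by decide) (by decide) (by decide))
    exact RD hD (f := 0) [9, 5, 3] (by decide) ⟨by decide, by decide, by decide, by decide⟩ (by decide) (by decide) h3

theorem nd17 {p : ℕ} (hp : p.Prime) (h2 : p ≠ 2) : NoDo 17 p := by
  by_cases h17 : p = 17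
  · rw [h17]; exact nd17_17
  have d2 : ¬ p ∣ 2 := ndv1 hp (by norm_num) h2
  have d17 : ¬ p ∣ 17 := ndv1 hp (by norm_num) h17
  have e16 : ¬ p ∣ 16 := (ndvm hp (ndvm hp (ndvm hp d2 d2) d2) d2)
  have e17 : ¬ p ∣ 17 := d17
  intro V _ ρ hV hD v
  by_contra hv
  have hne : ∃ v : V, v ≠ 0 := ⟨v, hv⟩
  have h0 : FxT ρ 0 := R0 hv
  rcases mM (ρ := ρ) hp hV hne 17 (Nat.Prime.isPrimePow (by norm_num)) (by norm_num) e17 (by norm_num) (by norm_num) with h1 | h1
  · exact RD hD (f := 1) [16] (by decide) ⟨by decide, by decide, by decide, by decide⟩ (by intro x hx; simp only [List.mem_cons, List.not_mem_nil, or_false] at hx; rcases hx with rfl <;> assumption) (by decide) h1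
  · have h3 := (altfx h1 ({17} : Multiset ℕ) (by decide) (by decide) (by decide))
    exact RD hD (f := 0) [17] (by decide) ⟨by decide, by decide, by decide, by decide⟩ (by intro x hx; simp only [List.mem_cons, List.not_mem_nil, or_false] at hx; rcases hx with rfl <;> assumption) (by decide) h3

theorem nd21_3 : NoDo 21 3 := by
  intro V _ ρ hV hD v
  by_contra hv
  have hne : ∃ v : V, v ≠ 0 := ⟨v, hv⟩
  have h0 : FxT ρ 0 := R0 hv
  have hp : Nat.Prime 3 := by norm_num
  rcases mP (ρ := ρ) hp hV (b := 20) ⟨5, 4, by norm_num, by norm_num, (by decide), by norm_num, by norm_num, by norm_num⟩ (by norm_num) with h1 | h1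
  · exact RD hD (f := 1) [20] (by decide) ⟨by decide, by decide, by decide, by decide⟩ (by decide) (by decide) h1
  · have h3 := (mS hp hV hne h1 [13, 7] (by decide) (by decide) (by decide))
    exact RD hD (f := 1) [13, 7] (by decide) ⟨by decide, by decide, by decide, by decide⟩ (by decide) (by decide) h3

theorem nd21_5 : NoDo 21 5 := by
  intro V _ ρ hV hD v
  by_contra hv
  have hne : ∃ v : V, v ≠ 0 := ⟨v, hv⟩
  have h0 : FxT ρ 0 := R0 hv
  have hp : Nat.Prime 5 := by norm_num
  rcases mP (ρ := ρ) hp hV (b := 21) ⟨3, 7, by norm_num, by norm_num, (by decide), by norm_num, by norm_num, by norm_num⟩ (by norm_num) with h1 | h1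
  · exact RD hD (f := 0) [21] (by decide) ⟨by decide, by decide, by decide, by decide⟩ (by decide) (by decide) h1
  · have h3 := (mS hp hV hne h1 [17, 3] (by decide) (by decide) (by decide))
    exact RD hD (f := 1) [17, 3] (by decide) ⟨by decide, by decide, by decide, by decide⟩ (by decide) (by decide) h3

theorem nd21_17 : NoDo 21 17 := by
  intro V _ ρ hV hD v
  by_contra hv
  have hne : ∃ v : V, v ≠ 0 := ⟨v, hv⟩
  have h0 : FxT ρ 0 := R0 hv
  have hp : Nat.Prime 17 := by norm_num
  rcases mP (ρ := ρ) hp hV (b := 20) ⟨5, 4, by norm_num, by norm_num, (by decide), by norm_num, by norm_num, by norm_num⟩ (by norm_num) with h1 | h1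
  · exact RD hD (f := 1) [20] (by decide) ⟨by decide, by decide, by decide, by decide⟩ (by decide) (by decide) h1
  · have h3 := (mS hp hV hne h1 [15, 5] (by decide) (by decide) (by decide))
    exact RD hD (f := 1) [15, 5] (by decide) ⟨by decide, by decide, by decide, by decide⟩ (by decide) (by decide) h3

theorem nd21 {p : ℕ} (hp : p.Prime) (h2 : p ≠ 2) : NoDo 21 p := by
  by_cases h3 : p = 3
  · rw [h3]; exact nd21_3
  by_cases h5 : p = 5
  · rw [h5]; exact nd21_5
  by_cases h17 : p = 17
  · rw [h17]; exact nd21_17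
  have d2 : ¬ p ∣ 2 := ndv1 hp (by norm_num) h2
  have d3 : ¬ p ∣ 3 := ndv1 hp (by norm_num) h3
  have d5 : ¬ p ∣ 5 := ndv1 hp (by norm_num) h5
  have d17 : ¬ p ∣ 17 := ndv1 hp (by norm_num) h17
  have e3 : ¬ p ∣ 3 := d3
  have e17 : ¬ p ∣ 17 := d17
  have e20 : ¬ p ∣ 20 := (ndvm hp (ndvm hp d2 d2) d5)
  intro V _ ρ hV hD v
  by_contra hv
  have hne : ∃ v : V, v ≠ 0 := ⟨v, hv⟩
  have h0 : FxT ρ 0 := R0 hv
  rcases mP (ρ := ρ) hp hV (b := 20) ⟨5, 4, by norm_num, by norm_num, (Ne.symm h5), by norm_num, by norm_num, by norm_num⟩ (by norm_num) with h1 | h1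
  · exact RD hD (f := 1) [20] (by decide) ⟨by decide, by decide, by decide, by decide⟩ (by intro x hx; simp only [List.mem_cons, List.not_mem_nil, or_false] at hx; rcases hx with rfl <;> assumption) (by decide) h1
  · have h3 := (mS hp hV hne h1 [17, 3] (by decide) (by intro x hx; simp only [List.mem_cons, List.not_mem_nil, or_false] at hx; rcases hx with rfl | rfl <;> exact ⟨by decide, by decide, by assumption⟩) (by decide))
    exact RD hD (f := 1) [17, 3] (by decide) ⟨by decide, by decide, by decide, by decide⟩ (by intro x hx; simp only [List.mem_cons, List.not_mem_nil, or_false] at hx; rcases hx with rfl | rfl <;> assumption) (by decide) h3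

theorem nd23_11 : NoDo 23 11 := by
  intro V _ ρ hV hD v
  by_contra hv
  have hne : ∃ v : V, v ≠ 0 := ⟨v, hv⟩
  have h0 : FxT ρ 0 := R0 hv
  have hp : Nat.Prime 11 := by norm_num
  rcases mT (ρ := ρ) hne with h1 | h1
  · obtain ⟨U, _, ρ', hU, hneU, hl⟩ := lift (k := 21) hV h1 (by decide)
    rcases mP (ρ := ρ') hp hU (b := 21) ⟨3, 7, by norm_num, by norm_num, (by decide), by norm_num, by norm_num, by norm_num⟩ (by norm_num) with h1 | h1
    · have h2 := hl _ h1
      exact RD hD (f := 0) [21, 2] (by decide) ⟨by decide, by decide, by decide, by decide⟩ (by decide) (by decide) h2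
    · have h3 := (hl _ (mS hp hU hneU h1 [17, 3] (by decide) (by decide) (by decide)))
      exact RD hD (f := 1) [17, 3, 2] (by decide) ⟨by decide, by decide, by decide, by decide⟩ (by decide) (by decide) h3
  · have h3 := (altfx h1 ({23} : Multiset ℕ) (by decide) (by decide) (by decide))
    exact RD hD (f := 0) [23] (by decide) ⟨by decide, by decide, by decide, by decide⟩ (by decide) (by decide) h3

theorem nd23_23 : NoDo 23 23 := by
  intro V _ ρ hV hD v
  by_contra hv
  have hne : ∃ v : V, v ≠ 0 := ⟨v, hv⟩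
  have h0 : FxT ρ 0 := R0 hv
  have hp : Nat.Prime 23 := by norm_num
  rcases mP (ρ := ρ) hp hV (b := 22) ⟨11, 2, by norm_num, by norm_num, (by decide), by norm_num, by norm_num, by norm_num⟩ (by norm_num) with h1 | h1
  · exact RD hD (f := 1) [22] (by decide) ⟨by decide, by decide, by decide, by decide⟩ (by decide) (by decide) h1
  · have h3 := (mS hp hV hne h1 [19, 3] (by decide) (by decide) (by decide))
    exact RD hD (f := 1) [19, 3] (by decide) ⟨by decide, by decide, by decide, by decide⟩ (by decide) (by decide) h3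

theorem nd23 {p : ℕ} (hp : p.Prime) (h2 : p ≠ 2) : NoDo 23 p := by
  by_cases h11 : p = 11
  · rw [h11]; exact nd23_11
  by_cases h23 : p = 23
  · rw [h23]; exact nd23_23
  have d2 : ¬ p ∣ 2 := ndv1 hp (by norm_num) h2
  have d11 : ¬ p ∣ 11 := ndv1 hp (by norm_num) h11
  have d23 : ¬ p ∣ 23 := ndv1 hp (by norm_num) h23
  have e22 : ¬ p ∣ 22 := (ndvm hp d2 d11)
  have e23 : ¬ p ∣ 23 := d23
  intro V _ ρ hV hD v
  by_contra hv
  have hne : ∃ v : V, v ≠ 0 := ⟨v, hv⟩
  have h0 : FxT ρ 0 := R0 hv
  rcases mM (ρ := ρ) hp hV hne 23 (Nat.Prime.isPrimePow (by norm_num)) (by norm_num) e23 (by norm_num) (by norm_num) with h1 | h1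
  · exact RD hD (f := 1) [22] (by decide) ⟨by decide, by decide, by decide, by decide⟩ (by intro x hx; simp only [List.mem_cons, List.not_mem_nil, or_false] at hx; rcases hx with rfl <;> assumption) (by decide) h1
  · have h3 := (altfx h1 ({23} : Multiset ℕ) (by decide) (by decide) (by decide))
    exact RD hD (f := 0) [23] (by decide) ⟨by decide, by decide, by decide, by decide⟩ (by intro x hx; simp only [List.mem_cons, List.not_mem_nil, or_false] at hx; rcases hx with rfl <;> assumption) (by decide) h3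

theorem nd24_3 : NoDo 24 3 := by
  intro V _ ρ hV hD v
  by_contra hv
  have hne : ∃ v : V, v ≠ 0 := ⟨v, hv⟩
  have h0 : FxT ρ 0 := R0 hv
  have hp : Nat.Prime 3 := by norm_num
  rcases mM (ρ := ρ) hp hV hne 8 (by rw [show (8 : ℕ) = 2 ^ 3 by norm_num]; exact (Nat.Prime.isPrimePow (by norm_num)).pow (by norm_num)) (by norm_num) (by decide) (by norm_num) (by norm_num) with h1 | h1
  · obtain ⟨U, _, ρ', hU, hneU, hl⟩ := lift (k := 17) hV h1 (by decide)
    rcases mM (ρ := ρ') hp hU hneU 17 (Nat.Prime.isPrimePow (by norm_num)) (by norm_num) (by decide) (by norm_num) (by norm_num) with h1 | h1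
    · have h2 := hl _ h1
      exact RD hD (f := 1) [16, 7] (by decide) ⟨by decide, by decide, by decide, by decide⟩ (by decide) (by decide) h2
    · have h3 := (hl _ (altfx h1 ({17} : Multiset ℕ) (by decide) (by decide) (by decide)))
      exact RD hD (f := 0) [17, 7] (by decide) ⟨by decide, by decide, by decide, by decide⟩ (by decide) (by decide) h3
  · have h3 := (altfx h1 ({19, 5} : Multiset ℕ) (by decide) (by decide) (by decide))
    exact RD hD (f := 0) [19, 5] (by decide) ⟨by decide, by decide, by decide, by decide⟩ (by decide) (by decide) h3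

theorem nd24_5 : NoDo 24 5 := by
  intro V _ ρ hV hD v
  by_contra hv
  have hne : ∃ v : V, v ≠ 0 := ⟨v, hv⟩
  have h0 : FxT ρ 0 := R0 hv
  have hp : Nat.Prime 5 := by norm_num
  rcases mP (ρ := ρ) hp hV (b := 24) ⟨3, 8, by norm_num, by norm_num, (by decide), by norm_num, by norm_num, by norm_num⟩ (by norm_num) with h1 | h1
  · exact RD hD (f := 0) [24] (by decide) ⟨by decide, by decide, by decide, by decide⟩ (by decide) (by decide) h1
  · have h3 := (mS hp hV hne h1 [13, 7, 3] (by decide) (by decide) (by decide))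
    exact RD hD (f := 1) [13, 7, 3] (by decide) ⟨by decide, by decide, by decide, by decide⟩ (by decide) (by decide) h3

theorem nd24 {p : ℕ} (hp : p.Prime) (h2 : p ≠ 2) : NoDo 24 p := by
  by_cases h3 : p = 3
  · rw [h3]; exact nd24_3
  by_cases h5 : p = 5
  · rw [h5]; exact nd24_5
  have d2 : ¬ p ∣ 2 := ndv1 hp (by norm_num) h2
  have d3 : ¬ p ∣ 3 := ndv1 hp (by norm_num) h3
  have d5 : ¬ p ∣ 5 := ndv1 hp (by norm_num) h5
  have e3 : ¬ p ∣ 3 := d3
  have e5 : ¬ p ∣ 5 := d5
  have e15 : ¬ p ∣ 15 := (ndvm hp d3 d5)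
  have e24 : ¬ p ∣ 24 := (ndvm hp (ndvm hp (ndvm hp d2 d2) d2) d3)
  intro V _ ρ hV hD v
  by_contra hv
  have hne : ∃ v : V, v ≠ 0 := ⟨v, hv⟩
  have h0 : FxT ρ 0 := R0 hv
  rcases mP (ρ := ρ) hp hV (b := 24) ⟨3, 8, by norm_num, by norm_num, (Ne.symm h3), by norm_num, by norm_num, by norm_num⟩ (by norm_num) with h1 | h1
  · exact RD hD (f := 0) [24] (by decide) ⟨by decide, by decide, by decide, by decide⟩ (by intro x hx; simp only [List.mem_cons, List.not_mem_nil, or_false] at hx; rcases hx with rfl <;> assumption) (by decide) h1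
  · have h3 := (mS hp hV hne h1 [15, 5, 3] (by decide) (by intro x hx; simp only [List.mem_cons, List.not_mem_nil, or_false] at hx; rcases hx with rfl | rfl | rfl <;> exact ⟨by decide, by decide, by assumption⟩) (by decide))
    exact RD hD (f := 1) [15, 5, 3] (by decide) ⟨by decide, by decide, by decide, by decide⟩ (by intro x hx; simp only [List.mem_cons, List.not_mem_nil, or_false] at hx; rcases hx with rfl | rfl | rfl <;> assumption) (by decide) h3

theorem nd25_3 : NoDo 25 3 := by
  intro V _ ρ hV hD v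
  by_contra hv
  have hne : ∃ v : V, v ≠ 0 := ⟨v, hv⟩
  have h0 : FxT ρ 0 := R0 hv
  have hp : Nat.Prime 3 := by norm_num
  rcases mP (ρ := ρ) hp hV (b := 25) ⟨5, 5, by norm_num, by norm_num, (by decide), by norm_num, by norm_num, by norm_num⟩ (by norm_num) with h1 | h1
  · exact RD hD (f := 0) [25] (by decide) ⟨by decide, by decide, by decide, by decide⟩ (by decide) (by decide) h1
  · have h3 := (mS hp hV hne h1 [19, 5] (by decide) (by decide) (by decide))
    exact RD hD (f := 1) [19, 5] (by decide) ⟨by decide, by decide, by decide, by decide⟩ (by decide) (by decide) h3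

theorem nd25_5 : NoDo 25 5 := by
  intro V _ ρ hV hD v
  by_contra hv
  have hne : ∃ v : V, v ≠ 0 := ⟨v, hv⟩
  have h0 : FxT ρ 0 := R0 hv
  have hp : Nat.Prime 5 := by norm_num
  rcases mP (ρ := ρ) hp hV (b := 24) ⟨3, 8, by norm_num, by norm_num, (by decide), by norm_num, by norm_num, by norm_num⟩ (by norm_num) with h1 | h1
  · exact RD hD (f := 1) [24] (by decide) ⟨by decide, by decide, by decide, by decide⟩ (by decide) (by decide) h1
  · have h3 := (mS hp hV hne h1 [21, 3] (by decide) (by decide) (by decide))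
    exact RD hD (f := 1) [21, 3] (by decide) ⟨by decide, by decide, by decide, by decide⟩ (by decide) (by decide) h3

theorem nd25 {p : ℕ} (hp : p.Prime) (h2 : p ≠ 2) : NoDo 25 p := by
  by_cases h3 : p = 3
  · rw [h3]; exact nd25_3
  by_cases h5 : p = 5
  · rw [h5]; exact nd25_5
  have d2 : ¬ p ∣ 2 := ndv1 hp (by norm_num) h2
  have d3 : ¬ p ∣ 3 := ndv1 hp (by norm_num) h3
  have d5 : ¬ p ∣ 5 := ndv1 hp (by norm_num) h5
  have e24 : ¬ p ∣ 24 := (ndvm hp (ndvm hp (ndvm hp d2 d2) d2) d3)
  have e25 : ¬ p ∣ 25 := (ndvm hp d5 d5)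
  intro V _ ρ hV hD v
  by_contra hv
  have hne : ∃ v : V, v ≠ 0 := ⟨v, hv⟩
  have h0 : FxT ρ 0 := R0 hv
  rcases mM (ρ := ρ) hp hV hne 25 (by rw [show (25 : ℕ) = 5 ^ 2 by norm_num]; exact (Nat.Prime.isPrimePow (by norm_num)).pow (by norm_num)) (by norm_num) e25 (by norm_num) (by norm_num) with h1 | h1
  · exact RD hD (f := 1) [24] (by decide) ⟨by decide, by decide, by decide, by decide⟩ (by intro x hx; simp only [List.mem_cons, List.not_mem_nil, or_false] at hx; rcases hx with rfl <;> assumption) (by decide) h1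
  · have h3 := (altfx h1 ({25} : Multiset ℕ) (by decide) (by decide) (by decide))
    exact RD hD (f := 0) [25] (by decide) ⟨by decide, by decide, by decide, by decide⟩ (by intro x hx; simp only [List.mem_cons, List.not_mem_nil, or_false] at hx; rcases hx with rfl <;> assumption) (by decide) h3

theorem nd26_3 : NoDo 26 3 := by
  intro V _ ρ hV hD v
  by_contra hv
  have hne : ∃ v : V, v ≠ 0 := ⟨v, hv⟩
  have h0 : FxT ρ 0 := R0 hv
  have hp : Nat.Prime 3 := by norm_num
  rcases mP (ρ := ρ) hp hV (b := 25) ⟨5, 5, by norm_num, by norm_num, (by decide), by norm_num, by norm_num, by norm_num⟩ (by norm_num) with h1 | h1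
  · exact RD hD (f := 1) [25] (by decide) ⟨by decide, by decide, by decide, by decide⟩ (by decide) (by decide) h1
  · have h3 := (mS hp hV hne h1 [13, 7, 5] (by decide) (by decide) (by decide))
    exact RD hD (f := 1) [13, 7, 5] (by decide) ⟨by decide, by decide, by decide, by decide⟩ (by decide) (by decide) h3

theorem nd26_5 : NoDo 26 5 := by
  intro V _ ρ hV hD v
  by_contra hv
  have hne : ∃ v : V, v ≠ 0 := ⟨v, hv⟩
  have h0 : FxT ρ 0 := R0 hv
  have hp : Nat.Prime 5 := by norm_num
  rcases mP (ρ := ρ) hp hV (b := 26) ⟨13, 2, by norm_num, by norm_num, (by decide), by norm_num, by norm_num, by norm_num⟩ (by norm_num) with h1 | h1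
  · exact RD hD (f := 0) [26] (by decide) ⟨by decide, by decide, by decide, by decide⟩ (by decide) (by decide) h1
  · have h3 := (mS hp hV hne h1 [13, 9, 3] (by decide) (by decide) (by decide))
    exact RD hD (f := 1) [13, 9, 3] (by decide) ⟨by decide, by decide, by decide, by decide⟩ (by decide) (by decide) h3

theorem nd26_17 : NoDo 26 17 := by
  intro V _ ρ hV hD v
  by_contra hv
  have hne : ∃ v : V, v ≠ 0 := ⟨v, hv⟩
  have h0 : FxT ρ 0 := R0 hv
  have hp : Nat.Prime 17 := by norm_num
  rcases mP (ρ := ρ) hp hV (b := 25) ⟨5, 5, by norm_num, by norm_num, (by decide), by norm_num, by norm_num, by norm_num⟩ (by norm_num) with h1 | h1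
  · exact RD hD (f := 1) [25] (by decide) ⟨by decide, by decide, by decide, by decide⟩ (by decide) (by decide) h1
  · have h3 := (mS hp hV hne h1 [15, 7, 3] (by decide) (by decide) (by decide))
    exact RD hD (f := 1) [15, 7, 3] (by decide) ⟨by decide, by decide, by decide, by decide⟩ (by decide) (by decide) h3

theorem nd26 {p : ℕ} (hp : p.Prime) (h2 : p ≠ 2) : NoDo 26 p := by
  by_cases h3 : p = 3
  · rw [h3]; exact nd26_3
  by_cases h5 : p = 5
  · rw [h5]; exact nd26_5
  by_cases h17 : p = 17
  · rw [h17]; exact nd26_17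
  have d2 : ¬ p ∣ 2 := ndv1 hp (by norm_num) h2
  have d3 : ¬ p ∣ 3 := ndv1 hp (by norm_num) h3
  have d5 : ¬ p ∣ 5 := ndv1 hp (by norm_num) h5
  have d17 : ¬ p ∣ 17 := ndv1 hp (by norm_num) h17
  have e3 : ¬ p ∣ 3 := d3
  have e5 : ¬ p ∣ 5 := d5
  have e17 : ¬ p ∣ 17 := d17
  have e25 : ¬ p ∣ 25 := (ndvm hp d5 d5)
  intro V _ ρ hV hD v
  by_contra hv
  have hne : ∃ v : V, v ≠ 0 := ⟨v, hv⟩
  have h0 : FxT ρ 0 := R0 hv
  rcases mP (ρ := ρ) hp hV (b := 25) ⟨5, 5, by norm_num, by norm_num, (Ne.symm h5), by norm_num, by norm_num, by norm_num⟩ (by norm_num) with h1 | h1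
  · exact RD hD (f := 1) [25] (by decide) ⟨by decide, by decide, by decide, by decide⟩ (by intro x hx; simp only [List.mem_cons, List.not_mem_nil, or_false] at hx; rcases hx with rfl <;> assumption) (by decide) h1
  · have h3 := (mS hp hV hne h1 [17, 5, 3] (by decide) (by intro x hx; simp only [List.mem_cons, List.not_mem_nil, or_false] at hx; rcases hx with rfl | rfl | rfl <;> exact ⟨by decide, by decide, by assumption⟩) (by decide))
    exact RD hD (f := 1) [17, 5, 3] (by decide) ⟨by decide, by decide, by decide, by decide⟩ (by intro x hx; simp only [List.mem_cons, List.not_mem_nil, or_false] at hx; rcases hx with rfl | rfl | rfl <;> assumption) (by decide) h3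

theorem nd27_3 : NoDo 27 3 := by
  intro V _ ρ hV hD v
  by_contra hv
  have hne : ∃ v : V, v ≠ 0 := ⟨v, hv⟩
  have h0 : FxT ρ 0 := R0 hv
  have hp : Nat.Prime 3 := by norm_num
  rcases mP (ρ := ρ) hp hV (b := 26) ⟨13, 2, by norm_num, by norm_num, (by decide), by norm_num, by norm_num, by norm_num⟩ (by norm_num) with h1 | h1
  · exact RD hD (f := 1) [26] (by decide) ⟨by decide, by decide, by decide, by decide⟩ (by decide) (by decide) h1
  · have h3 := (mS hp hV hne h1 [19, 7] (by decide) (by decide) (by decide))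
    exact RD hD (f := 1) [19, 7] (by decide) ⟨by decide, by decide, by decide, by decide⟩ (by decide) (by decide) h3

theorem nd27_13 : NoDo 27 13 := by
  intro V _ ρ hV hD v
  by_contra hv
  have hne : ∃ v : V, v ≠ 0 := ⟨v, hv⟩
  have h0 : FxT ρ 0 := R0 hv
  have hp : Nat.Prime 13 := by norm_num
  rcases mP (ρ := ρ) hp hV (b := 27) ⟨3, 9, by norm_num, by norm_num, (by decide), by norm_num, by norm_num, by norm_num⟩ (by norm_num) with h1 | h1
  · exact RD hD (f := 0) [27] (by decide) ⟨by decide, by decide, by decide, by decide⟩ (by decide) (by decide) h1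
  · have h3 := (mS hp hV hne h1 [23, 3] (by decide) (by decide) (by decide))
    exact RD hD (f := 1) [23, 3] (by decide) ⟨by decide, by decide, by decide, by decide⟩ (by decide) (by decide) h3

theorem nd27 {p : ℕ} (hp : p.Prime) (h2 : p ≠ 2) : NoDo 27 p := by
  by_cases h3 : p = 3
  · rw [h3]; exact nd27_3
  by_cases h13 : p = 13
  · rw [h13]; exact nd27_13
  have d2 : ¬ p ∣ 2 := ndv1 hp (by norm_num) h2
  have d3 : ¬ p ∣ 3 := ndv1 hp (by norm_num) h3
  have d13 : ¬ p ∣ 13 := ndv1 hp (by norm_num) h13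
  have e26 : ¬ p ∣ 26 := (ndvm hp d2 d13)
  have e27 : ¬ p ∣ 27 := (ndvm hp (ndvm hp d3 d3) d3)
  intro V _ ρ hV hD v
  by_contra hv
  have hne : ∃ v : V, v ≠ 0 := ⟨v, hv⟩
  have h0 : FxT ρ 0 := R0 hv
  rcases mM (ρ := ρ) hp hV hne 27 (by rw [show (27 : ℕ) = 3 ^ 3 by norm_num]; exact (Nat.Prime.isPrimePow (by norm_num)).pow (by norm_num)) (by norm_num) e27 (by norm_num) (by norm_num) with h1 | h1
  · exact RD hD (f := 1) [26] (by decide) ⟨by decide, by decide, by decide, by decide⟩ (by intro x hx; simp only [List.mem_cons, List.not_mem_nil, or_false] at hx; rcases hx with rfl <;> assumption) (by decide) h1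
  · have h3 := (altfx h1 ({27} : Multiset ℕ) (by decide) (by decide) (by decide))
    exact RD hD (f := 0) [27] (by decide) ⟨by decide, by decide, by decide, by decide⟩ (by intro x hx; simp only [List.mem_cons, List.not_mem_nil, or_false] at hx; rcases hx with rfl <;> assumption) (by decide) h3

theorem nd28_3 : NoDo 28 3 := by
  intro V _ ρ hV hD v
  by_contra hv
  have hne : ∃ v : V, v ≠ 0 := ⟨v, hv⟩
  have h0 : FxT ρ 0 := R0 hv
  have hp : Nat.Prime 3 := by norm_num
  rcases mT (ρ := ρ) hne with h1 | h1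
  · obtain ⟨U, _, ρ', hU, hneU, hl⟩ := lift (k := 26) hV h1 (by decide)
    rcases mP (ρ := ρ') hp hU (b := 25) ⟨5, 5, by norm_num, by norm_num, (by decide), by norm_num, by norm_num, by norm_num⟩ (by norm_num) with h1 | h1
    · have h2 := hl _ h1
      exact RD hD (f := 1) [25, 2] (by decide) ⟨by decide, by decide, by decide, by decide⟩ (by decide) (by decide) h2
    · have h3 := (hl _ (mS hp hU hneU h1 [13, 7, 5] (by decide) (by decide) (by decide)))
      exact RD hD (f := 1) [13, 7, 5, 2] (by decide) ⟨by decide, by decide, by decide, by decide⟩ (by decide) (by decide) h3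
  · have h3 := (altfx h1 ({23, 5} : Multiset ℕ) (by decide) (by decide) (by decide))
    exact RD hD (f := 0) [23, 5] (by decide) ⟨by decide, by decide, by decide, by decide⟩ (by decide) (by decide) h3

theorem nd28_5 : NoDo 28 5 := by
  intro V _ ρ hV hD v
  by_contra hv
  have hne : ∃ v : V, v ≠ 0 := ⟨v, hv⟩
  have h0 : FxT ρ 0 := R0 hv
  have hp : Nat.Prime 5 := by norm_num
  rcases mP (ρ := ρ) hp hV (b := 27) ⟨3, 9, by norm_num, by norm_num, (by decide), by norm_num, by norm_num, by norm_num⟩ (by norm_num) with h1 | h1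
  · exact RD hD (f := 1) [27] (by decide) ⟨by decide, by decide, by decide, by decide⟩ (by decide) (by decide) h1
  · have h3 := (mS hp hV hne h1 [17, 7, 3] (by decide) (by decide) (by decide))
    exact RD hD (f := 1) [17, 7, 3] (by decide) ⟨by decide, by decide, by decide, by decide⟩ (by decide) (by decide) h3

theorem nd28_19 : NoDo 28 19 := by
  intro V _ ρ hV hD v
  by_contra hv
  have hne : ∃ v : V, v ≠ 0 := ⟨v, hv⟩
  have h0 : FxT ρ 0 := R0 hv
  have hp : Nat.Prime 19 := by norm_num
  rcases mP (ρ := ρ) hp hV (b := 27) ⟨3, 9, by norm_num, by norm_num, (by decide), by norm_num, by norm_num, by norm_num⟩ (by norm_num) with h1 | h1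
  · exact RD hD (f := 1) [27] (by decide) ⟨by decide, by decide, by decide, by decide⟩ (by decide) (by decide) h1
  · have h3 := (mS hp hV hne h1 [17, 7, 3] (by decide) (by decide) (by decide))
    exact RD hD (f := 1) [17, 7, 3] (by decide) ⟨by decide, by decide, by decide, by decide⟩ (by decide) (by decide) h3

theorem nd28 {p : ℕ} (hp : p.Prime) (h2 : p ≠ 2) : NoDo 28 p := by
  by_cases h3 : p = 3
  · rw [h3]; exact nd28_3
  by_cases h5 : p = 5
  · rw [h5]; exact nd28_5
  by_cases h19 : p = 19
  · rw [h19]; exact nd28_19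
  have d2 : ¬ p ∣ 2 := ndv1 hp (by norm_num) h2
  have d3 : ¬ p ∣ 3 := ndv1 hp (by norm_num) h3
  have d5 : ¬ p ∣ 5 := ndv1 hp (by norm_num) h5
  have d19 : ¬ p ∣ 19 := ndv1 hp (by norm_num) h19
  have e3 : ¬ p ∣ 3 := d3
  have e5 : ¬ p ∣ 5 := d5
  have e19 : ¬ p ∣ 19 := d19
  have e27 : ¬ p ∣ 27 := (ndvm hp (ndvm hp d3 d3) d3)
  intro V _ ρ hV hD v
  by_contra hv
  have hne : ∃ v : V, v ≠ 0 := ⟨v, hv⟩
  have h0 : FxT ρ 0 := R0 hv
  rcases mP (ρ := ρ) hp hV (b := 27) ⟨3, 9, by norm_num, by norm_num, (Ne.symm h3), by norm_num, by norm_num, by norm_num⟩ (by norm_num) with h1 | h1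
  · exact RD hD (f := 1) [27] (by decide) ⟨by decide, by decide, by decide, by decide⟩ (by intro x hx; simp only [List.mem_cons, List.not_mem_nil, or_false] at hx; rcases hx with rfl <;> assumption) (by decide) h1
  · have h3 := (mS hp hV hne h1 [19, 5, 3] (by decide) (by intro x hx; simp only [List.mem_cons, List.not_mem_nil, or_false] at hx; rcases hx with rfl | rfl | rfl <;> exact ⟨by decide, by decide, by assumption⟩) (by decide))
    exact RD hD (f := 1) [19, 5, 3] (by decide) ⟨by decide, by decide, by decide, by decide⟩ (by intro x hx; simp only [List.mem_cons, List.not_mem_nil, or_false] at hx; rcases hx with rfl | rfl | rfl <;> assumption) (by decide) h3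

theorem nd29_7 : NoDo 29 7 := by
  intro V _ ρ hV hD v
  by_contra hv
  have hne : ∃ v : V, v ≠ 0 := ⟨v, hv⟩
  have h0 : FxT ρ 0 := R0 hv
  have hp : Nat.Prime 7 := by norm_num
  rcases mT (ρ := ρ) hne with h1 | h1
  · obtain ⟨U, _, ρ', hU, hneU, hl⟩ := lift (k := 27) hV h1 (by decide)
    rcases mP (ρ := ρ') hp hU (b := 27) ⟨3, 9, by norm_num, by norm_num, (by decide), by norm_num, by norm_num, by norm_num⟩ (by norm_num) with h1 | h1
    · have h2 := hl _ h1
      exact RD hD (f := 0) [27, 2] (by decide) ⟨by decide, by decide, by decide, by decide⟩ (by decide) (by decide) h2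
    · have h3 := (hl _ (mS hp hU hneU h1 [23, 3] (by decide) (by decide) (by decide)))
      exact RD hD (f := 1) [23, 3, 2] (by decide) ⟨by decide, by decide, by decide, by decide⟩ (by decide) (by decide) h3
  · have h3 := (altfx h1 ({29} : Multiset ℕ) (by decide) (by decide) (by decide))
    exact RD hD (f := 0) [29] (by decide) ⟨by decide, by decide, by decide, by decide⟩ (by decide) (by decide) h3

theorem nd29_29 : NoDo 29 29 := by
  intro V _ ρ hV hD v
  by_contra hv
  have hne : ∃ v : V, v ≠ 0 := ⟨v, hv⟩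
  have h0 : FxT ρ 0 := R0 hv
  have hp : Nat.Prime 29 := by norm_num
  rcases mP (ρ := ρ) hp hV (b := 28) ⟨7, 4, by norm_num, by norm_num, (by decide), by norm_num, by norm_num, by norm_num⟩ (by norm_num) with h1 | h1
  · exact RD hD (f := 1) [28] (by decide) ⟨by decide, by decide, by decide, by decide⟩ (by decide) (by decide) h1
  · have h3 := (mS hp hV hne h1 [25, 3] (by decide) (by decide) (by decide))
    exact RD hD (f := 1) [25, 3] (by decide) ⟨by decide, by decide, by decide, by decide⟩ (by decide) (by decide) h3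

theorem nd29 {p : ℕ} (hp : p.Prime) (h2 : p ≠ 2) : NoDo 29 p := by
  by_cases h7 : p = 7
  · rw [h7]; exact nd29_7
  by_cases h29 : p = 29
  · rw [h29]; exact nd29_29
  have d2 : ¬ p ∣ 2 := ndv1 hp (by norm_num) h2
  have d7 : ¬ p ∣ 7 := ndv1 hp (by norm_num) h7
  have d29 : ¬ p ∣ 29 := ndv1 hp (by norm_num) h29
  have e28 : ¬ p ∣ 28 := (ndvm hp (ndvm hp d2 d2) d7)
  have e29 : ¬ p ∣ 29 := d29
  intro V _ ρ hV hD v
  by_contra hv
  have hne : ∃ v : V, v ≠ 0 := ⟨v, hv⟩
  have h0 : FxT ρ 0 := R0 hv
  rcases mM (ρ := ρ) hp hV hne 29 (Nat.Prime.isPrimePow (by norm_num)) (by norm_num) e29 (by norm_num) (by norm_num) with h1 | h1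
  · exact RD hD (f := 1) [28] (by decide) ⟨by decide, by decide, by decide, by decide⟩ (by intro x hx; simp only [List.mem_cons, List.not_mem_nil, or_false] at hx; rcases hx with rfl <;> assumption) (by decide) h1
  · have h3 := (altfx h1 ({29} : Multiset ℕ) (by decide) (by decide) (by decide))
    exact RD hD (f := 0) [29] (by decide) ⟨by decide, by decide, by decide, by decide⟩ (by intro x hx; simp only [List.mem_cons, List.not_mem_nil, or_false] at hx; rcases hx with rfl <;> assumption) (by decide) h3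

theorem nd30_3 : NoDo 30 3 := by
  intro V _ ρ hV hD v
  by_contra hv
  have hne : ∃ v : V, v ≠ 0 := ⟨v, hv⟩
  have h0 : FxT ρ 0 := R0 hv
  have hp : Nat.Prime 3 := by norm_num
  rcases mM (ρ := ρ) hp hV hne 8 (by rw [show (8 : ℕ) = 2 ^ 3 by norm_num]; exact (Nat.Prime.isPrimePow (by norm_num)).pow (by norm_num)) (by norm_num) (by decide) (by norm_num) (by norm_num) with h1 | h1
  · obtain ⟨U, _, ρ', hU, hneU, hl⟩ := lift (k := 23) hV h1 (by decide)
    rcases mM (ρ := ρ') hp hU hneU 23 (Nat.Prime.isPrimePow (by norm_num)) (by norm_num) (by decide) (by norm_num) (by norm_num) with h1 | h1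
    · have h2 := hl _ h1
      exact RD hD (f := 1) [22, 7] (by decide) ⟨by decide, by decide, by decide, by decide⟩ (by decide) (by decide) h2
    · have h3 := (hl _ (altfx h1 ({23} : Multiset ℕ) (by decide) (by decide) (by decide)))
      exact RD hD (f := 0) [23, 7] (by decide) ⟨by decide, by decide, by decide, by decide⟩ (by decide) (by decide) h3
  · have h3 := (altfx h1 ({25, 5} : Multiset ℕ) (by decide) (by decide) (by decide))
    exact RD hD (f := 0) [25, 5] (by decide) ⟨by decide, by decide, by decide, by decide⟩ (by decide) (by decide) h3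

theorem nd30_5 : NoDo 30 5 := by
  intro V _ ρ hV hD v
  by_contra hv
  have hne : ∃ v : V, v ≠ 0 := ⟨v, hv⟩
  have h0 : FxT ρ 0 := R0 hv
  have hp : Nat.Prime 5 := by norm_num
  rcases mM (ρ := ρ) hp hV hne 4 (by rw [show (4 : ℕ) = 2 ^ 2 by norm_num]; exact (Nat.Prime.isPrimePow (by norm_num)).pow (by norm_num)) (by norm_num) (by decide) (by norm_num) (by norm_num) with h1 | h1
  · obtain ⟨U, _, ρ', hU, hneU, hl⟩ := lift (k := 27) hV h1 (by decide)
    rcases mM (ρ := ρ') hp hU hneU 27 (by rw [show (27 : ℕ) = 3 ^ 3 by norm_num]; exact (Nat.Prime.isPrimePow (by norm_num)).pow (by norm_num)) (by norm_num) (by decide) (by norm_num) (by norm_num) with h1 | h1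
    · have h2 := hl _ h1
      exact RD hD (f := 1) [26, 3] (by decide) ⟨by decide, by decide, by decide, by decide⟩ (by decide) (by decide) h2
    · have h3 := (hl _ (altfx h1 ({27} : Multiset ℕ) (by decide) (by decide) (by decide)))
      exact RD hD (f := 0) [27, 3] (by decide) ⟨by decide, by decide, by decide, by decide⟩ (by decide) (by decide) h3
  · have h3 := (altfx h1 ({27, 3} : Multiset ℕ) (by decide) (by decide) (by decide))
    exact RD hD (f := 0) [27, 3] (by decide) ⟨by decide, by decide, by decide, by decide⟩ (by decide) (by decide) h3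

theorem nd30_7 : NoDo 30 7 := by
  intro V _ ρ hV hD v
  by_contra hv
  have hne : ∃ v : V, v ≠ 0 := ⟨v, hv⟩
  have h0 : FxT ρ 0 := R0 hv
  have hp : Nat.Prime 7 := by norm_num
  rcases mP (ρ := ρ) hp hV (b := 30) ⟨3, 10, by norm_num, by norm_num, (by decide), by norm_num, by norm_num, by norm_num⟩ (by norm_num) with h1 | h1
  · exact RD hD (f := 0) [30] (by decide) ⟨by decide, by decide, by decide, by decide⟩ (by decide) (by decide) h1
  · have h3 := (mS hp hV hne h1 [17, 9, 3] (by decide) (by decide) (by decide))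
    exact RD hD (f := 1) [17, 9, 3] (by decide) ⟨by decide, by decide, by decide, by decide⟩ (by decide) (by decide) h3

theorem nd30 {p : ℕ} (hp : p.Prime) (h2 : p ≠ 2) : NoDo 30 p := by
  by_cases h3 : p = 3
  · rw [h3]; exact nd30_3
  by_cases h5 : p = 5
  · rw [h5]; exact nd30_5
  by_cases h7 : p = 7
  · rw [h7]; exact nd30_7
  have d2 : ¬ p ∣ 2 := ndv1 hp (by norm_num) h2
  have d3 : ¬ p ∣ 3 := ndv1 hp (by norm_num) h3
  have d5 : ¬ p ∣ 5 := ndv1 hp (by norm_num) h5
  have d7 : ¬ p ∣ 7 := ndv1 hp (by norm_num) h7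
  have e3 : ¬ p ∣ 3 := d3
  have e5 : ¬ p ∣ 5 := d5
  have e21 : ¬ p ∣ 21 := (ndvm hp d3 d7)
  have e30 : ¬ p ∣ 30 := (ndvm hp (ndvm hp d2 d3) d5)
  intro V _ ρ hV hD v
  by_contra hv
  have hne : ∃ v : V, v ≠ 0 := ⟨v, hv⟩
  have h0 : FxT ρ 0 := R0 hv
  rcases mP (ρ := ρ) hp hV (b := 30) ⟨3, 10, by norm_num, by norm_num, (Ne.symm h3), by norm_num, by norm_num, by norm_num⟩ (by norm_num) with h1 | h1
  · exact RD hD (f := 0) [30] (by decide) ⟨by decide, by decide, by decide, by decide⟩ (by intro x hx; simp only [List.mem_cons, List.not_mem_nil, or_false] at hx; rcases hx with rfl <;> assumption) (by decide) h1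
  · have h3 := (mS hp hV hne h1 [21, 5, 3] (by decide) (by intro x hx; simp only [List.mem_cons, List.not_mem_nil, or_false] at hx; rcases hx with rfl | rfl | rfl <;> exact ⟨by decide, by decide, by assumption⟩) (by decide))
    exact RD hD (f := 1) [21, 5, 3] (by decide) ⟨by decide, by decide, by decide, by decide⟩ (by intro x hx; simp only [List.mem_cons, List.not_mem_nil, or_false] at hx; rcases hx with rfl | rfl | rfl <;> assumption) (by decide) h3

theorem nd32_3 : NoDo 32 3 := by
  intro V _ ρ hV hD v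
  by_contra hv
  have hne : ∃ v : V, v ≠ 0 := ⟨v, hv⟩
  have h0 : FxT ρ 0 := R0 hv
  have hp : Nat.Prime 3 := by norm_num
  rcases mM (ρ := ρ) hp hV hne 32 (by rw [show (32 : ℕ) = 2 ^ 5 by norm_num]; exact (Nat.Prime.isPrimePow (by norm_num)).pow (by norm_num)) (by norm_num) (by decide) (by norm_num) (by norm_num) with h1 | h1
  · exact RD hD (f := 1) [31] (by decide) ⟨by decide, by decide, by decide, by decide⟩ (by decide) (by decide) h1
  · have h3 := (altfx h1 ({25, 7} : Multiset ℕ) (by decide) (by decide) (by decide))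
    exact RD hD (f := 0) [25, 7] (by decide) ⟨by decide, by decide, by decide, by decide⟩ (by decide) (by decide) h3

theorem nd32_29 : NoDo 32 29 := by
  intro V _ ρ hV hD v
  by_contra hv
  have hne : ∃ v : V, v ≠ 0 := ⟨v, hv⟩
  have h0 : FxT ρ 0 := R0 hv
  have hp : Nat.Prime 29 := by norm_num
  rcases mM (ρ := ρ) hp hV hne 32 (by rw [show (32 : ℕ) = 2 ^ 5 by norm_num]; exact (Nat.Prime.isPrimePow (by norm_num)).pow (by norm_num)) (by norm_num) (by decide) (by norm_num) (by norm_num) with h1 | h1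
  · exact RD hD (f := 1) [31] (by decide) ⟨by decide, by decide, by decide, by decide⟩ (by decide) (by decide) h1
  · have h3 := (altfx h1 ({27, 5} : Multiset ℕ) (by decide) (by decide) (by decide))
    exact RD hD (f := 0) [27, 5] (by decide) ⟨by decide, by decide, by decide, by decide⟩ (by decide) (by decide) h3

theorem nd32_31 : NoDo 32 31 := by
  intro V _ ρ hV hD v
  by_contra hv
  have hne : ∃ v : V, v ≠ 0 := ⟨v, hv⟩
  have h0 : FxT ρ 0 := R0 hv
  have hp : Nat.Prime 31 := by norm_num
  rcases mM (ρ := ρ) hp hV hne 4 (by rw [show (4 : ℕ) = 2 ^ 2 by norm_num]; exact (Nat.Prime.isPrimePow (by norm_num)).pow (by norm_num)) (by norm_num) (by decide) (by norm_num) (by norm_num) with h1 | h1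
  · obtain ⟨U, _, ρ', hU, hneU, hl⟩ := lift (k := 29) hV h1 (by decide)
    rcases mM (ρ := ρ') hp hU hneU 29 (Nat.Prime.isPrimePow (by norm_num)) (by norm_num) (by decide) (by norm_num) (by norm_num) with h1 | h1
    · have h2 := hl _ h1
      exact RD hD (f := 1) [28, 3] (by decide) ⟨by decide, by decide, by decide, by decide⟩ (by decide) (by decide) h2
    · have h3 := (hl _ (altfx h1 ({29} : Multiset ℕ) (by decide) (by decide) (by decide)))
      exact RD hD (f := 0) [29, 3] (by decide) ⟨by decide, by decide, by decide, by decide⟩ (by decide) (by decide) h3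
  · have h3 := (altfx h1 ({29, 3} : Multiset ℕ) (by decide) (by decide) (by decide))
    exact RD hD (f := 0) [29, 3] (by decide) ⟨by decide, by decide, by decide, by decide⟩ (by decide) (by decide) h3

theorem nd32 {p : ℕ} (hp : p.Prime) (h2 : p ≠ 2) : NoDo 32 p := by
  by_cases h3 : p = 3
  · rw [h3]; exact nd32_3
  by_cases h29 : p = 29
  · rw [h29]; exact nd32_29
  by_cases h31 : p = 31
  · rw [h31]; exact nd32_31
  have d2 : ¬ p ∣ 2 := ndv1 hp (by norm_num) h2
  have d3 : ¬ p ∣ 3 := ndv1 hp (by norm_num) h3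
  have d29 : ¬ p ∣ 29 := ndv1 hp (by norm_num) h29
  have d31 : ¬ p ∣ 31 := ndv1 hp (by norm_num) h31
  have e3 : ¬ p ∣ 3 := d3
  have e29 : ¬ p ∣ 29 := d29
  have e31 : ¬ p ∣ 31 := d31
  have e32 : ¬ p ∣ 32 := (ndvm hp (ndvm hp (ndvm hp (ndvm hp d2 d2) d2) d2) d2)
  intro V _ ρ hV hD v
  by_contra hv
  have hne : ∃ v : V, v ≠ 0 := ⟨v, hv⟩
  have h0 : FxT ρ 0 := R0 hv
  rcases mM (ρ := ρ) hp hV hne 32 (by rw [show (32 : ℕ) = 2 ^ 5 by norm_num]; exact (Nat.Prime.isPrimePow (by norm_num)).pow (by norm_num)) (by norm_num) e32 (by norm_num) (by norm_num) with h1 | h1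
  · exact RD hD (f := 1) [31] (by decide) ⟨by decide, by decide, by decide, by decide⟩ (by intro x hx; simp only [List.mem_cons, List.not_mem_nil, or_false] at hx; rcases hx with rfl <;> assumption) (by decide) h1
  · have h3 := (altfx h1 ({29, 3} : Multiset ℕ) (by decide) (by decide) (by decide))
    exact RD hD (f := 0) [29, 3] (by decide) ⟨by decide, by decide, by decide, by decide⟩ (by intro x hx; simp only [List.mem_cons, List.not_mem_nil, or_false] at hx; rcases hx with rfl | rfl <;> assumption) (by decide) h3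

theorem nd33_3 : NoDo 33 3 := by
  intro V _ ρ hV hD v
  by_contra hv
  have hne : ∃ v : V, v ≠ 0 := ⟨v, hv⟩
  have h0 : FxT ρ 0 := R0 hv
  have hp : Nat.Prime 3 := by norm_num
  rcases mP (ρ := ρ) hp hV (b := 25) ⟨5, 5, by norm_num, by norm_num, (by decide), by norm_num, by norm_num, by norm_num⟩ (by norm_num) with h1 | h1
  · obtain ⟨U, _, ρ', hU, hneU, hl⟩ := lift (k := 8) hV h1 (by decide)
    rcases mM (ρ := ρ') hp hU hneU 8 (by rw [show (8 : ℕ) = 2 ^ 3 by norm_num]; exact (Nat.Prime.isPrimePow (by norm_num)).pow (by norm_num)) (by norm_num) (by decide) (by norm_num) (by norm_num) with h1 | h1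
    · have h2 := hl _ h1
      exact RD hD (f := 1) [25, 7] (by decide) ⟨by decide, by decide, by decide, by decide⟩ (by decide) (by decide) h2
    · have h3 := (hl _ (altfx h1 ({7} : Multiset ℕ) (by decide) (by decide) (by decide)))
      exact RD hD (f := 1) [25, 7] (by decide) ⟨by decide, by decide, by decide, by decide⟩ (by decide) (by decide) h3
  · have h3 := (mS hp hV hne h1 [25, 7] (by decide) (by decide) (by decide))
    exact RD hD (f := 1) [25, 7] (by decide) ⟨by decide, by decide, by decide, by decide⟩ (by decide) (by decide) h3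

theorem nd33_11 : NoDo 33 11 := by
  intro V _ ρ hV hD v
  by_contra hv
  have hne : ∃ v : V, v ≠ 0 := ⟨v, hv⟩
  have h0 : FxT ρ 0 := R0 hv
  have hp : Nat.Prime 11 := by norm_num
  rcases mM (ρ := ρ) hp hV hne 7 (Nat.Prime.isPrimePow (by norm_num)) (by norm_num) (by decide) (by norm_num) (by norm_num) with h1 | h1
  · obtain ⟨U, _, ρ', hU, hneU, hl⟩ := lift (k := 27) hV h1 (by decide)
    rcases mP (ρ := ρ') hp hU (b := 27) ⟨3, 9, by norm_num, by norm_num, (by decide), by norm_num, by norm_num, by norm_num⟩ (by norm_num) with h1 | h1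
    · have h2 := hl _ h1
      exact RD hD (f := 0) [27, 6] (by decide) ⟨by decide, by decide, by decide, by decide⟩ (by decide) (by decide) h2
    · have h3 := (hl _ (mS hp hU hneU h1 [23, 3] (by decide) (by decide) (by decide)))
      exact RD hD (f := 1) [23, 6, 3] (by decide) ⟨by decide, by decide, by decide, by decide⟩ (by decide) (by decide) h3
  · have h3 := (altfx h1 ({25, 5, 3} : Multiset ℕ) (by decide) (by decide) (by decide))
    exact RD hD (f := 0) [25, 5, 3] (by decide) ⟨by decide, by decide, by decide, by decide⟩ (by decide) (by decide) h3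

theorem nd33_29 : NoDo 33 29 := by
  intro V _ ρ hV hD v
  by_contra hv
  have hne : ∃ v : V, v ≠ 0 := ⟨v, hv⟩
  have h0 : FxT ρ 0 := R0 hv
  have hp : Nat.Prime 29 := by norm_num
  rcases mP (ρ := ρ) hp hV (b := 33) ⟨11, 3, by norm_num, by norm_num, (by decide), by norm_num, by norm_num, by norm_num⟩ (by norm_num) with h1 | h1
  · exact RD hD (f := 0) [33] (by decide) ⟨by decide, by decide, by decide, by decide⟩ (by decide) (by decide) h1
  · have h3 := (mS hp hV hne h1 [27, 5] (by decide) (by decide) (by decide))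
    exact RD hD (f := 1) [27, 5] (by decide) ⟨by decide, by decide, by decide, by decide⟩ (by decide) (by decide) h3

theorem nd33 {p : ℕ} (hp : p.Prime) (h2 : p ≠ 2) : NoDo 33 p := by
  by_cases h3 : p = 3
  · rw [h3]; exact nd33_3
  by_cases h11 : p = 11
  · rw [h11]; exact nd33_11
  by_cases h29 : p = 29
  · rw [h29]; exact nd33_29
  have d2 : ¬ p ∣ 2 := ndv1 hp (by norm_num) h2
  have d3 : ¬ p ∣ 3 := ndv1 hp (by norm_num) h3
  have d11 : ¬ p ∣ 11 := ndv1 hp (by norm_num) h11
  have d29 : ¬ p ∣ 29 := ndv1 hp (by norm_num) h29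
  have e3 : ¬ p ∣ 3 := d3
  have e29 : ¬ p ∣ 29 := d29
  have e33 : ¬ p ∣ 33 := (ndvm hp d3 d11)
  intro V _ ρ hV hD v
  by_contra hv
  have hne : ∃ v : V, v ≠ 0 := ⟨v, hv⟩
  have h0 : FxT ρ 0 := R0 hv
  rcases mP (ρ := ρ) hp hV (b := 33) ⟨11, 3, by norm_num, by norm_num, (Ne.symm h11), by norm_num, by norm_num, by norm_num⟩ (by norm_num) with h1 | h1
  · exact RD hD (f := 0) [33] (by decide) ⟨by decide, by decide, by decide, by decide⟩ (by intro x hx; simp only [List.mem_cons, List.not_mem_nil, or_false] at hx; rcases hx with rfl <;> assumption) (by decide) h1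
  · have h3 := (mS hp hV hne h1 [29, 3] (by decide) (by intro x hx; simp only [List.mem_cons, List.not_mem_nil, or_false] at hx; rcases hx with rfl | rfl <;> exact ⟨by decide, by decide, by assumption⟩) (by decide))
    exact RD hD (f := 1) [29, 3] (by decide) ⟨by decide, by decide, by decide, by decide⟩ (by intro x hx; simp only [List.mem_cons, List.not_mem_nil, or_false] at hx; rcases hx with rfl | rfl <;> assumption) (by decide) h3

theorem nd34_3 : NoDo 34 3 := by
  intro V _ ρ hV hD v
  by_contra hv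
  have hne : ∃ v : V, v ≠ 0 := ⟨v, hv⟩
  have h0 : FxT ρ 0 := R0 hv
  have hp : Nat.Prime 3 := by norm_num
  rcases mP (ρ := ρ) hp hV (b := 34) ⟨17, 2, by norm_num, by norm_num, (by decide), by norm_num, by norm_num, by norm_num⟩ (by norm_num) with h1 | h1
  · exact RD hD (f := 0) [34] (by decide) ⟨by decide, by decide, by decide, by decide⟩ (by decide) (by decide) h1
  · have h3 := (mS hp hV hne h1 [17, 11, 5] (by decide) (by decide) (by decide))
    exact RD hD (f := 1) [17, 11, 5] (by decide) ⟨by decide, by decide, by decide, by decide⟩ (by decide) (by decide) h3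

theorem nd34_5 : NoDo 34 5 := by
  intro V _ ρ hV hD v
  by_contra hv
  have hne : ∃ v : V, v ≠ 0 := ⟨v, hv⟩
  have h0 : FxT ρ 0 := R0 hv
  have hp : Nat.Prime 5 := by norm_num
  rcases mP (ρ := ρ) hp hV (b := 33) ⟨11, 3, by norm_num, by norm_num, (by decide), by norm_num, by norm_num, by norm_num⟩ (by norm_num) with h1 | h1
  · exact RD hD (f := 1) [33] (by decide) ⟨by decide, by decide, by decide, by decide⟩ (by decide) (by decide) h1
  · have h3 := (mS hp hV hne h1 [23, 7, 3] (by decide) (by decide) (by decide))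
    exact RD hD (f := 1) [23, 7, 3] (by decide) ⟨by decide, by decide, by decide, by decide⟩ (by decide) (by decide) h3

theorem nd34_11 : NoDo 34 11 := by
  intro V _ ρ hV hD v
  by_contra hv
  have hne : ∃ v : V, v ≠ 0 := ⟨v, hv⟩
  have h0 : FxT ρ 0 := R0 hv
  have hp : Nat.Prime 11 := by norm_num
  rcases mP (ρ := ρ) hp hV (b := 34) ⟨17, 2, by norm_num, by norm_num, (by decide), by norm_num, by norm_num, by norm_num⟩ (by norm_num) with h1 | h1
  · exact RD hD (f := 0) [34] (by decide) ⟨by decide, by decide, by decide, by decide⟩ (by decide) (by decide) h1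
  · have h3 := (mS hp hV hne h1 [25, 5, 3] (by decide) (by decide) (by decide))
    exact RD hD (f := 1) [25, 5, 3] (by decide) ⟨by decide, by decide, by decide, by decide⟩ (by decide) (by decide) h3

theorem nd34 {p : ℕ} (hp : p.Prime) (h2 : p ≠ 2) : NoDo 34 p := by
  by_cases h3 : p = 3
  · rw [h3]; exact nd34_3
  by_cases h5 : p = 5
  · rw [h5]; exact nd34_5
  by_cases h11 : p = 11
  · rw [h11]; exact nd34_11
  have d2 : ¬ p ∣ 2 := ndv1 hp (by norm_num) h2
  have d3 : ¬ p ∣ 3 := ndv1 hp (by norm_num) h3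
  have d5 : ¬ p ∣ 5 := ndv1 hp (by norm_num) h5
  have d11 : ¬ p ∣ 11 := ndv1 hp (by norm_num) h11
  have e3 : ¬ p ∣ 3 := d3
  have e5 : ¬ p ∣ 5 := d5
  have e25 : ¬ p ∣ 25 := (ndvm hp d5 d5)
  have e33 : ¬ p ∣ 33 := (ndvm hp d3 d11)
  intro V _ ρ hV hD v
  by_contra hv
  have hne : ∃ v : V, v ≠ 0 := ⟨v, hv⟩
  have h0 : FxT ρ 0 := R0 hv
  rcases mP (ρ := ρ) hp hV (b := 33) ⟨11, 3, by norm_num, by norm_num, (Ne.symm h11), by norm_num, by norm_num, by norm_num⟩ (by norm_num) with h1 | h1
  · exact RD hD (f := 1) [33] (by decide) ⟨by decide, by decide, by decide, by decide⟩ (by intro x hx; simp only [List.mem_cons, List.not_mem_nil, or_false] at hx; rcases hx with rfl <;> assumption) (by decide) h1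
  · have h3 := (mS hp hV hne h1 [25, 5, 3] (by decide) (by intro x hx; simp only [List.mem_cons, List.not_mem_nil, or_false] at hx; rcases hx with rfl | rfl | rfl <;> exact ⟨by decide, by decide, by assumption⟩) (by decide))
    exact RD hD (f := 1) [25, 5, 3] (by decide) ⟨by decide, by decide, by decide, by decide⟩ (by intro x hx; simp only [List.mem_cons, List.not_mem_nil, or_false] at hx; rcases hx with rfl | rfl | rfl <;> assumption) (by decide) h3

theorem nd35_3 : NoDo 35 3 := by
  intro V _ ρ hV hD v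
  by_contra hv
  have hne : ∃ v : V, v ≠ 0 := ⟨v, hv⟩
  have h0 : FxT ρ 0 := R0 hv
  have hp : Nat.Prime 3 := by norm_num
  rcases mP (ρ := ρ) hp hV (b := 34) ⟨17, 2, by norm_num, by norm_num, (by decide), by norm_num, by norm_num, by norm_num⟩ (by norm_num) with h1 | h1
  · exact RD hD (f := 1) [34] (by decide) ⟨by decide, by decide, by decide, by decide⟩ (by decide) (by decide) h1
  · have h3 := (mS hp hV hne h1 [29, 5] (by decide) (by decide) (by decide))
    exact RD hD (f := 1) [29, 5] (by decide) ⟨by decide, by decide, by decide, by decide⟩ (by decide) (by decide) h3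

theorem nd35_17 : NoDo 35 17 := by
  intro V _ ρ hV hD v
  by_contra hv
  have hne : ∃ v : V, v ≠ 0 := ⟨v, hv⟩
  have h0 : FxT ρ 0 := R0 hv
  have hp : Nat.Prime 17 := by norm_num
  rcases mP (ρ := ρ) hp hV (b := 35) ⟨5, 7, by norm_num, by norm_num, (by decide), by norm_num, by norm_num, by norm_num⟩ (by norm_num) with h1 | h1
  · exact RD hD (f := 0) [35] (by decide) ⟨by decide, by decide, by decide, by decide⟩ (by decide) (by decide) h1
  · have h3 := (mS hp hV hne h1 [31, 3] (by decide) (by decide) (by decide))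
    exact RD hD (f := 1) [31, 3] (by decide) ⟨by decide, by decide, by decide, by decide⟩ (by decide) (by decide) h3

theorem nd35_31 : NoDo 35 31 := by
  intro V _ ρ hV hD v
  by_contra hv
  have hne : ∃ v : V, v ≠ 0 := ⟨v, hv⟩
  have h0 : FxT ρ 0 := R0 hv
  have hp : Nat.Prime 31 := by norm_num
  rcases mP (ρ := ρ) hp hV (b := 34) ⟨17, 2, by norm_num, by norm_num, (by decide), by norm_num, by norm_num, by norm_num⟩ (by norm_num) with h1 | h1
  · exact RD hD (f := 1) [34] (by decide) ⟨by decide, by decide, by decide, by decide⟩ (by decide) (by decide) h1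
  · have h3 := (mS hp hV hne h1 [29, 5] (by decide) (by decide) (by decide))
    exact RD hD (f := 1) [29, 5] (by decide) ⟨by decide, by decide, by decide, by decide⟩ (by decide) (by decide) h3

theorem nd35 {p : ℕ} (hp : p.Prime) (h2 : p ≠ 2) : NoDo 35 p := by
  by_cases h3 : p = 3
  · rw [h3]; exact nd35_3
  by_cases h17 : p = 17
  · rw [h17]; exact nd35_17
  by_cases h31 : p = 31
  · rw [h31]; exact nd35_31
  have d2 : ¬ p ∣ 2 := ndv1 hp (by norm_num) h2
  have d3 : ¬ p ∣ 3 := ndv1 hp (by norm_num) h3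
  have d17 : ¬ p ∣ 17 := ndv1 hp (by norm_num) h17
  have d31 : ¬ p ∣ 31 := ndv1 hp (by norm_num) h31
  have e3 : ¬ p ∣ 3 := d3
  have e31 : ¬ p ∣ 31 := d31
  have e34 : ¬ p ∣ 34 := (ndvm hp d2 d17)
  intro V _ ρ hV hD v
  by_contra hv
  have hne : ∃ v : V, v ≠ 0 := ⟨v, hv⟩
  have h0 : FxT ρ 0 := R0 hv
  rcases mP (ρ := ρ) hp hV (b := 34) ⟨17, 2, by norm_num, by norm_num, (Ne.symm h17), by norm_num, by norm_num, by norm_num⟩ (by norm_num) with h1 | h1
  · exact RD hD (f := 1) [34] (by decide) ⟨by decide, by decide, by decide, by decide⟩ (by intro x hx; simp only [List.mem_cons, List.not_mem_nil, or_false] at hx; rcases hx with rfl <;> assumption) (by decide) h1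
  · have h3 := (mS hp hV hne h1 [31, 3] (by decide) (by intro x hx; simp only [List.mem_cons, List.not_mem_nil, or_false] at hx; rcases hx with rfl | rfl <;> exact ⟨by decide, by decide, by assumption⟩) (by decide))
    exact RD hD (f := 1) [31, 3] (by decide) ⟨by decide, by decide, by decide, by decide⟩ (by intro x hx; simp only [List.mem_cons, List.not_mem_nil, or_false] at hx; rcases hx with rfl | rfl <;> assumption) (by decide) h3

theorem nd36_3 : NoDo 36 3 := by
  intro V _ ρ hV hD v
  by_contra hv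
  have hne : ∃ v : V, v ≠ 0 := ⟨v, hv⟩
  have h0 : FxT ρ 0 := R0 hv
  have hp : Nat.Prime 3 := by norm_num
  rcases mP (ρ := ρ) hp hV (b := 35) ⟨5, 7, by norm_num, by norm_num, (by decide), by norm_num, by norm_num, by norm_num⟩ (by norm_num) with h1 | h1
  · exact RD hD (f := 1) [35] (by decide) ⟨by decide, by decide, by decide, by decide⟩ (by decide) (by decide) h1
  · have h3 := (mS hp hV hne h1 [23, 7, 5] (by decide) (by decide) (by decide))
    exact RD hD (f := 1) [23, 7, 5] (by decide) ⟨by decide, by decide, by decide, by decide⟩ (by decide) (by decide) h3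

theorem nd36_5 : NoDo 36 5 := by
  intro V _ ρ hV hD v
  by_contra hv
  have hne : ∃ v : V, v ≠ 0 := ⟨v, hv⟩
  have h0 : FxT ρ 0 := R0 hv
  have hp : Nat.Prime 5 := by norm_num
  rcases mP (ρ := ρ) hp hV (b := 36) ⟨3, 12, by norm_num, by norm_num, (by decide), by norm_num, by norm_num, by norm_num⟩ (by norm_num) with h1 | h1
  · exact RD hD (f := 0) [36] (by decide) ⟨by decide, by decide, by decide, by decide⟩ (by decide) (by decide) h1
  · have h3 := (mS hp hV hne h1 [23, 9, 3] (by decide) (by decide) (by decide))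
    exact RD hD (f := 1) [23, 9, 3] (by decide) ⟨by decide, by decide, by decide, by decide⟩ (by decide) (by decide) h3

theorem nd36_7 : NoDo 36 7 := by
  intro V _ ρ hV hD v
  by_contra hv
  have hne : ∃ v : V, v ≠ 0 := ⟨v, hv⟩
  have h0 : FxT ρ 0 := R0 hv
  have hp : Nat.Prime 7 := by norm_num
  rcases mP (ρ := ρ) hp hV (b := 36) ⟨3, 12, by norm_num, by norm_num, (by decide), by norm_num, by norm_num, by norm_num⟩ (by norm_num) with h1 | h1
  · exact RD hD (f := 0) [36] (by decide) ⟨by decide, by decide, by decide, by decide⟩ (by decide) (by decide) h1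
  · have h3 := (mS hp hV hne h1 [27, 5, 3] (by decide) (by decide) (by decide))
    exact RD hD (f := 1) [27, 5, 3] (by decide) ⟨by decide, by decide, by decide, by decide⟩ (by decide) (by decide) h3

theorem nd36 {p : ℕ} (hp : p.Prime) (h2 : p ≠ 2) : NoDo 36 p := by
  by_cases h3 : p = 3
  · rw [h3]; exact nd36_3
  by_cases h5 : p = 5
  · rw [h5]; exact nd36_5
  by_cases h7 : p = 7
  · rw [h7]; exact nd36_7
  have d2 : ¬ p ∣ 2 := ndv1 hp (by norm_num) h2
  have d3 : ¬ p ∣ 3 := ndv1 hp (by norm_num) h3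
  have d5 : ¬ p ∣ 5 := ndv1 hp (by norm_num) h5
  have d7 : ¬ p ∣ 7 := ndv1 hp (by norm_num) h7
  have e3 : ¬ p ∣ 3 := d3
  have e5 : ¬ p ∣ 5 := d5
  have e27 : ¬ p ∣ 27 := (ndvm hp (ndvm hp d3 d3) d3)
  have e35 : ¬ p ∣ 35 := (ndvm hp d5 d7)
  intro V _ ρ hV hD v
  by_contra hv
  have hne : ∃ v : V, v ≠ 0 := ⟨v, hv⟩
  have h0 : FxT ρ 0 := R0 hv
  rcases mP (ρ := ρ) hp hV (b := 35) ⟨5, 7, by norm_num, by norm_num, (Ne.symm h5), by norm_num, by norm_num, by norm_num⟩ (by norm_num) with h1 | h1
  · exact RD hD (f := 1) [35] (by decide) ⟨by decide, by decide, by decide, by decide⟩ (by intro x hx; simp only [List.mem_cons, List.not_mem_nil, or_false] at hx; rcases hx with rfl <;> assumption) (by decide) h1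
  · have h3 := (mS hp hV hne h1 [27, 5, 3] (by decide) (by intro x hx; simp only [List.mem_cons, List.not_mem_nil, or_false] at hx; rcases hx with rfl | rfl | rfl <;> exact ⟨by decide, by decide, by assumption⟩) (by decide))
    exact RD hD (f := 1) [27, 5, 3] (by decide) ⟨by decide, by decide, by decide, by decide⟩ (by intro x hx; simp only [List.mem_cons, List.not_mem_nil, or_false] at hx; rcases hx with rfl | rfl | rfl <;> assumption) (by decide) h3

theorem nd37_3 : NoDo 37 3 := by
  intro V _ ρ hV hD v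
  by_contra hv
  have hne : ∃ v : V, v ≠ 0 := ⟨v, hv⟩
  have h0 : FxT ρ 0 := R0 hv
  have hp : Nat.Prime 3 := by norm_num
  rcases mT (ρ := ρ) hne with h1 | h1
  · obtain ⟨U, _, ρ', hU, hneU, hl⟩ := lift (k := 35) hV h1 (by decide)
    rcases mP (ρ := ρ') hp hU (b := 35) ⟨5, 7, by norm_num, by norm_num, (by decide), by norm_num, by norm_num, by norm_num⟩ (by norm_num) with h1 | h1
    · have h2 := hl _ h1
      exact RD hD (f := 0) [35, 2] (by decide) ⟨by decide, by decide, by decide, by decide⟩ (by decide) (by decide) h2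
    · have h3 := (hl _ (mS hp hU hneU h1 [29, 5] (by decide) (by decide) (by decide)))
      exact RD hD (f := 1) [29, 5, 2] (by decide) ⟨by decide, by decide, by decide, by decide⟩ (by decide) (by decide) h3
  · have h3 := (altfx h1 ({37} : Multiset ℕ) (by decide) (by decide) (by decide))
    exact RD hD (f := 0) [37] (by decide) ⟨by decide, by decide, by decide, by decide⟩ (by decide) (by decide) h3

theorem nd37_37 : NoDo 37 37 := by
  intro V _ ρ hV hD v
  by_contra hv
  have hne : ∃ v : V, v ≠ 0 := ⟨v, hv⟩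
  have h0 : FxT ρ 0 := R0 hv
  have hp : Nat.Prime 37 := by norm_num
  rcases mP (ρ := ρ) hp hV (b := 36) ⟨3, 12, by norm_num, by norm_num, (by decide), by norm_num, by norm_num, by norm_num⟩ (by norm_num) with h1 | h1
  · exact RD hD (f := 1) [36] (by decide) ⟨by decide, by decide, by decide, by decide⟩ (by decide) (by decide) h1
  · have h3 := (mS hp hV hne h1 [33, 3] (by decide) (by decide) (by decide))
    exact RD hD (f := 1) [33, 3] (by decide) ⟨by decide, by decide, by decide, by decide⟩ (by decide) (by decide) h3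

theorem nd37 {p : ℕ} (hp : p.Prime) (h2 : p ≠ 2) : NoDo 37 p := by
  by_cases h3 : p = 3
  · rw [h3]; exact nd37_3
  by_cases h37 : p = 37
  · rw [h37]; exact nd37_37
  have d2 : ¬ p ∣ 2 := ndv1 hp (by norm_num) h2
  have d3 : ¬ p ∣ 3 := ndv1 hp (by norm_num) h3
  have d37 : ¬ p ∣ 37 := ndv1 hp (by norm_num) h37
  have e36 : ¬ p ∣ 36 := (ndvm hp (ndvm hp (ndvm hp d2 d2) d3) d3)
  have e37 : ¬ p ∣ 37 := d37
  intro V _ ρ hV hD v
  by_contra hv
  have hne : ∃ v : V, v ≠ 0 := ⟨v, hv⟩
  have h0 : FxT ρ 0 := R0 hv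
  rcases mM (ρ := ρ) hp hV hne 37 (Nat.Prime.isPrimePow (by norm_num)) (by norm_num) e37 (by norm_num) (by norm_num) with h1 | h1
  · exact RD hD (f := 1) [36] (by decide) ⟨by decide, by decide, by decide, by decide⟩ (by intro x hx; simp only [List.mem_cons, List.not_mem_nil, or_false] at hx; rcases hx with rfl <;> assumption) (by decide) h1
  · have h3 := (altfx h1 ({37} : Multiset ℕ) (by decide) (by decide) (by decide))
    exact RD hD (f := 0) [37] (by decide) ⟨by decide, by decide, by decide, by decide⟩ (by intro x hx; simp only [List.mem_cons, List.not_mem_nil, or_false] at hx; rcases hx with rfl <;> assumption) (by decide) h3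

theorem nd38_3 : NoDo 38 3 := by
  intro V _ ρ hV hD v
  by_contra hv
  have hne : ∃ v : V, v ≠ 0 := ⟨v, hv⟩
  have h0 : FxT ρ 0 := R0 hv
  have hp : Nat.Prime 3 := by norm_num
  rcases mP (ρ := ρ) hp hV (b := 38) ⟨19, 2, by norm_num, by norm_num, (by decide), by norm_num, by norm_num, by norm_num⟩ (by norm_num) with h1 | h1
  · exact RD hD (f := 0) [38] (by decide) ⟨by decide, by decide, by decide, by decide⟩ (by decide) (by decide) h1
  · have h3 := (mS hp hV hne h1 [25, 7, 5] (by decide) (by decide) (by decide))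
    exact RD hD (f := 1) [25, 7, 5] (by decide) ⟨by decide, by decide, by decide, by decide⟩ (by decide) (by decide) h3

theorem nd38_5 : NoDo 38 5 := by
  intro V _ ρ hV hD v
  by_contra hv
  have hne : ∃ v : V, v ≠ 0 := ⟨v, hv⟩
  have h0 : FxT ρ 0 := R0 hv
  have hp : Nat.Prime 5 := by norm_num
  rcases mP (ρ := ρ) hp hV (b := 38) ⟨19, 2, by norm_num, by norm_num, (by decide), by norm_num, by norm_num, by norm_num⟩ (by norm_num) with h1 | h1
  · exact RD hD (f := 0) [38] (by decide) ⟨by decide, by decide, by decide, by decide⟩ (by decide) (by decide) h1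
  · have h3 := (mS hp hV hne h1 [27, 7, 3] (by decide) (by decide) (by decide))
    exact RD hD (f := 1) [27, 7, 3] (by decide) ⟨by decide, by decide, by decide, by decide⟩ (by decide) (by decide) h3

theorem nd38_19 : NoDo 38 19 := by
  intro V _ ρ hV hD v
  by_contra hv
  have hne : ∃ v : V, v ≠ 0 := ⟨v, hv⟩
  have h0 : FxT ρ 0 := R0 hv
  have hp : Nat.Prime 19 := by norm_num
  rcases mM (ρ := ρ) hp hV hne 4 (by rw [show (4 : ℕ) = 2 ^ 2 by norm_num]; exact (Nat.Prime.isPrimePow (by norm_num)).pow (by norm_num)) (by norm_num) (by decide) (by norm_num) (by norm_num) with h1 | h1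
  · obtain ⟨U, _, ρ', hU, hneU, hl⟩ := lift (k := 35) hV h1 (by decide)
    rcases mP (ρ := ρ') hp hU (b := 34) ⟨17, 2, by norm_num, by norm_num, (by decide), by norm_num, by norm_num, by norm_num⟩ (by norm_num) with h1 | h1
    · have h2 := hl _ h1
      exact RD hD (f := 1) [34, 3] (by decide) ⟨by decide, by decide, by decide, by decide⟩ (by decide) (by decide) h2
    · have h3 := (hl _ (mS hp hU hneU h1 [29, 5] (by decide) (by decide) (by decide)))
      exact RD hD (f := 1) [29, 5, 3] (by decide) ⟨by decide, by decide, by decide, by decide⟩ (by decide) (by decide) h3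
  · have h3 := (altfx h1 ({35, 3} : Multiset ℕ) (by decide) (by decide) (by decide))
    exact RD hD (f := 0) [35, 3] (by decide) ⟨by decide, by decide, by decide, by decide⟩ (by decide) (by decide) h3

theorem nd38_29 : NoDo 38 29 := by
  intro V _ ρ hV hD v
  by_contra hv
  have hne : ∃ v : V, v ≠ 0 := ⟨v, hv⟩
  have h0 : FxT ρ 0 := R0 hv
  have hp : Nat.Prime 29 := by norm_num
  rcases mP (ρ := ρ) hp hV (b := 38) ⟨19, 2, by norm_num, by norm_num, (by decide), by norm_num, by norm_num, by norm_num⟩ (by norm_num) with h1 | h1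
  · exact RD hD (f := 0) [38] (by decide) ⟨by decide, by decide, by decide, by decide⟩ (by decide) (by decide) h1
  · have h3 := (mS hp hV hne h1 [27, 7, 3] (by decide) (by decide) (by decide))
    exact RD hD (f := 1) [27, 7, 3] (by decide) ⟨by decide, by decide, by decide, by decide⟩ (by decide) (by decide) h3

theorem nd38 {p : ℕ} (hp : p.Prime) (h2 : p ≠ 2) : NoDo 38 p := by
  by_cases h3 : p = 3
  · rw [h3]; exact nd38_3
  by_cases h5 : p = 5
  · rw [h5]; exact nd38_5
  by_cases h19 : p = 19
  · rw [h19]; exact nd38_19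
  by_cases h29 : p = 29
  · rw [h29]; exact nd38_29
  have d2 : ¬ p ∣ 2 := ndv1 hp (by norm_num) h2
  have d3 : ¬ p ∣ 3 := ndv1 hp (by norm_num) h3
  have d5 : ¬ p ∣ 5 := ndv1 hp (by norm_num) h5
  have d19 : ¬ p ∣ 19 := ndv1 hp (by norm_num) h19
  have d29 : ¬ p ∣ 29 := ndv1 hp (by norm_num) h29
  have e3 : ¬ p ∣ 3 := d3
  have e5 : ¬ p ∣ 5 := d5
  have e29 : ¬ p ∣ 29 := d29
  have e38 : ¬ p ∣ 38 := (ndvm hp d2 d19)
  intro V _ ρ hV hD v
  by_contra hv
  have hne : ∃ v : V, v ≠ 0 := ⟨v, hv⟩
  have h0 : FxT ρ 0 := R0 hv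
  rcases mP (ρ := ρ) hp hV (b := 38) ⟨19, 2, by norm_num, by norm_num, (Ne.symm h19), by norm_num, by norm_num, by norm_num⟩ (by norm_num) with h1 | h1
  · exact RD hD (f := 0) [38] (by decide) ⟨by decide, by decide, by decide, by decide⟩ (by intro x hx; simp only [List.mem_cons, List.not_mem_nil, or_false] at hx; rcases hx with rfl <;> assumption) (by decide) h1
  · have h3 := (mS hp hV hne h1 [29, 5, 3] (by decide) (by intro x hx; simp only [List.mem_cons, List.not_mem_nil, or_false] at hx; rcases hx with rfl | rfl | rfl <;> exact ⟨by decide, by decide, by assumption⟩) (by decide))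
    exact RD hD (f := 1) [29, 5, 3] (by decide) ⟨by decide, by decide, by decide, by decide⟩ (by intro x hx; simp only [List.mem_cons, List.not_mem_nil, or_false] at hx; rcases hx with rfl | rfl | rfl <;> assumption) (by decide) h3

theorem nd39_3 : NoDo 39 3 := by
  intro V _ ρ hV hD v
  by_contra hv
  have hne : ∃ v : V, v ≠ 0 := ⟨v, hv⟩
  have h0 : FxT ρ 0 := R0 hv
  have hp : Nat.Prime 3 := by norm_num
  rcases mP (ρ := ρ) hp hV (b := 38) ⟨19, 2, by norm_num, by norm_num, (by decide), by norm_num, by norm_num, by norm_num⟩ (by norm_num) with h1 | h1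
  · exact RD hD (f := 1) [38] (by decide) ⟨by decide, by decide, by decide, by decide⟩ (by decide) (by decide) h1
  · have h3 := (mS hp hV hne h1 [31, 7] (by decide) (by decide) (by decide))
    exact RD hD (f := 1) [31, 7] (by decide) ⟨by decide, by decide, by decide, by decide⟩ (by decide) (by decide) h3

theorem nd39_5 : NoDo 39 5 := by
  intro V _ ρ hV hD v
  by_contra hv
  have hne : ∃ v : V, v ≠ 0 := ⟨v, hv⟩
  have h0 : FxT ρ 0 := R0 hv
  have hp : Nat.Prime 5 := by norm_num
  rcases mP (ρ := ρ) hp hV (b := 38) ⟨19, 2, by norm_num, by norm_num, (by decide), by norm_num, by norm_num, by norm_num⟩ (by norm_num) with h1 | h1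
  · exact RD hD (f := 1) [38] (by decide) ⟨by decide, by decide, by decide, by decide⟩ (by decide) (by decide) h1
  · have h3 := (mS hp hV hne h1 [31, 7] (by decide) (by decide) (by decide))
    exact RD hD (f := 1) [31, 7] (by decide) ⟨by decide, by decide, by decide, by decide⟩ (by decide) (by decide) h3

theorem nd39_7 : NoDo 39 7 := by
  intro V _ ρ hV hD v
  by_contra hv
  have hne : ∃ v : V, v ≠ 0 := ⟨v, hv⟩
  have h0 : FxT ρ 0 := R0 hv
  have hp : Nat.Prime 7 := by norm_num
  rcases mP (ρ := ρ) hp hV (b := 38) ⟨19, 2, by norm_num, by norm_num, (by decide), by norm_num, by norm_num, by norm_num⟩ (by norm_num) with h1 | h1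
  · exact RD hD (f := 1) [38] (by decide) ⟨by decide, by decide, by decide, by decide⟩ (by decide) (by decide) h1
  · have h3 := (mS hp hV hne h1 [33, 5] (by decide) (by decide) (by decide))
    exact RD hD (f := 1) [33, 5] (by decide) ⟨by decide, by decide, by decide, by decide⟩ (by decide) (by decide) h3

theorem nd39_19 : NoDo 39 19 := by
  intro V _ ρ hV hD v
  by_contra hv
  have hne : ∃ v : V, v ≠ 0 := ⟨v, hv⟩
  have h0 : FxT ρ 0 := R0 hv
  have hp : Nat.Prime 19 := by norm_num
  rcases mP (ρ := ρ) hp hV (b := 39) ⟨3, 13, by norm_num, by norm_num, (by decide), by norm_num, by norm_num, by norm_num⟩ (by norm_num) with h1 | h1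
  · exact RD hD (f := 0) [39] (by decide) ⟨by decide, by decide, by decide, by decide⟩ (by decide) (by decide) h1
  · have h3 := (mS hp hV hne h1 [35, 3] (by decide) (by decide) (by decide))
    exact RD hD (f := 1) [35, 3] (by decide) ⟨by decide, by decide, by decide, by decide⟩ (by decide) (by decide) h3

theorem nd39 {p : ℕ} (hp : p.Prime) (h2 : p ≠ 2) : NoDo 39 p := by
  by_cases h3 : p = 3
  · rw [h3]; exact nd39_3
  by_cases h5 : p = 5
  · rw [h5]; exact nd39_5
  by_cases h7 : p = 7
  · rw [h7]; exact nd39_7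
  by_cases h19 : p = 19
  · rw [h19]; exact nd39_19
  have d2 : ¬ p ∣ 2 := ndv1 hp (by norm_num) h2
  have d3 : ¬ p ∣ 3 := ndv1 hp (by norm_num) h3
  have d5 : ¬ p ∣ 5 := ndv1 hp (by norm_num) h5
  have d7 : ¬ p ∣ 7 := ndv1 hp (by norm_num) h7
  have d19 : ¬ p ∣ 19 := ndv1 hp (by norm_num) h19
  have e3 : ¬ p ∣ 3 := d3
  have e35 : ¬ p ∣ 35 := (ndvm hp d5 d7)
  have e38 : ¬ p ∣ 38 := (ndvm hp d2 d19)
  intro V _ ρ hV hD v
  by_contra hv
  have hne : ∃ v : V, v ≠ 0 := ⟨v, hv⟩
  have h0 : FxT ρ 0 := R0 hv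
  rcases mP (ρ := ρ) hp hV (b := 38) ⟨19, 2, by norm_num, by norm_num, (Ne.symm h19), by norm_num, by norm_num, by norm_num⟩ (by norm_num) with h1 | h1
  · exact RD hD (f := 1) [38] (by decide) ⟨by decide, by decide, by decide, by decide⟩ (by intro x hx; simp only [List.mem_cons, List.not_mem_nil, or_false] at hx; rcases hx with rfl <;> assumption) (by decide) h1
  · have h3 := (mS hp hV hne h1 [35, 3] (by decide) (by intro x hx; simp only [List.mem_cons, List.not_mem_nil, or_false] at hx; rcases hx with rfl | rfl <;> exact ⟨by decide, by decide, by assumption⟩) (by decide))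
    exact RD hD (f := 1) [35, 3] (by decide) ⟨by decide, by decide, by decide, by decide⟩ (by intro x hx; simp only [List.mem_cons, List.not_mem_nil, or_false] at hx; rcases hx with rfl | rfl <;> assumption) (by decide) h3

theorem nd40_3 : NoDo 40 3 := by
  intro V _ ρ hV hD v
  by_contra hv
  have hne : ∃ v : V, v ≠ 0 := ⟨v, hv⟩
  have h0 : FxT ρ 0 := R0 hv
  have hp : Nat.Prime 3 := by norm_num
  rcases mP (ρ := ρ) hp hV (b := 40) ⟨5, 8, by norm_num, by norm_num, (by decide), by norm_num, by norm_num, by norm_num⟩ (by norm_num) with h1 | h1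
  · exact RD hD (f := 0) [40] (by decide) ⟨by decide, by decide, by decide, by decide⟩ (by decide) (by decide) h1
  · have h3 := (mS hp hV hne h1 [23, 11, 5] (by decide) (by decide) (by decide))
    exact RD hD (f := 1) [23, 11, 5] (by decide) ⟨by decide, by decide, by decide, by decide⟩ (by decide) (by decide) h3

theorem nd40_5 : NoDo 40 5 := by
  intro V _ ρ hV hD v
  by_contra hv
  have hne : ∃ v : V, v ≠ 0 := ⟨v, hv⟩
  have h0 : FxT ρ 0 := R0 hv
  have hp : Nat.Prime 5 := by norm_num
  rcases mP (ρ := ρ) hp hV (b := 39) ⟨3, 13, by norm_num, by norm_num, (by decide), by norm_num, by norm_num, by norm_num⟩ (by norm_num) with h1 | h1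
  · exact RD hD (f := 1) [39] (by decide) ⟨by decide, by decide, by decide, by decide⟩ (by decide) (by decide) h1
  · have h3 := (mS hp hV hne h1 [29, 7, 3] (by decide) (by decide) (by decide))
    exact RD hD (f := 1) [29, 7, 3] (by decide) ⟨by decide, by decide, by decide, by decide⟩ (by decide) (by decide) h3

theorem nd40_13 : NoDo 40 13 := by
  intro V _ ρ hV hD v
  by_contra hv
  have hne : ∃ v : V, v ≠ 0 := ⟨v, hv⟩
  have h0 : FxT ρ 0 := R0 hv
  have hp : Nat.Prime 13 := by norm_num
  rcases mP (ρ := ρ) hp hV (b := 40) ⟨5, 8, by norm_num, by norm_num, (by decide), by norm_num, by norm_num, by norm_num⟩ (by norm_num) with h1 | h1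
  · exact RD hD (f := 0) [40] (by decide) ⟨by decide, by decide, by decide, by decide⟩ (by decide) (by decide) h1
  · have h3 := (mS hp hV hne h1 [31, 5, 3] (by decide) (by decide) (by decide))
    exact RD hD (f := 1) [31, 5, 3] (by decide) ⟨by decide, by decide, by decide, by decide⟩ (by decide) (by decide) h3

theorem nd40_31 : NoDo 40 31 := by
  intro V _ ρ hV hD v
  by_contra hv
  have hne : ∃ v : V, v ≠ 0 := ⟨v, hv⟩
  have h0 : FxT ρ 0 := R0 hv
  have hp : Nat.Prime 31 := by norm_num
  rcases mP (ρ := ρ) hp hV (b := 39) ⟨3, 13, by norm_num, by norm_num, (by decide), by norm_num, by norm_num, by norm_num⟩ (by norm_num) with h1 | h1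
  · exact RD hD (f := 1) [39] (by decide) ⟨by decide, by decide, by decide, by decide⟩ (by decide) (by decide) h1
  · have h3 := (mS hp hV hne h1 [29, 7, 3] (by decide) (by decide) (by decide))
    exact RD hD (f := 1) [29, 7, 3] (by decide) ⟨by decide, by decide, by decide, by decide⟩ (by decide) (by decide) h3

theorem nd40 {p : ℕ} (hp : p.Prime) (h2 : p ≠ 2) : NoDo 40 p := by
  by_cases h3 : p = 3
  · rw [h3]; exact nd40_3
  by_cases h5 : p = 5
  · rw [h5]; exact nd40_5
  by_cases h13 : p = 13
  · rw [h13]; exact nd40_13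
  by_cases h31 : p = 31
  · rw [h31]; exact nd40_31
  have d2 : ¬ p ∣ 2 := ndv1 hp (by norm_num) h2
  have d3 : ¬ p ∣ 3 := ndv1 hp (by norm_num) h3
  have d5 : ¬ p ∣ 5 := ndv1 hp (by norm_num) h5
  have d13 : ¬ p ∣ 13 := ndv1 hp (by norm_num) h13
  have d31 : ¬ p ∣ 31 := ndv1 hp (by norm_num) h31
  have e3 : ¬ p ∣ 3 := d3
  have e5 : ¬ p ∣ 5 := d5
  have e31 : ¬ p ∣ 31 := d31
  have e39 : ¬ p ∣ 39 := (ndvm hp d3 d13)
  intro V _ ρ hV hD v
  by_contra hv
  have hne : ∃ v : V, v ≠ 0 := ⟨v, hv⟩
  have h0 : FxT ρ 0 := R0 hv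
  rcases mP (ρ := ρ) hp hV (b := 39) ⟨3, 13, by norm_num, by norm_num, (Ne.symm h3), by norm_num, by norm_num, by norm_num⟩ (by norm_num) with h1 | h1
  · exact RD hD (f := 1) [39] (by decide) ⟨by decide, by decide, by decide, by decide⟩ (by intro x hx; simp only [List.mem_cons, List.not_mem_nil, or_false] at hx; rcases hx with rfl <;> assumption) (by decide) h1
  · have h3 := (mS hp hV hne h1 [31, 5, 3] (by decide) (by intro x hx; simp only [List.mem_cons, List.not_mem_nil, or_false] at hx; rcases hx with rfl | rfl | rfl <;> exact ⟨by decide, by decide, by assumption⟩) (by decide))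
    exact RD hD (f := 1) [31, 5, 3] (by decide) ⟨by decide, by decide, by decide, by decide⟩ (by intro x hx; simp only [List.mem_cons, List.not_mem_nil, or_false] at hx; rcases hx with rfl | rfl | rfl <;> assumption) (by decide) h3

theorem nd41_5 : NoDo 41 5 := by
  intro V _ ρ hV hD v
  by_contra hv
  have hne : ∃ v : V, v ≠ 0 := ⟨v, hv⟩
  have h0 : FxT ρ 0 := R0 hv
  have hp : Nat.Prime 5 := by norm_num
  rcases mT (ρ := ρ) hne with h1 | h1
  · obtain ⟨U, _, ρ', hU, hneU, hl⟩ := lift (k := 39) hV h1 (by decide)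
    rcases mP (ρ := ρ') hp hU (b := 39) ⟨3, 13, by norm_num, by norm_num, (by decide), by norm_num, by norm_num, by norm_num⟩ (by norm_num) with h1 | h1
    · have h2 := hl _ h1
      exact RD hD (f := 0) [39, 2] (by decide) ⟨by decide, by decide, by decide, by decide⟩ (by decide) (by decide) h2
    · have h3 := (hl _ (mS hp hU hneU h1 [31, 7] (by decide) (by decide) (by decide)))
      exact RD hD (f := 1) [31, 7, 2] (by decide) ⟨by decide, by decide, by decide, by decide⟩ (by decide) (by decide) h3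
  · have h3 := (altfx h1 ({41} : Multiset ℕ) (by decide) (by decide) (by decide))
    exact RD hD (f := 0) [41] (by decide) ⟨by decide, by decide, by decide, by decide⟩ (by decide) (by decide) h3

theorem nd41_41 : NoDo 41 41 := by
  intro V _ ρ hV hD v
  by_contra hv
  have hne : ∃ v : V, v ≠ 0 := ⟨v, hv⟩
  have h0 : FxT ρ 0 := R0 hv
  have hp : Nat.Prime 41 := by norm_num
  rcases mP (ρ := ρ) hp hV (b := 40) ⟨5, 8, by norm_num, by norm_num, (by decide), by norm_num, by norm_num, by norm_num⟩ (by norm_num) with h1 | h1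
  · exact RD hD (f := 1) [40] (by decide) ⟨by decide, by decide, by decide, by decide⟩ (by decide) (by decide) h1
  · have h3 := (mS hp hV hne h1 [37, 3] (by decide) (by decide) (by decide))
    exact RD hD (f := 1) [37, 3] (by decide) ⟨by decide, by decide, by decide, by decide⟩ (by decide) (by decide) h3

theorem nd41 {p : ℕ} (hp : p.Prime) (h2 : p ≠ 2) : NoDo 41 p := by
  by_cases h5 : p = 5
  · rw [h5]; exact nd41_5
  by_cases h41 : p = 41
  · rw [h41]; exact nd41_41
  have d2 : ¬ p ∣ 2 := ndv1 hp (by norm_num) h2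
  have d5 : ¬ p ∣ 5 := ndv1 hp (by norm_num) h5
  have d41 : ¬ p ∣ 41 := ndv1 hp (by norm_num) h41
  have e40 : ¬ p ∣ 40 := (ndvm hp (ndvm hp (ndvm hp d2 d2) d2) d5)
  have e41 : ¬ p ∣ 41 := d41
  intro V _ ρ hV hD v
  by_contra hv
  have hne : ∃ v : V, v ≠ 0 := ⟨v, hv⟩
  have h0 : FxT ρ 0 := R0 hv
  rcases mM (ρ := ρ) hp hV hne 41 (Nat.Prime.isPrimePow (by norm_num)) (by norm_num) e41 (by norm_num) (by norm_num) with h1 | h1
  · exact RD hD (f := 1) [40] (by decide) ⟨by decide, by decide, by decide, by decide⟩ (by intro x hx; simp only [List.mem_cons, List.not_mem_nil, or_false] at hx; rcases hx with rfl <;> assumption) (by decide) h1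
  · have h3 := (altfx h1 ({41} : Multiset ℕ) (by decide) (by decide) (by decide))
    exact RD hD (f := 0) [41] (by decide) ⟨by decide, by decide, by decide, by decide⟩ (by intro x hx; simp only [List.mem_cons, List.not_mem_nil, or_false] at hx; rcases hx with rfl <;> assumption) (by decide) h3

theorem nd42_3 : NoDo 42 3 := by
  intro V _ ρ hV hD v
  by_contra hv
  have hne : ∃ v : V, v ≠ 0 := ⟨v, hv⟩
  have h0 : FxT ρ 0 := R0 hv
  have hp : Nat.Prime 3 := by norm_num
  rcases mM (ρ := ρ) hp hV hne 8 (by rw [show (8 : ℕ) = 2 ^ 3 by norm_num]; exact (Nat.Prime.isPrimePow (by norm_num)).pow (by norm_num)) (by norm_num) (by decide) (by norm_num) (by norm_num) with h1 | h1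
  · obtain ⟨U, _, ρ', hU, hneU, hl⟩ := lift (k := 35) hV h1 (by decide)
    rcases mP (ρ := ρ') hp hU (b := 34) ⟨17, 2, by norm_num, by norm_num, (by decide), by norm_num, by norm_num, by norm_num⟩ (by norm_num) with h1 | h1
    · have h2 := hl _ h1
      exact RD hD (f := 1) [34, 7] (by decide) ⟨by decide, by decide, by decide, by decide⟩ (by decide) (by decide) h2
    · have h3 := (hl _ (mS hp hU hneU h1 [29, 5] (by decide) (by decide) (by decide)))
      exact RD hD (f := 1) [29, 7, 5] (by decide) ⟨by decide, by decide, by decide, by decide⟩ (by decide) (by decide) h3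
  · have h3 := (altfx h1 ({37, 5} : Multiset ℕ) (by decide) (by decide) (by decide))
    exact RD hD (f := 0) [37, 5] (by decide) ⟨by decide, by decide, by decide, by decide⟩ (by decide) (by decide) h3

theorem nd42_5 : NoDo 42 5 := by
  intro V _ ρ hV hD v
  by_contra hv
  have hne : ∃ v : V, v ≠ 0 := ⟨v, hv⟩
  have h0 : FxT ρ 0 := R0 hv
  have hp : Nat.Prime 5 := by norm_num
  rcases mP (ρ := ρ) hp hV (b := 42) ⟨3, 14, by norm_num, by norm_num, (by decide), by norm_num, by norm_num, by norm_num⟩ (by norm_num) with h1 | h1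
  · exact RD hD (f := 0) [42] (by decide) ⟨by decide, by decide, by decide, by decide⟩ (by decide) (by decide) h1
  · have h3 := (mS hp hV hne h1 [31, 7, 3] (by decide) (by decide) (by decide))
    exact RD hD (f := 1) [31, 7, 3] (by decide) ⟨by decide, by decide, by decide, by decide⟩ (by decide) (by decide) h3

theorem nd42_7 : NoDo 42 7 := by
  intro V _ ρ hV hD v
  by_contra hv
  have hne : ∃ v : V, v ≠ 0 := ⟨v, hv⟩
  have h0 : FxT ρ 0 := R0 hv
  have hp : Nat.Prime 7 := by norm_num
  rcases mM (ρ := ρ) hp hV hne 4 (by rw [show (4 : ℕ) = 2 ^ 2 by norm_num]; exact (Nat.Prime.isPrimePow (by norm_num)).pow (by norm_num)) (by norm_num) (by decide) (by norm_num) (by norm_num) with h1 | h1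
  · obtain ⟨U, _, ρ', hU, hneU, hl⟩ := lift (k := 39) hV h1 (by decide)
    rcases mP (ρ := ρ') hp hU (b := 38) ⟨19, 2, by norm_num, by norm_num, (by decide), by norm_num, by norm_num, by norm_num⟩ (by norm_num) with h1 | h1
    · have h2 := hl _ h1
      exact RD hD (f := 1) [38, 3] (by decide) ⟨by decide, by decide, by decide, by decide⟩ (by decide) (by decide) h2
    · have h3 := (hl _ (mS hp hU hneU h1 [33, 5] (by decide) (by decide) (by decide)))
      exact RD hD (f := 1) [33, 5, 3] (by decide) ⟨by decide, by decide, by decide, by decide⟩ (by decide) (by decide) h3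
  · have h3 := (altfx h1 ({39, 3} : Multiset ℕ) (by decide) (by decide) (by decide))
    exact RD hD (f := 0) [39, 3] (by decide) ⟨by decide, by decide, by decide, by decide⟩ (by decide) (by decide) h3

theorem nd42_11 : NoDo 42 11 := by
  intro V _ ρ hV hD v
  by_contra hv
  have hne : ∃ v : V, v ≠ 0 := ⟨v, hv⟩
  have h0 : FxT ρ 0 := R0 hv
  have hp : Nat.Prime 11 := by norm_num
  rcases mP (ρ := ρ) hp hV (b := 42) ⟨3, 14, by norm_num, by norm_num, (by decide), by norm_num, by norm_num, by norm_num⟩ (by norm_num) with h1 | h1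
  · exact RD hD (f := 0) [42] (by decide) ⟨by decide, by decide, by decide, by decide⟩ (by decide) (by decide) h1
  · have h3 := (mS hp hV hne h1 [31, 7, 3] (by decide) (by decide) (by decide))
    exact RD hD (f := 1) [31, 7, 3] (by decide) ⟨by decide, by decide, by decide, by decide⟩ (by decide) (by decide) h3

theorem nd42 {p : ℕ} (hp : p.Prime) (h2 : p ≠ 2) : NoDo 42 p := by
  by_cases h3 : p = 3
  · rw [h3]; exact nd42_3
  by_cases h5 : p = 5
  · rw [h5]; exact nd42_5
  by_cases h7 : p = 7
  · rw [h7]; exact nd42_7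
  by_cases h11 : p = 11
  · rw [h11]; exact nd42_11
  have d2 : ¬ p ∣ 2 := ndv1 hp (by norm_num) h2
  have d3 : ¬ p ∣ 3 := ndv1 hp (by norm_num) h3
  have d5 : ¬ p ∣ 5 := ndv1 hp (by norm_num) h5
  have d7 : ¬ p ∣ 7 := ndv1 hp (by norm_num) h7
  have d11 : ¬ p ∣ 11 := ndv1 hp (by norm_num) h11
  have e3 : ¬ p ∣ 3 := d3
  have e5 : ¬ p ∣ 5 := d5
  have e33 : ¬ p ∣ 33 := (ndvm hp d3 d11)
  have e42 : ¬ p ∣ 42 := (ndvm hp (ndvm hp d2 d3) d7)
  intro V _ ρ hV hD v
  by_contra hv
  have hne : ∃ v : V, v ≠ 0 := ⟨v, hv⟩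
  have h0 : FxT ρ 0 := R0 hv
  rcases mP (ρ := ρ) hp hV (b := 42) ⟨3, 14, by norm_num, by norm_num, (Ne.symm h3), by norm_num, by norm_num, by norm_num⟩ (by norm_num) with h1 | h1
  · exact RD hD (f := 0) [42] (by decide) ⟨by decide, by decide, by decide, by decide⟩ (by intro x hx; simp only [List.mem_cons, List.not_mem_nil, or_false] at hx; rcases hx with rfl <;> assumption) (by decide) h1
  · have h3 := (mS hp hV hne h1 [33, 5, 3] (by decide) (by intro x hx; simp only [List.mem_cons, List.not_mem_nil, or_false] at hx; rcases hx with rfl | rfl | rfl <;> exact ⟨by decide, by decide, by assumption⟩) (by decide))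
    exact RD hD (f := 1) [33, 5, 3] (by decide) ⟨by decide, by decide, by decide, by decide⟩ (by intro x hx; simp only [List.mem_cons, List.not_mem_nil, or_false] at hx; rcases hx with rfl | rfl | rfl <;> assumption) (by decide) h3

theorem nd43_3 : NoDo 43 3 := by
  intro V _ ρ hV hD v
  by_contra hv
  have hne : ∃ v : V, v ≠ 0 := ⟨v, hv⟩
  have h0 : FxT ρ 0 := R0 hv
  have hp : Nat.Prime 3 := by norm_num
  rcases mP (ρ := ρ) hp hV (b := 35) ⟨5, 7, by norm_num, by norm_num, (by decide), by norm_num, by norm_num, by norm_num⟩ (by norm_num) with h1 | h1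
  · obtain ⟨U, _, ρ', hU, hneU, hl⟩ := lift (k := 8) hV h1 (by decide)
    rcases mM (ρ := ρ') hp hU hneU 8 (by rw [show (8 : ℕ) = 2 ^ 3 by norm_num]; exact (Nat.Prime.isPrimePow (by norm_num)).pow (by norm_num)) (by norm_num) (by decide) (by norm_num) (by norm_num) with h1 | h1
    · have h2 := hl _ h1
      exact RD hD (f := 1) [35, 7] (by decide) ⟨by decide, by decide, by decide, by decide⟩ (by decide) (by decide) h2
    · have h3 := (hl _ (altfx h1 ({7} : Multiset ℕ) (by decide) (by decide) (by decide)))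
      exact RD hD (f := 1) [35, 7] (by decide) ⟨by decide, by decide, by decide, by decide⟩ (by decide) (by decide) h3
  · have h3 := (mS hp hV hne h1 [37, 5] (by decide) (by decide) (by decide))
    exact RD hD (f := 1) [37, 5] (by decide) ⟨by decide, by decide, by decide, by decide⟩ (by decide) (by decide) h3

theorem nd43_7 : NoDo 43 7 := by
  intro V _ ρ hV hD v
  by_contra hv
  have hne : ∃ v : V, v ≠ 0 := ⟨v, hv⟩
  have h0 : FxT ρ 0 := R0 hv
  have hp : Nat.Prime 7 := by norm_num
  rcases mM (ρ := ρ) hp hV hne 5 (Nat.Prime.isPrimePow (by norm_num)) (by norm_num) (by decide) (by norm_num) (by norm_num) with h1 | h1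
  · obtain ⟨U, _, ρ', hU, hneU, hl⟩ := lift (k := 39) hV h1 (by decide)
    rcases mP (ρ := ρ') hp hU (b := 39) ⟨3, 13, by norm_num, by norm_num, (by decide), by norm_num, by norm_num, by norm_num⟩ (by norm_num) with h1 | h1
    · have h2 := hl _ h1
      exact RD hD (f := 0) [39, 4] (by decide) ⟨by decide, by decide, by decide, by decide⟩ (by decide) (by decide) h2
    · have h3 := (hl _ (mS hp hU hneU h1 [33, 5] (by decide) (by decide) (by decide)))
      exact RD hD (f := 1) [33, 5, 4] (by decide) ⟨by decide, by decide, by decide, by decide⟩ (by decide) (by decide) h3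
  · have h3 := (altfx h1 ({43} : Multiset ℕ) (by decide) (by decide) (by decide))
    exact RD hD (f := 0) [43] (by decide) ⟨by decide, by decide, by decide, by decide⟩ (by decide) (by decide) h3

theorem nd43_43 : NoDo 43 43 := by
  intro V _ ρ hV hD v
  by_contra hv
  have hne : ∃ v : V, v ≠ 0 := ⟨v, hv⟩
  have h0 : FxT ρ 0 := R0 hv
  have hp : Nat.Prime 43 := by norm_num
  rcases mP (ρ := ρ) hp hV (b := 42) ⟨3, 14, by norm_num, by norm_num, (by decide), by norm_num, by norm_num, by norm_num⟩ (by norm_num) with h1 | h1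
  · exact RD hD (f := 1) [42] (by decide) ⟨by decide, by decide, by decide, by decide⟩ (by decide) (by decide) h1
  · have h3 := (mS hp hV hne h1 [39, 3] (by decide) (by decide) (by decide))
    exact RD hD (f := 1) [39, 3] (by decide) ⟨by decide, by decide, by decide, by decide⟩ (by decide) (by decide) h3

theorem nd43 {p : ℕ} (hp : p.Prime) (h2 : p ≠ 2) : NoDo 43 p := by
  by_cases h3 : p = 3
  · rw [h3]; exact nd43_3
  by_cases h7 : p = 7
  · rw [h7]; exact nd43_7
  by_cases h43 : p = 43
  · rw [h43]; exact nd43_43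
  have d2 : ¬ p ∣ 2 := ndv1 hp (by norm_num) h2
  have d3 : ¬ p ∣ 3 := ndv1 hp (by norm_num) h3
  have d7 : ¬ p ∣ 7 := ndv1 hp (by norm_num) h7
  have d43 : ¬ p ∣ 43 := ndv1 hp (by norm_num) h43
  have e42 : ¬ p ∣ 42 := (ndvm hp (ndvm hp d2 d3) d7)
  have e43 : ¬ p ∣ 43 := d43
  intro V _ ρ hV hD v
  by_contra hv
  have hne : ∃ v : V, v ≠ 0 := ⟨v, hv⟩
  have h0 : FxT ρ 0 := R0 hv
  rcases mM (ρ := ρ) hp hV hne 43 (Nat.Prime.isPrimePow (by norm_num)) (by norm_num) e43 (by norm_num) (by norm_num) with h1 | h1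
  · exact RD hD (f := 1) [42] (by decide) ⟨by decide, by decide, by decide, by decide⟩ (by intro x hx; simp only [List.mem_cons, List.not_mem_nil, or_false] at hx; rcases hx with rfl <;> assumption) (by decide) h1
  · have h3 := (altfx h1 ({43} : Multiset ℕ) (by decide) (by decide) (by decide))
    exact RD hD (f := 0) [43] (by decide) ⟨by decide, by decide, by decide, by decide⟩ (by intro x hx; simp only [List.mem_cons, List.not_mem_nil, or_false] at hx; rcases hx with rfl <;> assumption) (by decide) h3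

end Pool.Agent.NbT
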