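import Pool.Agent.NbT.Sml

/-!
# Degrees with `NoDo`
-/

set_option autoImplicit false
set_option linter.unusedVariables false

namespace Pool.Agent.NbT

open Equiv Pool.Agent.NbS

theorem nd44_3 : NoDo 44 3 := by
  intro V _ ρ hV hD v
  by_contra hv
  have hne : ∃ v : V, v ≠ 0 := ⟨v, hv⟩
  have h0 : FxT ρ 0 := R0 hv
  have hp : Nat.Prime 3 := by norm_num
  rcases mP (ρ := ρ) hp hV (b := 44) ⟨11, 4, by norm_num, by norm_num, (by decide), by norm_num, by norm_num, by norm_num⟩ (by norm_num) with h1 | h1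
  · exact RD hD (f := 0) [44] (by decide) ⟨by decide, by decide, by decide, by decide⟩ (by decide) (by decide) h1
  · have h3 := (mS hp hV hne h1 [31, 7, 5] (by decide) (by decide) (by decide))
    exact RD hD (f := 1) [31, 7, 5] (by decide) ⟨by decide, by decide, by decide, by decide⟩ (by decide) (by decide) h3

theorem nd44_5 : NoDo 44 5 := by
  intro V _ ρ hV hD v
  by_contra hv
  have hne : ∃ v : V, v ≠ 0 := ⟨v, hv⟩
  have h0 : FxT ρ 0 := R0 hv
  have hp : Nat.Prime 5 := by norm_num
  rcases mP (ρ := ρ) hp hV (b := 44) ⟨11, 4, by norm_num, by norm_num, (by decide), by norm_num, by norm_num, by norm_num⟩ (by norm_num) with h1 | h1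
  · exact RD hD (f := 0) [44] (by decide) ⟨by decide, by decide, by decide, by decide⟩ (by decide) (by decide) h1
  · have h3 := (mS hp hV hne h1 [33, 7, 3] (by decide) (by decide) (by decide))
    exact RD hD (f := 1) [33, 7, 3] (by decide) ⟨by decide, by decide, by decide, by decide⟩ (by decide) (by decide) h3

theorem nd44_7 : NoDo 44 7 := by
  intro V _ ρ hV hD v
  by_contra hv
  have hne : ∃ v : V, v ≠ 0 := ⟨v, hv⟩
  have h0 : FxT ρ 0 := R0 hv
  have hp : Nat.Prime 7 := by norm_num
  rcases mP (ρ := ρ) hp hV (b := 44) ⟨11, 4, by norm_num, by norm_num, (by decide), by norm_num, by norm_num, by norm_num⟩ (by norm_num) with h1 | h1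
  · exact RD hD (f := 0) [44] (by decide) ⟨by decide, by decide, by decide, by decide⟩ (by decide) (by decide) h1
  · have h3 := (mS hp hV hne h1 [31, 9, 3] (by decide) (by decide) (by decide))
    exact RD hD (f := 1) [31, 9, 3] (by decide) ⟨by decide, by decide, by decide, by decide⟩ (by decide) (by decide) h3

theorem nd44_11 : NoDo 44 11 := by
  intro V _ ρ hV hD v
  by_contra hv
  have hne : ∃ v : V, v ≠ 0 := ⟨v, hv⟩
  have h0 : FxT ρ 0 := R0 hv
  have hp : Nat.Prime 11 := by norm_num
  rcases mM (ρ := ρ) hp hV hne 4 (by rw [show (4 : ℕ) = 2 ^ 2 by norm_num]; exact (Nat.Prime.isPrimePow (by norm_num)).pow (by norm_num)) (by norm_num) (by decide) (by norm_num) (by norm_num) with h1 | h1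
  · obtain ⟨U, _, ρ', hU, hneU, hl⟩ := lift (k := 41) hV h1 (by decide)
    rcases mM (ρ := ρ') hp hU hneU 41 (Nat.Prime.isPrimePow (by norm_num)) (by norm_num) (by decide) (by norm_num) (by norm_num) with h1 | h1
    · have h2 := hl _ h1
      exact RD hD (f := 1) [40, 3] (by decide) ⟨by decide, by decide, by decide, by decide⟩ (by decide) (by decide) h2
    · have h3 := (hl _ (altfx h1 ({41} : Multiset ℕ) (by decide) (by decide) (by decide)))
      exact RD hD (f := 0) [41, 3] (by decide) ⟨by decide, by decide, by decide, by decide⟩ (by decide) (by decide) h3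
  · have h3 := (altfx h1 ({41, 3} : Multiset ℕ) (by decide) (by decide) (by decide))
    exact RD hD (f := 0) [41, 3] (by decide) ⟨by decide, by decide, by decide, by decide⟩ (by decide) (by decide) h3

theorem nd44 {p : ℕ} (hp : p.Prime) (h2 : p ≠ 2) : NoDo 44 p := by
  by_cases h3 : p = 3
  · rw [h3]; exact nd44_3
  by_cases h5 : p = 5
  · rw [h5]; exact nd44_5
  by_cases h7 : p = 7
  · rw [h7]; exact nd44_7
  by_cases h11 : p = 11
  · rw [h11]; exact nd44_11
  have d2 : ¬ p ∣ 2 := ndv1 hp (by norm_num) h2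
  have d3 : ¬ p ∣ 3 := ndv1 hp (by norm_num) h3
  have d5 : ¬ p ∣ 5 := ndv1 hp (by norm_num) h5
  have d7 : ¬ p ∣ 7 := ndv1 hp (by norm_num) h7
  have d11 : ¬ p ∣ 11 := ndv1 hp (by norm_num) h11
  have e3 : ¬ p ∣ 3 := d3
  have e5 : ¬ p ∣ 5 := d5
  have e35 : ¬ p ∣ 35 := (ndvm hp d5 d7)
  have e44 : ¬ p ∣ 44 := (ndvm hp (ndvm hp d2 d2) d11)
  intro V _ ρ hV hD v
  by_contra hv
  have hne : ∃ v : V, v ≠ 0 := ⟨v, hv⟩
  have h0 : FxT ρ 0 := R0 hv
  rcases mP (ρ := ρ) hp hV (b := 44) ⟨11, 4, by norm_num, by norm_num, (Ne.symm h11), by norm_num, by norm_num, by norm_num⟩ (by norm_num) with h1 | h1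
  · exact RD hD (f := 0) [44] (by decide) ⟨by decide, by decide, by decide, by decide⟩ (by intro x hx; simp only [List.mem_cons, List.not_mem_nil, or_false] at hx; rcases hx with rfl <;> assumption) (by decide) h1
  · have h3 := (mS hp hV hne h1 [35, 5, 3] (by decide) (by intro x hx; simp only [List.mem_cons, List.not_mem_nil, or_false] at hx; rcases hx with rfl | rfl | rfl <;> exact ⟨by decide, by decide, by assumption⟩) (by decide))
    exact RD hD (f := 1) [35, 5, 3] (by decide) ⟨by decide, by decide, by decide, by decide⟩ (by intro x hx; simp only [List.mem_cons, List.not_mem_nil, or_false] at hx; rcases hx with rfl | rfl | rfl <;> assumption) (by decide) h3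

theorem nd45_3 : NoDo 45 3 := by
  intro V _ ρ hV hD v
  by_contra hv
  have hne : ∃ v : V, v ≠ 0 := ⟨v, hv⟩
  have h0 : FxT ρ 0 := R0 hv
  have hp : Nat.Prime 3 := by norm_num
  rcases mP (ρ := ρ) hp hV (b := 44) ⟨11, 4, by norm_num, by norm_num, (by decide), by norm_num, by norm_num, by norm_num⟩ (by norm_num) with h1 | h1
  · exact RD hD (f := 1) [44] (by decide) ⟨by decide, by decide, by decide, by decide⟩ (by decide) (by decide) h1
  · have h3 := (mS hp hV hne h1 [37, 7] (by decide) (by decide) (by decide))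
    exact RD hD (f := 1) [37, 7] (by decide) ⟨by decide, by decide, by decide, by decide⟩ (by decide) (by decide) h3

theorem nd45_11 : NoDo 45 11 := by
  intro V _ ρ hV hD v
  by_contra hv
  have hne : ∃ v : V, v ≠ 0 := ⟨v, hv⟩
  have h0 : FxT ρ 0 := R0 hv
  have hp : Nat.Prime 11 := by norm_num
  rcases mP (ρ := ρ) hp hV (b := 45) ⟨3, 15, by norm_num, by norm_num, (by decide), by norm_num, by norm_num, by norm_num⟩ (by norm_num) with h1 | h1
  · exact RD hD (f := 0) [45] (by decide) ⟨by decide, by decide, by decide, by decide⟩ (by decide) (by decide) h1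
  · have h3 := (mS hp hV hne h1 [41, 3] (by decide) (by decide) (by decide))
    exact RD hD (f := 1) [41, 3] (by decide) ⟨by decide, by decide, by decide, by decide⟩ (by decide) (by decide) h3

theorem nd45_41 : NoDo 45 41 := by
  intro V _ ρ hV hD v
  by_contra hv
  have hne : ∃ v : V, v ≠ 0 := ⟨v, hv⟩
  have h0 : FxT ρ 0 := R0 hv
  have hp : Nat.Prime 41 := by norm_num
  rcases mP (ρ := ρ) hp hV (b := 44) ⟨11, 4, by norm_num, by norm_num, (by decide), by norm_num, by norm_num, by norm_num⟩ (by norm_num) with h1 | h1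
  · exact RD hD (f := 1) [44] (by decide) ⟨by decide, by decide, by decide, by decide⟩ (by decide) (by decide) h1
  · have h3 := (mS hp hV hne h1 [39, 5] (by decide) (by decide) (by decide))
    exact RD hD (f := 1) [39, 5] (by decide) ⟨by decide, by decide, by decide, by decide⟩ (by decide) (by decide) h3

theorem nd45 {p : ℕ} (hp : p.Prime) (h2 : p ≠ 2) : NoDo 45 p := by
  by_cases h3 : p = 3
  · rw [h3]; exact nd45_3
  by_cases h11 : p = 11
  · rw [h11]; exact nd45_11
  by_cases h41 : p = 41
  · rw [h41]; exact nd45_41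
  have d2 : ¬ p ∣ 2 := ndv1 hp (by norm_num) h2
  have d3 : ¬ p ∣ 3 := ndv1 hp (by norm_num) h3
  have d11 : ¬ p ∣ 11 := ndv1 hp (by norm_num) h11
  have d41 : ¬ p ∣ 41 := ndv1 hp (by norm_num) h41
  have e3 : ¬ p ∣ 3 := d3
  have e41 : ¬ p ∣ 41 := d41
  have e44 : ¬ p ∣ 44 := (ndvm hp (ndvm hp d2 d2) d11)
  intro V _ ρ hV hD v
  by_contra hv
  have hne : ∃ v : V, v ≠ 0 := ⟨v, hv⟩
  have h0 : FxT ρ 0 := R0 hv
  rcases mP (ρ := ρ) hp hV (b := 44) ⟨11, 4, by norm_num, by norm_num, (Ne.symm h11), by norm_num, by norm_num, by norm_num⟩ (by norm_num) with h1 | h1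
  · exact RD hD (f := 1) [44] (by decide) ⟨by decide, by decide, by decide, by decide⟩ (by intro x hx; simp only [List.mem_cons, List.not_mem_nil, or_false] at hx; rcases hx with rfl <;> assumption) (by decide) h1
  · have h3 := (mS hp hV hne h1 [41, 3] (by decide) (by intro x hx; simp only [List.mem_cons, List.not_mem_nil, or_false] at hx; rcases hx with rfl | rfl <;> exact ⟨by decide, by decide, by assumption⟩) (by decide))
    exact RD hD (f := 1) [41, 3] (by decide) ⟨by decide, by decide, by decide, by decide⟩ (by intro x hx; simp only [List.mem_cons, List.not_mem_nil, or_false] at hx; rcases hx with rfl | rfl <;> assumption) (by decide) h3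

theorem nd46_3 : NoDo 46 3 := by
  intro V _ ρ hV hD v
  by_contra hv
  have hne : ∃ v : V, v ≠ 0 := ⟨v, hv⟩
  have h0 : FxT ρ 0 := R0 hv
  have hp : Nat.Prime 3 := by norm_num
  rcases mP (ρ := ρ) hp hV (b := 46) ⟨23, 2, by norm_num, by norm_num, (by decide), by norm_num, by norm_num, by norm_num⟩ (by norm_num) with h1 | h1
  · exact RD hD (f := 0) [46] (by decide) ⟨by decide, by decide, by decide, by decide⟩ (by decide) (by decide) h1
  · have h3 := (mS hp hV hne h1 [29, 11, 5] (by decide) (by decide) (by decide))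
    exact RD hD (f := 1) [29, 11, 5] (by decide) ⟨by decide, by decide, by decide, by decide⟩ (by decide) (by decide) h3

theorem nd46_5 : NoDo 46 5 := by
  intro V _ ρ hV hD v
  by_contra hv
  have hne : ∃ v : V, v ≠ 0 := ⟨v, hv⟩
  have h0 : FxT ρ 0 := R0 hv
  have hp : Nat.Prime 5 := by norm_num
  rcases mP (ρ := ρ) hp hV (b := 46) ⟨23, 2, by norm_num, by norm_num, (by decide), by norm_num, by norm_num, by norm_num⟩ (by norm_num) with h1 | h1
  · exact RD hD (f := 0) [46] (by decide) ⟨by decide, by decide, by decide, by decide⟩ (by decide) (by decide) h1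
  · have h3 := (mS hp hV hne h1 [33, 9, 3] (by decide) (by decide) (by decide))
    exact RD hD (f := 1) [33, 9, 3] (by decide) ⟨by decide, by decide, by decide, by decide⟩ (by decide) (by decide) h3

theorem nd46_37 : NoDo 46 37 := by
  intro V _ ρ hV hD v
  by_contra hv
  have hne : ∃ v : V, v ≠ 0 := ⟨v, hv⟩
  have h0 : FxT ρ 0 := R0 hv
  have hp : Nat.Prime 37 := by norm_num
  rcases mP (ρ := ρ) hp hV (b := 45) ⟨3, 15, by norm_num, by norm_num, (by decide), by norm_num, by norm_num, by norm_num⟩ (by norm_num) with h1 | h1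
  · exact RD hD (f := 1) [45] (by decide) ⟨by decide, by decide, by decide, by decide⟩ (by decide) (by decide) h1
  · have h3 := (mS hp hV hne h1 [35, 7, 3] (by decide) (by decide) (by decide))
    exact RD hD (f := 1) [35, 7, 3] (by decide) ⟨by decide, by decide, by decide, by decide⟩ (by decide) (by decide) h3

theorem nd46 {p : ℕ} (hp : p.Prime) (h2 : p ≠ 2) : NoDo 46 p := by
  by_cases h3 : p = 3
  · rw [h3]; exact nd46_3
  by_cases h5 : p = 5
  · rw [h5]; exact nd46_5
  by_cases h37 : p = 37
  · rw [h37]; exact nd46_37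
  have d2 : ¬ p ∣ 2 := ndv1 hp (by norm_num) h2
  have d3 : ¬ p ∣ 3 := ndv1 hp (by norm_num) h3
  have d5 : ¬ p ∣ 5 := ndv1 hp (by norm_num) h5
  have d37 : ¬ p ∣ 37 := ndv1 hp (by norm_num) h37
  have e3 : ¬ p ∣ 3 := d3
  have e5 : ¬ p ∣ 5 := d5
  have e37 : ¬ p ∣ 37 := d37
  have e45 : ¬ p ∣ 45 := (ndvm hp (ndvm hp d3 d3) d5)
  intro V _ ρ hV hD v
  by_contra hv
  have hne : ∃ v : V, v ≠ 0 := ⟨v, hv⟩
  have h0 : FxT ρ 0 := R0 hv
  rcases mP (ρ := ρ) hp hV (b := 45) ⟨3, 15, by norm_num, by norm_num, (Ne.symm h3), by norm_num, by norm_num, by norm_num⟩ (by norm_num) with h1 | h1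
  · exact RD hD (f := 1) [45] (by decide) ⟨by decide, by decide, by decide, by decide⟩ (by intro x hx; simp only [List.mem_cons, List.not_mem_nil, or_false] at hx; rcases hx with rfl <;> assumption) (by decide) h1
  · have h3 := (mS hp hV hne h1 [37, 5, 3] (by decide) (by intro x hx; simp only [List.mem_cons, List.not_mem_nil, or_false] at hx; rcases hx with rfl | rfl | rfl <;> exact ⟨by decide, by decide, by assumption⟩) (by decide))
    exact RD hD (f := 1) [37, 5, 3] (by decide) ⟨by decide, by decide, by decide, by decide⟩ (by intro x hx; simp only [List.mem_cons, List.not_mem_nil, or_false] at hx; rcases hx with rfl | rfl | rfl <;> assumption) (by decide) h3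

theorem nd47_23 : NoDo 47 23 := by
  intro V _ ρ hV hD v
  by_contra hv
  have hne : ∃ v : V, v ≠ 0 := ⟨v, hv⟩
  have h0 : FxT ρ 0 := R0 hv
  have hp : Nat.Prime 23 := by norm_num
  rcases mT (ρ := ρ) hne with h1 | h1
  · obtain ⟨U, _, ρ', hU, hneU, hl⟩ := lift (k := 45) hV h1 (by decide)
    rcases mP (ρ := ρ') hp hU (b := 45) ⟨3, 15, by norm_num, by norm_num, (by decide), by norm_num, by norm_num, by norm_num⟩ (by norm_num) with h1 | h1
    · have h2 := hl _ h1
      exact RD hD (f := 0) [45, 2] (by decide) ⟨by decide, by decide, by decide, by decide⟩ (by decide) (by decide) h2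
    · have h3 := (hl _ (mS hp hU hneU h1 [41, 3] (by decide) (by decide) (by decide)))
      exact RD hD (f := 1) [41, 3, 2] (by decide) ⟨by decide, by decide, by decide, by decide⟩ (by decide) (by decide) h3
  · have h3 := (altfx h1 ({47} : Multiset ℕ) (by decide) (by decide) (by decide))
    exact RD hD (f := 0) [47] (by decide) ⟨by decide, by decide, by decide, by decide⟩ (by decide) (by decide) h3

theorem nd47_47 : NoDo 47 47 := by
  intro V _ ρ hV hD v
  by_contra hv
  have hne : ∃ v : V, v ≠ 0 := ⟨v, hv⟩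
  have h0 : FxT ρ 0 := R0 hv
  have hp : Nat.Prime 47 := by norm_num
  rcases mP (ρ := ρ) hp hV (b := 46) ⟨23, 2, by norm_num, by norm_num, (by decide), by norm_num, by norm_num, by norm_num⟩ (by norm_num) with h1 | h1
  · exact RD hD (f := 1) [46] (by decide) ⟨by decide, by decide, by decide, by decide⟩ (by decide) (by decide) h1
  · have h3 := (mS hp hV hne h1 [43, 3] (by decide) (by decide) (by decide))
    exact RD hD (f := 1) [43, 3] (by decide) ⟨by decide, by decide, by decide, by decide⟩ (by decide) (by decide) h3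

theorem nd47 {p : ℕ} (hp : p.Prime) (h2 : p ≠ 2) : NoDo 47 p := by
  by_cases h23 : p = 23
  · rw [h23]; exact nd47_23
  by_cases h47 : p = 47
  · rw [h47]; exact nd47_47
  have d2 : ¬ p ∣ 2 := ndv1 hp (by norm_num) h2
  have d23 : ¬ p ∣ 23 := ndv1 hp (by norm_num) h23
  have d47 : ¬ p ∣ 47 := ndv1 hp (by norm_num) h47
  have e46 : ¬ p ∣ 46 := (ndvm hp d2 d23)
  have e47 : ¬ p ∣ 47 := d47
  intro V _ ρ hV hD v
  by_contra hv
  have hne : ∃ v : V, v ≠ 0 := ⟨v, hv⟩
  have h0 : FxT ρ 0 := R0 hv
  rcases mM (ρ := ρ) hp hV hne 47 (Nat.Prime.isPrimePow (by norm_num)) (by norm_num) e47 (by norm_num) (by norm_num) with h1 | h1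
  · exact RD hD (f := 1) [46] (by decide) ⟨by decide, by decide, by decide, by decide⟩ (by intro x hx; simp only [List.mem_cons, List.not_mem_nil, or_false] at hx; rcases hx with rfl <;> assumption) (by decide) h1
  · have h3 := (altfx h1 ({47} : Multiset ℕ) (by decide) (by decide) (by decide))
    exact RD hD (f := 0) [47] (by decide) ⟨by decide, by decide, by decide, by decide⟩ (by intro x hx; simp only [List.mem_cons, List.not_mem_nil, or_false] at hx; rcases hx with rfl <;> assumption) (by decide) h3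

theorem nd48_3 : NoDo 48 3 := by
  intro V _ ρ hV hD v
  by_contra hv
  have hne : ∃ v : V, v ≠ 0 := ⟨v, hv⟩
  have h0 : FxT ρ 0 := R0 hv
  have hp : Nat.Prime 3 := by norm_num
  rcases mM (ρ := ρ) hp hV hne 8 (by rw [show (8 : ℕ) = 2 ^ 3 by norm_num]; exact (Nat.Prime.isPrimePow (by norm_num)).pow (by norm_num)) (by norm_num) (by decide) (by norm_num) (by norm_num) with h1 | h1
  · obtain ⟨U, _, ρ', hU, hneU, hl⟩ := lift (k := 41) hV h1 (by decide)
    rcases mM (ρ := ρ') hp hU hneU 41 (Nat.Prime.isPrimePow (by norm_num)) (by norm_num) (by decide) (by norm_num) (by norm_num) with h1 | h1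
    · have h2 := hl _ h1
      exact RD hD (f := 1) [40, 7] (by decide) ⟨by decide, by decide, by decide, by decide⟩ (by decide) (by decide) h2
    · have h3 := (hl _ (altfx h1 ({41} : Multiset ℕ) (by decide) (by decide) (by decide)))
      exact RD hD (f := 0) [41, 7] (by decide) ⟨by decide, by decide, by decide, by decide⟩ (by decide) (by decide) h3
  · have h3 := (altfx h1 ({43, 5} : Multiset ℕ) (by decide) (by decide) (by decide))
    exact RD hD (f := 0) [43, 5] (by decide) ⟨by decide, by decide, by decide, by decide⟩ (by decide) (by decide) h3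

theorem nd48_5 : NoDo 48 5 := by
  intro V _ ρ hV hD v
  by_contra hv
  have hne : ∃ v : V, v ≠ 0 := ⟨v, hv⟩
  have h0 : FxT ρ 0 := R0 hv
  have hp : Nat.Prime 5 := by norm_num
  rcases mP (ρ := ρ) hp hV (b := 48) ⟨3, 16, by norm_num, by norm_num, (by decide), by norm_num, by norm_num, by norm_num⟩ (by norm_num) with h1 | h1
  · exact RD hD (f := 0) [48] (by decide) ⟨by decide, by decide, by decide, by decide⟩ (by decide) (by decide) h1
  · have h3 := (mS hp hV hne h1 [37, 7, 3] (by decide) (by decide) (by decide))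
    exact RD hD (f := 1) [37, 7, 3] (by decide) ⟨by decide, by decide, by decide, by decide⟩ (by decide) (by decide) h3

theorem nd48_13 : NoDo 48 13 := by
  intro V _ ρ hV hD v
  by_contra hv
  have hne : ∃ v : V, v ≠ 0 := ⟨v, hv⟩
  have h0 : FxT ρ 0 := R0 hv
  have hp : Nat.Prime 13 := by norm_num
  rcases mP (ρ := ρ) hp hV (b := 48) ⟨3, 16, by norm_num, by norm_num, (by decide), by norm_num, by norm_num, by norm_num⟩ (by norm_num) with h1 | h1
  · exact RD hD (f := 0) [48] (by decide) ⟨by decide, by decide, by decide, by decide⟩ (by decide) (by decide) h1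
  · have h3 := (mS hp hV hne h1 [37, 7, 3] (by decide) (by decide) (by decide))
    exact RD hD (f := 1) [37, 7, 3] (by decide) ⟨by decide, by decide, by decide, by decide⟩ (by decide) (by decide) h3

theorem nd48 {p : ℕ} (hp : p.Prime) (h2 : p ≠ 2) : NoDo 48 p := by
  by_cases h3 : p = 3
  · rw [h3]; exact nd48_3
  by_cases h5 : p = 5
  · rw [h5]; exact nd48_5
  by_cases h13 : p = 13
  · rw [h13]; exact nd48_13
  have d2 : ¬ p ∣ 2 := ndv1 hp (by norm_num) h2
  have d3 : ¬ p ∣ 3 := ndv1 hp (by norm_num) h3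
  have d5 : ¬ p ∣ 5 := ndv1 hp (by norm_num) h5
  have d13 : ¬ p ∣ 13 := ndv1 hp (by norm_num) h13
  have e3 : ¬ p ∣ 3 := d3
  have e5 : ¬ p ∣ 5 := d5
  have e39 : ¬ p ∣ 39 := (ndvm hp d3 d13)
  have e48 : ¬ p ∣ 48 := (ndvm hp (ndvm hp (ndvm hp (ndvm hp d2 d2) d2) d2) d3)
  intro V _ ρ hV hD v
  by_contra hv
  have hne : ∃ v : V, v ≠ 0 := ⟨v, hv⟩
  have h0 : FxT ρ 0 := R0 hv
  rcases mP (ρ := ρ) hp hV (b := 48) ⟨3, 16, by norm_num, by norm_num, (Ne.symm h3), by norm_num, by norm_num, by norm_num⟩ (by norm_num) with h1 | h1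
  · exact RD hD (f := 0) [48] (by decide) ⟨by decide, by decide, by decide, by decide⟩ (by intro x hx; simp only [List.mem_cons, List.not_mem_nil, or_false] at hx; rcases hx with rfl <;> assumption) (by decide) h1
  · have h3 := (mS hp hV hne h1 [39, 5, 3] (by decide) (by intro x hx; simp only [List.mem_cons, List.not_mem_nil, or_false] at hx; rcases hx with rfl | rfl | rfl <;> exact ⟨by decide, by decide, by assumption⟩) (by decide))
    exact RD hD (f := 1) [39, 5, 3] (by decide) ⟨by decide, by decide, by decide, by decide⟩ (by intro x hx; simp only [List.mem_cons, List.not_mem_nil, or_false] at hx; rcases hx with rfl | rfl | rfl <;> assumption) (by decide) h3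

theorem nd49_3 : NoDo 49 3 := by
  intro V _ ρ hV hD v
  by_contra hv
  have hne : ∃ v : V, v ≠ 0 := ⟨v, hv⟩
  have h0 : FxT ρ 0 := R0 hv
  have hp : Nat.Prime 3 := by norm_num
  rcases mP (ρ := ρ) hp hV (b := 49) ⟨7, 7, by norm_num, by norm_num, (by decide), by norm_num, by norm_num, by norm_num⟩ (by norm_num) with h1 | h1
  · exact RD hD (f := 0) [49] (by decide) ⟨by decide, by decide, by decide, by decide⟩ (by decide) (by decide) h1
  · have h3 := (mS hp hV hne h1 [43, 5] (by decide) (by decide) (by decide))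
    exact RD hD (f := 1) [43, 5] (by decide) ⟨by decide, by decide, by decide, by decide⟩ (by decide) (by decide) h3

theorem nd49_7 : NoDo 49 7 := by
  intro V _ ρ hV hD v
  by_contra hv
  have hne : ∃ v : V, v ≠ 0 := ⟨v, hv⟩
  have h0 : FxT ρ 0 := R0 hv
  have hp : Nat.Prime 7 := by norm_num
  rcases mP (ρ := ρ) hp hV (b := 48) ⟨3, 16, by norm_num, by norm_num, (by decide), by norm_num, by norm_num, by norm_num⟩ (by norm_num) with h1 | h1
  · exact RD hD (f := 1) [48] (by decide) ⟨by decide, by decide, by decide, by decide⟩ (by decide) (by decide) h1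
  · have h3 := (mS hp hV hne h1 [45, 3] (by decide) (by decide) (by decide))
    exact RD hD (f := 1) [45, 3] (by decide) ⟨by decide, by decide, by decide, by decide⟩ (by decide) (by decide) h3

theorem nd49 {p : ℕ} (hp : p.Prime) (h2 : p ≠ 2) : NoDo 49 p := by
  by_cases h3 : p = 3
  · rw [h3]; exact nd49_3
  by_cases h7 : p = 7
  · rw [h7]; exact nd49_7
  have d2 : ¬ p ∣ 2 := ndv1 hp (by norm_num) h2
  have d3 : ¬ p ∣ 3 := ndv1 hp (by norm_num) h3
  have d7 : ¬ p ∣ 7 := ndv1 hp (by norm_num) h7
  have e48 : ¬ p ∣ 48 := (ndvm hp (ndvm hp (ndvm hp (ndvm hp d2 d2) d2) d2) d3)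
  have e49 : ¬ p ∣ 49 := (ndvm hp d7 d7)
  intro V _ ρ hV hD v
  by_contra hv
  have hne : ∃ v : V, v ≠ 0 := ⟨v, hv⟩
  have h0 : FxT ρ 0 := R0 hv
  rcases mM (ρ := ρ) hp hV hne 49 (by rw [show (49 : ℕ) = 7 ^ 2 by norm_num]; exact (Nat.Prime.isPrimePow (by norm_num)).pow (by norm_num)) (by norm_num) e49 (by norm_num) (by norm_num) with h1 | h1
  · exact RD hD (f := 1) [48] (by decide) ⟨by decide, by decide, by decide, by decide⟩ (by intro x hx; simp only [List.mem_cons, List.not_mem_nil, or_false] at hx; rcases hx with rfl <;> assumption) (by decide) h1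
  · have h3 := (altfx h1 ({49} : Multiset ℕ) (by decide) (by decide) (by decide))
    exact RD hD (f := 0) [49] (by decide) ⟨by decide, by decide, by decide, by decide⟩ (by intro x hx; simp only [List.mem_cons, List.not_mem_nil, or_false] at hx; rcases hx with rfl <;> assumption) (by decide) h3

theorem nd50_3 : NoDo 50 3 := by
  intro V _ ρ hV hD v
  by_contra hv
  have hne : ∃ v : V, v ≠ 0 := ⟨v, hv⟩
  have h0 : FxT ρ 0 := R0 hv
  have hp : Nat.Prime 3 := by norm_num
  rcases mP (ρ := ρ) hp hV (b := 49) ⟨7, 7, by norm_num, by norm_num, (by decide), by norm_num, by norm_num, by norm_num⟩ (by norm_num) with h1 | h1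
  · exact RD hD (f := 1) [49] (by decide) ⟨by decide, by decide, by decide, by decide⟩ (by decide) (by decide) h1
  · have h3 := (mS hp hV hne h1 [37, 7, 5] (by decide) (by decide) (by decide))
    exact RD hD (f := 1) [37, 7, 5] (by decide) ⟨by decide, by decide, by decide, by decide⟩ (by decide) (by decide) h3

theorem nd50_5 : NoDo 50 5 := by
  intro V _ ρ hV hD v
  by_contra hv
  have hne : ∃ v : V, v ≠ 0 := ⟨v, hv⟩
  have h0 : FxT ρ 0 := R0 hv
  have hp : Nat.Prime 5 := by norm_num
  rcases mP (ρ := ρ) hp hV (b := 49) ⟨7, 7, by norm_num, by norm_num, (by decide), by norm_num, by norm_num, by norm_num⟩ (by norm_num) with h1 | h1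
  · exact RD hD (f := 1) [49] (by decide) ⟨by decide, by decide, by decide, by decide⟩ (by decide) (by decide) h1
  · have h3 := (mS hp hV hne h1 [39, 7, 3] (by decide) (by decide) (by decide))
    exact RD hD (f := 1) [39, 7, 3] (by decide) ⟨by decide, by decide, by decide, by decide⟩ (by decide) (by decide) h3

theorem nd50_7 : NoDo 50 7 := by
  intro V _ ρ hV hD v
  by_contra hv
  have hne : ∃ v : V, v ≠ 0 := ⟨v, hv⟩
  have h0 : FxT ρ 0 := R0 hv
  have hp : Nat.Prime 7 := by norm_num
  rcases mP (ρ := ρ) hp hV (b := 50) ⟨5, 10, by norm_num, by norm_num, (by decide), by norm_num, by norm_num, by norm_num⟩ (by norm_num) with h1 | h1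
  · exact RD hD (f := 0) [50] (by decide) ⟨by decide, by decide, by decide, by decide⟩ (by decide) (by decide) h1
  · have h3 := (mS hp hV hne h1 [41, 5, 3] (by decide) (by decide) (by decide))
    exact RD hD (f := 1) [41, 5, 3] (by decide) ⟨by decide, by decide, by decide, by decide⟩ (by decide) (by decide) h3

theorem nd50_41 : NoDo 50 41 := by
  intro V _ ρ hV hD v
  by_contra hv
  have hne : ∃ v : V, v ≠ 0 := ⟨v, hv⟩
  have h0 : FxT ρ 0 := R0 hv
  have hp : Nat.Prime 41 := by norm_num
  rcases mP (ρ := ρ) hp hV (b := 49) ⟨7, 7, by norm_num, by norm_num, (by decide), by norm_num, by norm_num, by norm_num⟩ (by norm_num) with h1 | h1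
  · exact RD hD (f := 1) [49] (by decide) ⟨by decide, by decide, by decide, by decide⟩ (by decide) (by decide) h1
  · have h3 := (mS hp hV hne h1 [39, 7, 3] (by decide) (by decide) (by decide))
    exact RD hD (f := 1) [39, 7, 3] (by decide) ⟨by decide, by decide, by decide, by decide⟩ (by decide) (by decide) h3

theorem nd50 {p : ℕ} (hp : p.Prime) (h2 : p ≠ 2) : NoDo 50 p := by
  by_cases h3 : p = 3
  · rw [h3]; exact nd50_3
  by_cases h5 : p = 5
  · rw [h5]; exact nd50_5
  by_cases h7 : p = 7
  · rw [h7]; exact nd50_7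
  by_cases h41 : p = 41
  · rw [h41]; exact nd50_41
  have d2 : ¬ p ∣ 2 := ndv1 hp (by norm_num) h2
  have d3 : ¬ p ∣ 3 := ndv1 hp (by norm_num) h3
  have d5 : ¬ p ∣ 5 := ndv1 hp (by norm_num) h5
  have d7 : ¬ p ∣ 7 := ndv1 hp (by norm_num) h7
  have d41 : ¬ p ∣ 41 := ndv1 hp (by norm_num) h41
  have e3 : ¬ p ∣ 3 := d3
  have e5 : ¬ p ∣ 5 := d5
  have e41 : ¬ p ∣ 41 := d41
  have e49 : ¬ p ∣ 49 := (ndvm hp d7 d7)
  intro V _ ρ hV hD v
  by_contra hv
  have hne : ∃ v : V, v ≠ 0 := ⟨v, hv⟩
  have h0 : FxT ρ 0 := R0 hv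
  rcases mP (ρ := ρ) hp hV (b := 49) ⟨7, 7, by norm_num, by norm_num, (Ne.symm h7), by norm_num, by norm_num, by norm_num⟩ (by norm_num) with h1 | h1
  · exact RD hD (f := 1) [49] (by decide) ⟨by decide, by decide, by decide, by decide⟩ (by intro x hx; simp only [List.mem_cons, List.not_mem_nil, or_false] at hx; rcases hx with rfl <;> assumption) (by decide) h1
  · have h3 := (mS hp hV hne h1 [41, 5, 3] (by decide) (by intro x hx; simp only [List.mem_cons, List.not_mem_nil, or_false] at hx; rcases hx with rfl | rfl | rfl <;> exact ⟨by decide, by decide, by assumption⟩) (by decide))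
    exact RD hD (f := 1) [41, 5, 3] (by decide) ⟨by decide, by decide, by decide, by decide⟩ (by intro x hx; simp only [List.mem_cons, List.not_mem_nil, or_false] at hx; rcases hx with rfl | rfl | rfl <;> assumption) (by decide) h3

theorem nd51_3 : NoDo 51 3 := by
  intro V _ ρ hV hD v
  by_contra hv
  have hne : ∃ v : V, v ≠ 0 := ⟨v, hv⟩
  have h0 : FxT ρ 0 := R0 hv
  have hp : Nat.Prime 3 := by norm_num
  rcases mP (ρ := ρ) hp hV (b := 50) ⟨5, 10, by norm_num, by norm_num, (by decide), by norm_num, by norm_num, by norm_num⟩ (by norm_num) with h1 | h1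
  · exact RD hD (f := 1) [50] (by decide) ⟨by decide, by decide, by decide, by decide⟩ (by decide) (by decide) h1
  · have h3 := (mS hp hV hne h1 [43, 7] (by decide) (by decide) (by decide))
    exact RD hD (f := 1) [43, 7] (by decide) ⟨by decide, by decide, by decide, by decide⟩ (by decide) (by decide) h3

theorem nd51_5 : NoDo 51 5 := by
  intro V _ ρ hV hD v
  by_contra hv
  have hne : ∃ v : V, v ≠ 0 := ⟨v, hv⟩
  have h0 : FxT ρ 0 := R0 hv
  have hp : Nat.Prime 5 := by norm_num
  rcases mP (ρ := ρ) hp hV (b := 51) ⟨17, 3, by norm_num, by norm_num, (by decide), by norm_num, by norm_num, by norm_num⟩ (by norm_num) with h1 | h1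
  · exact RD hD (f := 0) [51] (by decide) ⟨by decide, by decide, by decide, by decide⟩ (by decide) (by decide) h1
  · have h3 := (mS hp hV hne h1 [47, 3] (by decide) (by decide) (by decide))
    exact RD hD (f := 1) [47, 3] (by decide) ⟨by decide, by decide, by decide, by decide⟩ (by decide) (by decide) h3

theorem nd51_47 : NoDo 51 47 := by
  intro V _ ρ hV hD v
  by_contra hv
  have hne : ∃ v : V, v ≠ 0 := ⟨v, hv⟩
  have h0 : FxT ρ 0 := R0 hv
  have hp : Nat.Prime 47 := by norm_num
  rcases mP (ρ := ρ) hp hV (b := 50) ⟨5, 10, by norm_num, by norm_num, (by decide), by norm_num, by norm_num, by norm_num⟩ (by norm_num) with h1 | h1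
  · exact RD hD (f := 1) [50] (by decide) ⟨by decide, by decide, by decide, by decide⟩ (by decide) (by decide) h1
  · have h3 := (mS hp hV hne h1 [45, 5] (by decide) (by decide) (by decide))
    exact RD hD (f := 1) [45, 5] (by decide) ⟨by decide, by decide, by decide, by decide⟩ (by decide) (by decide) h3

theorem nd51 {p : ℕ} (hp : p.Prime) (h2 : p ≠ 2) : NoDo 51 p := by
  by_cases h3 : p = 3
  · rw [h3]; exact nd51_3
  by_cases h5 : p = 5
  · rw [h5]; exact nd51_5
  by_cases h47 : p = 47
  · rw [h47]; exact nd51_47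
  have d2 : ¬ p ∣ 2 := ndv1 hp (by norm_num) h2
  have d3 : ¬ p ∣ 3 := ndv1 hp (by norm_num) h3
  have d5 : ¬ p ∣ 5 := ndv1 hp (by norm_num) h5
  have d47 : ¬ p ∣ 47 := ndv1 hp (by norm_num) h47
  have e3 : ¬ p ∣ 3 := d3
  have e47 : ¬ p ∣ 47 := d47
  have e50 : ¬ p ∣ 50 := (ndvm hp (ndvm hp d2 d5) d5)
  intro V _ ρ hV hD v
  by_contra hv
  have hne : ∃ v : V, v ≠ 0 := ⟨v, hv⟩
  have h0 : FxT ρ 0 := R0 hv
  rcases mP (ρ := ρ) hp hV (b := 50) ⟨5, 10, by norm_num, by norm_num, (Ne.symm h5), by norm_num, by norm_num, by norm_num⟩ (by norm_num) with h1 | h1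
  · exact RD hD (f := 1) [50] (by decide) ⟨by decide, by decide, by decide, by decide⟩ (by intro x hx; simp only [List.mem_cons, List.not_mem_nil, or_false] at hx; rcases hx with rfl <;> assumption) (by decide) h1
  · have h3 := (mS hp hV hne h1 [47, 3] (by decide) (by intro x hx; simp only [List.mem_cons, List.not_mem_nil, or_false] at hx; rcases hx with rfl | rfl <;> exact ⟨by decide, by decide, by assumption⟩) (by decide))
    exact RD hD (f := 1) [47, 3] (by decide) ⟨by decide, by decide, by decide, by decide⟩ (by intro x hx; simp only [List.mem_cons, List.not_mem_nil, or_false] at hx; rcases hx with rfl | rfl <;> assumption) (by decide) h3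

theorem nd52_3 : NoDo 52 3 := by
  intro V _ ρ hV hD v
  by_contra hv
  have hne : ∃ v : V, v ≠ 0 := ⟨v, hv⟩
  have h0 : FxT ρ 0 := R0 hv
  have hp : Nat.Prime 3 := by norm_num
  rcases mP (ρ := ρ) hp hV (b := 52) ⟨13, 4, by norm_num, by norm_num, (by decide), by norm_num, by norm_num, by norm_num⟩ (by norm_num) with h1 | h1
  · exact RD hD (f := 0) [52] (by decide) ⟨by decide, by decide, by decide, by decide⟩ (by decide) (by decide) h1
  · have h3 := (mS hp hV hne h1 [35, 11, 5] (by decide) (by decide) (by decide))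
    exact RD hD (f := 1) [35, 11, 5] (by decide) ⟨by decide, by decide, by decide, by decide⟩ (by decide) (by decide) h3

theorem nd52_5 : NoDo 52 5 := by
  intro V _ ρ hV hD v
  by_contra hv
  have hne : ∃ v : V, v ≠ 0 := ⟨v, hv⟩
  have h0 : FxT ρ 0 := R0 hv
  have hp : Nat.Prime 5 := by norm_num
  rcases mP (ρ := ρ) hp hV (b := 51) ⟨17, 3, by norm_num, by norm_num, (by decide), by norm_num, by norm_num, by norm_num⟩ (by norm_num) with h1 | h1
  · exact RD hD (f := 1) [51] (by decide) ⟨by decide, by decide, by decide, by decide⟩ (by decide) (by decide) h1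
  · have h3 := (mS hp hV hne h1 [41, 7, 3] (by decide) (by decide) (by decide))
    exact RD hD (f := 1) [41, 7, 3] (by decide) ⟨by decide, by decide, by decide, by decide⟩ (by decide) (by decide) h3

theorem nd52_17 : NoDo 52 17 := by
  intro V _ ρ hV hD v
  by_contra hv
  have hne : ∃ v : V, v ≠ 0 := ⟨v, hv⟩
  have h0 : FxT ρ 0 := R0 hv
  have hp : Nat.Prime 17 := by norm_num
  rcases mP (ρ := ρ) hp hV (b := 52) ⟨13, 4, by norm_num, by norm_num, (by decide), by norm_num, by norm_num, by norm_num⟩ (by norm_num) with h1 | h1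
  · exact RD hD (f := 0) [52] (by decide) ⟨by decide, by decide, by decide, by decide⟩ (by decide) (by decide) h1
  · have h3 := (mS hp hV hne h1 [43, 5, 3] (by decide) (by decide) (by decide))
    exact RD hD (f := 1) [43, 5, 3] (by decide) ⟨by decide, by decide, by decide, by decide⟩ (by decide) (by decide) h3

theorem nd52_43 : NoDo 52 43 := by
  intro V _ ρ hV hD v
  by_contra hv
  have hne : ∃ v : V, v ≠ 0 := ⟨v, hv⟩
  have h0 : FxT ρ 0 := R0 hv
  have hp : Nat.Prime 43 := by norm_num
  rcases mP (ρ := ρ) hp hV (b := 51) ⟨17, 3, by norm_num, by norm_num, (by decide), by norm_num, by norm_num, by norm_num⟩ (by norm_num) with h1 | h1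
  · exact RD hD (f := 1) [51] (by decide) ⟨by decide, by decide, by decide, by decide⟩ (by decide) (by decide) h1
  · have h3 := (mS hp hV hne h1 [41, 7, 3] (by decide) (by decide) (by decide))
    exact RD hD (f := 1) [41, 7, 3] (by decide) ⟨by decide, by decide, by decide, by decide⟩ (by decide) (by decide) h3

theorem nd52 {p : ℕ} (hp : p.Prime) (h2 : p ≠ 2) : NoDo 52 p := by
  by_cases h3 : p = 3
  · rw [h3]; exact nd52_3
  by_cases h5 : p = 5
  · rw [h5]; exact nd52_5
  by_cases h17 : p = 17
  · rw [h17]; exact nd52_17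
  by_cases h43 : p = 43
  · rw [h43]; exact nd52_43
  have d2 : ¬ p ∣ 2 := ndv1 hp (by norm_num) h2
  have d3 : ¬ p ∣ 3 := ndv1 hp (by norm_num) h3
  have d5 : ¬ p ∣ 5 := ndv1 hp (by norm_num) h5
  have d17 : ¬ p ∣ 17 := ndv1 hp (by norm_num) h17
  have d43 : ¬ p ∣ 43 := ndv1 hp (by norm_num) h43
  have e3 : ¬ p ∣ 3 := d3
  have e5 : ¬ p ∣ 5 := d5
  have e43 : ¬ p ∣ 43 := d43
  have e51 : ¬ p ∣ 51 := (ndvm hp d3 d17)
  intro V _ ρ hV hD v
  by_contra hv
  have hne : ∃ v : V, v ≠ 0 := ⟨v, hv⟩
  have h0 : FxT ρ 0 := R0 hv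
  rcases mP (ρ := ρ) hp hV (b := 51) ⟨17, 3, by norm_num, by norm_num, (Ne.symm h17), by norm_num, by norm_num, by norm_num⟩ (by norm_num) with h1 | h1
  · exact RD hD (f := 1) [51] (by decide) ⟨by decide, by decide, by decide, by decide⟩ (by intro x hx; simp only [List.mem_cons, List.not_mem_nil, or_false] at hx; rcases hx with rfl <;> assumption) (by decide) h1
  · have h3 := (mS hp hV hne h1 [43, 5, 3] (by decide) (by intro x hx; simp only [List.mem_cons, List.not_mem_nil, or_false] at hx; rcases hx with rfl | rfl | rfl <;> exact ⟨by decide, by decide, by assumption⟩) (by decide))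
    exact RD hD (f := 1) [43, 5, 3] (by decide) ⟨by decide, by decide, by decide, by decide⟩ (by intro x hx; simp only [List.mem_cons, List.not_mem_nil, or_false] at hx; rcases hx with rfl | rfl | rfl <;> assumption) (by decide) h3

theorem nd53_13 : NoDo 53 13 := by
  intro V _ ρ hV hD v
  by_contra hv
  have hne : ∃ v : V, v ≠ 0 := ⟨v, hv⟩
  have h0 : FxT ρ 0 := R0 hv
  have hp : Nat.Prime 13 := by norm_num
  rcases mT (ρ := ρ) hne with h1 | h1
  · obtain ⟨U, _, ρ', hU, hneU, hl⟩ := lift (k := 51) hV h1 (by decide)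
    rcases mP (ρ := ρ') hp hU (b := 51) ⟨17, 3, by norm_num, by norm_num, (by decide), by norm_num, by norm_num, by norm_num⟩ (by norm_num) with h1 | h1
    · have h2 := hl _ h1
      exact RD hD (f := 0) [51, 2] (by decide) ⟨by decide, by decide, by decide, by decide⟩ (by decide) (by decide) h2
    · have h3 := (hl _ (mS hp hU hneU h1 [47, 3] (by decide) (by decide) (by decide)))
      exact RD hD (f := 1) [47, 3, 2] (by decide) ⟨by decide, by decide, by decide, by decide⟩ (by decide) (by decide) h3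
  · have h3 := (altfx h1 ({53} : Multiset ℕ) (by decide) (by decide) (by decide))
    exact RD hD (f := 0) [53] (by decide) ⟨by decide, by decide, by decide, by decide⟩ (by decide) (by decide) h3

theorem nd53_53 : NoDo 53 53 := by
  intro V _ ρ hV hD v
  by_contra hv
  have hne : ∃ v : V, v ≠ 0 := ⟨v, hv⟩
  have h0 : FxT ρ 0 := R0 hv
  have hp : Nat.Prime 53 := by norm_num
  rcases mP (ρ := ρ) hp hV (b := 52) ⟨13, 4, by norm_num, by norm_num, (by decide), by norm_num, by norm_num, by norm_num⟩ (by norm_num) with h1 | h1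
  · exact RD hD (f := 1) [52] (by decide) ⟨by decide, by decide, by decide, by decide⟩ (by decide) (by decide) h1
  · have h3 := (mS hp hV hne h1 [49, 3] (by decide) (by decide) (by decide))
    exact RD hD (f := 1) [49, 3] (by decide) ⟨by decide, by decide, by decide, by decide⟩ (by decide) (by decide) h3

theorem nd53 {p : ℕ} (hp : p.Prime) (h2 : p ≠ 2) : NoDo 53 p := by
  by_cases h13 : p = 13
  · rw [h13]; exact nd53_13
  by_cases h53 : p = 53
  · rw [h53]; exact nd53_53
  have d2 : ¬ p ∣ 2 := ndv1 hp (by norm_num) h2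
  have d13 : ¬ p ∣ 13 := ndv1 hp (by norm_num) h13
  have d53 : ¬ p ∣ 53 := ndv1 hp (by norm_num) h53
  have e52 : ¬ p ∣ 52 := (ndvm hp (ndvm hp d2 d2) d13)
  have e53 : ¬ p ∣ 53 := d53
  intro V _ ρ hV hD v
  by_contra hv
  have hne : ∃ v : V, v ≠ 0 := ⟨v, hv⟩
  have h0 : FxT ρ 0 := R0 hv
  rcases mM (ρ := ρ) hp hV hne 53 (Nat.Prime.isPrimePow (by norm_num)) (by norm_num) e53 (by norm_num) (by norm_num) with h1 | h1
  · exact RD hD (f := 1) [52] (by decide) ⟨by decide, by decide, by decide, by decide⟩ (by intro x hx; simp only [List.mem_cons, List.not_mem_nil, or_false] at hx; rcases hx with rfl <;> assumption) (by decide) h1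
  · have h3 := (altfx h1 ({53} : Multiset ℕ) (by decide) (by decide) (by decide))
    exact RD hD (f := 0) [53] (by decide) ⟨by decide, by decide, by decide, by decide⟩ (by intro x hx; simp only [List.mem_cons, List.not_mem_nil, or_false] at hx; rcases hx with rfl <;> assumption) (by decide) h3

theorem nd54_3 : NoDo 54 3 := by
  intro V _ ρ hV hD v
  by_contra hv
  have hne : ∃ v : V, v ≠ 0 := ⟨v, hv⟩
  have h0 : FxT ρ 0 := R0 hv
  have hp : Nat.Prime 3 := by norm_num
  rcases mM (ρ := ρ) hp hV hne 8 (by rw [show (8 : ℕ) = 2 ^ 3 by norm_num]; exact (Nat.Prime.isPrimePow (by norm_num)).pow (by norm_num)) (by norm_num) (by decide) (by norm_num) (by norm_num) with h1 | h1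
  · obtain ⟨U, _, ρ', hU, hneU, hl⟩ := lift (k := 47) hV h1 (by decide)
    rcases mM (ρ := ρ') hp hU hneU 47 (Nat.Prime.isPrimePow (by norm_num)) (by norm_num) (by decide) (by norm_num) (by norm_num) with h1 | h1
    · have h2 := hl _ h1
      exact RD hD (f := 1) [46, 7] (by decide) ⟨by decide, by decide, by decide, by decide⟩ (by decide) (by decide) h2
    · have h3 := (hl _ (altfx h1 ({47} : Multiset ℕ) (by decide) (by decide) (by decide)))
      exact RD hD (f := 0) [47, 7] (by decide) ⟨by decide, by decide, by decide, by decide⟩ (by decide) (by decide) h3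
  · have h3 := (altfx h1 ({49, 5} : Multiset ℕ) (by decide) (by decide) (by decide))
    exact RD hD (f := 0) [49, 5] (by decide) ⟨by decide, by decide, by decide, by decide⟩ (by decide) (by decide) h3

theorem nd54_5 : NoDo 54 5 := by
  intro V _ ρ hV hD v
  by_contra hv
  have hne : ∃ v : V, v ≠ 0 := ⟨v, hv⟩
  have h0 : FxT ρ 0 := R0 hv
  have hp : Nat.Prime 5 := by norm_num
  rcases mP (ρ := ρ) hp hV (b := 54) ⟨3, 18, by norm_num, by norm_num, (by decide), by norm_num, by norm_num, by norm_num⟩ (by norm_num) with h1 | h1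
  · exact RD hD (f := 0) [54] (by decide) ⟨by decide, by decide, by decide, by decide⟩ (by decide) (by decide) h1
  · have h3 := (mS hp hV hne h1 [43, 7, 3] (by decide) (by decide) (by decide))
    exact RD hD (f := 1) [43, 7, 3] (by decide) ⟨by decide, by decide, by decide, by decide⟩ (by decide) (by decide) h3

theorem nd54 {p : ℕ} (hp : p.Prime) (h2 : p ≠ 2) : NoDo 54 p := by
  by_cases h3 : p = 3
  · rw [h3]; exact nd54_3
  by_cases h5 : p = 5
  · rw [h5]; exact nd54_5
  have d2 : ¬ p ∣ 2 := ndv1 hp (by norm_num) h2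
  have d3 : ¬ p ∣ 3 := ndv1 hp (by norm_num) h3
  have d5 : ¬ p ∣ 5 := ndv1 hp (by norm_num) h5
  have e3 : ¬ p ∣ 3 := d3
  have e5 : ¬ p ∣ 5 := d5
  have e45 : ¬ p ∣ 45 := (ndvm hp (ndvm hp d3 d3) d5)
  have e54 : ¬ p ∣ 54 := (ndvm hp (ndvm hp (ndvm hp d2 d3) d3) d3)
  intro V _ ρ hV hD v
  by_contra hv
  have hne : ∃ v : V, v ≠ 0 := ⟨v, hv⟩
  have h0 : FxT ρ 0 := R0 hv
  rcases mP (ρ := ρ) hp hV (b := 54) ⟨3, 18, by norm_num, by norm_num, (Ne.symm h3), by norm_num, by norm_num, by norm_num⟩ (by norm_num) with h1 | h1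
  · exact RD hD (f := 0) [54] (by decide) ⟨by decide, by decide, by decide, by decide⟩ (by intro x hx; simp only [List.mem_cons, List.not_mem_nil, or_false] at hx; rcases hx with rfl <;> assumption) (by decide) h1
  · have h3 := (mS hp hV hne h1 [45, 5, 3] (by decide) (by intro x hx; simp only [List.mem_cons, List.not_mem_nil, or_false] at hx; rcases hx with rfl | rfl | rfl <;> exact ⟨by decide, by decide, by assumption⟩) (by decide))
    exact RD hD (f := 1) [45, 5, 3] (by decide) ⟨by decide, by decide, by decide, by decide⟩ (by intro x hx; simp only [List.mem_cons, List.not_mem_nil, or_false] at hx; rcases hx with rfl | rfl | rfl <;> assumption) (by decide) h3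

theorem nd55_3 : NoDo 55 3 := by
  intro V _ ρ hV hD v
  by_contra hv
  have hne : ∃ v : V, v ≠ 0 := ⟨v, hv⟩
  have h0 : FxT ρ 0 := R0 hv
  have hp : Nat.Prime 3 := by norm_num
  rcases mP (ρ := ρ) hp hV (b := 55) ⟨11, 5, by norm_num, by norm_num, (by decide), by norm_num, by norm_num, by norm_num⟩ (by norm_num) with h1 | h1
  · exact RD hD (f := 0) [55] (by decide) ⟨by decide, by decide, by decide, by decide⟩ (by decide) (by decide) h1
  · have h3 := (mS hp hV hne h1 [49, 5] (by decide) (by decide) (by decide))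
    exact RD hD (f := 1) [49, 5] (by decide) ⟨by decide, by decide, by decide, by decide⟩ (by decide) (by decide) h3

theorem nd55_17 : NoDo 55 17 := by
  intro V _ ρ hV hD v
  by_contra hv
  have hne : ∃ v : V, v ≠ 0 := ⟨v, hv⟩
  have h0 : FxT ρ 0 := R0 hv
  have hp : Nat.Prime 17 := by norm_num
  rcases mP (ρ := ρ) hp hV (b := 54) ⟨3, 18, by norm_num, by norm_num, (by decide), by norm_num, by norm_num, by norm_num⟩ (by norm_num) with h1 | h1
  · exact RD hD (f := 1) [54] (by decide) ⟨by decide, by decide, by decide, by decide⟩ (by decide) (by decide) h1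
  · have h3 := (mS hp hV hne h1 [49, 5] (by decide) (by decide) (by decide))
    exact RD hD (f := 1) [49, 5] (by decide) ⟨by decide, by decide, by decide, by decide⟩ (by decide) (by decide) h3

theorem nd55 {p : ℕ} (hp : p.Prime) (h2 : p ≠ 2) : NoDo 55 p := by
  by_cases h3 : p = 3
  · rw [h3]; exact nd55_3
  by_cases h17 : p = 17
  · rw [h17]; exact nd55_17
  have d2 : ¬ p ∣ 2 := ndv1 hp (by norm_num) h2
  have d3 : ¬ p ∣ 3 := ndv1 hp (by norm_num) h3
  have d17 : ¬ p ∣ 17 := ndv1 hp (by norm_num) h17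
  have e3 : ¬ p ∣ 3 := d3
  have e51 : ¬ p ∣ 51 := (ndvm hp d3 d17)
  have e54 : ¬ p ∣ 54 := (ndvm hp (ndvm hp (ndvm hp d2 d3) d3) d3)
  intro V _ ρ hV hD v
  by_contra hv
  have hne : ∃ v : V, v ≠ 0 := ⟨v, hv⟩
  have h0 : FxT ρ 0 := R0 hv
  rcases mP (ρ := ρ) hp hV (b := 54) ⟨3, 18, by norm_num, by norm_num, (Ne.symm h3), by norm_num, by norm_num, by norm_num⟩ (by norm_num) with h1 | h1
  · exact RD hD (f := 1) [54] (by decide) ⟨by decide, by decide, by decide, by decide⟩ (by intro x hx; simp only [List.mem_cons, List.not_mem_nil, or_false] at hx; rcases hx with rfl <;> assumption) (by decide) h1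
  · have h3 := (mS hp hV hne h1 [51, 3] (by decide) (by intro x hx; simp only [List.mem_cons, List.not_mem_nil, or_false] at hx; rcases hx with rfl | rfl <;> exact ⟨by decide, by decide, by assumption⟩) (by decide))
    exact RD hD (f := 1) [51, 3] (by decide) ⟨by decide, by decide, by decide, by decide⟩ (by intro x hx; simp only [List.mem_cons, List.not_mem_nil, or_false] at hx; rcases hx with rfl | rfl <;> assumption) (by decide) h3

theorem nd56_3 : NoDo 56 3 := by
  intro V _ ρ hV hD v
  by_contra hv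
  have hne : ∃ v : V, v ≠ 0 := ⟨v, hv⟩
  have h0 : FxT ρ 0 := R0 hv
  have hp : Nat.Prime 3 := by norm_num
  rcases mP (ρ := ρ) hp hV (b := 55) ⟨11, 5, by norm_num, by norm_num, (by decide), by norm_num, by norm_num, by norm_num⟩ (by norm_num) with h1 | h1
  · exact RD hD (f := 1) [55] (by decide) ⟨by decide, by decide, by decide, by decide⟩ (by decide) (by decide) h1
  · have h3 := (mS hp hV hne h1 [43, 7, 5] (by decide) (by decide) (by decide))
    exact RD hD (f := 1) [43, 7, 5] (by decide) ⟨by decide, by decide, by decide, by decide⟩ (by decide) (by decide) h3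

theorem nd56_5 : NoDo 56 5 := by
  intro V _ ρ hV hD v
  by_contra hv
  have hne : ∃ v : V, v ≠ 0 := ⟨v, hv⟩
  have h0 : FxT ρ 0 := R0 hv
  have hp : Nat.Prime 5 := by norm_num
  rcases mP (ρ := ρ) hp hV (b := 56) ⟨7, 8, by norm_num, by norm_num, (by decide), by norm_num, by norm_num, by norm_num⟩ (by norm_num) with h1 | h1
  · exact RD hD (f := 0) [56] (by decide) ⟨by decide, by decide, by decide, by decide⟩ (by decide) (by decide) h1
  · have h3 := (mS hp hV hne h1 [43, 9, 3] (by decide) (by decide) (by decide))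
    exact RD hD (f := 1) [43, 9, 3] (by decide) ⟨by decide, by decide, by decide, by decide⟩ (by decide) (by decide) h3

theorem nd56_11 : NoDo 56 11 := by
  intro V _ ρ hV hD v
  by_contra hv
  have hne : ∃ v : V, v ≠ 0 := ⟨v, hv⟩
  have h0 : FxT ρ 0 := R0 hv
  have hp : Nat.Prime 11 := by norm_num
  rcases mP (ρ := ρ) hp hV (b := 56) ⟨7, 8, by norm_num, by norm_num, (by decide), by norm_num, by norm_num, by norm_num⟩ (by norm_num) with h1 | h1
  · exact RD hD (f := 0) [56] (by decide) ⟨by decide, by decide, by decide, by decide⟩ (by decide) (by decide) h1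
  · have h3 := (mS hp hV hne h1 [47, 5, 3] (by decide) (by decide) (by decide))
    exact RD hD (f := 1) [47, 5, 3] (by decide) ⟨by decide, by decide, by decide, by decide⟩ (by decide) (by decide) h3

theorem nd56_47 : NoDo 56 47 := by
  intro V _ ρ hV hD v
  by_contra hv
  have hne : ∃ v : V, v ≠ 0 := ⟨v, hv⟩
  have h0 : FxT ρ 0 := R0 hv
  have hp : Nat.Prime 47 := by norm_num
  rcases mP (ρ := ρ) hp hV (b := 55) ⟨11, 5, by norm_num, by norm_num, (by decide), by norm_num, by norm_num, by norm_num⟩ (by norm_num) with h1 | h1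
  · exact RD hD (f := 1) [55] (by decide) ⟨by decide, by decide, by decide, by decide⟩ (by decide) (by decide) h1
  · have h3 := (mS hp hV hne h1 [45, 7, 3] (by decide) (by decide) (by decide))
    exact RD hD (f := 1) [45, 7, 3] (by decide) ⟨by decide, by decide, by decide, by decide⟩ (by decide) (by decide) h3

theorem nd56 {p : ℕ} (hp : p.Prime) (h2 : p ≠ 2) : NoDo 56 p := by
  by_cases h3 : p = 3
  · rw [h3]; exact nd56_3
  by_cases h5 : p = 5
  · rw [h5]; exact nd56_5
  by_cases h11 : p = 11
  · rw [h11]; exact nd56_11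
  by_cases h47 : p = 47
  · rw [h47]; exact nd56_47
  have d2 : ¬ p ∣ 2 := ndv1 hp (by norm_num) h2
  have d3 : ¬ p ∣ 3 := ndv1 hp (by norm_num) h3
  have d5 : ¬ p ∣ 5 := ndv1 hp (by norm_num) h5
  have d11 : ¬ p ∣ 11 := ndv1 hp (by norm_num) h11
  have d47 : ¬ p ∣ 47 := ndv1 hp (by norm_num) h47
  have e3 : ¬ p ∣ 3 := d3
  have e5 : ¬ p ∣ 5 := d5
  have e47 : ¬ p ∣ 47 := d47
  have e55 : ¬ p ∣ 55 := (ndvm hp d5 d11)
  intro V _ ρ hV hD v
  by_contra hv
  have hne : ∃ v : V, v ≠ 0 := ⟨v, hv⟩
  have h0 : FxT ρ 0 := R0 hv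
  rcases mP (ρ := ρ) hp hV (b := 55) ⟨11, 5, by norm_num, by norm_num, (Ne.symm h11), by norm_num, by norm_num, by norm_num⟩ (by norm_num) with h1 | h1
  · exact RD hD (f := 1) [55] (by decide) ⟨by decide, by decide, by decide, by decide⟩ (by intro x hx; simp only [List.mem_cons, List.not_mem_nil, or_false] at hx; rcases hx with rfl <;> assumption) (by decide) h1
  · have h3 := (mS hp hV hne h1 [47, 5, 3] (by decide) (by intro x hx; simp only [List.mem_cons, List.not_mem_nil, or_false] at hx; rcases hx with rfl | rfl | rfl <;> exact ⟨by decide, by decide, by assumption⟩) (by decide))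
    exact RD hD (f := 1) [47, 5, 3] (by decide) ⟨by decide, by decide, by decide, by decide⟩ (by intro x hx; simp only [List.mem_cons, List.not_mem_nil, or_false] at hx; rcases hx with rfl | rfl | rfl <;> assumption) (by decide) h3

end Pool.Agent.NbT
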