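import Pool.Agent.NbT.Sml

/-!
# Degrees with `NoDo`
-/

set_option autoImplicit false
set_option linter.unusedVariables false

namespace Pool.Agent.NbT

open Equiv Pool.Agent.NbS

theorem nd57_3 : NoDo 57 3 := by
  intro V _ ρ hV hD v
  by_contra hv
  have hne : ∃ v : V, v ≠ 0 := ⟨v, hv⟩
  have h0 : FxT ρ 0 := R0 hv
  have hp : Nat.Prime 3 := by norm_num
  rcases mP (ρ := ρ) hp hV (b := 56) ⟨7, 8, by norm_num, by norm_num, (by decide), by norm_num, by norm_num, by norm_num⟩ (by norm_num) with h1 | h1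
  · exact RD hD (f := 1) [56] (by decide) ⟨by decide, by decide, by decide, by decide⟩ (by decide) (by decide) h1
  · have h3 := (mS hp hV hne h1 [49, 7] (by decide) (by decide) (by decide))
    exact RD hD (f := 1) [49, 7] (by decide) ⟨by decide, by decide, by decide, by decide⟩ (by decide) (by decide) h3

theorem nd57_7 : NoDo 57 7 := by
  intro V _ ρ hV hD v
  by_contra hv
  have hne : ∃ v : V, v ≠ 0 := ⟨v, hv⟩
  have h0 : FxT ρ 0 := R0 hv
  have hp : Nat.Prime 7 := by norm_num
  rcases mP (ρ := ρ) hp hV (b := 57) ⟨19, 3, by norm_num, by norm_num, (by decide), by norm_num, by norm_num, by norm_num⟩ (by norm_num) with h1 | h1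
  · exact RD hD (f := 0) [57] (by decide) ⟨by decide, by decide, by decide, by decide⟩ (by decide) (by decide) h1
  · have h3 := (mS hp hV hne h1 [53, 3] (by decide) (by decide) (by decide))
    exact RD hD (f := 1) [53, 3] (by decide) ⟨by decide, by decide, by decide, by decide⟩ (by decide) (by decide) h3

theorem nd57_53 : NoDo 57 53 := by
  intro V _ ρ hV hD v
  by_contra hv
  have hne : ∃ v : V, v ≠ 0 := ⟨v, hv⟩
  have h0 : FxT ρ 0 := R0 hv
  have hp : Nat.Prime 53 := by norm_num
  rcases mP (ρ := ρ) hp hV (b := 56) ⟨7, 8, by norm_num, by norm_num, (by decide), by norm_num, by norm_num, by norm_num⟩ (by norm_num) with h1 | h1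
  · exact RD hD (f := 1) [56] (by decide) ⟨by decide, by decide, by decide, by decide⟩ (by decide) (by decide) h1
  · have h3 := (mS hp hV hne h1 [51, 5] (by decide) (by decide) (by decide))
    exact RD hD (f := 1) [51, 5] (by decide) ⟨by decide, by decide, by decide, by decide⟩ (by decide) (by decide) h3

theorem nd57 {p : ℕ} (hp : p.Prime) (h2 : p ≠ 2) : NoDo 57 p := by
  by_cases h3 : p = 3
  · rw [h3]; exact nd57_3
  by_cases h7 : p = 7
  · rw [h7]; exact nd57_7
  by_cases h53 : p = 53
  · rw [h53]; exact nd57_53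
  have d2 : ¬ p ∣ 2 := ndv1 hp (by norm_num) h2
  have d3 : ¬ p ∣ 3 := ndv1 hp (by norm_num) h3
  have d7 : ¬ p ∣ 7 := ndv1 hp (by norm_num) h7
  have d53 : ¬ p ∣ 53 := ndv1 hp (by norm_num) h53
  have e3 : ¬ p ∣ 3 := d3
  have e53 : ¬ p ∣ 53 := d53
  have e56 : ¬ p ∣ 56 := (ndvm hp (ndvm hp (ndvm hp d2 d2) d2) d7)
  intro V _ ρ hV hD v
  by_contra hv
  have hne : ∃ v : V, v ≠ 0 := ⟨v, hv⟩
  have h0 : FxT ρ 0 := R0 hv
  rcases mP (ρ := ρ) hp hV (b := 56) ⟨7, 8, by norm_num, by norm_num, (Ne.symm h7), by norm_num, by norm_num, by norm_num⟩ (by norm_num) with h1 | h1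
  · exact RD hD (f := 1) [56] (by decide) ⟨by decide, by decide, by decide, by decide⟩ (by intro x hx; simp only [List.mem_cons, List.not_mem_nil, or_false] at hx; rcases hx with rfl <;> assumption) (by decide) h1
  · have h3 := (mS hp hV hne h1 [53, 3] (by decide) (by intro x hx; simp only [List.mem_cons, List.not_mem_nil, or_false] at hx; rcases hx with rfl | rfl <;> exact ⟨by decide, by decide, by assumption⟩) (by decide))
    exact RD hD (f := 1) [53, 3] (by decide) ⟨by decide, by decide, by decide, by decide⟩ (by intro x hx; simp only [List.mem_cons, List.not_mem_nil, or_false] at hx; rcases hx with rfl | rfl <;> assumption) (by decide) h3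

theorem nd58_3 : NoDo 58 3 := by
  intro V _ ρ hV hD v
  by_contra hv
  have hne : ∃ v : V, v ≠ 0 := ⟨v, hv⟩
  have h0 : FxT ρ 0 := R0 hv
  have hp : Nat.Prime 3 := by norm_num
  rcases mP (ρ := ρ) hp hV (b := 58) ⟨29, 2, by norm_num, by norm_num, (by decide), by norm_num, by norm_num, by norm_num⟩ (by norm_num) with h1 | h1
  · exact RD hD (f := 0) [58] (by decide) ⟨by decide, by decide, by decide, by decide⟩ (by decide) (by decide) h1
  · have h3 := (mS hp hV hne h1 [41, 11, 5] (by decide) (by decide) (by decide))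
    exact RD hD (f := 1) [41, 11, 5] (by decide) ⟨by decide, by decide, by decide, by decide⟩ (by decide) (by decide) h3

theorem nd58_5 : NoDo 58 5 := by
  intro V _ ρ hV hD v
  by_contra hv
  have hne : ∃ v : V, v ≠ 0 := ⟨v, hv⟩
  have h0 : FxT ρ 0 := R0 hv
  have hp : Nat.Prime 5 := by norm_num
  rcases mP (ρ := ρ) hp hV (b := 57) ⟨19, 3, by norm_num, by norm_num, (by decide), by norm_num, by norm_num, by norm_num⟩ (by norm_num) with h1 | h1
  · exact RD hD (f := 1) [57] (by decide) ⟨by decide, by decide, by decide, by decide⟩ (by decide) (by decide) h1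
  · have h3 := (mS hp hV hne h1 [47, 7, 3] (by decide) (by decide) (by decide))
    exact RD hD (f := 1) [47, 7, 3] (by decide) ⟨by decide, by decide, by decide, by decide⟩ (by decide) (by decide) h3

theorem nd58_7 : NoDo 58 7 := by
  intro V _ ρ hV hD v
  by_contra hv
  have hne : ∃ v : V, v ≠ 0 := ⟨v, hv⟩
  have h0 : FxT ρ 0 := R0 hv
  have hp : Nat.Prime 7 := by norm_num
  rcases mP (ρ := ρ) hp hV (b := 57) ⟨19, 3, by norm_num, by norm_num, (by decide), by norm_num, by norm_num, by norm_num⟩ (by norm_num) with h1 | h1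
  · exact RD hD (f := 1) [57] (by decide) ⟨by decide, by decide, by decide, by decide⟩ (by decide) (by decide) h1
  · have h3 := (mS hp hV hne h1 [45, 9, 3] (by decide) (by decide) (by decide))
    exact RD hD (f := 1) [45, 9, 3] (by decide) ⟨by decide, by decide, by decide, by decide⟩ (by decide) (by decide) h3

theorem nd58_19 : NoDo 58 19 := by
  intro V _ ρ hV hD v
  by_contra hv
  have hne : ∃ v : V, v ≠ 0 := ⟨v, hv⟩
  have h0 : FxT ρ 0 := R0 hv
  have hp : Nat.Prime 19 := by norm_num
  rcases mP (ρ := ρ) hp hV (b := 58) ⟨29, 2, by norm_num, by norm_num, (by decide), by norm_num, by norm_num, by norm_num⟩ (by norm_num) with h1 | h1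
  · exact RD hD (f := 0) [58] (by decide) ⟨by decide, by decide, by decide, by decide⟩ (by decide) (by decide) h1
  · have h3 := (mS hp hV hne h1 [49, 5, 3] (by decide) (by decide) (by decide))
    exact RD hD (f := 1) [49, 5, 3] (by decide) ⟨by decide, by decide, by decide, by decide⟩ (by decide) (by decide) h3

theorem nd58 {p : ℕ} (hp : p.Prime) (h2 : p ≠ 2) : NoDo 58 p := by
  by_cases h3 : p = 3
  · rw [h3]; exact nd58_3
  by_cases h5 : p = 5
  · rw [h5]; exact nd58_5
  by_cases h7 : p = 7
  · rw [h7]; exact nd58_7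
  by_cases h19 : p = 19
  · rw [h19]; exact nd58_19
  have d2 : ¬ p ∣ 2 := ndv1 hp (by norm_num) h2
  have d3 : ¬ p ∣ 3 := ndv1 hp (by norm_num) h3
  have d5 : ¬ p ∣ 5 := ndv1 hp (by norm_num) h5
  have d7 : ¬ p ∣ 7 := ndv1 hp (by norm_num) h7
  have d19 : ¬ p ∣ 19 := ndv1 hp (by norm_num) h19
  have e3 : ¬ p ∣ 3 := d3
  have e5 : ¬ p ∣ 5 := d5
  have e49 : ¬ p ∣ 49 := (ndvm hp d7 d7)
  have e57 : ¬ p ∣ 57 := (ndvm hp d3 d19)
  intro V _ ρ hV hD v
  by_contra hv
  have hne : ∃ v : V, v ≠ 0 := ⟨v, hv⟩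
  have h0 : FxT ρ 0 := R0 hv
  rcases mP (ρ := ρ) hp hV (b := 57) ⟨19, 3, by norm_num, by norm_num, (Ne.symm h19), by norm_num, by norm_num, by norm_num⟩ (by norm_num) with h1 | h1
  · exact RD hD (f := 1) [57] (by decide) ⟨by decide, by decide, by decide, by decide⟩ (by intro x hx; simp only [List.mem_cons, List.not_mem_nil, or_false] at hx; rcases hx with rfl <;> assumption) (by decide) h1
  · have h3 := (mS hp hV hne h1 [49, 5, 3] (by decide) (by intro x hx; simp only [List.mem_cons, List.not_mem_nil, or_false] at hx; rcases hx with rfl | rfl | rfl <;> exact ⟨by decide, by decide, by assumption⟩) (by decide))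
    exact RD hD (f := 1) [49, 5, 3] (by decide) ⟨by decide, by decide, by decide, by decide⟩ (by intro x hx; simp only [List.mem_cons, List.not_mem_nil, or_false] at hx; rcases hx with rfl | rfl | rfl <;> assumption) (by decide) h3

theorem nd59_29 : NoDo 59 29 := by
  intro V _ ρ hV hD v
  by_contra hv
  have hne : ∃ v : V, v ≠ 0 := ⟨v, hv⟩
  have h0 : FxT ρ 0 := R0 hv
  have hp : Nat.Prime 29 := by norm_num
  rcases mT (ρ := ρ) hne with h1 | h1
  · obtain ⟨U, _, ρ', hU, hneU, hl⟩ := lift (k := 57) hV h1 (by decide)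
    rcases mP (ρ := ρ') hp hU (b := 57) ⟨19, 3, by norm_num, by norm_num, (by decide), by norm_num, by norm_num, by norm_num⟩ (by norm_num) with h1 | h1
    · have h2 := hl _ h1
      exact RD hD (f := 0) [57, 2] (by decide) ⟨by decide, by decide, by decide, by decide⟩ (by decide) (by decide) h2
    · have h3 := (hl _ (mS hp hU hneU h1 [53, 3] (by decide) (by decide) (by decide)))
      exact RD hD (f := 1) [53, 3, 2] (by decide) ⟨by decide, by decide, by decide, by decide⟩ (by decide) (by decide) h3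
  · have h3 := (altfx h1 ({59} : Multiset ℕ) (by decide) (by decide) (by decide))
    exact RD hD (f := 0) [59] (by decide) ⟨by decide, by decide, by decide, by decide⟩ (by decide) (by decide) h3

theorem nd59_59 : NoDo 59 59 := by
  intro V _ ρ hV hD v
  by_contra hv
  have hne : ∃ v : V, v ≠ 0 := ⟨v, hv⟩
  have h0 : FxT ρ 0 := R0 hv
  have hp : Nat.Prime 59 := by norm_num
  rcases mP (ρ := ρ) hp hV (b := 58) ⟨29, 2, by norm_num, by norm_num, (by decide), by norm_num, by norm_num, by norm_num⟩ (by norm_num) with h1 | h1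
  · exact RD hD (f := 1) [58] (by decide) ⟨by decide, by decide, by decide, by decide⟩ (by decide) (by decide) h1
  · have h3 := (mS hp hV hne h1 [55, 3] (by decide) (by decide) (by decide))
    exact RD hD (f := 1) [55, 3] (by decide) ⟨by decide, by decide, by decide, by decide⟩ (by decide) (by decide) h3

theorem nd59 {p : ℕ} (hp : p.Prime) (h2 : p ≠ 2) : NoDo 59 p := by
  by_cases h29 : p = 29
  · rw [h29]; exact nd59_29
  by_cases h59 : p = 59
  · rw [h59]; exact nd59_59
  have d2 : ¬ p ∣ 2 := ndv1 hp (by norm_num) h2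
  have d29 : ¬ p ∣ 29 := ndv1 hp (by norm_num) h29
  have d59 : ¬ p ∣ 59 := ndv1 hp (by norm_num) h59
  have e58 : ¬ p ∣ 58 := (ndvm hp d2 d29)
  have e59 : ¬ p ∣ 59 := d59
  intro V _ ρ hV hD v
  by_contra hv
  have hne : ∃ v : V, v ≠ 0 := ⟨v, hv⟩
  have h0 : FxT ρ 0 := R0 hv
  rcases mM (ρ := ρ) hp hV hne 59 (Nat.Prime.isPrimePow (by norm_num)) (by norm_num) e59 (by norm_num) (by norm_num) with h1 | h1
  · exact RD hD (f := 1) [58] (by decide) ⟨by decide, by decide, by decide, by decide⟩ (by intro x hx; simp only [List.mem_cons, List.not_mem_nil, or_false] at hx; rcases hx with rfl <;> assumption) (by decide) h1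
  · have h3 := (altfx h1 ({59} : Multiset ℕ) (by decide) (by decide) (by decide))
    exact RD hD (f := 0) [59] (by decide) ⟨by decide, by decide, by decide, by decide⟩ (by intro x hx; simp only [List.mem_cons, List.not_mem_nil, or_false] at hx; rcases hx with rfl <;> assumption) (by decide) h3

theorem nd60_3 : NoDo 60 3 := by
  intro V _ ρ hV hD v
  by_contra hv
  have hne : ∃ v : V, v ≠ 0 := ⟨v, hv⟩
  have h0 : FxT ρ 0 := R0 hv
  have hp : Nat.Prime 3 := by norm_num
  rcases mM (ρ := ρ) hp hV hne 8 (by rw [show (8 : ℕ) = 2 ^ 3 by norm_num]; exact (Nat.Prime.isPrimePow (by norm_num)).pow (by norm_num)) (by norm_num) (by decide) (by norm_num) (by norm_num) with h1 | h1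
  · obtain ⟨U, _, ρ', hU, hneU, hl⟩ := lift (k := 53) hV h1 (by decide)
    rcases mM (ρ := ρ') hp hU hneU 53 (Nat.Prime.isPrimePow (by norm_num)) (by norm_num) (by decide) (by norm_num) (by norm_num) with h1 | h1
    · have h2 := hl _ h1
      exact RD hD (f := 1) [52, 7] (by decide) ⟨by decide, by decide, by decide, by decide⟩ (by decide) (by decide) h2
    · have h3 := (hl _ (altfx h1 ({53} : Multiset ℕ) (by decide) (by decide) (by decide)))
      exact RD hD (f := 0) [53, 7] (by decide) ⟨by decide, by decide, by decide, by decide⟩ (by decide) (by decide) h3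
  · have h3 := (altfx h1 ({55, 5} : Multiset ℕ) (by decide) (by decide) (by decide))
    exact RD hD (f := 0) [55, 5] (by decide) ⟨by decide, by decide, by decide, by decide⟩ (by decide) (by decide) h3

theorem nd60_5 : NoDo 60 5 := by
  intro V _ ρ hV hD v
  by_contra hv
  have hne : ∃ v : V, v ≠ 0 := ⟨v, hv⟩
  have h0 : FxT ρ 0 := R0 hv
  have hp : Nat.Prime 5 := by norm_num
  rcases mM (ρ := ρ) hp hV hne 4 (by rw [show (4 : ℕ) = 2 ^ 2 by norm_num]; exact (Nat.Prime.isPrimePow (by norm_num)).pow (by norm_num)) (by norm_num) (by decide) (by norm_num) (by norm_num) with h1 | h1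
  · obtain ⟨U, _, ρ', hU, hneU, hl⟩ := lift (k := 57) hV h1 (by decide)
    rcases mP (ρ := ρ') hp hU (b := 56) ⟨7, 8, by norm_num, by norm_num, (by decide), by norm_num, by norm_num, by norm_num⟩ (by norm_num) with h1 | h1
    · have h2 := hl _ h1
      exact RD hD (f := 1) [56, 3] (by decide) ⟨by decide, by decide, by decide, by decide⟩ (by decide) (by decide) h2
    · have h3 := (hl _ (mS hp hU hneU h1 [49, 7] (by decide) (by decide) (by decide)))
      exact RD hD (f := 1) [49, 7, 3] (by decide) ⟨by decide, by decide, by decide, by decide⟩ (by decide) (by decide) h3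
  · have h3 := (altfx h1 ({57, 3} : Multiset ℕ) (by decide) (by decide) (by decide))
    exact RD hD (f := 0) [57, 3] (by decide) ⟨by decide, by decide, by decide, by decide⟩ (by decide) (by decide) h3

theorem nd60_17 : NoDo 60 17 := by
  intro V _ ρ hV hD v
  by_contra hv
  have hne : ∃ v : V, v ≠ 0 := ⟨v, hv⟩
  have h0 : FxT ρ 0 := R0 hv
  have hp : Nat.Prime 17 := by norm_num
  rcases mP (ρ := ρ) hp hV (b := 60) ⟨3, 20, by norm_num, by norm_num, (by decide), by norm_num, by norm_num, by norm_num⟩ (by norm_num) with h1 | h1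
  · exact RD hD (f := 0) [60] (by decide) ⟨by decide, by decide, by decide, by decide⟩ (by decide) (by decide) h1
  · have h3 := (mS hp hV hne h1 [49, 7, 3] (by decide) (by decide) (by decide))
    exact RD hD (f := 1) [49, 7, 3] (by decide) ⟨by decide, by decide, by decide, by decide⟩ (by decide) (by decide) h3

theorem nd60 {p : ℕ} (hp : p.Prime) (h2 : p ≠ 2) : NoDo 60 p := by
  by_cases h3 : p = 3
  · rw [h3]; exact nd60_3
  by_cases h5 : p = 5
  · rw [h5]; exact nd60_5
  by_cases h17 : p = 17
  · rw [h17]; exact nd60_17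
  have d2 : ¬ p ∣ 2 := ndv1 hp (by norm_num) h2
  have d3 : ¬ p ∣ 3 := ndv1 hp (by norm_num) h3
  have d5 : ¬ p ∣ 5 := ndv1 hp (by norm_num) h5
  have d17 : ¬ p ∣ 17 := ndv1 hp (by norm_num) h17
  have e3 : ¬ p ∣ 3 := d3
  have e5 : ¬ p ∣ 5 := d5
  have e51 : ¬ p ∣ 51 := (ndvm hp d3 d17)
  have e60 : ¬ p ∣ 60 := (ndvm hp (ndvm hp (ndvm hp d2 d2) d3) d5)
  intro V _ ρ hV hD v
  by_contra hv
  have hne : ∃ v : V, v ≠ 0 := ⟨v, hv⟩
  have h0 : FxT ρ 0 := R0 hv
  rcases mP (ρ := ρ) hp hV (b := 60) ⟨3, 20, by norm_num, by norm_num, (Ne.symm h3), by norm_num, by norm_num, by norm_num⟩ (by norm_num) with h1 | h1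
  · exact RD hD (f := 0) [60] (by decide) ⟨by decide, by decide, by decide, by decide⟩ (by intro x hx; simp only [List.mem_cons, List.not_mem_nil, or_false] at hx; rcases hx with rfl <;> assumption) (by decide) h1
  · have h3 := (mS hp hV hne h1 [51, 5, 3] (by decide) (by intro x hx; simp only [List.mem_cons, List.not_mem_nil, or_false] at hx; rcases hx with rfl | rfl | rfl <;> exact ⟨by decide, by decide, by assumption⟩) (by decide))
    exact RD hD (f := 1) [51, 5, 3] (by decide) ⟨by decide, by decide, by decide, by decide⟩ (by intro x hx; simp only [List.mem_cons, List.not_mem_nil, or_false] at hx; rcases hx with rfl | rfl | rfl <;> assumption) (by decide) h3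

theorem nd61_3 : NoDo 61 3 := by
  intro V _ ρ hV hD v
  by_contra hv
  have hne : ∃ v : V, v ≠ 0 := ⟨v, hv⟩
  have h0 : FxT ρ 0 := R0 hv
  have hp : Nat.Prime 3 := by norm_num
  rcases mP (ρ := ρ) hp hV (b := 26) ⟨13, 2, by norm_num, by norm_num, (by decide), by norm_num, by norm_num, by norm_num⟩ (by norm_num) with h1 | h1
  · obtain ⟨U, _, ρ', hU, hneU, hl⟩ := lift (k := 35) hV h1 (by decide)
    rcases mP (ρ := ρ') hp hU (b := 35) ⟨5, 7, by norm_num, by norm_num, (by decide), by norm_num, by norm_num, by norm_num⟩ (by norm_num) with h1 | h1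
    · have h2 := hl _ h1
      exact RD hD (f := 0) [35, 26] (by decide) ⟨by decide, by decide, by decide, by decide⟩ (by decide) (by decide) h2
    · have h3 := (hl _ (mS hp hU hneU h1 [29, 5] (by decide) (by decide) (by decide)))
      exact RD hD (f := 1) [29, 26, 5] (by decide) ⟨by decide, by decide, by decide, by decide⟩ (by decide) (by decide) h3
  · have h3 := (mS hp hV hne h1 [55, 5] (by decide) (by decide) (by decide))
    exact RD hD (f := 1) [55, 5] (by decide) ⟨by decide, by decide, by decide, by decide⟩ (by decide) (by decide) h3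

theorem nd61_5 : NoDo 61 5 := by
  intro V _ ρ hV hD v
  by_contra hv
  have hne : ∃ v : V, v ≠ 0 := ⟨v, hv⟩
  have h0 : FxT ρ 0 := R0 hv
  have hp : Nat.Prime 5 := by norm_num
  rcases mM (ρ := ρ) hp hV hne 13 (Nat.Prime.isPrimePow (by norm_num)) (by norm_num) (by decide) (by norm_num) (by norm_num) with h1 | h1
  · obtain ⟨U, _, ρ', hU, hneU, hl⟩ := lift (k := 49) hV h1 (by decide)
    rcases mP (ρ := ρ') hp hU (b := 49) ⟨7, 7, by norm_num, by norm_num, (by decide), by norm_num, by norm_num, by norm_num⟩ (by norm_num) with h1 | h1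
    · have h2 := hl _ h1
      exact RD hD (f := 0) [49, 12] (by decide) ⟨by decide, by decide, by decide, by decide⟩ (by decide) (by decide) h2
    · have h3 := (hl _ (mS hp hU hneU h1 [41, 7] (by decide) (by decide) (by decide)))
      exact RD hD (f := 1) [41, 12, 7] (by decide) ⟨by decide, by decide, by decide, by decide⟩ (by decide) (by decide) h3
  · have h3 := (altfx h1 ({61} : Multiset ℕ) (by decide) (by decide) (by decide))
    exact RD hD (f := 0) [61] (by decide) ⟨by decide, by decide, by decide, by decide⟩ (by decide) (by decide) h3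

theorem nd61_61 : NoDo 61 61 := by
  intro V _ ρ hV hD v
  by_contra hv
  have hne : ∃ v : V, v ≠ 0 := ⟨v, hv⟩
  have h0 : FxT ρ 0 := R0 hv
  have hp : Nat.Prime 61 := by norm_num
  rcases mP (ρ := ρ) hp hV (b := 60) ⟨3, 20, by norm_num, by norm_num, (by decide), by norm_num, by norm_num, by norm_num⟩ (by norm_num) with h1 | h1
  · exact RD hD (f := 1) [60] (by decide) ⟨by decide, by decide, by decide, by decide⟩ (by decide) (by decide) h1
  · have h3 := (mS hp hV hne h1 [57, 3] (by decide) (by decide) (by decide))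
    exact RD hD (f := 1) [57, 3] (by decide) ⟨by decide, by decide, by decide, by decide⟩ (by decide) (by decide) h3

theorem nd61 {p : ℕ} (hp : p.Prime) (h2 : p ≠ 2) : NoDo 61 p := by
  by_cases h3 : p = 3
  · rw [h3]; exact nd61_3
  by_cases h5 : p = 5
  · rw [h5]; exact nd61_5
  by_cases h61 : p = 61
  · rw [h61]; exact nd61_61
  have d2 : ¬ p ∣ 2 := ndv1 hp (by norm_num) h2
  have d3 : ¬ p ∣ 3 := ndv1 hp (by norm_num) h3
  have d5 : ¬ p ∣ 5 := ndv1 hp (by norm_num) h5
  have d61 : ¬ p ∣ 61 := ndv1 hp (by norm_num) h61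
  have e60 : ¬ p ∣ 60 := (ndvm hp (ndvm hp (ndvm hp d2 d2) d3) d5)
  have e61 : ¬ p ∣ 61 := d61
  intro V _ ρ hV hD v
  by_contra hv
  have hne : ∃ v : V, v ≠ 0 := ⟨v, hv⟩
  have h0 : FxT ρ 0 := R0 hv
  rcases mM (ρ := ρ) hp hV hne 61 (Nat.Prime.isPrimePow (by norm_num)) (by norm_num) e61 (by norm_num) (by norm_num) with h1 | h1
  · exact RD hD (f := 1) [60] (by decide) ⟨by decide, by decide, by decide, by decide⟩ (by intro x hx; simp only [List.mem_cons, List.not_mem_nil, or_false] at hx; rcases hx with rfl <;> assumption) (by decide) h1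
  · have h3 := (altfx h1 ({61} : Multiset ℕ) (by decide) (by decide) (by decide))
    exact RD hD (f := 0) [61] (by decide) ⟨by decide, by decide, by decide, by decide⟩ (by intro x hx; simp only [List.mem_cons, List.not_mem_nil, or_false] at hx; rcases hx with rfl <;> assumption) (by decide) h3

theorem nd62_3 : NoDo 62 3 := by
  intro V _ ρ hV hD v
  by_contra hv
  have hne : ∃ v : V, v ≠ 0 := ⟨v, hv⟩
  have h0 : FxT ρ 0 := R0 hv
  have hp : Nat.Prime 3 := by norm_num
  rcases mP (ρ := ρ) hp hV (b := 62) ⟨31, 2, by norm_num, by norm_num, (by decide), by norm_num, by norm_num, by norm_num⟩ (by norm_num) with h1 | h1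
  · exact RD hD (f := 0) [62] (by decide) ⟨by decide, by decide, by decide, by decide⟩ (by decide) (by decide) h1
  · have h3 := (mS hp hV hne h1 [49, 7, 5] (by decide) (by decide) (by decide))
    exact RD hD (f := 1) [49, 7, 5] (by decide) ⟨by decide, by decide, by decide, by decide⟩ (by decide) (by decide) h3

theorem nd62_5 : NoDo 62 5 := by
  intro V _ ρ hV hD v
  by_contra hv
  have hne : ∃ v : V, v ≠ 0 := ⟨v, hv⟩
  have h0 : FxT ρ 0 := R0 hv
  have hp : Nat.Prime 5 := by norm_num
  rcases mP (ρ := ρ) hp hV (b := 62) ⟨31, 2, by norm_num, by norm_num, (by decide), by norm_num, by norm_num, by norm_num⟩ (by norm_num) with h1 | h1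
  · exact RD hD (f := 0) [62] (by decide) ⟨by decide, by decide, by decide, by decide⟩ (by decide) (by decide) h1
  · have h3 := (mS hp hV hne h1 [51, 7, 3] (by decide) (by decide) (by decide))
    exact RD hD (f := 1) [51, 7, 3] (by decide) ⟨by decide, by decide, by decide, by decide⟩ (by decide) (by decide) h3

theorem nd62_31 : NoDo 62 31 := by
  intro V _ ρ hV hD v
  by_contra hv
  have hne : ∃ v : V, v ≠ 0 := ⟨v, hv⟩
  have h0 : FxT ρ 0 := R0 hv
  have hp : Nat.Prime 31 := by norm_num
  rcases mM (ρ := ρ) hp hV hne 4 (by rw [show (4 : ℕ) = 2 ^ 2 by norm_num]; exact (Nat.Prime.isPrimePow (by norm_num)).pow (by norm_num)) (by norm_num) (by decide) (by norm_num) (by norm_num) with h1 | h1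
  · obtain ⟨U, _, ρ', hU, hneU, hl⟩ := lift (k := 59) hV h1 (by decide)
    rcases mM (ρ := ρ') hp hU hneU 59 (Nat.Prime.isPrimePow (by norm_num)) (by norm_num) (by decide) (by norm_num) (by norm_num) with h1 | h1
    · have h2 := hl _ h1
      exact RD hD (f := 1) [58, 3] (by decide) ⟨by decide, by decide, by decide, by decide⟩ (by decide) (by decide) h2
    · have h3 := (hl _ (altfx h1 ({59} : Multiset ℕ) (by decide) (by decide) (by decide)))
      exact RD hD (f := 0) [59, 3] (by decide) ⟨by decide, by decide, by decide, by decide⟩ (by decide) (by decide) h3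
  · have h3 := (altfx h1 ({59, 3} : Multiset ℕ) (by decide) (by decide) (by decide))
    exact RD hD (f := 0) [59, 3] (by decide) ⟨by decide, by decide, by decide, by decide⟩ (by decide) (by decide) h3

theorem nd62_53 : NoDo 62 53 := by
  intro V _ ρ hV hD v
  by_contra hv
  have hne : ∃ v : V, v ≠ 0 := ⟨v, hv⟩
  have h0 : FxT ρ 0 := R0 hv
  have hp : Nat.Prime 53 := by norm_num
  rcases mP (ρ := ρ) hp hV (b := 62) ⟨31, 2, by norm_num, by norm_num, (by decide), by norm_num, by norm_num, by norm_num⟩ (by norm_num) with h1 | h1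
  · exact RD hD (f := 0) [62] (by decide) ⟨by decide, by decide, by decide, by decide⟩ (by decide) (by decide) h1
  · have h3 := (mS hp hV hne h1 [51, 7, 3] (by decide) (by decide) (by decide))
    exact RD hD (f := 1) [51, 7, 3] (by decide) ⟨by decide, by decide, by decide, by decide⟩ (by decide) (by decide) h3

theorem nd62 {p : ℕ} (hp : p.Prime) (h2 : p ≠ 2) : NoDo 62 p := by
  by_cases h3 : p = 3
  · rw [h3]; exact nd62_3
  by_cases h5 : p = 5
  · rw [h5]; exact nd62_5
  by_cases h31 : p = 31
  · rw [h31]; exact nd62_31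
  by_cases h53 : p = 53
  · rw [h53]; exact nd62_53
  have d2 : ¬ p ∣ 2 := ndv1 hp (by norm_num) h2
  have d3 : ¬ p ∣ 3 := ndv1 hp (by norm_num) h3
  have d5 : ¬ p ∣ 5 := ndv1 hp (by norm_num) h5
  have d31 : ¬ p ∣ 31 := ndv1 hp (by norm_num) h31
  have d53 : ¬ p ∣ 53 := ndv1 hp (by norm_num) h53
  have e3 : ¬ p ∣ 3 := d3
  have e5 : ¬ p ∣ 5 := d5
  have e53 : ¬ p ∣ 53 := d53
  have e62 : ¬ p ∣ 62 := (ndvm hp d2 d31)
  intro V _ ρ hV hD v
  by_contra hv
  have hne : ∃ v : V, v ≠ 0 := ⟨v, hv⟩
  have h0 : FxT ρ 0 := R0 hv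
  rcases mP (ρ := ρ) hp hV (b := 62) ⟨31, 2, by norm_num, by norm_num, (Ne.symm h31), by norm_num, by norm_num, by norm_num⟩ (by norm_num) with h1 | h1
  · exact RD hD (f := 0) [62] (by decide) ⟨by decide, by decide, by decide, by decide⟩ (by intro x hx; simp only [List.mem_cons, List.not_mem_nil, or_false] at hx; rcases hx with rfl <;> assumption) (by decide) h1
  · have h3 := (mS hp hV hne h1 [53, 5, 3] (by decide) (by intro x hx; simp only [List.mem_cons, List.not_mem_nil, or_false] at hx; rcases hx with rfl | rfl | rfl <;> exact ⟨by decide, by decide, by assumption⟩) (by decide))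
    exact RD hD (f := 1) [53, 5, 3] (by decide) ⟨by decide, by decide, by decide, by decide⟩ (by intro x hx; simp only [List.mem_cons, List.not_mem_nil, or_false] at hx; rcases hx with rfl | rfl | rfl <;> assumption) (by decide) h3

theorem nd63_3 : NoDo 63 3 := by
  intro V _ ρ hV hD v
  by_contra hv
  have hne : ∃ v : V, v ≠ 0 := ⟨v, hv⟩
  have h0 : FxT ρ 0 := R0 hv
  have hp : Nat.Prime 3 := by norm_num
  rcases mP (ρ := ρ) hp hV (b := 62) ⟨31, 2, by norm_num, by norm_num, (by decide), by norm_num, by norm_num, by norm_num⟩ (by norm_num) with h1 | h1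
  · exact RD hD (f := 1) [62] (by decide) ⟨by decide, by decide, by decide, by decide⟩ (by decide) (by decide) h1
  · have h3 := (mS hp hV hne h1 [55, 7] (by decide) (by decide) (by decide))
    exact RD hD (f := 1) [55, 7] (by decide) ⟨by decide, by decide, by decide, by decide⟩ (by decide) (by decide) h3

theorem nd63_31 : NoDo 63 31 := by
  intro V _ ρ hV hD v
  by_contra hv
  have hne : ∃ v : V, v ≠ 0 := ⟨v, hv⟩
  have h0 : FxT ρ 0 := R0 hv
  have hp : Nat.Prime 31 := by norm_num
  rcases mP (ρ := ρ) hp hV (b := 63) ⟨3, 21, by norm_num, by norm_num, (by decide), by norm_num, by norm_num, by norm_num⟩ (by norm_num) with h1 | h1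
  · exact RD hD (f := 0) [63] (by decide) ⟨by decide, by decide, by decide, by decide⟩ (by decide) (by decide) h1
  · have h3 := (mS hp hV hne h1 [59, 3] (by decide) (by decide) (by decide))
    exact RD hD (f := 1) [59, 3] (by decide) ⟨by decide, by decide, by decide, by decide⟩ (by decide) (by decide) h3

theorem nd63_59 : NoDo 63 59 := by
  intro V _ ρ hV hD v
  by_contra hv
  have hne : ∃ v : V, v ≠ 0 := ⟨v, hv⟩
  have h0 : FxT ρ 0 := R0 hv
  have hp : Nat.Prime 59 := by norm_num
  rcases mP (ρ := ρ) hp hV (b := 62) ⟨31, 2, by norm_num, by norm_num, (by decide), by norm_num, by norm_num, by norm_num⟩ (by norm_num) with h1 | h1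
  · exact RD hD (f := 1) [62] (by decide) ⟨by decide, by decide, by decide, by decide⟩ (by decide) (by decide) h1
  · have h3 := (mS hp hV hne h1 [57, 5] (by decide) (by decide) (by decide))
    exact RD hD (f := 1) [57, 5] (by decide) ⟨by decide, by decide, by decide, by decide⟩ (by decide) (by decide) h3

theorem nd63 {p : ℕ} (hp : p.Prime) (h2 : p ≠ 2) : NoDo 63 p := by
  by_cases h3 : p = 3
  · rw [h3]; exact nd63_3
  by_cases h31 : p = 31
  · rw [h31]; exact nd63_31
  by_cases h59 : p = 59
  · rw [h59]; exact nd63_59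
  have d2 : ¬ p ∣ 2 := ndv1 hp (by norm_num) h2
  have d3 : ¬ p ∣ 3 := ndv1 hp (by norm_num) h3
  have d31 : ¬ p ∣ 31 := ndv1 hp (by norm_num) h31
  have d59 : ¬ p ∣ 59 := ndv1 hp (by norm_num) h59
  have e3 : ¬ p ∣ 3 := d3
  have e59 : ¬ p ∣ 59 := d59
  have e62 : ¬ p ∣ 62 := (ndvm hp d2 d31)
  intro V _ ρ hV hD v
  by_contra hv
  have hne : ∃ v : V, v ≠ 0 := ⟨v, hv⟩
  have h0 : FxT ρ 0 := R0 hv
  rcases mP (ρ := ρ) hp hV (b := 62) ⟨31, 2, by norm_num, by norm_num, (Ne.symm h31), by norm_num, by norm_num, by norm_num⟩ (by norm_num) with h1 | h1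
  · exact RD hD (f := 1) [62] (by decide) ⟨by decide, by decide, by decide, by decide⟩ (by intro x hx; simp only [List.mem_cons, List.not_mem_nil, or_false] at hx; rcases hx with rfl <;> assumption) (by decide) h1
  · have h3 := (mS hp hV hne h1 [59, 3] (by decide) (by intro x hx; simp only [List.mem_cons, List.not_mem_nil, or_false] at hx; rcases hx with rfl | rfl <;> exact ⟨by decide, by decide, by assumption⟩) (by decide))
    exact RD hD (f := 1) [59, 3] (by decide) ⟨by decide, by decide, by decide, by decide⟩ (by intro x hx; simp only [List.mem_cons, List.not_mem_nil, or_false] at hx; rcases hx with rfl | rfl <;> assumption) (by decide) h3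

theorem nd64_3 : NoDo 64 3 := by
  intro V _ ρ hV hD v
  by_contra hv
  have hne : ∃ v : V, v ≠ 0 := ⟨v, hv⟩
  have h0 : FxT ρ 0 := R0 hv
  have hp : Nat.Prime 3 := by norm_num
  rcases mM (ρ := ρ) hp hV hne 8 (by rw [show (8 : ℕ) = 2 ^ 3 by norm_num]; exact (Nat.Prime.isPrimePow (by norm_num)).pow (by norm_num)) (by norm_num) (by decide) (by norm_num) (by norm_num) with h1 | h1
  · obtain ⟨U, _, ρ', hU, hneU, hl⟩ := lift (k := 57) hV h1 (by decide)
    rcases mP (ρ := ρ') hp hU (b := 56) ⟨7, 8, by norm_num, by norm_num, (by decide), by norm_num, by norm_num, by norm_num⟩ (by norm_num) with h1 | h1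
    · have h2 := hl _ h1
      exact RD hD (f := 1) [56, 7] (by decide) ⟨by decide, by decide, by decide, by decide⟩ (by decide) (by decide) h2
    · have h3 := (hl _ (mS hp hU hneU h1 [43, 13] (by decide) (by decide) (by decide)))
      exact RD hD (f := 1) [43, 13, 7] (by decide) ⟨by decide, by decide, by decide, by decide⟩ (by decide) (by decide) h3
  · have h3 := (altfx h1 ({59, 5} : Multiset ℕ) (by decide) (by decide) (by decide))
    exact RD hD (f := 0) [59, 5] (by decide) ⟨by decide, by decide, by decide, by decide⟩ (by decide) (by decide) h3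

theorem nd64_7 : NoDo 64 7 := by
  intro V _ ρ hV hD v
  by_contra hv
  have hne : ∃ v : V, v ≠ 0 := ⟨v, hv⟩
  have h0 : FxT ρ 0 := R0 hv
  have hp : Nat.Prime 7 := by norm_num
  rcases mM (ρ := ρ) hp hV hne 4 (by rw [show (4 : ℕ) = 2 ^ 2 by norm_num]; exact (Nat.Prime.isPrimePow (by norm_num)).pow (by norm_num)) (by norm_num) (by decide) (by norm_num) (by norm_num) with h1 | h1
  · obtain ⟨U, _, ρ', hU, hneU, hl⟩ := lift (k := 61) hV h1 (by decide)
    rcases mM (ρ := ρ') hp hU hneU 61 (Nat.Prime.isPrimePow (by norm_num)) (by norm_num) (by decide) (by norm_num) (by norm_num) with h1 | h1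
    · have h2 := hl _ h1
      exact RD hD (f := 1) [60, 3] (by decide) ⟨by decide, by decide, by decide, by decide⟩ (by decide) (by decide) h2
    · have h3 := (hl _ (altfx h1 ({61} : Multiset ℕ) (by decide) (by decide) (by decide)))
      exact RD hD (f := 0) [61, 3] (by decide) ⟨by decide, by decide, by decide, by decide⟩ (by decide) (by decide) h3
  · have h3 := (altfx h1 ({61, 3} : Multiset ℕ) (by decide) (by decide) (by decide))
    exact RD hD (f := 0) [61, 3] (by decide) ⟨by decide, by decide, by decide, by decide⟩ (by decide) (by decide) h3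

theorem nd64_61 : NoDo 64 61 := by
  intro V _ ρ hV hD v
  by_contra hv
  have hne : ∃ v : V, v ≠ 0 := ⟨v, hv⟩
  have h0 : FxT ρ 0 := R0 hv
  have hp : Nat.Prime 61 := by norm_num
  rcases mM (ρ := ρ) hp hV hne 64 (by rw [show (64 : ℕ) = 2 ^ 6 by norm_num]; exact (Nat.Prime.isPrimePow (by norm_num)).pow (by norm_num)) (by norm_num) (by decide) (by norm_num) (by norm_num) with h1 | h1
  · exact RD hD (f := 1) [63] (by decide) ⟨by decide, by decide, by decide, by decide⟩ (by decide) (by decide) h1
  · have h3 := (altfx h1 ({59, 5} : Multiset ℕ) (by decide) (by decide) (by decide))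
    exact RD hD (f := 0) [59, 5] (by decide) ⟨by decide, by decide, by decide, by decide⟩ (by decide) (by decide) h3

theorem nd64 {p : ℕ} (hp : p.Prime) (h2 : p ≠ 2) : NoDo 64 p := by
  by_cases h3 : p = 3
  · rw [h3]; exact nd64_3
  by_cases h7 : p = 7
  · rw [h7]; exact nd64_7
  by_cases h61 : p = 61
  · rw [h61]; exact nd64_61
  have d2 : ¬ p ∣ 2 := ndv1 hp (by norm_num) h2
  have d3 : ¬ p ∣ 3 := ndv1 hp (by norm_num) h3
  have d7 : ¬ p ∣ 7 := ndv1 hp (by norm_num) h7
  have d61 : ¬ p ∣ 61 := ndv1 hp (by norm_num) h61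
  have e3 : ¬ p ∣ 3 := d3
  have e61 : ¬ p ∣ 61 := d61
  have e63 : ¬ p ∣ 63 := (ndvm hp (ndvm hp d3 d3) d7)
  have e64 : ¬ p ∣ 64 := (ndvm hp (ndvm hp (ndvm hp (ndvm hp (ndvm hp d2 d2) d2) d2) d2) d2)
  intro V _ ρ hV hD v
  by_contra hv
  have hne : ∃ v : V, v ≠ 0 := ⟨v, hv⟩
  have h0 : FxT ρ 0 := R0 hv
  rcases mM (ρ := ρ) hp hV hne 64 (by rw [show (64 : ℕ) = 2 ^ 6 by norm_num]; exact (Nat.Prime.isPrimePow (by norm_num)).pow (by norm_num)) (by norm_num) e64 (by norm_num) (by norm_num) with h1 | h1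
  · exact RD hD (f := 1) [63] (by decide) ⟨by decide, by decide, by decide, by decide⟩ (by intro x hx; simp only [List.mem_cons, List.not_mem_nil, or_false] at hx; rcases hx with rfl <;> assumption) (by decide) h1
  · have h3 := (altfx h1 ({61, 3} : Multiset ℕ) (by decide) (by decide) (by decide))
    exact RD hD (f := 0) [61, 3] (by decide) ⟨by decide, by decide, by decide, by decide⟩ (by intro x hx; simp only [List.mem_cons, List.not_mem_nil, or_false] at hx; rcases hx with rfl | rfl <;> assumption) (by decide) h3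

theorem nd65_3 : NoDo 65 3 := by
  intro V _ ρ hV hD v
  by_contra hv
  have hne : ∃ v : V, v ≠ 0 := ⟨v, hv⟩
  have h0 : FxT ρ 0 := R0 hv
  have hp : Nat.Prime 3 := by norm_num
  rcases mP (ρ := ρ) hp hV (b := 65) ⟨13, 5, by norm_num, by norm_num, (by decide), by norm_num, by norm_num, by norm_num⟩ (by norm_num) with h1 | h1
  · exact RD hD (f := 0) [65] (by decide) ⟨by decide, by decide, by decide, by decide⟩ (by decide) (by decide) h1
  · have h3 := (mS hp hV hne h1 [59, 5] (by decide) (by decide) (by decide))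
    exact RD hD (f := 1) [59, 5] (by decide) ⟨by decide, by decide, by decide, by decide⟩ (by decide) (by decide) h3

theorem nd65_5 : NoDo 65 5 := by
  intro V _ ρ hV hD v
  by_contra hv
  have hne : ∃ v : V, v ≠ 0 := ⟨v, hv⟩
  have h0 : FxT ρ 0 := R0 hv
  have hp : Nat.Prime 5 := by norm_num
  rcases mT (ρ := ρ) hne with h1 | h1
  · obtain ⟨U, _, ρ', hU, hneU, hl⟩ := lift (k := 63) hV h1 (by decide)
    rcases mP (ρ := ρ') hp hU (b := 63) ⟨3, 21, by norm_num, by norm_num, (by decide), by norm_num, by norm_num, by norm_num⟩ (by norm_num) with h1 | h1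
    · have h2 := hl _ h1
      exact RD hD (f := 0) [63, 2] (by decide) ⟨by decide, by decide, by decide, by decide⟩ (by decide) (by decide) h2
    · have h3 := (hl _ (mS hp hU hneU h1 [59, 3] (by decide) (by decide) (by decide)))
      exact RD hD (f := 1) [59, 3, 2] (by decide) ⟨by decide, by decide, by decide, by decide⟩ (by decide) (by decide) h3
  · have h3 := (altfx h1 ({53, 9, 3} : Multiset ℕ) (by decide) (by decide) (by decide))
    exact RD hD (f := 0) [53, 9, 3] (by decide) ⟨by decide, by decide, by decide, by decide⟩ (by decide) (by decide) h3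

theorem nd65_13 : NoDo 65 13 := by
  intro V _ ρ hV hD v
  by_contra hv
  have hne : ∃ v : V, v ≠ 0 := ⟨v, hv⟩
  have h0 : FxT ρ 0 := R0 hv
  have hp : Nat.Prime 13 := by norm_num
  rcases mT (ρ := ρ) hne with h1 | h1
  · obtain ⟨U, _, ρ', hU, hneU, hl⟩ := lift (k := 63) hV h1 (by decide)
    rcases mP (ρ := ρ') hp hU (b := 63) ⟨3, 21, by norm_num, by norm_num, (by decide), by norm_num, by norm_num, by norm_num⟩ (by norm_num) with h1 | h1
    · have h2 := hl _ h1
      exact RD hD (f := 0) [63, 2] (by decide) ⟨by decide, by decide, by decide, by decide⟩ (by decide) (by decide) h2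
    · have h3 := (hl _ (mS hp hU hneU h1 [59, 3] (by decide) (by decide) (by decide)))
      exact RD hD (f := 1) [59, 3, 2] (by decide) ⟨by decide, by decide, by decide, by decide⟩ (by decide) (by decide) h3
  · have h3 := (altfx h1 ({57, 5, 3} : Multiset ℕ) (by decide) (by decide) (by decide))
    exact RD hD (f := 0) [57, 5, 3] (by decide) ⟨by decide, by decide, by decide, by decide⟩ (by decide) (by decide) h3

theorem nd65_61 : NoDo 65 61 := by
  intro V _ ρ hV hD v
  by_contra hv
  have hne : ∃ v : V, v ≠ 0 := ⟨v, hv⟩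
  have h0 : FxT ρ 0 := R0 hv
  have hp : Nat.Prime 61 := by norm_num
  rcases mP (ρ := ρ) hp hV (b := 65) ⟨13, 5, by norm_num, by norm_num, (by decide), by norm_num, by norm_num, by norm_num⟩ (by norm_num) with h1 | h1
  · exact RD hD (f := 0) [65] (by decide) ⟨by decide, by decide, by decide, by decide⟩ (by decide) (by decide) h1
  · have h3 := (mS hp hV hne h1 [59, 5] (by decide) (by decide) (by decide))
    exact RD hD (f := 1) [59, 5] (by decide) ⟨by decide, by decide, by decide, by decide⟩ (by decide) (by decide) h3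

theorem nd65 {p : ℕ} (hp : p.Prime) (h2 : p ≠ 2) : NoDo 65 p := by
  by_cases h3 : p = 3
  · rw [h3]; exact nd65_3
  by_cases h5 : p = 5
  · rw [h5]; exact nd65_5
  by_cases h13 : p = 13
  · rw [h13]; exact nd65_13
  by_cases h61 : p = 61
  · rw [h61]; exact nd65_61
  have d2 : ¬ p ∣ 2 := ndv1 hp (by norm_num) h2
  have d3 : ¬ p ∣ 3 := ndv1 hp (by norm_num) h3
  have d5 : ¬ p ∣ 5 := ndv1 hp (by norm_num) h5
  have d13 : ¬ p ∣ 13 := ndv1 hp (by norm_num) h13
  have d61 : ¬ p ∣ 61 := ndv1 hp (by norm_num) h61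
  have e3 : ¬ p ∣ 3 := d3
  have e61 : ¬ p ∣ 61 := d61
  have e65 : ¬ p ∣ 65 := (ndvm hp d5 d13)
  intro V _ ρ hV hD v
  by_contra hv
  have hne : ∃ v : V, v ≠ 0 := ⟨v, hv⟩
  have h0 : FxT ρ 0 := R0 hv
  rcases mP (ρ := ρ) hp hV (b := 65) ⟨13, 5, by norm_num, by norm_num, (Ne.symm h13), by norm_num, by norm_num, by norm_num⟩ (by norm_num) with h1 | h1
  · exact RD hD (f := 0) [65] (by decide) ⟨by decide, by decide, by decide, by decide⟩ (by intro x hx; simp only [List.mem_cons, List.not_mem_nil, or_false] at hx; rcases hx with rfl <;> assumption) (by decide) h1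
  · have h3 := (mS hp hV hne h1 [61, 3] (by decide) (by intro x hx; simp only [List.mem_cons, List.not_mem_nil, or_false] at hx; rcases hx with rfl | rfl <;> exact ⟨by decide, by decide, by assumption⟩) (by decide))
    exact RD hD (f := 1) [61, 3] (by decide) ⟨by decide, by decide, by decide, by decide⟩ (by intro x hx; simp only [List.mem_cons, List.not_mem_nil, or_false] at hx; rcases hx with rfl | rfl <;> assumption) (by decide) h3

theorem nd66_3 : NoDo 66 3 := by
  intro V _ ρ hV hD v
  by_contra hv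
  have hne : ∃ v : V, v ≠ 0 := ⟨v, hv⟩
  have h0 : FxT ρ 0 := R0 hv
  have hp : Nat.Prime 3 := by norm_num
  rcases mP (ρ := ρ) hp hV (b := 65) ⟨13, 5, by norm_num, by norm_num, (by decide), by norm_num, by norm_num, by norm_num⟩ (by norm_num) with h1 | h1
  · exact RD hD (f := 1) [65] (by decide) ⟨by decide, by decide, by decide, by decide⟩ (by decide) (by decide) h1
  · have h3 := (mS hp hV hne h1 [53, 7, 5] (by decide) (by decide) (by decide))
    exact RD hD (f := 1) [53, 7, 5] (by decide) ⟨by decide, by decide, by decide, by decide⟩ (by decide) (by decide) h3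

theorem nd66_5 : NoDo 66 5 := by
  intro V _ ρ hV hD v
  by_contra hv
  have hne : ∃ v : V, v ≠ 0 := ⟨v, hv⟩
  have h0 : FxT ρ 0 := R0 hv
  have hp : Nat.Prime 5 := by norm_num
  rcases mP (ρ := ρ) hp hV (b := 66) ⟨11, 6, by norm_num, by norm_num, (by decide), by norm_num, by norm_num, by norm_num⟩ (by norm_num) with h1 | h1
  · exact RD hD (f := 0) [66] (by decide) ⟨by decide, by decide, by decide, by decide⟩ (by decide) (by decide) h1
  · have h3 := (mS hp hV hne h1 [53, 9, 3] (by decide) (by decide) (by decide))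
    exact RD hD (f := 1) [53, 9, 3] (by decide) ⟨by decide, by decide, by decide, by decide⟩ (by decide) (by decide) h3

theorem nd66_13 : NoDo 66 13 := by
  intro V _ ρ hV hD v
  by_contra hv
  have hne : ∃ v : V, v ≠ 0 := ⟨v, hv⟩
  have h0 : FxT ρ 0 := R0 hv
  have hp : Nat.Prime 13 := by norm_num
  rcases mP (ρ := ρ) hp hV (b := 66) ⟨11, 6, by norm_num, by norm_num, (by decide), by norm_num, by norm_num, by norm_num⟩ (by norm_num) with h1 | h1
  · exact RD hD (f := 0) [66] (by decide) ⟨by decide, by decide, by decide, by decide⟩ (by decide) (by decide) h1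
  · have h3 := (mS hp hV hne h1 [57, 5, 3] (by decide) (by decide) (by decide))
    exact RD hD (f := 1) [57, 5, 3] (by decide) ⟨by decide, by decide, by decide, by decide⟩ (by decide) (by decide) h3

theorem nd66_19 : NoDo 66 19 := by
  intro V _ ρ hV hD v
  by_contra hv
  have hne : ∃ v : V, v ≠ 0 := ⟨v, hv⟩
  have h0 : FxT ρ 0 := R0 hv
  have hp : Nat.Prime 19 := by norm_num
  rcases mP (ρ := ρ) hp hV (b := 65) ⟨13, 5, by norm_num, by norm_num, (by decide), by norm_num, by norm_num, by norm_num⟩ (by norm_num) with h1 | h1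
  · exact RD hD (f := 1) [65] (by decide) ⟨by decide, by decide, by decide, by decide⟩ (by decide) (by decide) h1
  · have h3 := (mS hp hV hne h1 [55, 7, 3] (by decide) (by decide) (by decide))
    exact RD hD (f := 1) [55, 7, 3] (by decide) ⟨by decide, by decide, by decide, by decide⟩ (by decide) (by decide) h3

theorem nd66 {p : ℕ} (hp : p.Prime) (h2 : p ≠ 2) : NoDo 66 p := by
  by_cases h3 : p = 3
  · rw [h3]; exact nd66_3
  by_cases h5 : p = 5
  · rw [h5]; exact nd66_5
  by_cases h13 : p = 13
  · rw [h13]; exact nd66_13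
  by_cases h19 : p = 19
  · rw [h19]; exact nd66_19
  have d2 : ¬ p ∣ 2 := ndv1 hp (by norm_num) h2
  have d3 : ¬ p ∣ 3 := ndv1 hp (by norm_num) h3
  have d5 : ¬ p ∣ 5 := ndv1 hp (by norm_num) h5
  have d13 : ¬ p ∣ 13 := ndv1 hp (by norm_num) h13
  have d19 : ¬ p ∣ 19 := ndv1 hp (by norm_num) h19
  have e3 : ¬ p ∣ 3 := d3
  have e5 : ¬ p ∣ 5 := d5
  have e57 : ¬ p ∣ 57 := (ndvm hp d3 d19)
  have e65 : ¬ p ∣ 65 := (ndvm hp d5 d13)
  intro V _ ρ hV hD v
  by_contra hv
  have hne : ∃ v : V, v ≠ 0 := ⟨v, hv⟩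
  have h0 : FxT ρ 0 := R0 hv
  rcases mP (ρ := ρ) hp hV (b := 65) ⟨13, 5, by norm_num, by norm_num, (Ne.symm h13), by norm_num, by norm_num, by norm_num⟩ (by norm_num) with h1 | h1
  · exact RD hD (f := 1) [65] (by decide) ⟨by decide, by decide, by decide, by decide⟩ (by intro x hx; simp only [List.mem_cons, List.not_mem_nil, or_false] at hx; rcases hx with rfl <;> assumption) (by decide) h1
  · have h3 := (mS hp hV hne h1 [57, 5, 3] (by decide) (by intro x hx; simp only [List.mem_cons, List.not_mem_nil, or_false] at hx; rcases hx with rfl | rfl | rfl <;> exact ⟨by decide, by decide, by assumption⟩) (by decide))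
    exact RD hD (f := 1) [57, 5, 3] (by decide) ⟨by decide, by decide, by decide, by decide⟩ (by intro x hx; simp only [List.mem_cons, List.not_mem_nil, or_false] at hx; rcases hx with rfl | rfl | rfl <;> assumption) (by decide) h3

theorem nd67_3 : NoDo 67 3 := by
  intro V _ ρ hV hD v
  by_contra hv
  have hne : ∃ v : V, v ≠ 0 := ⟨v, hv⟩
  have h0 : FxT ρ 0 := R0 hv
  have hp : Nat.Prime 3 := by norm_num
  rcases mT (ρ := ρ) hne with h1 | h1
  · obtain ⟨U, _, ρ', hU, hneU, hl⟩ := lift (k := 65) hV h1 (by decide)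
    rcases mP (ρ := ρ') hp hU (b := 65) ⟨13, 5, by norm_num, by norm_num, (by decide), by norm_num, by norm_num, by norm_num⟩ (by norm_num) with h1 | h1
    · have h2 := hl _ h1
      exact RD hD (f := 0) [65, 2] (by decide) ⟨by decide, by decide, by decide, by decide⟩ (by decide) (by decide) h2
    · have h3 := (hl _ (mS hp hU hneU h1 [59, 5] (by decide) (by decide) (by decide)))
      exact RD hD (f := 1) [59, 5, 2] (by decide) ⟨by decide, by decide, by decide, by decide⟩ (by decide) (by decide) h3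
  · have h3 := (altfx h1 ({67} : Multiset ℕ) (by decide) (by decide) (by decide))
    exact RD hD (f := 0) [67] (by decide) ⟨by decide, by decide, by decide, by decide⟩ (by decide) (by decide) h3

theorem nd67_11 : NoDo 67 11 := by
  intro V _ ρ hV hD v
  by_contra hv
  have hne : ∃ v : V, v ≠ 0 := ⟨v, hv⟩
  have h0 : FxT ρ 0 := R0 hv
  have hp : Nat.Prime 11 := by norm_num
  rcases mT (ρ := ρ) hne with h1 | h1
  · obtain ⟨U, _, ρ', hU, hneU, hl⟩ := lift (k := 65) hV h1 (by decide)
    rcases mP (ρ := ρ') hp hU (b := 65) ⟨13, 5, by norm_num, by norm_num, (by decide), by norm_num, by norm_num, by norm_num⟩ (by norm_num) with h1 | h1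
    · have h2 := hl _ h1
      exact RD hD (f := 0) [65, 2] (by decide) ⟨by decide, by decide, by decide, by decide⟩ (by decide) (by decide) h2
    · have h3 := (hl _ (mS hp hU hneU h1 [61, 3] (by decide) (by decide) (by decide)))
      exact RD hD (f := 1) [61, 3, 2] (by decide) ⟨by decide, by decide, by decide, by decide⟩ (by decide) (by decide) h3
  · have h3 := (altfx h1 ({67} : Multiset ℕ) (by decide) (by decide) (by decide))
    exact RD hD (f := 0) [67] (by decide) ⟨by decide, by decide, by decide, by decide⟩ (by decide) (by decide) h3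

theorem nd67_67 : NoDo 67 67 := by
  intro V _ ρ hV hD v
  by_contra hv
  have hne : ∃ v : V, v ≠ 0 := ⟨v, hv⟩
  have h0 : FxT ρ 0 := R0 hv
  have hp : Nat.Prime 67 := by norm_num
  rcases mP (ρ := ρ) hp hV (b := 66) ⟨11, 6, by norm_num, by norm_num, (by decide), by norm_num, by norm_num, by norm_num⟩ (by norm_num) with h1 | h1
  · exact RD hD (f := 1) [66] (by decide) ⟨by decide, by decide, by decide, by decide⟩ (by decide) (by decide) h1
  · have h3 := (mS hp hV hne h1 [63, 3] (by decide) (by decide) (by decide))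
    exact RD hD (f := 1) [63, 3] (by decide) ⟨by decide, by decide, by decide, by decide⟩ (by decide) (by decide) h3

theorem nd67 {p : ℕ} (hp : p.Prime) (h2 : p ≠ 2) : NoDo 67 p := by
  by_cases h3 : p = 3
  · rw [h3]; exact nd67_3
  by_cases h11 : p = 11
  · rw [h11]; exact nd67_11
  by_cases h67 : p = 67
  · rw [h67]; exact nd67_67
  have d2 : ¬ p ∣ 2 := ndv1 hp (by norm_num) h2
  have d3 : ¬ p ∣ 3 := ndv1 hp (by norm_num) h3
  have d11 : ¬ p ∣ 11 := ndv1 hp (by norm_num) h11
  have d67 : ¬ p ∣ 67 := ndv1 hp (by norm_num) h67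
  have e66 : ¬ p ∣ 66 := (ndvm hp (ndvm hp d2 d3) d11)
  have e67 : ¬ p ∣ 67 := d67
  intro V _ ρ hV hD v
  by_contra hv
  have hne : ∃ v : V, v ≠ 0 := ⟨v, hv⟩
  have h0 : FxT ρ 0 := R0 hv
  rcases mM (ρ := ρ) hp hV hne 67 (Nat.Prime.isPrimePow (by norm_num)) (by norm_num) e67 (by norm_num) (by norm_num) with h1 | h1
  · exact RD hD (f := 1) [66] (by decide) ⟨by decide, by decide, by decide, by decide⟩ (by intro x hx; simp only [List.mem_cons, List.not_mem_nil, or_false] at hx; rcases hx with rfl <;> assumption) (by decide) h1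
  · have h3 := (altfx h1 ({67} : Multiset ℕ) (by decide) (by decide) (by decide))
    exact RD hD (f := 0) [67] (by decide) ⟨by decide, by decide, by decide, by decide⟩ (by intro x hx; simp only [List.mem_cons, List.not_mem_nil, or_false] at hx; rcases hx with rfl <;> assumption) (by decide) h3

theorem nd68_3 : NoDo 68 3 := by
  intro V _ ρ hV hD v
  by_contra hv
  have hne : ∃ v : V, v ≠ 0 := ⟨v, hv⟩
  have h0 : FxT ρ 0 := R0 hv
  have hp : Nat.Prime 3 := by norm_num
  rcases mP (ρ := ρ) hp hV (b := 68) ⟨17, 4, by norm_num, by norm_num, (by decide), by norm_num, by norm_num, by norm_num⟩ (by norm_num) with h1 | h1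
  · exact RD hD (f := 0) [68] (by decide) ⟨by decide, by decide, by decide, by decide⟩ (by decide) (by decide) h1
  · have h3 := (mS hp hV hne h1 [55, 7, 5] (by decide) (by decide) (by decide))
    exact RD hD (f := 1) [55, 7, 5] (by decide) ⟨by decide, by decide, by decide, by decide⟩ (by decide) (by decide) h3

theorem nd68_5 : NoDo 68 5 := by
  intro V _ ρ hV hD v
  by_contra hv
  have hne : ∃ v : V, v ≠ 0 := ⟨v, hv⟩
  have h0 : FxT ρ 0 := R0 hv
  have hp : Nat.Prime 5 := by norm_num
  rcases mP (ρ := ρ) hp hV (b := 68) ⟨17, 4, by norm_num, by norm_num, (by decide), by norm_num, by norm_num, by norm_num⟩ (by norm_num) with h1 | h1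
  · exact RD hD (f := 0) [68] (by decide) ⟨by decide, by decide, by decide, by decide⟩ (by decide) (by decide) h1
  · have h3 := (mS hp hV hne h1 [57, 7, 3] (by decide) (by decide) (by decide))
    exact RD hD (f := 1) [57, 7, 3] (by decide) ⟨by decide, by decide, by decide, by decide⟩ (by decide) (by decide) h3

theorem nd68_17 : NoDo 68 17 := by
  intro V _ ρ hV hD v
  by_contra hv
  have hne : ∃ v : V, v ≠ 0 := ⟨v, hv⟩
  have h0 : FxT ρ 0 := R0 hv
  have hp : Nat.Prime 17 := by norm_num
  rcases mM (ρ := ρ) hp hV hne 4 (by rw [show (4 : ℕ) = 2 ^ 2 by norm_num]; exact (Nat.Prime.isPrimePow (by norm_num)).pow (by norm_num)) (by norm_num) (by decide) (by norm_num) (by norm_num) with h1 | h1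
  · obtain ⟨U, _, ρ', hU, hneU, hl⟩ := lift (k := 65) hV h1 (by decide)
    rcases mP (ρ := ρ') hp hU (b := 65) ⟨13, 5, by norm_num, by norm_num, (by decide), by norm_num, by norm_num, by norm_num⟩ (by norm_num) with h1 | h1
    · have h2 := hl _ h1
      exact RD hD (f := 0) [65, 3] (by decide) ⟨by decide, by decide, by decide, by decide⟩ (by decide) (by decide) h2
    · have h3 := (hl _ (mS hp hU hneU h1 [59, 5] (by decide) (by decide) (by decide)))
      exact RD hD (f := 1) [59, 5, 3] (by decide) ⟨by decide, by decide, by decide, by decide⟩ (by decide) (by decide) h3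
  · have h3 := (altfx h1 ({65, 3} : Multiset ℕ) (by decide) (by decide) (by decide))
    exact RD hD (f := 0) [65, 3] (by decide) ⟨by decide, by decide, by decide, by decide⟩ (by decide) (by decide) h3

theorem nd68_59 : NoDo 68 59 := by
  intro V _ ρ hV hD v
  by_contra hv
  have hne : ∃ v : V, v ≠ 0 := ⟨v, hv⟩
  have h0 : FxT ρ 0 := R0 hv
  have hp : Nat.Prime 59 := by norm_num
  rcases mP (ρ := ρ) hp hV (b := 68) ⟨17, 4, by norm_num, by norm_num, (by decide), by norm_num, by norm_num, by norm_num⟩ (by norm_num) with h1 | h1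
  · exact RD hD (f := 0) [68] (by decide) ⟨by decide, by decide, by decide, by decide⟩ (by decide) (by decide) h1
  · have h3 := (mS hp hV hne h1 [57, 7, 3] (by decide) (by decide) (by decide))
    exact RD hD (f := 1) [57, 7, 3] (by decide) ⟨by decide, by decide, by decide, by decide⟩ (by decide) (by decide) h3

theorem nd68 {p : ℕ} (hp : p.Prime) (h2 : p ≠ 2) : NoDo 68 p := by
  by_cases h3 : p = 3
  · rw [h3]; exact nd68_3
  by_cases h5 : p = 5
  · rw [h5]; exact nd68_5
  by_cases h17 : p = 17
  · rw [h17]; exact nd68_17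
  by_cases h59 : p = 59
  · rw [h59]; exact nd68_59
  have d2 : ¬ p ∣ 2 := ndv1 hp (by norm_num) h2
  have d3 : ¬ p ∣ 3 := ndv1 hp (by norm_num) h3
  have d5 : ¬ p ∣ 5 := ndv1 hp (by norm_num) h5
  have d17 : ¬ p ∣ 17 := ndv1 hp (by norm_num) h17
  have d59 : ¬ p ∣ 59 := ndv1 hp (by norm_num) h59
  have e3 : ¬ p ∣ 3 := d3
  have e5 : ¬ p ∣ 5 := d5
  have e59 : ¬ p ∣ 59 := d59
  have e68 : ¬ p ∣ 68 := (ndvm hp (ndvm hp d2 d2) d17)
  intro V _ ρ hV hD v
  by_contra hv
  have hne : ∃ v : V, v ≠ 0 := ⟨v, hv⟩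
  have h0 : FxT ρ 0 := R0 hv
  rcases mP (ρ := ρ) hp hV (b := 68) ⟨17, 4, by norm_num, by norm_num, (Ne.symm h17), by norm_num, by norm_num, by norm_num⟩ (by norm_num) with h1 | h1
  · exact RD hD (f := 0) [68] (by decide) ⟨by decide, by decide, by decide, by decide⟩ (by intro x hx; simp only [List.mem_cons, List.not_mem_nil, or_false] at hx; rcases hx with rfl <;> assumption) (by decide) h1
  · have h3 := (mS hp hV hne h1 [59, 5, 3] (by decide) (by intro x hx; simp only [List.mem_cons, List.not_mem_nil, or_false] at hx; rcases hx with rfl | rfl | rfl <;> exact ⟨by decide, by decide, by assumption⟩) (by decide))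
    exact RD hD (f := 1) [59, 5, 3] (by decide) ⟨by decide, by decide, by decide, by decide⟩ (by intro x hx; simp only [List.mem_cons, List.not_mem_nil, or_false] at hx; rcases hx with rfl | rfl | rfl <;> assumption) (by decide) h3

theorem nd69_3 : NoDo 69 3 := by
  intro V _ ρ hV hD v
  by_contra hv
  have hne : ∃ v : V, v ≠ 0 := ⟨v, hv⟩
  have h0 : FxT ρ 0 := R0 hv
  have hp : Nat.Prime 3 := by norm_num
  rcases mP (ρ := ρ) hp hV (b := 68) ⟨17, 4, by norm_num, by norm_num, (by decide), by norm_num, by norm_num, by norm_num⟩ (by norm_num) with h1 | h1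
  · exact RD hD (f := 1) [68] (by decide) ⟨by decide, by decide, by decide, by decide⟩ (by decide) (by decide) h1
  · have h3 := (mS hp hV hne h1 [61, 7] (by decide) (by decide) (by decide))
    exact RD hD (f := 1) [61, 7] (by decide) ⟨by decide, by decide, by decide, by decide⟩ (by decide) (by decide) h3

theorem nd69_5 : NoDo 69 5 := by
  intro V _ ρ hV hD v
  by_contra hv
  have hne : ∃ v : V, v ≠ 0 := ⟨v, hv⟩
  have h0 : FxT ρ 0 := R0 hv
  have hp : Nat.Prime 5 := by norm_num
  rcases mP (ρ := ρ) hp hV (b := 68) ⟨17, 4, by norm_num, by norm_num, (by decide), by norm_num, by norm_num, by norm_num⟩ (by norm_num) with h1 | h1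
  · exact RD hD (f := 1) [68] (by decide) ⟨by decide, by decide, by decide, by decide⟩ (by decide) (by decide) h1
  · have h3 := (mS hp hV hne h1 [61, 7] (by decide) (by decide) (by decide))
    exact RD hD (f := 1) [61, 7] (by decide) ⟨by decide, by decide, by decide, by decide⟩ (by decide) (by decide) h3

theorem nd69_13 : NoDo 69 13 := by
  intro V _ ρ hV hD v
  by_contra hv
  have hne : ∃ v : V, v ≠ 0 := ⟨v, hv⟩
  have h0 : FxT ρ 0 := R0 hv
  have hp : Nat.Prime 13 := by norm_num
  rcases mP (ρ := ρ) hp hV (b := 68) ⟨17, 4, by norm_num, by norm_num, (by decide), by norm_num, by norm_num, by norm_num⟩ (by norm_num) with h1 | h1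
  · exact RD hD (f := 1) [68] (by decide) ⟨by decide, by decide, by decide, by decide⟩ (by decide) (by decide) h1
  · have h3 := (mS hp hV hne h1 [63, 5] (by decide) (by decide) (by decide))
    exact RD hD (f := 1) [63, 5] (by decide) ⟨by decide, by decide, by decide, by decide⟩ (by decide) (by decide) h3

theorem nd69_17 : NoDo 69 17 := by
  intro V _ ρ hV hD v
  by_contra hv
  have hne : ∃ v : V, v ≠ 0 := ⟨v, hv⟩
  have h0 : FxT ρ 0 := R0 hv
  have hp : Nat.Prime 17 := by norm_num
  rcases mP (ρ := ρ) hp hV (b := 69) ⟨3, 23, by norm_num, by norm_num, (by decide), by norm_num, by norm_num, by norm_num⟩ (by norm_num) with h1 | h1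
  · exact RD hD (f := 0) [69] (by decide) ⟨by decide, by decide, by decide, by decide⟩ (by decide) (by decide) h1
  · have h3 := (mS hp hV hne h1 [65, 3] (by decide) (by decide) (by decide))
    exact RD hD (f := 1) [65, 3] (by decide) ⟨by decide, by decide, by decide, by decide⟩ (by decide) (by decide) h3

theorem nd69 {p : ℕ} (hp : p.Prime) (h2 : p ≠ 2) : NoDo 69 p := by
  by_cases h3 : p = 3
  · rw [h3]; exact nd69_3
  by_cases h5 : p = 5
  · rw [h5]; exact nd69_5
  by_cases h13 : p = 13
  · rw [h13]; exact nd69_13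
  by_cases h17 : p = 17
  · rw [h17]; exact nd69_17
  have d2 : ¬ p ∣ 2 := ndv1 hp (by norm_num) h2
  have d3 : ¬ p ∣ 3 := ndv1 hp (by norm_num) h3
  have d5 : ¬ p ∣ 5 := ndv1 hp (by norm_num) h5
  have d13 : ¬ p ∣ 13 := ndv1 hp (by norm_num) h13
  have d17 : ¬ p ∣ 17 := ndv1 hp (by norm_num) h17
  have e3 : ¬ p ∣ 3 := d3
  have e65 : ¬ p ∣ 65 := (ndvm hp d5 d13)
  have e68 : ¬ p ∣ 68 := (ndvm hp (ndvm hp d2 d2) d17)
  intro V _ ρ hV hD v
  by_contra hv
  have hne : ∃ v : V, v ≠ 0 := ⟨v, hv⟩
  have h0 : FxT ρ 0 := R0 hv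
  rcases mP (ρ := ρ) hp hV (b := 68) ⟨17, 4, by norm_num, by norm_num, (Ne.symm h17), by norm_num, by norm_num, by norm_num⟩ (by norm_num) with h1 | h1
  · exact RD hD (f := 1) [68] (by decide) ⟨by decide, by decide, by decide, by decide⟩ (by intro x hx; simp only [List.mem_cons, List.not_mem_nil, or_false] at hx; rcases hx with rfl <;> assumption) (by decide) h1
  · have h3 := (mS hp hV hne h1 [65, 3] (by decide) (by intro x hx; simp only [List.mem_cons, List.not_mem_nil, or_false] at hx; rcases hx with rfl | rfl <;> exact ⟨by decide, by decide, by assumption⟩) (by decide))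
    exact RD hD (f := 1) [65, 3] (by decide) ⟨by decide, by decide, by decide, by decide⟩ (by intro x hx; simp only [List.mem_cons, List.not_mem_nil, or_false] at hx; rcases hx with rfl | rfl <;> assumption) (by decide) h3

end Pool.Agent.NbT
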