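import Pool.Agent.NbT.Rg

/-!
# The degrees which need the strong form of Lemma 1
-/

set_option autoImplicit false
set_option linter.unusedVariables false
set_option linter.unnecessarySeqFocus false

namespace Pool.Agent.NbT

open Equiv Pool.Agent.NbS

theorem ng5_5 : NoG 5 5 := by
  intro V _ ρ hV hD hG v
  by_contra hv
  have hne : ∃ v : V, v ≠ 0 := ⟨v, hv⟩
  have h0 : FxT ρ 0 := R0 hv
  have hp : Nat.Prime 5 := by norm_num
  rcases mT (ρ := ρ) hne with h1 | h1
  · exact RG hG [2] 6 (by decide) (by decide) (by decide) (by decide) h1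
  · have h3 := (altfx h1 ({3} : Multiset ℕ) (by decide) (by decide) (by decide))
    exact RG hG [3] 2 (by decide) (by decide) (by decide) (by decide) h3

theorem ng5 {p : ℕ} (hp : p.Prime) (h2 : p ≠ 2) (h3 : p ≠ 3) : NoG 5 p := by
  by_cases h5 : p = 5
  · rw [h5]; exact ng5_5
  have d2 : ¬ p ∣ 2 := ndv1 hp (by norm_num) h2
  have d3 : ¬ p ∣ 3 := ndv1 hp (by norm_num) h3
  have d5 : ¬ p ∣ 5 := ndv1 hp (by norm_num) h5
  have e4 : ¬ p ∣ 4 := (ndvm hp d2 d2)
  have e5 : ¬ p ∣ 5 := d5
  intro V _ ρ hV hD hG v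
  by_contra hv
  have hne : ∃ v : V, v ≠ 0 := ⟨v, hv⟩
  have h0 : FxT ρ 0 := R0 hv
  rcases mM (ρ := ρ) hp hV hne 5 (Nat.Prime.isPrimePow (by norm_num)) (by norm_num) e5 (by norm_num) (by norm_num) with h1 | h1
  · exact RD hD (f := 1) [4] (by decide) ⟨by decide, by decide, by decide, by decide⟩ (by intro x hx; simp only [List.mem_cons, List.not_mem_nil, or_false] at hx; rcases hx with rfl <;> assumption) (by decide) h1
  · have h3 := (altfx h1 ({5} : Multiset ℕ) (by decide) (by decide) (by decide))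
    exact RD hD (f := 0) [5] (by decide) ⟨by decide, by decide, by decide, by decide⟩ (by intro x hx; simp only [List.mem_cons, List.not_mem_nil, or_false] at hx; rcases hx with rfl <;> assumption) (by decide) h3

theorem ng6_5 : NoG 6 5 := by
  intro V _ ρ hV hD hG v
  by_contra hv
  have hne : ∃ v : V, v ≠ 0 := ⟨v, hv⟩
  have hp : Nat.Prime 5 := by norm_num
  rcases mM (ρ := ρ) hp hV hne 4 (by rw [show (4 : ℕ) = 2 ^ 2 by norm_num]; exact (Nat.Prime.isPrimePow (by norm_num)).pow (by norm_num)) (by norm_num) (by decide) (by norm_num) (by norm_num) with h1 | h1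
  · exact RG hG [3] 6 (by decide) (by decide) (by decide) (by decide) h1
  · have h3 := (altfx h1 ({4, 2} : Multiset ℕ) (by decide) (by decide) (by decide))
    exact RG hG [4, 2] 2 (by decide) (by decide) (by decide) (by decide) h3

theorem ng6 {p : ℕ} (hp : p.Prime) (h2 : p ≠ 2) (h3 : p ≠ 3) : NoG 6 p := by
  by_cases h5 : p = 5
  · rw [h5]; exact ng6_5
  have d2 : ¬ p ∣ 2 := ndv1 hp (by norm_num) h2
  have d5 : ¬ p ∣ 5 := ndv1 hp (by norm_num) h5
  have e4 : ¬ p ∣ 4 := (ndvm hp d2 d2)
  have e5 : ¬ p ∣ 5 := d5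
  intro V _ ρ hV hD hG v
  by_contra hv
  have hne : ∃ v : V, v ≠ 0 := ⟨v, hv⟩
  rcases mM (ρ := ρ) hp hV hne 5 (Nat.Prime.isPrimePow (by norm_num)) (by norm_num) e5 (by norm_num) (by norm_num) with h1 | h1
  · refine RG hG [4] 2 (by decide) ?_ ?_ (by decide) h1
    · rw [show ((([4] : List ℕ) : Multiset ℕ)).lcm = 4 by decide]
      exact e4
    · intro h
      have h6 := Nat.le_of_dvd (by norm_num) h
      have h7 := hp.two_le
      omega
  · have h3 := (altfx h1 ({5} : Multiset ℕ) (by decide) (by decide) (by decide))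
    exact RD hD (f := 1) [5] (by decide) ⟨by decide, by decide, by decide, by decide⟩ (by intro x hx; simp only [List.mem_cons, List.not_mem_nil, or_false] at hx; rcases hx with rfl <;> assumption) (by decide) h3

theorem ng7_7 : NoG 7 7 := by
  intro V _ ρ hV hD hG v
  by_contra hv
  have hne : ∃ v : V, v ≠ 0 := ⟨v, hv⟩
  have h0 : FxT ρ 0 := R0 hv
  have hp : Nat.Prime 7 := by norm_num
  rcases mT (ρ := ρ) hne with h1 | h1
  · obtain ⟨U, _, ρ', hU, hneU, hl⟩ := lift (k := 5) hV h1 (by decide)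
    rcases mM (ρ := ρ') hp hU hneU 4 (by rw [show (4 : ℕ) = 2 ^ 2 by norm_num]; exact (Nat.Prime.isPrimePow (by norm_num)).pow (by norm_num)) (by norm_num) (by decide) (by norm_num) (by norm_num) with h1 | h1
    · have h2 := hl _ h1
      exact RG hG [3, 2] 2 (by decide) (by decide) (by decide) (by decide) h2
    · have h3 := (hl _ (altfx h1 ({5} : Multiset ℕ) (by decide) (by decide) (by decide)))
      exact RD hD (f := 0) [5, 2] (by decide) ⟨by decide, by decide, by decide, by decide⟩ (by decide) (by decide) h3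
  · have h3 := (altfx h1 ({5} : Multiset ℕ) (by decide) (by decide) (by decide))
    exact RG hG [5] 2 (by decide) (by decide) (by decide) (by decide) h3

theorem ng7 {p : ℕ} (hp : p.Prime) (h2 : p ≠ 2) (h3 : p ≠ 3) : NoG 7 p := by
  by_cases h7 : p = 7
  · rw [h7]; exact ng7_7
  have d2 : ¬ p ∣ 2 := ndv1 hp (by norm_num) h2
  have d3 : ¬ p ∣ 3 := ndv1 hp (by norm_num) h3
  have d7 : ¬ p ∣ 7 := ndv1 hp (by norm_num) h7
  have e6 : ¬ p ∣ 6 := (ndvm hp d2 d3)
  have e7 : ¬ p ∣ 7 := d7
  intro V _ ρ hV hD hG v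
  by_contra hv
  have hne : ∃ v : V, v ≠ 0 := ⟨v, hv⟩
  have h0 : FxT ρ 0 := R0 hv
  rcases mM (ρ := ρ) hp hV hne 7 (Nat.Prime.isPrimePow (by norm_num)) (by norm_num) e7 (by norm_num) (by norm_num) with h1 | h1
  · exact RD hD (f := 1) [6] (by decide) ⟨by decide, by decide, by decide, by decide⟩ (by intro x hx; simp only [List.mem_cons, List.not_mem_nil, or_false] at hx; rcases hx with rfl <;> assumption) (by decide) h1
  · have h3 := (altfx h1 ({7} : Multiset ℕ) (by decide) (by decide) (by decide))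
    exact RD hD (f := 0) [7] (by decide) ⟨by decide, by decide, by decide, by decide⟩ (by intro x hx; simp only [List.mem_cons, List.not_mem_nil, or_false] at hx; rcases hx with rfl <;> assumption) (by decide) h3

theorem ng9 {p : ℕ} (hp : p.Prime) (h2 : p ≠ 2) (h3 : p ≠ 3) : NoG 9 p := by
  have d2 : ¬ p ∣ 2 := ndv1 hp (by norm_num) h2
  have d3 : ¬ p ∣ 3 := ndv1 hp (by norm_num) h3
  have e8 : ¬ p ∣ 8 := (ndvm hp (ndvm hp d2 d2) d2)
  have e9 : ¬ p ∣ 9 := (ndvm hp d3 d3)
  intro V _ ρ hV hD hG v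
  by_contra hv
  have hne : ∃ v : V, v ≠ 0 := ⟨v, hv⟩
  have h0 : FxT ρ 0 := R0 hv
  rcases mM (ρ := ρ) hp hV hne 9 (by rw [show (9 : ℕ) = 3 ^ 2 by norm_num]; exact (Nat.Prime.isPrimePow (by norm_num)).pow (by norm_num)) (by norm_num) e9 (by norm_num) (by norm_num) with h1 | h1
  · exact RD hD (f := 1) [8] (by decide) ⟨by decide, by decide, by decide, by decide⟩ (by intro x hx; simp only [List.mem_cons, List.not_mem_nil, or_false] at hx; rcases hx with rfl <;> assumption) (by decide) h1
  · have h3 := (altfx h1 ({9} : Multiset ℕ) (by decide) (by decide) (by decide))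
    exact RD hD (f := 0) [9] (by decide) ⟨by decide, by decide, by decide, by decide⟩ (by intro x hx; simp only [List.mem_cons, List.not_mem_nil, or_false] at hx; rcases hx with rfl <;> assumption) (by decide) h3

theorem ng10_5 : NoG 10 5 := by
  intro V _ ρ hV hD hG v
  by_contra hv
  have hne : ∃ v : V, v ≠ 0 := ⟨v, hv⟩
  have h0 : FxT ρ 0 := R0 hv
  have hp : Nat.Prime 5 := by norm_num
  rcases mT (ρ := ρ) hne with h1 | h1
  · obtain ⟨U, _, ρ', hU, hneU, hl⟩ := lift (k := 8) hV h1 (by decide)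
    rcases mM (ρ := ρ') hp hU hneU 8 (by rw [show (8 : ℕ) = 2 ^ 3 by norm_num]; exact (Nat.Prime.isPrimePow (by norm_num)).pow (by norm_num)) (by norm_num) (by decide) (by norm_num) (by norm_num) with h1 | h1
    · have h2 := hl _ h1
      exact RD hD (f := 1) [7, 2] (by decide) ⟨by decide, by decide, by decide, by decide⟩ (by decide) (by decide) h2
    · have h3 := (hl _ (altfx h1 ({7} : Multiset ℕ) (by decide) (by decide) (by decide)))
      exact RD hD (f := 1) [7, 2] (by decide) ⟨by decide, by decide, by decide, by decide⟩ (by decide) (by decide) h3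
  · have h3 := (altfx h1 ({7, 3} : Multiset ℕ) (by decide) (by decide) (by decide))
    exact RD hD (f := 0) [7, 3] (by decide) ⟨by decide, by decide, by decide, by decide⟩ (by decide) (by decide) h3

theorem ng10_7 : NoG 10 7 := by
  intro V _ ρ hV hD hG v
  by_contra hv
  have hne : ∃ v : V, v ≠ 0 := ⟨v, hv⟩
  have h0 : FxT ρ 0 := R0 hv
  have hp : Nat.Prime 7 := by norm_num
  rcases mM (ρ := ρ) hp hV hne 9 (by rw [show (9 : ℕ) = 3 ^ 2 by norm_num]; exact (Nat.Prime.isPrimePow (by norm_num)).pow (by norm_num)) (by norm_num) (by decide) (by norm_num) (by norm_num) with h1 | h1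
  · exact RG hG [8] 2 (by decide) (by decide) (by decide) (by decide) h1
  · have h3 := (altfx h1 ({9} : Multiset ℕ) (by decide) (by decide) (by decide))
    exact RD hD (f := 1) [9] (by decide) ⟨by decide, by decide, by decide, by decide⟩ (by decide) (by decide) h3

theorem ng10 {p : ℕ} (hp : p.Prime) (h2 : p ≠ 2) (h3 : p ≠ 3) : NoG 10 p := by
  by_cases h5 : p = 5
  · rw [h5]; exact ng10_5
  by_cases h7 : p = 7
  · rw [h7]; exact ng10_7
  have d2 : ¬ p ∣ 2 := ndv1 hp (by norm_num) h2
  have d3 : ¬ p ∣ 3 := ndv1 hp (by norm_num) h3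
  have d5 : ¬ p ∣ 5 := ndv1 hp (by norm_num) h5
  have d7 : ¬ p ∣ 7 := ndv1 hp (by norm_num) h7
  have e2 : ¬ p ∣ 2 := d2
  have e3 : ¬ p ∣ 3 := d3
  have e5 : ¬ p ∣ 5 := d5
  have e7 : ¬ p ∣ 7 := d7
  have e8 : ¬ p ∣ 8 := (ndvm hp (ndvm hp d2 d2) d2)
  intro V _ ρ hV hD hG v
  by_contra hv
  have hne : ∃ v : V, v ≠ 0 := ⟨v, hv⟩
  have h0 : FxT ρ 0 := R0 hv
  rcases mT (ρ := ρ) hne with h1 | h1
  · obtain ⟨U, _, ρ', hU, hneU, hl⟩ := lift (k := 8) hV h1 (by decide)
    rcases mM (ρ := ρ') hp hU hneU 8 (by rw [show (8 : ℕ) = 2 ^ 3 by norm_num]; exact (Nat.Prime.isPrimePow (by norm_num)).pow (by norm_num)) (by norm_num) e8 (by norm_num) (by norm_num) with h1 | h1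
    · have h2 := hl _ h1
      exact RD hD (f := 1) [7, 2] (by decide) ⟨by decide, by decide, by decide, by decide⟩ (by intro x hx; simp only [List.mem_cons, List.not_mem_nil, or_false] at hx; rcases hx with rfl | rfl <;> assumption) (by decide) h2
    · have h3 := (hl _ (altfx h1 ({5, 3} : Multiset ℕ) (by decide) (by decide) (by decide)))
      exact RD hD (f := 0) [5, 3, 2] (by decide) ⟨by decide, by decide, by decide, by decide⟩ (by intro x hx; simp only [List.mem_cons, List.not_mem_nil, or_false] at hx; rcases hx with rfl | rfl | rfl <;> assumption) (by decide) h3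
  · have h3 := (altfx h1 ({7, 3} : Multiset ℕ) (by decide) (by decide) (by decide))
    exact RD hD (f := 0) [7, 3] (by decide) ⟨by decide, by decide, by decide, by decide⟩ (by intro x hx; simp only [List.mem_cons, List.not_mem_nil, or_false] at hx; rcases hx with rfl | rfl <;> assumption) (by decide) h3

theorem ng13_13 : NoG 13 13 := by
  intro V _ ρ hV hD hG v
  by_contra hv
  have hne : ∃ v : V, v ≠ 0 := ⟨v, hv⟩
  have h0 : FxT ρ 0 := R0 hv
  have hp : Nat.Prime 13 := by norm_num
  rcases mP (ρ := ρ) hp hV (b := 12) ⟨3, 4, by norm_num, by norm_num, (by decide), by norm_num, by norm_num, by norm_num⟩ (by norm_num) with h1 | h1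
  · exact RD hD (f := 1) [12] (by decide) ⟨by decide, by decide, by decide, by decide⟩ (by decide) (by decide) h1
  · have h3 := (mS hp hV hne h1 [9, 3] (by decide) (by decide) (by decide))
    exact RD hD (f := 1) [9, 3] (by decide) ⟨by decide, by decide, by decide, by decide⟩ (by decide) (by decide) h3

theorem ng13 {p : ℕ} (hp : p.Prime) (h2 : p ≠ 2) (h3 : p ≠ 3) : NoG 13 p := by
  by_cases h13 : p = 13
  · rw [h13]; exact ng13_13
  have d2 : ¬ p ∣ 2 := ndv1 hp (by norm_num) h2
  have d3 : ¬ p ∣ 3 := ndv1 hp (by norm_num) h3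
  have d13 : ¬ p ∣ 13 := ndv1 hp (by norm_num) h13
  have e12 : ¬ p ∣ 12 := (ndvm hp (ndvm hp d2 d2) d3)
  have e13 : ¬ p ∣ 13 := d13
  intro V _ ρ hV hD hG v
  by_contra hv
  have hne : ∃ v : V, v ≠ 0 := ⟨v, hv⟩
  have h0 : FxT ρ 0 := R0 hv
  rcases mM (ρ := ρ) hp hV hne 13 (Nat.Prime.isPrimePow (by norm_num)) (by norm_num) e13 (by norm_num) (by norm_num) with h1 | h1
  · exact RD hD (f := 1) [12] (by decide) ⟨by decide, by decide, by decide, by decide⟩ (by intro x hx; simp only [List.mem_cons, List.not_mem_nil, or_false] at hx; rcases hx with rfl <;> assumption) (by decide) h1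
  · have h3 := (altfx h1 ({13} : Multiset ℕ) (by decide) (by decide) (by decide))
    exact RD hD (f := 0) [13] (by decide) ⟨by decide, by decide, by decide, by decide⟩ (by intro x hx; simp only [List.mem_cons, List.not_mem_nil, or_false] at hx; rcases hx with rfl <;> assumption) (by decide) h3

theorem ng14_5 : NoG 14 5 := by
  intro V _ ρ hV hD hG v
  by_contra hv
  have hne : ∃ v : V, v ≠ 0 := ⟨v, hv⟩
  have h0 : FxT ρ 0 := R0 hv
  have hp : Nat.Prime 5 := by norm_num
  rcases mM (ρ := ρ) hp hV hne 7 (Nat.Prime.isPrimePow (by norm_num)) (by norm_num) (by decide) (by norm_num) (by norm_num) with h1 | h1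
  · obtain ⟨U, _, ρ', hU, hneU, hl⟩ := lift (k := 8) hV h1 (by decide)
    rcases mM (ρ := ρ') hp hU hneU 8 (by rw [show (8 : ℕ) = 2 ^ 3 by norm_num]; exact (Nat.Prime.isPrimePow (by norm_num)).pow (by norm_num)) (by norm_num) (by decide) (by norm_num) (by norm_num) with h1 | h1
    · have h2 := hl _ h1
      exact RD hD (f := 1) [7, 6] (by decide) ⟨by decide, by decide, by decide, by decide⟩ (by decide) (by decide) h2
    · have h3 := (hl _ (altfx h1 ({7} : Multiset ℕ) (by decide) (by decide) (by decide)))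
      exact RD hD (f := 1) [7, 6] (by decide) ⟨by decide, by decide, by decide, by decide⟩ (by decide) (by decide) h3
  · have h3 := (altfx h1 ({11, 3} : Multiset ℕ) (by decide) (by decide) (by decide))
    exact RD hD (f := 0) [11, 3] (by decide) ⟨by decide, by decide, by decide, by decide⟩ (by decide) (by decide) h3

theorem ng14_11 : NoG 14 11 := by
  intro V _ ρ hV hD hG v
  by_contra hv
  have hne : ∃ v : V, v ≠ 0 := ⟨v, hv⟩
  have h0 : FxT ρ 0 := R0 hv
  have hp : Nat.Prime 11 := by norm_num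
  rcases mM (ρ := ρ) hp hV hne 7 (Nat.Prime.isPrimePow (by norm_num)) (by norm_num) (by decide) (by norm_num) (by norm_num) with h1 | h1
  · obtain ⟨U, _, ρ', hU, hneU, hl⟩ := lift (k := 8) hV h1 (by decide)
    rcases mM (ρ := ρ') hp hU hneU 8 (by rw [show (8 : ℕ) = 2 ^ 3 by norm_num]; exact (Nat.Prime.isPrimePow (by norm_num)).pow (by norm_num)) (by norm_num) (by decide) (by norm_num) (by norm_num) with h1 | h1
    · have h2 := hl _ h1
      exact RD hD (f := 1) [7, 6] (by decide) ⟨by decide, by decide, by decide, by decide⟩ (by decide) (by decide) h2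
    · have h3 := (hl _ (altfx h1 ({5, 3} : Multiset ℕ) (by decide) (by decide) (by decide)))
      exact RD hD (f := 0) [6, 5, 3] (by decide) ⟨by decide, by decide, by decide, by decide⟩ (by decide) (by decide) h3
  · have h3 := (altfx h1 ({9, 5} : Multiset ℕ) (by decide) (by decide) (by decide))
    exact RD hD (f := 0) [9, 5] (by decide) ⟨by decide, by decide, by decide, by decide⟩ (by decide) (by decide) h3

theorem ng14 {p : ℕ} (hp : p.Prime) (h2 : p ≠ 2) (h3 : p ≠ 3) : NoG 14 p := by
  by_cases h5 : p = 5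
  · rw [h5]; exact ng14_5
  by_cases h11 : p = 11
  · rw [h11]; exact ng14_11
  have d2 : ¬ p ∣ 2 := ndv1 hp (by norm_num) h2
  have d3 : ¬ p ∣ 3 := ndv1 hp (by norm_num) h3
  have d5 : ¬ p ∣ 5 := ndv1 hp (by norm_num) h5
  have d11 : ¬ p ∣ 11 := ndv1 hp (by norm_num) h11
  have e3 : ¬ p ∣ 3 := d3
  have e4 : ¬ p ∣ 4 := (ndvm hp d2 d2)
  have e10 : ¬ p ∣ 10 := (ndvm hp d2 d5)
  have e11 : ¬ p ∣ 11 := d11
  intro V _ ρ hV hD hG v
  by_contra hv
  have hne : ∃ v : V, v ≠ 0 := ⟨v, hv⟩
  have h0 : FxT ρ 0 := R0 hv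
  rcases mM (ρ := ρ) hp hV hne 4 (by rw [show (4 : ℕ) = 2 ^ 2 by norm_num]; exact (Nat.Prime.isPrimePow (by norm_num)).pow (by norm_num)) (by norm_num) e4 (by norm_num) (by norm_num) with h1 | h1
  · obtain ⟨U, _, ρ', hU, hneU, hl⟩ := lift (k := 11) hV h1 (by decide)
    rcases mM (ρ := ρ') hp hU hneU 11 (Nat.Prime.isPrimePow (by norm_num)) (by norm_num) e11 (by norm_num) (by norm_num) with h1 | h1
    · have h2 := hl _ h1
      exact RD hD (f := 1) [10, 3] (by decide) ⟨by decide, by decide, by decide, by decide⟩ (by intro x hx; simp only [List.mem_cons, List.not_mem_nil, or_false] at hx; rcases hx with rfl | rfl <;> assumption) (by decide) h2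
    · have h3 := (hl _ (altfx h1 ({11} : Multiset ℕ) (by decide) (by decide) (by decide)))
      exact RD hD (f := 0) [11, 3] (by decide) ⟨by decide, by decide, by decide, by decide⟩ (by intro x hx; simp only [List.mem_cons, List.not_mem_nil, or_false] at hx; rcases hx with rfl | rfl <;> assumption) (by decide) h3
  · have h3 := (altfx h1 ({11, 3} : Multiset ℕ) (by decide) (by decide) (by decide))
    exact RD hD (f := 0) [11, 3] (by decide) ⟨by decide, by decide, by decide, by decide⟩ (by intro x hx; simp only [List.mem_cons, List.not_mem_nil, or_false] at hx; rcases hx with rfl | rfl <;> assumption) (by decide) h3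

theorem ng15_7 : NoG 15 7 := by
  intro V _ ρ hV hD hG v
  by_contra hv
  have hne : ∃ v : V, v ≠ 0 := ⟨v, hv⟩
  have h0 : FxT ρ 0 := R0 hv
  have hp : Nat.Prime 7 := by norm_num
  rcases mP (ρ := ρ) hp hV (b := 15) ⟨3, 5, by norm_num, by norm_num, (by decide), by norm_num, by norm_num, by norm_num⟩ (by norm_num) with h1 | h1
  · exact RD hD (f := 0) [15] (by decide) ⟨by decide, by decide, by decide, by decide⟩ (by decide) (by decide) h1
  · have h3 := (mS hp hV hne h1 [11, 3] (by decide) (by decide) (by decide))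
    exact RD hD (f := 1) [11, 3] (by decide) ⟨by decide, by decide, by decide, by decide⟩ (by decide) (by decide) h3

theorem ng15_11 : NoG 15 11 := by
  intro V _ ρ hV hD hG v
  by_contra hv
  have hne : ∃ v : V, v ≠ 0 := ⟨v, hv⟩
  have h0 : FxT ρ 0 := R0 hv
  have hp : Nat.Prime 11 := by norm_num
  rcases mP (ρ := ρ) hp hV (b := 14) ⟨7, 2, by norm_num, by norm_num, (by decide), by norm_num, by norm_num, by norm_num⟩ (by norm_num) with h1 | h1
  · exact RD hD (f := 1) [14] (by decide) ⟨by decide, by decide, by decide, by decide⟩ (by decide) (by decide) h1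
  · have h3 := (mS hp hV hne h1 [9, 5] (by decide) (by decide) (by decide))
    exact RD hD (f := 1) [9, 5] (by decide) ⟨by decide, by decide, by decide, by decide⟩ (by decide) (by decide) h3

theorem ng15 {p : ℕ} (hp : p.Prime) (h2 : p ≠ 2) (h3 : p ≠ 3) : NoG 15 p := by
  by_cases h7 : p = 7
  · rw [h7]; exact ng15_7
  by_cases h11 : p = 11
  · rw [h11]; exact ng15_11
  have d2 : ¬ p ∣ 2 := ndv1 hp (by norm_num) h2
  have d3 : ¬ p ∣ 3 := ndv1 hp (by norm_num) h3
  have d7 : ¬ p ∣ 7 := ndv1 hp (by norm_num) h7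
  have d11 : ¬ p ∣ 11 := ndv1 hp (by norm_num) h11
  have e3 : ¬ p ∣ 3 := d3
  have e11 : ¬ p ∣ 11 := d11
  have e14 : ¬ p ∣ 14 := (ndvm hp d2 d7)
  intro V _ ρ hV hD hG v
  by_contra hv
  have hne : ∃ v : V, v ≠ 0 := ⟨v, hv⟩
  have h0 : FxT ρ 0 := R0 hv
  rcases mP (ρ := ρ) hp hV (b := 14) ⟨7, 2, by norm_num, by norm_num, (Ne.symm h7), by norm_num, by norm_num, by norm_num⟩ (by norm_num) with h1 | h1
  · exact RD hD (f := 1) [14] (by decide) ⟨by decide, by decide, by decide, by decide⟩ (by intro x hx; simp only [List.mem_cons, List.not_mem_nil, or_false] at hx; rcases hx with rfl <;> assumption) (by decide) h1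
  · have h3 := (mS hp hV hne h1 [11, 3] (by decide) (by intro x hx; simp only [List.mem_cons, List.not_mem_nil, or_false] at hx; rcases hx with rfl | rfl <;> exact ⟨by decide, by decide, by assumption⟩) (by decide))
    exact RD hD (f := 1) [11, 3] (by decide) ⟨by decide, by decide, by decide, by decide⟩ (by intro x hx; simp only [List.mem_cons, List.not_mem_nil, or_false] at hx; rcases hx with rfl | rfl <;> assumption) (by decide) h3

theorem ng16_5 : NoG 16 5 := by
  intro V _ ρ hV hD hG v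
  by_contra hv
  have hne : ∃ v : V, v ≠ 0 := ⟨v, hv⟩
  have h0 : FxT ρ 0 := R0 hv
  have hp : Nat.Prime 5 := by norm_num
  rcases mM (ρ := ρ) hp hV hne 4 (by rw [show (4 : ℕ) = 2 ^ 2 by norm_num]; exact (Nat.Prime.isPrimePow (by norm_num)).pow (by norm_num)) (by norm_num) (by decide) (by norm_num) (by norm_num) with h1 | h1
  · obtain ⟨U, _, ρ', hU, hneU, hl⟩ := lift (k := 13) hV h1 (by decide)
    rcases mM (ρ := ρ') hp hU hneU 13 (Nat.Prime.isPrimePow (by norm_num)) (by norm_num) (by decide) (by norm_num) (by norm_num) with h1 | h1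
    · have h2 := hl _ h1
      exact RD hD (f := 1) [12, 3] (by decide) ⟨by decide, by decide, by decide, by decide⟩ (by decide) (by decide) h2
    · have h3 := (hl _ (altfx h1 ({13} : Multiset ℕ) (by decide) (by decide) (by decide)))
      exact RD hD (f := 0) [13, 3] (by decide) ⟨by decide, by decide, by decide, by decide⟩ (by decide) (by decide) h3
  · have h3 := (altfx h1 ({13, 3} : Multiset ℕ) (by decide) (by decide) (by decide))
    exact RD hD (f := 0) [13, 3] (by decide) ⟨by decide, by decide, by decide, by decide⟩ (by decide) (by decide) h3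

theorem ng16_13 : NoG 16 13 := by
  intro V _ ρ hV hD hG v
  by_contra hv
  have hne : ∃ v : V, v ≠ 0 := ⟨v, hv⟩
  have h0 : FxT ρ 0 := R0 hv
  have hp : Nat.Prime 13 := by norm_num
  rcases mM (ρ := ρ) hp hV hne 16 (by rw [show (16 : ℕ) = 2 ^ 4 by norm_num]; exact (Nat.Prime.isPrimePow (by norm_num)).pow (by norm_num)) (by norm_num) (by decide) (by norm_num) (by norm_num) with h1 | h1
  · exact RD hD (f := 1) [15] (by decide) ⟨by decide, by decide, by decide, by decide⟩ (by decide) (by decide) h1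
  · have h3 := (altfx h1 ({11, 5} : Multiset ℕ) (by decide) (by decide) (by decide))
    exact RD hD (f := 0) [11, 5] (by decide) ⟨by decide, by decide, by decide, by decide⟩ (by decide) (by decide) h3

theorem ng16 {p : ℕ} (hp : p.Prime) (h2 : p ≠ 2) (h3 : p ≠ 3) : NoG 16 p := by
  by_cases h5 : p = 5
  · rw [h5]; exact ng16_5
  by_cases h13 : p = 13
  · rw [h13]; exact ng16_13
  have d2 : ¬ p ∣ 2 := ndv1 hp (by norm_num) h2
  have d3 : ¬ p ∣ 3 := ndv1 hp (by norm_num) h3
  have d5 : ¬ p ∣ 5 := ndv1 hp (by norm_num) h5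
  have d13 : ¬ p ∣ 13 := ndv1 hp (by norm_num) h13
  have e3 : ¬ p ∣ 3 := d3
  have e13 : ¬ p ∣ 13 := d13
  have e15 : ¬ p ∣ 15 := (ndvm hp d3 d5)
  have e16 : ¬ p ∣ 16 := (ndvm hp (ndvm hp (ndvm hp d2 d2) d2) d2)
  intro V _ ρ hV hD hG v
  by_contra hv
  have hne : ∃ v : V, v ≠ 0 := ⟨v, hv⟩
  have h0 : FxT ρ 0 := R0 hv
  rcases mM (ρ := ρ) hp hV hne 16 (by rw [show (16 : ℕ) = 2 ^ 4 by norm_num]; exact (Nat.Prime.isPrimePow (by norm_num)).pow (by norm_num)) (by norm_num) e16 (by norm_num) (by norm_num) with h1 | h1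
  · exact RD hD (f := 1) [15] (by decide) ⟨by decide, by decide, by decide, by decide⟩ (by intro x hx; simp only [List.mem_cons, List.not_mem_nil, or_false] at hx; rcases hx with rfl <;> assumption) (by decide) h1
  · have h3 := (altfx h1 ({13, 3} : Multiset ℕ) (by decide) (by decide) (by decide))
    exact RD hD (f := 0) [13, 3] (by decide) ⟨by decide, by decide, by decide, by decide⟩ (by intro x hx; simp only [List.mem_cons, List.not_mem_nil, or_false] at hx; rcases hx with rfl | rfl <;> assumption) (by decide) h3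

theorem ng18_5 : NoG 18 5 := by
  intro V _ ρ hV hD hG v
  by_contra hv
  have hne : ∃ v : V, v ≠ 0 := ⟨v, hv⟩
  have h0 : FxT ρ 0 := R0 hv
  have hp : Nat.Prime 5 := by norm_num
  rcases mM (ρ := ρ) hp hV hne 17 (Nat.Prime.isPrimePow (by norm_num)) (by norm_num) (by decide) (by norm_num) (by norm_num) with h1 | h1
  · exact RG hG [16] 2 (by decide) (by decide) (by decide) (by decide) h1
  · have h3 := (altfx h1 ({17} : Multiset ℕ) (by decide) (by decide) (by decide))
    exact RD hD (f := 1) [17] (by decide) ⟨by decide, by decide, by decide, by decide⟩ (by decide) (by decide) h3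

theorem ng18 {p : ℕ} (hp : p.Prime) (h2 : p ≠ 2) (h3 : p ≠ 3) : NoG 18 p := by
  by_cases h5 : p = 5
  · rw [h5]; exact ng18_5
  have d2 : ¬ p ∣ 2 := ndv1 hp (by norm_num) h2
  have d3 : ¬ p ∣ 3 := ndv1 hp (by norm_num) h3
  have d5 : ¬ p ∣ 5 := ndv1 hp (by norm_num) h5
  have e3 : ¬ p ∣ 3 := d3
  have e5 : ¬ p ∣ 5 := d5
  have e9 : ¬ p ∣ 9 := (ndvm hp d3 d3)
  have e18 : ¬ p ∣ 18 := (ndvm hp (ndvm hp d2 d3) d3)
  intro V _ ρ hV hD hG v
  by_contra hv
  have hne : ∃ v : V, v ≠ 0 := ⟨v, hv⟩
  have h0 : FxT ρ 0 := R0 hv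
  rcases mP (ρ := ρ) hp hV (b := 18) ⟨3, 6, by norm_num, by norm_num, (Ne.symm h3), by norm_num, by norm_num, by norm_num⟩ (by norm_num) with h1 | h1
  · exact RD hD (f := 0) [18] (by decide) ⟨by decide, by decide, by decide, by decide⟩ (by intro x hx; simp only [List.mem_cons, List.not_mem_nil, or_false] at hx; rcases hx with rfl <;> assumption) (by decide) h1
  · have h3 := (mS hp hV hne h1 [9, 5, 3] (by decide) (by intro x hx; simp only [List.mem_cons, List.not_mem_nil, or_false] at hx; rcases hx with rfl | rfl | rfl <;> exact ⟨by decide, by decide, by assumption⟩) (by decide))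
    exact RD hD (f := 1) [9, 5, 3] (by decide) ⟨by decide, by decide, by decide, by decide⟩ (by intro x hx; simp only [List.mem_cons, List.not_mem_nil, or_false] at hx; rcases hx with rfl | rfl | rfl <;> assumption) (by decide) h3

theorem ng19_19 : NoG 19 19 := by
  intro V _ ρ hV hD hG v
  by_contra hv
  have hne : ∃ v : V, v ≠ 0 := ⟨v, hv⟩
  have h0 : FxT ρ 0 := R0 hv
  have hp : Nat.Prime 19 := by norm_num
  rcases mP (ρ := ρ) hp hV (b := 18) ⟨3, 6, by norm_num, by norm_num, (by decide), by norm_num, by norm_num, by norm_num⟩ (by norm_num) with h1 | h1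
  · exact RD hD (f := 1) [18] (by decide) ⟨by decide, by decide, by decide, by decide⟩ (by decide) (by decide) h1
  · have h3 := (mS hp hV hne h1 [15, 3] (by decide) (by decide) (by decide))
    exact RD hD (f := 1) [15, 3] (by decide) ⟨by decide, by decide, by decide, by decide⟩ (by decide) (by decide) h3

theorem ng19 {p : ℕ} (hp : p.Prime) (h2 : p ≠ 2) (h3 : p ≠ 3) : NoG 19 p := by
  by_cases h19 : p = 19
  · rw [h19]; exact ng19_19
  have d2 : ¬ p ∣ 2 := ndv1 hp (by norm_num) h2
  have d3 : ¬ p ∣ 3 := ndv1 hp (by norm_num) h3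
  have d19 : ¬ p ∣ 19 := ndv1 hp (by norm_num) h19
  have e18 : ¬ p ∣ 18 := (ndvm hp (ndvm hp d2 d3) d3)
  have e19 : ¬ p ∣ 19 := d19
  intro V _ ρ hV hD hG v
  by_contra hv
  have hne : ∃ v : V, v ≠ 0 := ⟨v, hv⟩
  have h0 : FxT ρ 0 := R0 hv
  rcases mM (ρ := ρ) hp hV hne 19 (Nat.Prime.isPrimePow (by norm_num)) (by norm_num) e19 (by norm_num) (by norm_num) with h1 | h1
  · exact RD hD (f := 1) [18] (by decide) ⟨by decide, by decide, by decide, by decide⟩ (by intro x hx; simp only [List.mem_cons, List.not_mem_nil, or_false] at hx; rcases hx with rfl <;> assumption) (by decide) h1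
  · have h3 := (altfx h1 ({19} : Multiset ℕ) (by decide) (by decide) (by decide))
    exact RD hD (f := 0) [19] (by decide) ⟨by decide, by decide, by decide, by decide⟩ (by intro x hx; simp only [List.mem_cons, List.not_mem_nil, or_false] at hx; rcases hx with rfl <;> assumption) (by decide) h3

theorem ng20_5 : NoG 20 5 := by
  intro V _ ρ hV hD hG v
  by_contra hv
  have hne : ∃ v : V, v ≠ 0 := ⟨v, hv⟩
  have h0 : FxT ρ 0 := R0 hv
  have hp : Nat.Prime 5 := by norm_num
  rcases mM (ρ := ρ) hp hV hne 4 (by rw [show (4 : ℕ) = 2 ^ 2 by norm_num]; exact (Nat.Prime.isPrimePow (by norm_num)).pow (by norm_num)) (by norm_num) (by decide) (by norm_num) (by norm_num) with h1 | h1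
  · obtain ⟨U, _, ρ', hU, hneU, hl⟩ := lift (k := 17) hV h1 (by decide)
    rcases mM (ρ := ρ') hp hU hneU 17 (Nat.Prime.isPrimePow (by norm_num)) (by norm_num) (by decide) (by norm_num) (by norm_num) with h1 | h1
    · have h2 := hl _ h1
      exact RD hD (f := 1) [16, 3] (by decide) ⟨by decide, by decide, by decide, by decide⟩ (by decide) (by decide) h2
    · have h3 := (hl _ (altfx h1 ({17} : Multiset ℕ) (by decide) (by decide) (by decide)))
      exact RD hD (f := 0) [17, 3] (by decide) ⟨by decide, by decide, by decide, by decide⟩ (by decide) (by decide) h3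
  · have h3 := (altfx h1 ({17, 3} : Multiset ℕ) (by decide) (by decide) (by decide))
    exact RD hD (f := 0) [17, 3] (by decide) ⟨by decide, by decide, by decide, by decide⟩ (by decide) (by decide) h3

theorem ng20_11 : NoG 20 11 := by
  intro V _ ρ hV hD hG v
  by_contra hv
  have hne : ∃ v : V, v ≠ 0 := ⟨v, hv⟩
  have h0 : FxT ρ 0 := R0 hv
  have hp : Nat.Prime 11 := by norm_num
  rcases mP (ρ := ρ) hp hV (b := 20) ⟨5, 4, by norm_num, by norm_num, (by decide), by norm_num, by norm_num, by norm_num⟩ (by norm_num) with h1 | h1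
  · exact RD hD (f := 0) [20] (by decide) ⟨by decide, by decide, by decide, by decide⟩ (by decide) (by decide) h1
  · have h3 := (mS hp hV hne h1 [9, 7, 3] (by decide) (by decide) (by decide))
    exact RD hD (f := 1) [9, 7, 3] (by decide) ⟨by decide, by decide, by decide, by decide⟩ (by decide) (by decide) h3

theorem ng20 {p : ℕ} (hp : p.Prime) (h2 : p ≠ 2) (h3 : p ≠ 3) : NoG 20 p := by
  by_cases h5 : p = 5
  · rw [h5]; exact ng20_5
  by_cases h11 : p = 11
  · rw [h11]; exact ng20_11
  have d2 : ¬ p ∣ 2 := ndv1 hp (by norm_num) h2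
  have d3 : ¬ p ∣ 3 := ndv1 hp (by norm_num) h3
  have d5 : ¬ p ∣ 5 := ndv1 hp (by norm_num) h5
  have d11 : ¬ p ∣ 11 := ndv1 hp (by norm_num) h11
  have e3 : ¬ p ∣ 3 := d3
  have e5 : ¬ p ∣ 5 := d5
  have e11 : ¬ p ∣ 11 := d11
  have e20 : ¬ p ∣ 20 := (ndvm hp (ndvm hp d2 d2) d5)
  intro V _ ρ hV hD hG v
  by_contra hv
  have hne : ∃ v : V, v ≠ 0 := ⟨v, hv⟩
  have h0 : FxT ρ 0 := R0 hv
  rcases mP (ρ := ρ) hp hV (b := 20) ⟨5, 4, by norm_num, by norm_num, (Ne.symm h5), by norm_num, by norm_num, by norm_num⟩ (by norm_num) with h1 | h1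
  · exact RD hD (f := 0) [20] (by decide) ⟨by decide, by decide, by decide, by decide⟩ (by intro x hx; simp only [List.mem_cons, List.not_mem_nil, or_false] at hx; rcases hx with rfl <;> assumption) (by decide) h1
  · have h3 := (mS hp hV hne h1 [11, 5, 3] (by decide) (by intro x hx; simp only [List.mem_cons, List.not_mem_nil, or_false] at hx; rcases hx with rfl | rfl | rfl <;> exact ⟨by decide, by decide, by assumption⟩) (by decide))
    exact RD hD (f := 1) [11, 5, 3] (by decide) ⟨by decide, by decide, by decide, by decide⟩ (by intro x hx; simp only [List.mem_cons, List.not_mem_nil, or_false] at hx; rcases hx with rfl | rfl | rfl <;> assumption) (by decide) h3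

theorem ng22_5 : NoG 22 5 := by
  intro V _ ρ hV hD hG v
  by_contra hv
  have hne : ∃ v : V, v ≠ 0 := ⟨v, hv⟩
  have h0 : FxT ρ 0 := R0 hv
  have hp : Nat.Prime 5 := by norm_num
  rcases mP (ρ := ρ) hp hV (b := 21) ⟨3, 7, by norm_num, by norm_num, (by decide), by norm_num, by norm_num, by norm_num⟩ (by norm_num) with h1 | h1
  · exact RD hD (f := 1) [21] (by decide) ⟨by decide, by decide, by decide, by decide⟩ (by decide) (by decide) h1
  · have h3 := (mS hp hV hne h1 [11, 7, 3] (by decide) (by decide) (by decide))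
    exact RD hD (f := 1) [11, 7, 3] (by decide) ⟨by decide, by decide, by decide, by decide⟩ (by decide) (by decide) h3

theorem ng22_7 : NoG 22 7 := by
  intro V _ ρ hV hD hG v
  by_contra hv
  have hne : ∃ v : V, v ≠ 0 := ⟨v, hv⟩
  have h0 : FxT ρ 0 := R0 hv
  have hp : Nat.Prime 7 := by norm_num
  rcases mP (ρ := ρ) hp hV (b := 22) ⟨11, 2, by norm_num, by norm_num, (by decide), by norm_num, by norm_num, by norm_num⟩ (by norm_num) with h1 | h1
  · exact RD hD (f := 0) [22] (by decide) ⟨by decide, by decide, by decide, by decide⟩ (by decide) (by decide) h1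
  · have h3 := (mS hp hV hne h1 [13, 5, 3] (by decide) (by decide) (by decide))
    exact RD hD (f := 1) [13, 5, 3] (by decide) ⟨by decide, by decide, by decide, by decide⟩ (by decide) (by decide) h3

theorem ng22_13 : NoG 22 13 := by
  intro V _ ρ hV hD hG v
  by_contra hv
  have hne : ∃ v : V, v ≠ 0 := ⟨v, hv⟩
  have h0 : FxT ρ 0 := R0 hv
  have hp : Nat.Prime 13 := by norm_num
  rcases mP (ρ := ρ) hp hV (b := 21) ⟨3, 7, by norm_num, by norm_num, (by decide), by norm_num, by norm_num, by norm_num⟩ (by norm_num) with h1 | h1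
  · exact RD hD (f := 1) [21] (by decide) ⟨by decide, by decide, by decide, by decide⟩ (by decide) (by decide) h1
  · have h3 := (mS hp hV hne h1 [11, 7, 3] (by decide) (by decide) (by decide))
    exact RD hD (f := 1) [11, 7, 3] (by decide) ⟨by decide, by decide, by decide, by decide⟩ (by decide) (by decide) h3

theorem ng22 {p : ℕ} (hp : p.Prime) (h2 : p ≠ 2) (h3 : p ≠ 3) : NoG 22 p := by
  by_cases h5 : p = 5
  · rw [h5]; exact ng22_5
  by_cases h7 : p = 7
  · rw [h7]; exact ng22_7
  by_cases h13 : p = 13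
  · rw [h13]; exact ng22_13
  have d2 : ¬ p ∣ 2 := ndv1 hp (by norm_num) h2
  have d3 : ¬ p ∣ 3 := ndv1 hp (by norm_num) h3
  have d5 : ¬ p ∣ 5 := ndv1 hp (by norm_num) h5
  have d7 : ¬ p ∣ 7 := ndv1 hp (by norm_num) h7
  have d13 : ¬ p ∣ 13 := ndv1 hp (by norm_num) h13
  have e3 : ¬ p ∣ 3 := d3
  have e5 : ¬ p ∣ 5 := d5
  have e13 : ¬ p ∣ 13 := d13
  have e21 : ¬ p ∣ 21 := (ndvm hp d3 d7)
  intro V _ ρ hV hD hG v
  by_contra hv
  have hne : ∃ v : V, v ≠ 0 := ⟨v, hv⟩
  have h0 : FxT ρ 0 := R0 hv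
  rcases mP (ρ := ρ) hp hV (b := 21) ⟨3, 7, by norm_num, by norm_num, (Ne.symm h3), by norm_num, by norm_num, by norm_num⟩ (by norm_num) with h1 | h1
  · exact RD hD (f := 1) [21] (by decide) ⟨by decide, by decide, by decide, by decide⟩ (by intro x hx; simp only [List.mem_cons, List.not_mem_nil, or_false] at hx; rcases hx with rfl <;> assumption) (by decide) h1
  · have h3 := (mS hp hV hne h1 [13, 5, 3] (by decide) (by intro x hx; simp only [List.mem_cons, List.not_mem_nil, or_false] at hx; rcases hx with rfl | rfl | rfl <;> exact ⟨by decide, by decide, by assumption⟩) (by decide))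
    exact RD hD (f := 1) [13, 5, 3] (by decide) ⟨by decide, by decide, by decide, by decide⟩ (by intro x hx; simp only [List.mem_cons, List.not_mem_nil, or_false] at hx; rcases hx with rfl | rfl | rfl <;> assumption) (by decide) h3

theorem ng31_5 : NoG 31 5 := by
  intro V _ ρ hV hD hG v
  by_contra hv
  have hne : ∃ v : V, v ≠ 0 := ⟨v, hv⟩
  have h0 : FxT ρ 0 := R0 hv
  have hp : Nat.Prime 5 := by norm_num
  rcases mM (ρ := ρ) hp hV hne 4 (by rw [show (4 : ℕ) = 2 ^ 2 by norm_num]; exact (Nat.Prime.isPrimePow (by norm_num)).pow (by norm_num)) (by norm_num) (by decide) (by norm_num) (by norm_num) with h1 | h1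
  · obtain ⟨U, _, ρ', hU, hneU, hl⟩ := lift (k := 28) hV h1 (by decide)
    rcases mP (ρ := ρ') hp hU (b := 27) ⟨3, 9, by norm_num, by norm_num, (by decide), by norm_num, by norm_num, by norm_num⟩ (by norm_num) with h1 | h1
    · have h2 := hl _ h1
      exact RD hD (f := 1) [27, 3] (by decide) ⟨by decide, by decide, by decide, by decide⟩ (by decide) (by decide) h2
    · have h3 := (hl _ (mS hp hU hneU h1 [11, 9, 7] (by decide) (by decide) (by decide)))
      exact RD hD (f := 1) [11, 9, 7, 3] (by decide) ⟨by decide, by decide, by decide, by decide⟩ (by decide) (by decide) h3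
  · have h3 := (altfx h1 ({31} : Multiset ℕ) (by decide) (by decide) (by decide))
    exact RD hD (f := 0) [31] (by decide) ⟨by decide, by decide, by decide, by decide⟩ (by decide) (by decide) h3

theorem ng31_31 : NoG 31 31 := by
  intro V _ ρ hV hD hG v
  by_contra hv
  have hne : ∃ v : V, v ≠ 0 := ⟨v, hv⟩
  have h0 : FxT ρ 0 := R0 hv
  have hp : Nat.Prime 31 := by norm_num
  rcases mP (ρ := ρ) hp hV (b := 30) ⟨3, 10, by norm_num, by norm_num, (by decide), by norm_num, by norm_num, by norm_num⟩ (by norm_num) with h1 | h1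
  · exact RD hD (f := 1) [30] (by decide) ⟨by decide, by decide, by decide, by decide⟩ (by decide) (by decide) h1
  · have h3 := (mS hp hV hne h1 [27, 3] (by decide) (by decide) (by decide))
    exact RD hD (f := 1) [27, 3] (by decide) ⟨by decide, by decide, by decide, by decide⟩ (by decide) (by decide) h3

theorem ng31 {p : ℕ} (hp : p.Prime) (h2 : p ≠ 2) (h3 : p ≠ 3) : NoG 31 p := by
  by_cases h5 : p = 5
  · rw [h5]; exact ng31_5
  by_cases h31 : p = 31
  · rw [h31]; exact ng31_31
  have d2 : ¬ p ∣ 2 := ndv1 hp (by norm_num) h2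
  have d3 : ¬ p ∣ 3 := ndv1 hp (by norm_num) h3
  have d5 : ¬ p ∣ 5 := ndv1 hp (by norm_num) h5
  have d31 : ¬ p ∣ 31 := ndv1 hp (by norm_num) h31
  have e30 : ¬ p ∣ 30 := (ndvm hp (ndvm hp d2 d3) d5)
  have e31 : ¬ p ∣ 31 := d31
  intro V _ ρ hV hD hG v
  by_contra hv
  have hne : ∃ v : V, v ≠ 0 := ⟨v, hv⟩
  have h0 : FxT ρ 0 := R0 hv
  rcases mM (ρ := ρ) hp hV hne 31 (Nat.Prime.isPrimePow (by norm_num)) (by norm_num) e31 (by norm_num) (by norm_num) with h1 | h1
  · exact RD hD (f := 1) [30] (by decide) ⟨by decide, by decide, by decide, by decide⟩ (by intro x hx; simp only [List.mem_cons, List.not_mem_nil, or_false] at hx; rcases hx with rfl <;> assumption) (by decide) h1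
  · have h3 := (altfx h1 ({31} : Multiset ℕ) (by decide) (by decide) (by decide))
    exact RD hD (f := 0) [31] (by decide) ⟨by decide, by decide, by decide, by decide⟩ (by intro x hx; simp only [List.mem_cons, List.not_mem_nil, or_false] at hx; rcases hx with rfl <;> assumption) (by decide) h3

theorem nd5_3 : NoDo 5 3 := by
  intro V _ ρ hV hD v
  by_contra hv
  have hne : ∃ v : V, v ≠ 0 := ⟨v, hv⟩
  have h0 : FxT ρ 0 := R0 hv
  have hp : Nat.Prime 3 := by norm_num
  rcases mM (ρ := ρ) hp hV hne 5 (Nat.Prime.isPrimePow (by norm_num)) (by norm_num) (by decide) (by norm_num) (by norm_num) with h1 | h1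
  · exact RD hD (f := 1) [4] (by decide) ⟨by decide, by decide, by decide, by decide⟩ (by decide) (by decide) h1
  · have h3 := (altfx h1 ({5} : Multiset ℕ) (by decide) (by decide) (by decide))
    exact RD hD (f := 0) [5] (by decide) ⟨by decide, by decide, by decide, by decide⟩ (by decide) (by decide) h3

theorem nd18_3 : NoDo 18 3 := by
  intro V _ ρ hV hD v
  by_contra hv
  have hne : ∃ v : V, v ≠ 0 := ⟨v, hv⟩
  have h0 : FxT ρ 0 := R0 hv
  have hp : Nat.Prime 3 := by norm_num
  rcases mM (ρ := ρ) hp hV hne 8 (by rw [show (8 : ℕ) = 2 ^ 3 by norm_num]; exact (Nat.Prime.isPrimePow (by norm_num)).pow (by norm_num)) (by norm_num) (by decide) (by norm_num) (by norm_num) with h1 | h1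
  · obtain ⟨U, _, ρ', hU, hneU, hl⟩ := lift (k := 11) hV h1 (by decide)
    rcases mM (ρ := ρ') hp hU hneU 11 (Nat.Prime.isPrimePow (by norm_num)) (by norm_num) (by decide) (by norm_num) (by norm_num) with h1 | h1
    · have h2 := hl _ h1
      exact RD hD (f := 1) [10, 7] (by decide) ⟨by decide, by decide, by decide, by decide⟩ (by decide) (by decide) h2
    · have h3 := (hl _ (altfx h1 ({11} : Multiset ℕ) (by decide) (by decide) (by decide)))
      exact RD hD (f := 0) [11, 7] (by decide) ⟨by decide, by decide, by decide, by decide⟩ (by decide) (by decide) h3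
  · have h3 := (altfx h1 ({13, 5} : Multiset ℕ) (by decide) (by decide) (by decide))
    exact RD hD (f := 0) [13, 5] (by decide) ⟨by decide, by decide, by decide, by decide⟩ (by decide) (by decide) h3

/-- The identity. -/
theorem ngs {n p : ℕ} (hp : p.Prime) (h : ¬ (p - 1) ∣ n.factorial) : NoG n p := by
  intro V _ ρ hV hD hG v
  by_contra hv
  refine RG hG [] n.factorial ?_ ?_ h rfl (R0 hv)
  · simp
  · simpa using hp.ne_one

theorem ng3 {p : ℕ} (hp : p.Prime) (h2 : p ≠ 2) (h3 : p ≠ 3) : NoG 3 p := by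
  intro V _ ρ hV hD hG v
  by_contra hv
  have h5 := hp.two_le
  have h4 : ¬ (p - 1) ∣ 1 := fun h => by have := Nat.le_of_dvd (by norm_num) h; omega
  rcases mT (ρ := ρ) ⟨v, hv⟩ with h1 | h1
  · exact RG hG [2] 1 (by decide) (ndv1 hp (by norm_num) h2) h4 rfl h1
  · exact RG hG [3] 1 (by decide) (ndv1 hp (by norm_num) h3) h4 rfl
      (altfx h1 ({3} : Multiset ℕ) (by decide) (by decide) (by decide))

theorem ng4 {p : ℕ} (hp : p.Prime) (h2 : p ≠ 2) (h3 : p ≠ 3) : NoG 4 p := by
  intro V _ ρ hV hD hG v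
  by_contra hv
  have h5 := hp.two_le
  have h4 : ¬ (p - 1) ∣ 1 := fun h => by have := Nat.le_of_dvd (by norm_num) h; omega
  have h6 : ¬ (p - 1) ∣ 2 := fun h => by have := Nat.le_of_dvd (by norm_num) h; omega
  rcases mT (ρ := ρ) ⟨v, hv⟩ with h1 | h1
  · exact RG hG [2] 2 (by decide) (ndv1 hp (by norm_num) h2) h6 rfl h1
  · exact RG hG [3] 1 (by decide) (ndv1 hp (by norm_num) h3) h4 rfl
      (altfx h1 ({3} : Multiset ℕ) (by decide) (by decide) (by decide))

end Pool.Agent.NbT
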