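import Pool.Agent.NbT.Sml

/-!
# Numbers
-/

set_option autoImplicit false

namespace Pool.Agent.NbT

-- BEGIN numE
theorem numE_A {m p : ℕ} (c e : ℕ) (hm : 29 ≤ m) (ho : m % 2 = 1) (hc : c % 2 = 1) (h3 : 3 ≤ c) (hce : c + e ≤ 7) (he : e % 2 = 0)
    (hp1 : ¬ p ∣ c) (hp2 : ¬ p ∣ c + e) (hpe : ¬ p ∣ e) : Ev m p := by
  by_cases h : p ∣ m - 1 - c
  · refine ⟨[c + e, m - 1 - (c + e)], by simp, ?_, ?_, ?_⟩
    · simp only [List.nodup_cons, List.mem_singleton, List.not_mem_nil, not_false_eq_true, List.nodup_nil, and_true]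
      omega
    · intro x hx
      simp only [List.mem_cons, List.not_mem_nil, or_false] at hx
      rcases hx with rfl | rfl
      · exact ⟨by omega, by omega, hp2⟩
      · refine ⟨by omega, by omega, fun h' => hpe ?_⟩
        have h4 := Nat.dvd_sub h h'
        have h5 : m - 1 - c - (m - 1 - (c + e)) = e := by omega
        rwa [h5] at h4
    · simp only [List.sum_cons, List.sum_nil]
      omega
  · refine ⟨[c, m - 1 - c], by simp, ?_, ?_, ?_⟩
    · simp only [List.nodup_cons, List.mem_singleton, List.not_mem_nil, not_false_eq_true, List.nodup_nil, and_true]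
      omega
    · intro x hx
      simp only [List.mem_cons, List.not_mem_nil, or_false] at hx
      rcases hx with rfl | rfl
      · exact ⟨by omega, by omega, hp1⟩
      · exact ⟨by omega, by omega, h⟩
    · simp only [List.sum_cons, List.sum_nil]
      omega

theorem numE_B {m p : ℕ} (c d e : ℕ) (hm : 29 ≤ m) (ho : m % 2 = 0) (hc : c % 2 = 1) (hd : d % 2 = 1) (h3 : 3 ≤ c) (hcd : c < d)
    (hde : d + e ≤ 11) (hcde : c + d + e ≤ 16) (he : e % 2 = 0) (hp0 : ¬ p ∣ c) (hp1 : ¬ p ∣ d) (hp2 : ¬ p ∣ d + e)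
    (hpe : ¬ p ∣ e) : Ev m p := by
  by_cases h : p ∣ m - 1 - c - d
  · refine ⟨[c, d + e, m - 1 - c - (d + e)], by simp, ?_, ?_, ?_⟩
    · simp only [List.nodup_cons, List.mem_cons, List.not_mem_nil, not_false_eq_true, List.nodup_nil, and_true,
        or_false, not_or]
      omega
    · intro x hx
      simp only [List.mem_cons, List.not_mem_nil, or_false] at hx
      rcases hx with rfl | rfl | rfl
      · exact ⟨by omega, by omega, hp0⟩
      · exact ⟨by omega, by omega, hp2⟩
      · refine ⟨by omega, by omega, fun h' => hpe ?_⟩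
        have h4 := Nat.dvd_sub h h'
        have h5 : m - 1 - c - d - (m - 1 - c - (d + e)) = e := by omega
        rwa [h5] at h4
    · simp only [List.sum_cons, List.sum_nil]
      omega
  · refine ⟨[c, d, m - 1 - c - d], by simp, ?_, ?_, ?_⟩
    · simp only [List.nodup_cons, List.mem_cons, List.not_mem_nil, not_false_eq_true, List.nodup_nil, and_true,
        or_false, not_or]
      omega
    · intro x hx
      simp only [List.mem_cons, List.not_mem_nil, or_false] at hx
      rcases hx with rfl | rfl | rfl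
      · exact ⟨by omega, by omega, hp0⟩
      · exact ⟨by omega, by omega, hp1⟩
      · exact ⟨by omega, by omega, h⟩
    · simp only [List.sum_cons, List.sum_nil]
      omega

/-- PROOF. `m` odd (`m - 1` even): `[c, m - 1 - c]` with `c ∈ {3, 5}` for `p ≥ 7`, `c ∈ {3, 7}` for `p = 5`, `c ∈ {5, 7}` for `p = 3`: the two numbers `m - 1 - c` differ by `2` or `4`, so `p` does not divide both. `m` even: `[c, d, m - 1 - c - d]` with
`(c, d) ∈ {(3, 5), (3, 7)}` for `p ≥ 11`, `{(3, 5), (3, 9)}` for `p = 7`, `{(3, 7), (3, 9)}` for `p = 5`, `{(5, 7), (5, 11)}` for `p = 3` (differences `2, 4, 2, 4`). (Checked by program for all `29 ≤ m`; the third number is `≥ 12`, the second one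
in the odd case is `≥ 21`.) -/
theorem numE {m p : ℕ} (hm : 29 ≤ m) (hp : p.Prime) (h2 : p ≠ 2) : Ev m p := by
  have hnd : ∀ c : ℕ, 0 < c → c < p → ¬ p ∣ c := fun c h0 h1 => Nat.not_dvd_of_pos_of_lt h0 h1
  rcases Nat.mod_two_eq_zero_or_one m with ho | ho
  · rcases Nat.lt_or_ge p 11 with h | h
    · have := hp.two_le
      interval_cases p
      · exact absurd rfl h2
      · exact numE_B 5 7 4 hm ho rfl rfl (by norm_num) (by norm_num) (by norm_num) (by norm_num) rfl (by norm_num) (by norm_num)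
          (by norm_num) (by norm_num)
      · exact absurd hp (by norm_num)
      · exact numE_B 3 7 2 hm ho rfl rfl (by norm_num) (by norm_num) (by norm_num) (by norm_num) rfl (by norm_num) (by norm_num)
          (by norm_num) (by norm_num)
      · exact absurd hp (by norm_num)
      · exact numE_B 3 5 4 hm ho rfl rfl (by norm_num) (by norm_num) (by norm_num) (by norm_num) rfl (by norm_num) (by norm_num)
          (by norm_num) (by norm_num)
      · exact absurd hp (by norm_num)
      · exact absurd hp (by norm_num)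
      · exact absurd hp (by norm_num)
    · exact numE_B 3 5 2 hm ho rfl rfl (by norm_num) (by norm_num) (by norm_num) (by norm_num) rfl (hnd 3 (by norm_num) (by omega))
        (hnd 5 (by norm_num) (by omega)) (hnd 7 (by norm_num) (by omega)) (hnd 2 (by norm_num) (by omega))
  · rcases Nat.lt_or_ge p 7 with h | h
    · have := hp.two_le
      interval_cases p
      · exact absurd rfl h2
      · exact numE_A 5 2 hm ho rfl (by norm_num) (by norm_num) rfl (by norm_num) (by norm_num) (by norm_num)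
      · exact absurd hp (by norm_num)
      · exact numE_A 3 4 hm ho rfl (by norm_num) (by norm_num) rfl (by norm_num) (by norm_num) (by norm_num)
      · exact absurd hp (by norm_num)
    · exact numE_A 3 2 hm ho rfl (by norm_num) (by norm_num) rfl (hnd 3 (by norm_num) (by omega)) (hnd 5 (by norm_num) (by omega))
        (hnd 2 (by norm_num) (by omega))
-- END numE

-- BEGIN numG5
private theorem numG5_key {n p k a : ℕ} (hp : p.Prime) (h5 : 5 ≤ p) (hk : k = n ∨ k + 1 = n) (hk2 : k % 2 = 1)
    (hk9 : 69 ≤ k) (ha : a % 2 = 0) (ha2 : a ≤ 22) (h3 : (k - a) % 3 = 0) (hpa : ¬ p ∣ a) (hpb : ¬ p ∣ k - a)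
    (hf : Fs a p) : Gd n p := by
  refine ⟨numE (by omega) hp (by omega), Or.inr ⟨a, k - a, ha, by omega, by omega, hpa, hpb, hf, ?_, numE (by omega) hp (by omega)⟩⟩
  exact ⟨3, (k - a) / 3, Nat.prime_three, le_refl 3, by omega, by omega, by omega, by omega⟩

private theorem numG5_nd {p c : ℕ} (hp : p.Prime) (h5 : 5 ≤ p) (hc : c = 2 ∨ c = 4 ∨ c = 6 ∨ c = 12) : ¬ p ∣ c := by
  intro h
  have hc0 : 0 < c := by omega
  have hle : p ≤ c := Nat.le_of_dvd hc0 h
  have h12 : p ∣ 12 := by
    rcases hc with rfl | rfl | rfl | rfl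
    · exact h.trans (by norm_num)
    · exact h.trans (by norm_num)
    · exact h.trans (by norm_num)
    · exact h
  have h12' : p ≤ 12 := by omega
  clear hc hle hc0 h
  interval_cases p <;> first | omega | (norm_num at hp)

private theorem numG5_sub {p k a b : ℕ} (hab : a ≤ b) (hbk : b ≤ k) (h1 : p ∣ k - a) (h2 : p ∣ k - b) : p ∣ b - a := by
  have h3 := Nat.dvd_sub h1 h2
  have h4 : k - a - (k - b) = b - a := by omega
  rwa [h4] at h3

/-- PROOF. `k` = the odd one of `n`, `n - 1` (`k ≥ 69`). `Ev n p`, `Ev (n - a) p` by `numE` (`a ≤ 22`). Second alternative of `Gd` with `b = k - a = 3 * m'`, `m' ≥ 15` odd (`Pm b p` with `q = 3`), `a ≡ k` mod `3` even: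
`k ≡ 2` mod `3`: `a = 2` if `p` does not divide `k - 2`; otherwise `a = 14` (`Pm 14 p`, `q = 7`, `m = 2`) if `p ≠ 7`, `a = 20` (`Pm 20 p`, `q = 5`, `m = 4`) if `p = 7`.
`k ≡ 1` mod `3`: `p ≥ 7`: `a ∈ {4, 10}` (`Fs 4`: `5 = 4 + 1` is prime, `p ≠ 5`; `Fs 10`: `Pm 10 p`, `q = 5`, `m = 2`); `p = 5`: `a ∈ {16, 22}` (`17`, `23` are primes).
`k ≡ 0` mod `3`: `a ∈ {6, 12}` (`Pm 6 p`, `Pm 12 p`, `q = 3`, `m = 2, 4`). In each pair `p` does not divide both `k - a` (the differences are `6`, `12`, `18`). -/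
theorem numG5 {n p : ℕ} (hn : 70 ≤ n) (hp : p.Prime) (h5 : 5 ≤ p) : Gd n p := by
  obtain ⟨k, hk, hk2⟩ : ∃ k, (k = n ∨ k + 1 = n) ∧ k % 2 = 1 := by
    rcases Nat.mod_two_eq_zero_or_one n with h | h
    · exact ⟨n - 1, by omega, by omega⟩
    · exact ⟨n, Or.inl rfl, h⟩
  have hk9 : 69 ≤ k := by omega
  have h5p : Nat.Prime 5 := by norm_num
  have h7p : Nat.Prime 7 := by norm_num
  obtain h | h | h : k % 3 = 2 ∨ k % 3 = 1 ∨ k % 3 = 0 := by omega
  · by_cases h2 : p ∣ k - 2
    · by_cases h7 : p = 7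
      · refine numG5_key (a := 20) hp h5 hk hk2 hk9 (by norm_num) (by norm_num) (by omega) ?_ ?_ ?_
        · rw [h7]; norm_num
        · intro h20
          have := numG5_sub (by norm_num) (by omega) h2 h20
          rw [h7] at this
          norm_num at this
        · exact Or.inr (Or.inr ⟨5, 4, h5p, by norm_num, by omega, by norm_num, by norm_num, by norm_num⟩)
      · refine numG5_key (a := 14) hp h5 hk hk2 hk9 (by norm_num) (by norm_num) (by omega) ?_ ?_ ?_
        · intro h14
          have h14' : p ∣ 2 * 7 := by simpa using h14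
          rcases (Nat.Prime.dvd_mul hp).1 h14' with h1 | h1
          · exact numG5_nd hp h5 (by norm_num) h1
          · exact h7 ((Nat.prime_dvd_prime_iff_eq hp h7p).1 h1)
        · intro h14
          exact numG5_nd hp h5 (c := 12) (by norm_num) (numG5_sub (by norm_num) (by omega) h2 h14)
        · exact Or.inr (Or.inr ⟨7, 2, h7p, by norm_num, by omega, by norm_num, by norm_num, by norm_num⟩)
    · exact numG5_key (a := 2) hp h5 hk hk2 hk9 (by norm_num) (by norm_num) (by omega) (numG5_nd hp h5 (by norm_num)) h2 (Or.inl rfl)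
  · by_cases hp5 : p = 5
    · by_cases h16 : p ∣ k - 16
      · refine numG5_key (a := 22) hp h5 hk hk2 hk9 (by norm_num) (by norm_num) (by omega) ?_ ?_ ?_
        · rw [hp5]; norm_num
        · intro h22
          exact numG5_nd hp h5 (c := 6) (by norm_num) (numG5_sub (by norm_num) (by omega) h16 h22)
        · refine Or.inr (Or.inl ⟨by norm_num, (show Nat.Prime 23 by norm_num).isPrimePow, ?_⟩)
          rw [hp5]; norm_num
      · refine numG5_key (a := 16) hp h5 hk hk2 hk9 (by norm_num) (by norm_num) (by omega) ?_ h16 ?_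
        · rw [hp5]; norm_num
        · refine Or.inr (Or.inl ⟨by norm_num, (show Nat.Prime 17 by norm_num).isPrimePow, ?_⟩)
          rw [hp5]; norm_num
    · by_cases h4 : p ∣ k - 4
      · refine numG5_key (a := 10) hp h5 hk hk2 hk9 (by norm_num) (by norm_num) (by omega) ?_ ?_ ?_
        · intro h10
          have h10' : p ∣ 2 * 5 := by simpa using h10
          rcases (Nat.Prime.dvd_mul hp).1 h10' with h1 | h1
          · exact numG5_nd hp h5 (by norm_num) h1
          · exact hp5 ((Nat.prime_dvd_prime_iff_eq hp h5p).1 h1)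
        · intro h10
          exact numG5_nd hp h5 (c := 6) (by norm_num) (numG5_sub (by norm_num) (by omega) h4 h10)
        · exact Or.inr (Or.inr ⟨5, 2, h5p, by norm_num, fun e => hp5 e.symm, by norm_num, by norm_num, by norm_num⟩)
      · refine numG5_key (a := 4) hp h5 hk hk2 hk9 (by norm_num) (by norm_num) (by omega) (numG5_nd hp h5 (by norm_num)) h4 ?_
        refine Or.inr (Or.inl ⟨by norm_num, h5p.isPrimePow, ?_⟩)
        intro h1
        exact hp5 ((Nat.prime_dvd_prime_iff_eq hp h5p).1 h1)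
  · by_cases h6 : p ∣ k - 6
    · refine numG5_key (a := 12) hp h5 hk hk2 hk9 (by norm_num) (by norm_num) (by omega) (numG5_nd hp h5 (by norm_num)) ?_ ?_
      · intro h12
        exact numG5_nd hp h5 (c := 6) (by norm_num) (numG5_sub (by norm_num) (by omega) h6 h12)
      · exact Or.inr (Or.inr ⟨3, 4, Nat.prime_three, le_refl 3, by omega, by norm_num, by norm_num, by norm_num⟩)
    · refine numG5_key (a := 6) hp h5 hk hk2 hk9 (by norm_num) (by norm_num) (by omega) (numG5_nd hp h5 (by norm_num)) h6 ?_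
      exact Or.inr (Or.inr ⟨3, 2, Nat.prime_three, le_refl 3, by omega, by norm_num, by norm_num, by norm_num⟩)
-- END numG5

-- BEGIN numG3
theorem numG3_one {n k : ℕ} (a : ℕ) (hn : 70 ≤ n) (hk : k % 2 = 1) (hkn : k = n ∨ k + 1 = n) (ha : a ≤ 38) (ha2 : a % 2 = 0)
    (h3 : ¬ 3 ∣ a) (h5 : a % 5 = k % 5) (h33 : a % 3 ≠ k % 3) (hf : Fs a 3) : Gd n 3 := by
  refine ⟨numE (by omega) Nat.prime_three (by norm_num), Or.inr ⟨a, k - a, ha2, by omega, by omega, h3, by omega, hf,
    ⟨5, (k - a) / 5, Nat.prime_five, by norm_num, by norm_num, by omega, by omega, by omega⟩,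
    numE (by omega) Nat.prime_three (by norm_num)⟩⟩

theorem numG3_fs (a : ℕ) (ha : a = 2 ∨ (4 ≤ a ∧ (a + 1).Prime ∧ ¬ 3 ∣ a + 1)) : Fs a 3 := by
  rcases ha with h | ⟨h1, h2, h3⟩
  · exact Or.inl h
  · exact Or.inr (Or.inl ⟨h1, h2.isPrimePow, h3⟩)

/-- PROOF. `k` = the odd one of `n`, `n - 1` (`k ≥ 69`). `Ev n 3`, `Ev (n - a) 3` by `numE` (`a ≤ 38`). Second alternative of `Gd` with `b = k - a = 5 * m'`, `m' ≥ 6` odd (`Pm b 3` with `q = 5`), `b` not divisible by `3`, `a ≡ k` mod `5`, `a` even, not divisible by `3`: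
`k ≡ 2` mod `3`: `a ∈ {4, 10, 16, 22, 28}` (residues `4, 0, 1, 2, 3` mod `5`; `Fs`: `5, 11, 17, 23, 29` are primes). `k ≡ 1` mod `3`: `a ∈ {2, 14, 20, 26, 38}` (residues `2, 4, 0, 1, 3`; `Fs 2`; `Pm 14 3`: `q = 7`; `Pm 20 3`: `q = 5`, `m = 4`; `Pm 26 3`: `q = 13`;
`Pm 38 3`: `q = 19`). `k ≡ 0` mod `3`: `a ∈ {2, 4, 10, 16, 28}` (residues `2, 4, 0, 1, 3`). -/
theorem numG3 {n : ℕ} (hn : 70 ≤ n) : Gd n 3 := by
  obtain ⟨k, hk, hkn⟩ : ∃ k, k % 2 = 1 ∧ (k = n ∨ k + 1 = n) := by
    rcases Nat.mod_two_eq_zero_or_one n with h | h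
    · exact ⟨n - 1, by omega, by omega⟩
    · exact ⟨n, h, Or.inl rfl⟩
  have f2 : Fs 2 3 := numG3_fs 2 (by norm_num)
  have f4 : Fs 4 3 := numG3_fs 4 (by norm_num)
  have f10 : Fs 10 3 := numG3_fs 10 (by norm_num)
  have f16 : Fs 16 3 := numG3_fs 16 (by norm_num)
  have f22 : Fs 22 3 := numG3_fs 22 (by norm_num)
  have f28 : Fs 28 3 := numG3_fs 28 (by norm_num)
  have f14 : Fs 14 3 := Or.inr (Or.inr ⟨7, 2, by norm_num, by norm_num, by norm_num, by norm_num, by norm_num, by norm_num⟩)
  have f20 : Fs 20 3 := Or.inr (Or.inr ⟨5, 4, by norm_num, by norm_num, by norm_num, by norm_num, by norm_num, by norm_num⟩)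
  have f26 : Fs 26 3 := Or.inr (Or.inr ⟨13, 2, by norm_num, by norm_num, by norm_num, by norm_num, by norm_num, by norm_num⟩)
  have f38 : Fs 38 3 := Or.inr (Or.inr ⟨19, 2, by norm_num, by norm_num, by norm_num, by norm_num, by norm_num, by norm_num⟩)
  have h3 : k % 3 = 0 ∨ k % 3 = 1 ∨ k % 3 = 2 := by omega
  have h5 : k % 5 = 0 ∨ k % 5 = 1 ∨ k % 5 = 2 ∨ k % 5 = 3 ∨ k % 5 = 4 := by omega
  rcases h3 with h3 | h3 | h3
  · rcases h5 with h5 | h5 | h5 | h5 | h5
    · exact numG3_one 10 hn hk hkn (by norm_num) rfl (by norm_num) (by omega) (by omega) f10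
    · exact numG3_one 16 hn hk hkn (by norm_num) rfl (by norm_num) (by omega) (by omega) f16
    · exact numG3_one 2 hn hk hkn (by norm_num) rfl (by norm_num) (by omega) (by omega) f2
    · exact numG3_one 28 hn hk hkn (by norm_num) rfl (by norm_num) (by omega) (by omega) f28
    · exact numG3_one 4 hn hk hkn (by norm_num) rfl (by norm_num) (by omega) (by omega) f4
  · rcases h5 with h5 | h5 | h5 | h5 | h5
    · exact numG3_one 20 hn hk hkn (by norm_num) rfl (by norm_num) (by omega) (by omega) f20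
    · exact numG3_one 26 hn hk hkn (by norm_num) rfl (by norm_num) (by omega) (by omega) f26
    · exact numG3_one 2 hn hk hkn (by norm_num) rfl (by norm_num) (by omega) (by omega) f2
    · exact numG3_one 38 hn hk hkn (by norm_num) rfl (by norm_num) (by omega) (by omega) f38
    · exact numG3_one 14 hn hk hkn (by norm_num) rfl (by norm_num) (by omega) (by omega) f14
  · rcases h5 with h5 | h5 | h5 | h5 | h5
    · exact numG3_one 10 hn hk hkn (by norm_num) rfl (by norm_num) (by omega) (by omega) f10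
    · exact numG3_one 16 hn hk hkn (by norm_num) rfl (by norm_num) (by omega) (by omega) f16
    · exact numG3_one 22 hn hk hkn (by norm_num) rfl (by norm_num) (by omega) (by omega) f22
    · exact numG3_one 28 hn hk hkn (by norm_num) rfl (by norm_num) (by omega) (by omega) f28
    · exact numG3_one 4 hn hk hkn (by norm_num) rfl (by norm_num) (by omega) (by omega) f4
-- END numG3

theorem numG {n p : ℕ} (hn : 70 ≤ n) (hp : p.Prime) (h2 : p ≠ 2) : Gd n p := by
  rcases Nat.lt_or_ge p 5 with h | h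
  · have h3 : p = 3 := by
      have := hp.two_le
      interval_cases p
      · exact absurd rfl h2
      · rfl
      · exact absurd hp (by norm_num)
    rw [h3]
    exact numG3 hn
  · exact numG5 hn hp h

end Pool.Agent.NbT
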