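import Pool.Agent.NbT.Sml

/-!
# The small degrees
-/

set_option autoImplicit false
set_option linter.unusedVariables false

namespace Pool.Agent.NbT

open Equiv Pool.Agent.NbS

theorem no5_5 : NoOdd 5 5 := by
  intro V _ ρ hV hD hE v
  by_contra hv
  have hne : ∃ v : V, v ≠ 0 := ⟨v, hv⟩
  have h0 : FxT ρ 0 := R0 hv
  have hp : Nat.Prime 5 := by norm_num
  exact RE hp hV hE (f := 0) [5] 1 5 5 (by decide) ⟨by decide, by decide, by decide⟩ (by
      intro a ha t ht hta
      simp only [List.mem_cons, List.not_mem_nil, or_false] at ha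
      rcases ha with rfl
      · exact dv3 (i := 0) (j := 1) (k := 0) (by norm_num) (by norm_num) (by norm_num) ht hta) (by decide) h0

theorem no5 {p : ℕ} (hp : p.Prime) (h2 : p ≠ 2) : NoOdd 5 p := by
  by_cases h5 : p = 5
  · rw [h5]; exact no5_5
  have d2 : ¬ p ∣ 2 := ndv1 hp (by norm_num) h2
  have d5 : ¬ p ∣ 5 := ndv1 hp (by norm_num) h5
  have e4 : ¬ p ∣ 4 := (ndvm hp d2 d2)
  have e5 : ¬ p ∣ 5 := d5
  intro V _ ρ hV hD hE v
  by_contra hv
  have hne : ∃ v : V, v ≠ 0 := ⟨v, hv⟩
  have h0 : FxT ρ 0 := R0 hv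
  rcases mM (ρ := ρ) hp hV hne 5 (Nat.Prime.isPrimePow (by norm_num)) (by norm_num) e5 (by norm_num) (by norm_num) with h1 | h1
  · exact RD hD (f := 1) [4] (by decide) ⟨by decide, by decide, by decide, by decide⟩ (by intro x hx; simp only [List.mem_cons, List.not_mem_nil, or_false] at hx; rcases hx with rfl <;> assumption) (by decide) h1
  · have h3 := (altfx h1 ({5} : Multiset ℕ) (by decide) (by decide) (by decide))
    exact RD hD (f := 0) [5] (by decide) ⟨by decide, by decide, by decide, by decide⟩ (by intro x hx; simp only [List.mem_cons, List.not_mem_nil, or_false] at hx; rcases hx with rfl <;> assumption) (by decide) h3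


theorem no7_3 : NoOdd 7 3 := by
  intro V _ ρ hV hD hE v
  by_contra hv
  have hne : ∃ v : V, v ≠ 0 := ⟨v, hv⟩
  have h0 : FxT ρ 0 := R0 hv
  have hp : Nat.Prime 3 := by norm_num
  rcases mM (ρ := ρ) hp hV hne 5 (Nat.Prime.isPrimePow (by norm_num)) (by norm_num) (by decide) (by norm_num) (by norm_num) with h1 | h1
  · exact RE hp hV hE (f := 0) [4, 3] 1 3 3 (by decide) ⟨by decide, by decide, by decide⟩ (by
        intro a ha t ht hta
        simp only [List.mem_cons, List.not_mem_nil, or_false] at ha
        rcases ha with rfl | rfl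
        · exact dv3 (i := 2) (j := 0) (k := 0) (by norm_num) (by norm_num) (by norm_num) ht hta
        · exact dv3 (i := 0) (j := 1) (k := 0) (by norm_num) (by norm_num) (by norm_num) ht hta) (by decide) h1
  · have h3 := (altfx h1 ({7} : Multiset ℕ) (by decide) (by decide) (by decide))
    exact RD hD (f := 0) [7] (by decide) ⟨by decide, by decide, by decide, by decide⟩ (by decide) (by decide) h3

theorem no7_7 : NoOdd 7 7 := by
  intro V _ ρ hV hD hE v
  by_contra hv
  have hne : ∃ v : V, v ≠ 0 := ⟨v, hv⟩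
  have h0 : FxT ρ 0 := R0 hv
  have hp : Nat.Prime 7 := by norm_num
  exact RE hp hV hE (f := 0) [7] 1 7 7 (by decide) ⟨by decide, by decide, by decide⟩ (by
      intro a ha t ht hta
      simp only [List.mem_cons, List.not_mem_nil, or_false] at ha
      rcases ha with rfl
      · exact dv3 (i := 0) (j := 1) (k := 0) (by norm_num) (by norm_num) (by norm_num) ht hta) (by decide) h0

theorem no7 {p : ℕ} (hp : p.Prime) (h2 : p ≠ 2) : NoOdd 7 p := by
  by_cases h3 : p = 3
  · rw [h3]; exact no7_3
  by_cases h7 : p = 7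
  · rw [h7]; exact no7_7
  have d2 : ¬ p ∣ 2 := ndv1 hp (by norm_num) h2
  have d3 : ¬ p ∣ 3 := ndv1 hp (by norm_num) h3
  have d7 : ¬ p ∣ 7 := ndv1 hp (by norm_num) h7
  have e6 : ¬ p ∣ 6 := (ndvm hp d2 d3)
  have e7 : ¬ p ∣ 7 := d7
  intro V _ ρ hV hD hE v
  by_contra hv
  have hne : ∃ v : V, v ≠ 0 := ⟨v, hv⟩
  have h0 : FxT ρ 0 := R0 hv
  rcases mM (ρ := ρ) hp hV hne 7 (Nat.Prime.isPrimePow (by norm_num)) (by norm_num) e7 (by norm_num) (by norm_num) with h1 | h1
  · exact RD hD (f := 1) [6] (by decide) ⟨by decide, by decide, by decide, by decide⟩ (by intro x hx; simp only [List.mem_cons, List.not_mem_nil, or_false] at hx; rcases hx with rfl <;> assumption) (by decide) h1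
  · have h3 := (altfx h1 ({7} : Multiset ℕ) (by decide) (by decide) (by decide))
    exact RD hD (f := 0) [7] (by decide) ⟨by decide, by decide, by decide, by decide⟩ (by intro x hx; simp only [List.mem_cons, List.not_mem_nil, or_false] at hx; rcases hx with rfl <;> assumption) (by decide) h3


theorem no9_3 : NoOdd 9 3 := by
  intro V _ ρ hV hD hE v
  by_contra hv
  have hne : ∃ v : V, v ≠ 0 := ⟨v, hv⟩
  have h0 : FxT ρ 0 := R0 hv
  have hp : Nat.Prime 3 := by norm_num
  exact RE hp hV hE (f := 0) [9] 2 3 3 (by decide) ⟨by decide, by decide, by decide⟩ (by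
      intro a ha t ht hta
      simp only [List.mem_cons, List.not_mem_nil, or_false] at ha
      rcases ha with rfl
      · exact dv3 (i := 0) (j := 2) (k := 0) (by norm_num) (by norm_num) (by norm_num) ht hta) (by decide) h0

theorem no9 {p : ℕ} (hp : p.Prime) (h2 : p ≠ 2) : NoOdd 9 p := by
  by_cases h3 : p = 3
  · rw [h3]; exact no9_3
  have d2 : ¬ p ∣ 2 := ndv1 hp (by norm_num) h2
  have d3 : ¬ p ∣ 3 := ndv1 hp (by norm_num) h3
  have e8 : ¬ p ∣ 8 := (ndvm hp (ndvm hp d2 d2) d2)
  have e9 : ¬ p ∣ 9 := (ndvm hp d3 d3)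
  intro V _ ρ hV hD hE v
  by_contra hv
  have hne : ∃ v : V, v ≠ 0 := ⟨v, hv⟩
  have h0 : FxT ρ 0 := R0 hv
  rcases mM (ρ := ρ) hp hV hne 9 (by rw [show (9 : ℕ) = 3 ^ 2 by norm_num]; exact (Nat.Prime.isPrimePow (by norm_num)).pow (by norm_num)) (by norm_num) e9 (by norm_num) (by norm_num) with h1 | h1
  · exact RD hD (f := 1) [8] (by decide) ⟨by decide, by decide, by decide, by decide⟩ (by intro x hx; simp only [List.mem_cons, List.not_mem_nil, or_false] at hx; rcases hx with rfl <;> assumption) (by decide) h1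
  · have h3 := (altfx h1 ({9} : Multiset ℕ) (by decide) (by decide) (by decide))
    exact RD hD (f := 0) [9] (by decide) ⟨by decide, by decide, by decide, by decide⟩ (by intro x hx; simp only [List.mem_cons, List.not_mem_nil, or_false] at hx; rcases hx with rfl <;> assumption) (by decide) h3


theorem no10_3 : NoOdd 10 3 := by
  intro V _ ρ hV hD hE v
  by_contra hv
  have hne : ∃ v : V, v ≠ 0 := ⟨v, hv⟩
  have h0 : FxT ρ 0 := R0 hv
  have hp : Nat.Prime 3 := by norm_num
  exact RE hp hV hE (f := 1) [9] 2 3 3 (by decide) ⟨by decide, by decide, by decide⟩ (by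
      intro a ha t ht hta
      simp only [List.mem_cons, List.not_mem_nil, or_false] at ha
      rcases ha with rfl
      · exact dv3 (i := 0) (j := 2) (k := 0) (by norm_num) (by norm_num) (by norm_num) ht hta) (by decide) h0

theorem no10_5 : NoOdd 10 5 := by
  intro V _ ρ hV hD hE v
  by_contra hv
  have hne : ∃ v : V, v ≠ 0 := ⟨v, hv⟩
  have h0 : FxT ρ 0 := R0 hv
  have hp : Nat.Prime 5 := by norm_num
  rcases mT (ρ := ρ) hne with h1 | h1
  · obtain ⟨U, _, ρ', hU, hneU, hl⟩ := lift (k := 8) hV h1 (by decide)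
    rcases mM (ρ := ρ') hp hU hneU 4 (by rw [show (4 : ℕ) = 2 ^ 2 by norm_num]; exact (Nat.Prime.isPrimePow (by norm_num)).pow (by norm_num)) (by norm_num) (by decide) (by norm_num) (by norm_num) with h1 | h1
    · have h2 := hl _ h1
      exact RE hp hV hE (f := 0) [5, 3, 2] 1 3 5 (by decide) ⟨by decide, by decide, by decide⟩ (by
          intro a ha t ht hta
          simp only [List.mem_cons, List.not_mem_nil, or_false] at ha
          rcases ha with rfl | rfl | rfl
          · exact dv3 (i := 0) (j := 0) (k := 1) (by norm_num) (by norm_num) (by norm_num) ht hta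
          · exact dv3 (i := 0) (j := 1) (k := 0) (by norm_num) (by norm_num) (by norm_num) ht hta
          · exact dv3 (i := 1) (j := 0) (k := 0) (by norm_num) (by norm_num) (by norm_num) ht hta) (by decide) h2
    · have h3 := (hl _ (altfx h1 ({7} : Multiset ℕ) (by decide) (by decide) (by decide)))
      exact RD hD (f := 1) [7, 2] (by decide) ⟨by decide, by decide, by decide, by decide⟩ (by decide) (by decide) h3
  · have h3 := (altfx h1 ({7, 3} : Multiset ℕ) (by decide) (by decide) (by decide))
    exact RD hD (f := 0) [7, 3] (by decide) ⟨by decide, by decide, by decide, by decide⟩ (by decide) (by decide) h3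

theorem no10_7 : NoOdd 10 7 := by
  intro V _ ρ hV hD hE v
  by_contra hv
  have hne : ∃ v : V, v ≠ 0 := ⟨v, hv⟩
  have h0 : FxT ρ 0 := R0 hv
  have hp : Nat.Prime 7 := by norm_num
  rcases mT (ρ := ρ) hne with h1 | h1
  · exact RE hp hV hE (f := 1) [7, 2] 1 7 7 (by decide) ⟨by decide, by decide, by decide⟩ (by
        intro a ha t ht hta
        simp only [List.mem_cons, List.not_mem_nil, or_false] at ha
        rcases ha with rfl | rfl
        · exact dv3 (i := 0) (j := 1) (k := 0) (by norm_num) (by norm_num) (by norm_num) ht hta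
        · exact dv3 (i := 1) (j := 0) (k := 0) (by norm_num) (by norm_num) (by norm_num) ht hta) (by decide) h1
  · have h3 := (altfx h1 ({9} : Multiset ℕ) (by decide) (by decide) (by decide))
    exact RD hD (f := 1) [9] (by decide) ⟨by decide, by decide, by decide, by decide⟩ (by decide) (by decide) h3

theorem no10 {p : ℕ} (hp : p.Prime) (h2 : p ≠ 2) : NoOdd 10 p := by
  by_cases h3 : p = 3
  · rw [h3]; exact no10_3
  by_cases h5 : p = 5
  · rw [h5]; exact no10_5
  by_cases h7 : p = 7
  · rw [h7]; exact no10_7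
  have d2 : ¬ p ∣ 2 := ndv1 hp (by norm_num) h2
  have d3 : ¬ p ∣ 3 := ndv1 hp (by norm_num) h3
  have d5 : ¬ p ∣ 5 := ndv1 hp (by norm_num) h5
  have d7 : ¬ p ∣ 7 := ndv1 hp (by norm_num) h7
  have e2 : ¬ p ∣ 2 := d2
  have e3 : ¬ p ∣ 3 := d3
  have e5 : ¬ p ∣ 5 := d5
  have e7 : ¬ p ∣ 7 := d7
  have e8 : ¬ p ∣ 8 := (ndvm hp (ndvm hp d2 d2) d2)
  intro V _ ρ hV hD hE v
  by_contra hv
  have hne : ∃ v : V, v ≠ 0 := ⟨v, hv⟩
  have h0 : FxT ρ 0 := R0 hv
  rcases mT (ρ := ρ) hne with h1 | h1
  · obtain ⟨U, _, ρ', hU, hneU, hl⟩ := lift (k := 8) hV h1 (by decide)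
    rcases mM (ρ := ρ') hp hU hneU 8 (by rw [show (8 : ℕ) = 2 ^ 3 by norm_num]; exact (Nat.Prime.isPrimePow (by norm_num)).pow (by norm_num)) (by norm_num) e8 (by norm_num) (by norm_num) with h1 | h1
    · have h2 := hl _ h1
      exact RD hD (f := 1) [7, 2] (by decide) ⟨by decide, by decide, by decide, by decide⟩ (by intro x hx; simp only [List.mem_cons, List.not_mem_nil, or_false] at hx; rcases hx with rfl | rfl <;> assumption) (by decide) h2
    · have h3 := (hl _ (altfx h1 ({5, 3} : Multiset ℕ) (by decide) (by decide) (by decide)))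
      exact RD hD (f := 0) [5, 3, 2] (by decide) ⟨by decide, by decide, by decide, by decide⟩ (by intro x hx; simp only [List.mem_cons, List.not_mem_nil, or_false] at hx; rcases hx with rfl | rfl | rfl <;> assumption) (by decide) h3
  · have h3 := (altfx h1 ({7, 3} : Multiset ℕ) (by decide) (by decide) (by decide))
    exact RD hD (f := 0) [7, 3] (by decide) ⟨by decide, by decide, by decide, by decide⟩ (by intro x hx; simp only [List.mem_cons, List.not_mem_nil, or_false] at hx; rcases hx with rfl | rfl <;> assumption) (by decide) h3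


theorem no13_3 : NoOdd 13 3 := by
  intro V _ ρ hV hD hE v
  by_contra hv
  have hne : ∃ v : V, v ≠ 0 := ⟨v, hv⟩
  have h0 : FxT ρ 0 := R0 hv
  have hp : Nat.Prime 3 := by norm_num
  rcases mM (ρ := ρ) hp hV hne 5 (Nat.Prime.isPrimePow (by norm_num)) (by norm_num) (by decide) (by norm_num) (by norm_num) with h1 | h1
  · exact RE hp hV hE (f := 0) [9, 4] 2 3 3 (by decide) ⟨by decide, by decide, by decide⟩ (by
        intro a ha t ht hta
        simp only [List.mem_cons, List.not_mem_nil, or_false] at ha
        rcases ha with rfl | rfl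
        · exact dv3 (i := 0) (j := 2) (k := 0) (by norm_num) (by norm_num) (by norm_num) ht hta
        · exact dv3 (i := 2) (j := 0) (k := 0) (by norm_num) (by norm_num) (by norm_num) ht hta) (by decide) h1
  · have h3 := (altfx h1 ({13} : Multiset ℕ) (by decide) (by decide) (by decide))
    exact RD hD (f := 0) [13] (by decide) ⟨by decide, by decide, by decide, by decide⟩ (by decide) (by decide) h3

theorem no13_13 : NoOdd 13 13 := by
  intro V _ ρ hV hD hE v
  by_contra hv
  have hne : ∃ v : V, v ≠ 0 := ⟨v, hv⟩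
  have h0 : FxT ρ 0 := R0 hv
  have hp : Nat.Prime 13 := by norm_num
  exact RE hp hV hE (f := 0) [13] 1 13 13 (by decide) ⟨by decide, by decide, by decide⟩ (by
      intro a ha t ht hta
      simp only [List.mem_cons, List.not_mem_nil, or_false] at ha
      rcases ha with rfl
      · exact dv3 (i := 0) (j := 1) (k := 0) (by norm_num) (by norm_num) (by norm_num) ht hta) (by decide) h0

theorem no13 {p : ℕ} (hp : p.Prime) (h2 : p ≠ 2) : NoOdd 13 p := by
  by_cases h3 : p = 3
  · rw [h3]; exact no13_3
  by_cases h13 : p = 13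
  · rw [h13]; exact no13_13
  have d2 : ¬ p ∣ 2 := ndv1 hp (by norm_num) h2
  have d3 : ¬ p ∣ 3 := ndv1 hp (by norm_num) h3
  have d13 : ¬ p ∣ 13 := ndv1 hp (by norm_num) h13
  have e12 : ¬ p ∣ 12 := (ndvm hp (ndvm hp d2 d2) d3)
  have e13 : ¬ p ∣ 13 := d13
  intro V _ ρ hV hD hE v
  by_contra hv
  have hne : ∃ v : V, v ≠ 0 := ⟨v, hv⟩
  have h0 : FxT ρ 0 := R0 hv
  rcases mM (ρ := ρ) hp hV hne 13 (Nat.Prime.isPrimePow (by norm_num)) (by norm_num) e13 (by norm_num) (by norm_num) with h1 | h1
  · exact RD hD (f := 1) [12] (by decide) ⟨by decide, by decide, by decide, by decide⟩ (by intro x hx; simp only [List.mem_cons, List.not_mem_nil, or_false] at hx; rcases hx with rfl <;> assumption) (by decide) h1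
  · have h3 := (altfx h1 ({13} : Multiset ℕ) (by decide) (by decide) (by decide))
    exact RD hD (f := 0) [13] (by decide) ⟨by decide, by decide, by decide, by decide⟩ (by intro x hx; simp only [List.mem_cons, List.not_mem_nil, or_false] at hx; rcases hx with rfl <;> assumption) (by decide) h3


theorem no14_3 : NoOdd 14 3 := by
  intro V _ ρ hV hD hE v
  by_contra hv
  have hne : ∃ v : V, v ≠ 0 := ⟨v, hv⟩
  have h0 : FxT ρ 0 := R0 hv
  have hp : Nat.Prime 3 := by norm_num
  rcases mM (ρ := ρ) hp hV hne 5 (Nat.Prime.isPrimePow (by norm_num)) (by norm_num) (by decide) (by norm_num) (by norm_num) with h1 | h1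
  · exact RE hp hV hE (f := 1) [9, 4] 2 3 3 (by decide) ⟨by decide, by decide, by decide⟩ (by
        intro a ha t ht hta
        simp only [List.mem_cons, List.not_mem_nil, or_false] at ha
        rcases ha with rfl | rfl
        · exact dv3 (i := 0) (j := 2) (k := 0) (by norm_num) (by norm_num) (by norm_num) ht hta
        · exact dv3 (i := 2) (j := 0) (k := 0) (by norm_num) (by norm_num) (by norm_num) ht hta) (by decide) h1
  · have h3 := (altfx h1 ({13} : Multiset ℕ) (by decide) (by decide) (by decide))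
    exact RD hD (f := 1) [13] (by decide) ⟨by decide, by decide, by decide, by decide⟩ (by decide) (by decide) h3

theorem no14_5 : NoOdd 14 5 := by
  intro V _ ρ hV hD hE v
  by_contra hv
  have hne : ∃ v : V, v ≠ 0 := ⟨v, hv⟩
  have h0 : FxT ρ 0 := R0 hv
  have hp : Nat.Prime 5 := by norm_num
  rcases mM (ρ := ρ) hp hV hne 9 (by rw [show (9 : ℕ) = 3 ^ 2 by norm_num]; exact (Nat.Prime.isPrimePow (by norm_num)).pow (by norm_num)) (by norm_num) (by decide) (by norm_num) (by norm_num) with h1 | h1
  · exact RE hp hV hE (f := 1) [8, 5] 1 5 5 (by decide) ⟨by decide, by decide, by decide⟩ (by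
        intro a ha t ht hta
        simp only [List.mem_cons, List.not_mem_nil, or_false] at ha
        rcases ha with rfl | rfl
        · exact dv3 (i := 3) (j := 0) (k := 0) (by norm_num) (by norm_num) (by norm_num) ht hta
        · exact dv3 (i := 0) (j := 1) (k := 0) (by norm_num) (by norm_num) (by norm_num) ht hta) (by decide) h1
  · have h3 := (altfx h1 ({11, 3} : Multiset ℕ) (by decide) (by decide) (by decide))
    exact RD hD (f := 0) [11, 3] (by decide) ⟨by decide, by decide, by decide, by decide⟩ (by decide) (by decide) h3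

theorem no14_11 : NoOdd 14 11 := by
  intro V _ ρ hV hD hE v
  by_contra hv
  have hne : ∃ v : V, v ≠ 0 := ⟨v, hv⟩
  have h0 : FxT ρ 0 := R0 hv
  have hp : Nat.Prime 11 := by norm_num
  rcases mT (ρ := ρ) hne with h1 | h1
  · exact RE hp hV hE (f := 1) [11, 2] 1 11 11 (by decide) ⟨by decide, by decide, by decide⟩ (by
        intro a ha t ht hta
        simp only [List.mem_cons, List.not_mem_nil, or_false] at ha
        rcases ha with rfl | rfl
        · exact dv3 (i := 0) (j := 1) (k := 0) (by norm_num) (by norm_num) (by norm_num) ht hta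
        · exact dv3 (i := 1) (j := 0) (k := 0) (by norm_num) (by norm_num) (by norm_num) ht hta) (by decide) h1
  · have h3 := (altfx h1 ({9, 5} : Multiset ℕ) (by decide) (by decide) (by decide))
    exact RD hD (f := 0) [9, 5] (by decide) ⟨by decide, by decide, by decide, by decide⟩ (by decide) (by decide) h3

theorem no14 {p : ℕ} (hp : p.Prime) (h2 : p ≠ 2) : NoOdd 14 p := by
  by_cases h3 : p = 3
  · rw [h3]; exact no14_3
  by_cases h5 : p = 5
  · rw [h5]; exact no14_5
  by_cases h11 : p = 11
  · rw [h11]; exact no14_11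
  have d2 : ¬ p ∣ 2 := ndv1 hp (by norm_num) h2
  have d3 : ¬ p ∣ 3 := ndv1 hp (by norm_num) h3
  have d5 : ¬ p ∣ 5 := ndv1 hp (by norm_num) h5
  have d11 : ¬ p ∣ 11 := ndv1 hp (by norm_num) h11
  have e3 : ¬ p ∣ 3 := d3
  have e4 : ¬ p ∣ 4 := (ndvm hp d2 d2)
  have e10 : ¬ p ∣ 10 := (ndvm hp d2 d5)
  have e11 : ¬ p ∣ 11 := d11
  intro V _ ρ hV hD hE v
  by_contra hv
  have hne : ∃ v : V, v ≠ 0 := ⟨v, hv⟩
  have h0 : FxT ρ 0 := R0 hv
  rcases mM (ρ := ρ) hp hV hne 4 (by rw [show (4 : ℕ) = 2 ^ 2 by norm_num]; exact (Nat.Prime.isPrimePow (by norm_num)).pow (by norm_num)) (by norm_num) e4 (by norm_num) (by norm_num) with h1 | h1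
  · obtain ⟨U, _, ρ', hU, hneU, hl⟩ := lift (k := 11) hV h1 (by decide)
    rcases mM (ρ := ρ') hp hU hneU 11 (Nat.Prime.isPrimePow (by norm_num)) (by norm_num) e11 (by norm_num) (by norm_num) with h1 | h1
    · have h2 := hl _ h1
      exact RD hD (f := 1) [10, 3] (by decide) ⟨by decide, by decide, by decide, by decide⟩ (by intro x hx; simp only [List.mem_cons, List.not_mem_nil, or_false] at hx; rcases hx with rfl | rfl <;> assumption) (by decide) h2
    · have h3 := (hl _ (altfx h1 ({11} : Multiset ℕ) (by decide) (by decide) (by decide)))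
      exact RD hD (f := 0) [11, 3] (by decide) ⟨by decide, by decide, by decide, by decide⟩ (by intro x hx; simp only [List.mem_cons, List.not_mem_nil, or_false] at hx; rcases hx with rfl | rfl <;> assumption) (by decide) h3
  · have h3 := (altfx h1 ({11, 3} : Multiset ℕ) (by decide) (by decide) (by decide))
    exact RD hD (f := 0) [11, 3] (by decide) ⟨by decide, by decide, by decide, by decide⟩ (by intro x hx; simp only [List.mem_cons, List.not_mem_nil, or_false] at hx; rcases hx with rfl | rfl <;> assumption) (by decide) h3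


theorem no15_3 : NoOdd 15 3 := by
  intro V _ ρ hV hD hE v
  by_contra hv
  have hne : ∃ v : V, v ≠ 0 := ⟨v, hv⟩
  have h0 : FxT ρ 0 := R0 hv
  have hp : Nat.Prime 3 := by norm_num
  rcases mP (ρ := ρ) hp hV (b := 14) ⟨7, 2, by norm_num, by norm_num, (by decide), by norm_num, by norm_num, by norm_num⟩ (by norm_num) with h1 | h1
  · exact RD hD (f := 1) [14] (by decide) ⟨by decide, by decide, by decide, by decide⟩ (by decide) (by decide) h1
  · have h3 := (mS hp hV hne h1 [7, 5] (by decide) (by decide) (by decide))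
    exact RE hp hV hE (f := 1) [9, 5] 2 3 5 (by decide) ⟨by decide, by decide, by decide⟩ (by
        intro a ha t ht hta
        simp only [List.mem_cons, List.not_mem_nil, or_false] at ha
        rcases ha with rfl | rfl
        · exact dv3 (i := 0) (j := 2) (k := 0) (by norm_num) (by norm_num) (by norm_num) ht hta
        · exact dv3 (i := 0) (j := 0) (k := 1) (by norm_num) (by norm_num) (by norm_num) ht hta) (by decide) (RP h3 7)

theorem no15_7 : NoOdd 15 7 := by
  intro V _ ρ hV hD hE v
  by_contra hv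
  have hne : ∃ v : V, v ≠ 0 := ⟨v, hv⟩
  have h0 : FxT ρ 0 := R0 hv
  have hp : Nat.Prime 7 := by norm_num
  rcases mM (ρ := ρ) hp hV hne 9 (by rw [show (9 : ℕ) = 3 ^ 2 by norm_num]; exact (Nat.Prime.isPrimePow (by norm_num)).pow (by norm_num)) (by norm_num) (by decide) (by norm_num) (by norm_num) with h1 | h1
  · exact RE hp hV hE (f := 0) [8, 7] 1 7 7 (by decide) ⟨by decide, by decide, by decide⟩ (by
        intro a ha t ht hta
        simp only [List.mem_cons, List.not_mem_nil, or_false] at ha
        rcases ha with rfl | rfl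
        · exact dv3 (i := 3) (j := 0) (k := 0) (by norm_num) (by norm_num) (by norm_num) ht hta
        · exact dv3 (i := 0) (j := 1) (k := 0) (by norm_num) (by norm_num) (by norm_num) ht hta) (by decide) h1
  · have h3 := (altfx h1 ({15} : Multiset ℕ) (by decide) (by decide) (by decide))
    exact RD hD (f := 0) [15] (by decide) ⟨by decide, by decide, by decide, by decide⟩ (by decide) (by decide) h3

theorem no15_11 : NoOdd 15 11 := by
  intro V _ ρ hV hD hE v
  by_contra hv
  have hne : ∃ v : V, v ≠ 0 := ⟨v, hv⟩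
  have h0 : FxT ρ 0 := R0 hv
  have hp : Nat.Prime 11 := by norm_num
  rcases mM (ρ := ρ) hp hV hne 4 (by rw [show (4 : ℕ) = 2 ^ 2 by norm_num]; exact (Nat.Prime.isPrimePow (by norm_num)).pow (by norm_num)) (by norm_num) (by decide) (by norm_num) (by norm_num) with h1 | h1
  · exact RE hp hV hE (f := 1) [11, 3] 1 3 11 (by decide) ⟨by decide, by decide, by decide⟩ (by
        intro a ha t ht hta
        simp only [List.mem_cons, List.not_mem_nil, or_false] at ha
        rcases ha with rfl | rfl
        · exact dv3 (i := 0) (j := 0) (k := 1) (by norm_num) (by norm_num) (by norm_num) ht hta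
        · exact dv3 (i := 0) (j := 1) (k := 0) (by norm_num) (by norm_num) (by norm_num) ht hta) (by decide) h1
  · have h3 := (altfx h1 ({15} : Multiset ℕ) (by decide) (by decide) (by decide))
    exact RD hD (f := 0) [15] (by decide) ⟨by decide, by decide, by decide, by decide⟩ (by decide) (by decide) h3

theorem no15 {p : ℕ} (hp : p.Prime) (h2 : p ≠ 2) : NoOdd 15 p := by
  by_cases h3 : p = 3
  · rw [h3]; exact no15_3
  by_cases h7 : p = 7
  · rw [h7]; exact no15_7
  by_cases h11 : p = 11
  · rw [h11]; exact no15_11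
  have d2 : ¬ p ∣ 2 := ndv1 hp (by norm_num) h2
  have d3 : ¬ p ∣ 3 := ndv1 hp (by norm_num) h3
  have d7 : ¬ p ∣ 7 := ndv1 hp (by norm_num) h7
  have d11 : ¬ p ∣ 11 := ndv1 hp (by norm_num) h11
  have e3 : ¬ p ∣ 3 := d3
  have e11 : ¬ p ∣ 11 := d11
  have e14 : ¬ p ∣ 14 := (ndvm hp d2 d7)
  intro V _ ρ hV hD hE v
  by_contra hv
  have hne : ∃ v : V, v ≠ 0 := ⟨v, hv⟩
  have h0 : FxT ρ 0 := R0 hv
  rcases mP (ρ := ρ) hp hV (b := 14) ⟨7, 2, by norm_num, by norm_num, (Ne.symm h7), by norm_num, by norm_num, by norm_num⟩ (by norm_num) with h1 | h1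
  · exact RD hD (f := 1) [14] (by decide) ⟨by decide, by decide, by decide, by decide⟩ (by intro x hx; simp only [List.mem_cons, List.not_mem_nil, or_false] at hx; rcases hx with rfl <;> assumption) (by decide) h1
  · have h3 := (mS hp hV hne h1 [11, 3] (by decide) (by intro x hx; simp only [List.mem_cons, List.not_mem_nil, or_false] at hx; rcases hx with rfl | rfl <;> exact ⟨by decide, by decide, by assumption⟩) (by decide))
    exact RD hD (f := 1) [11, 3] (by decide) ⟨by decide, by decide, by decide, by decide⟩ (by intro x hx; simp only [List.mem_cons, List.not_mem_nil, or_false] at hx; rcases hx with rfl | rfl <;> assumption) (by decide) h3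


theorem no16_3 : NoOdd 16 3 := by
  intro V _ ρ hV hD hE v
  by_contra hv
  have hne : ∃ v : V, v ≠ 0 := ⟨v, hv⟩
  have h0 : FxT ρ 0 := R0 hv
  have hp : Nat.Prime 3 := by norm_num
  rcases mM (ρ := ρ) hp hV hne 8 (by rw [show (8 : ℕ) = 2 ^ 3 by norm_num]; exact (Nat.Prime.isPrimePow (by norm_num)).pow (by norm_num)) (by norm_num) (by decide) (by norm_num) (by norm_num) with h1 | h1
  · exact RE hp hV hE (f := 0) [9, 7] 2 3 7 (by decide) ⟨by decide, by decide, by decide⟩ (by
        intro a ha t ht hta
        simp only [List.mem_cons, List.not_mem_nil, or_false] at ha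
        rcases ha with rfl | rfl
        · exact dv3 (i := 0) (j := 2) (k := 0) (by norm_num) (by norm_num) (by norm_num) ht hta
        · exact dv3 (i := 0) (j := 0) (k := 1) (by norm_num) (by norm_num) (by norm_num) ht hta) (by decide) h1
  · have h3 := (altfx h1 ({11, 5} : Multiset ℕ) (by decide) (by decide) (by decide))
    exact RD hD (f := 0) [11, 5] (by decide) ⟨by decide, by decide, by decide, by decide⟩ (by decide) (by decide) h3

theorem no16_5 : NoOdd 16 5 := by
  intro V _ ρ hV hD hE v
  by_contra hv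
  have hne : ∃ v : V, v ≠ 0 := ⟨v, hv⟩
  have h0 : FxT ρ 0 := R0 hv
  have hp : Nat.Prime 5 := by norm_num
  rcases mM (ρ := ρ) hp hV hne 16 (by rw [show (16 : ℕ) = 2 ^ 4 by norm_num]; exact (Nat.Prime.isPrimePow (by norm_num)).pow (by norm_num)) (by norm_num) (by decide) (by norm_num) (by norm_num) with h1 | h1
  · exact RE0 hE (f := 1) [15] 3 5 (by decide) ⟨by decide, by decide, by decide⟩ (by
        intro a ha t ht hta
        simp only [List.mem_cons, List.not_mem_nil, or_false] at ha
        rcases ha with rfl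
        · exact dv3 (i := 0) (j := 1) (k := 1) (by norm_num) (by norm_num) (by norm_num) ht hta) (by decide) h1
  · have h3 := (altfx h1 ({13, 3} : Multiset ℕ) (by decide) (by decide) (by decide))
    exact RD hD (f := 0) [13, 3] (by decide) ⟨by decide, by decide, by decide, by decide⟩ (by decide) (by decide) h3

theorem no16_13 : NoOdd 16 13 := by
  intro V _ ρ hV hD hE v
  by_contra hv
  have hne : ∃ v : V, v ≠ 0 := ⟨v, hv⟩
  have h0 : FxT ρ 0 := R0 hv
  have hp : Nat.Prime 13 := by norm_num
  rcases mT (ρ := ρ) hne with h1 | h1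
  · exact RE hp hV hE (f := 1) [13, 2] 1 13 13 (by decide) ⟨by decide, by decide, by decide⟩ (by
        intro a ha t ht hta
        simp only [List.mem_cons, List.not_mem_nil, or_false] at ha
        rcases ha with rfl | rfl
        · exact dv3 (i := 0) (j := 1) (k := 0) (by norm_num) (by norm_num) (by norm_num) ht hta
        · exact dv3 (i := 1) (j := 0) (k := 0) (by norm_num) (by norm_num) (by norm_num) ht hta) (by decide) h1
  · have h3 := (altfx h1 ({11, 5} : Multiset ℕ) (by decide) (by decide) (by decide))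
    exact RD hD (f := 0) [11, 5] (by decide) ⟨by decide, by decide, by decide, by decide⟩ (by decide) (by decide) h3

theorem no16 {p : ℕ} (hp : p.Prime) (h2 : p ≠ 2) : NoOdd 16 p := by
  by_cases h3 : p = 3
  · rw [h3]; exact no16_3
  by_cases h5 : p = 5
  · rw [h5]; exact no16_5
  by_cases h13 : p = 13
  · rw [h13]; exact no16_13
  have d2 : ¬ p ∣ 2 := ndv1 hp (by norm_num) h2
  have d3 : ¬ p ∣ 3 := ndv1 hp (by norm_num) h3
  have d5 : ¬ p ∣ 5 := ndv1 hp (by norm_num) h5
  have d13 : ¬ p ∣ 13 := ndv1 hp (by norm_num) h13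
  have e3 : ¬ p ∣ 3 := d3
  have e13 : ¬ p ∣ 13 := d13
  have e15 : ¬ p ∣ 15 := (ndvm hp d3 d5)
  have e16 : ¬ p ∣ 16 := (ndvm hp (ndvm hp (ndvm hp d2 d2) d2) d2)
  intro V _ ρ hV hD hE v
  by_contra hv
  have hne : ∃ v : V, v ≠ 0 := ⟨v, hv⟩
  have h0 : FxT ρ 0 := R0 hv
  rcases mM (ρ := ρ) hp hV hne 16 (by rw [show (16 : ℕ) = 2 ^ 4 by norm_num]; exact (Nat.Prime.isPrimePow (by norm_num)).pow (by norm_num)) (by norm_num) e16 (by norm_num) (by norm_num) with h1 | h1
  · exact RD hD (f := 1) [15] (by decide) ⟨by decide, by decide, by decide, by decide⟩ (by intro x hx; simp only [List.mem_cons, List.not_mem_nil, or_false] at hx; rcases hx with rfl <;> assumption) (by decide) h1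
  · have h3 := (altfx h1 ({13, 3} : Multiset ℕ) (by decide) (by decide) (by decide))
    exact RD hD (f := 0) [13, 3] (by decide) ⟨by decide, by decide, by decide, by decide⟩ (by intro x hx; simp only [List.mem_cons, List.not_mem_nil, or_false] at hx; rcases hx with rfl | rfl <;> assumption) (by decide) h3


theorem no18_3 : NoOdd 18 3 := by
  intro V _ ρ hV hD hE v
  by_contra hv
  have hne : ∃ v : V, v ≠ 0 := ⟨v, hv⟩
  have h0 : FxT ρ 0 := R0 hv
  have hp : Nat.Prime 3 := by norm_num
  rcases mT (ρ := ρ) hne with h1 | h1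
  · obtain ⟨U, _, ρ', hU, hneU, hl⟩ := lift (k := 16) hV h1 (by decide)
    rcases mM (ρ := ρ') hp hU hneU 8 (by rw [show (8 : ℕ) = 2 ^ 3 by norm_num]; exact (Nat.Prime.isPrimePow (by norm_num)).pow (by norm_num)) (by norm_num) (by decide) (by norm_num) (by norm_num) with h1 | h1
    · have h2 := hl _ h1
      exact RE hp hV hE (f := 0) [9, 7, 2] 2 3 7 (by decide) ⟨by decide, by decide, by decide⟩ (by
          intro a ha t ht hta
          simp only [List.mem_cons, List.not_mem_nil, or_false] at ha
          rcases ha with rfl | rfl | rfl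
          · exact dv3 (i := 0) (j := 2) (k := 0) (by norm_num) (by norm_num) (by norm_num) ht hta
          · exact dv3 (i := 0) (j := 0) (k := 1) (by norm_num) (by norm_num) (by norm_num) ht hta
          · exact dv3 (i := 1) (j := 0) (k := 0) (by norm_num) (by norm_num) (by norm_num) ht hta) (by decide) h2
    · have h3 := (hl _ (altfx h1 ({11, 5} : Multiset ℕ) (by decide) (by decide) (by decide)))
      exact RD hD (f := 0) [11, 5, 2] (by decide) ⟨by decide, by decide, by decide, by decide⟩ (by decide) (by decide) h3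
  · have h3 := (altfx h1 ({13, 5} : Multiset ℕ) (by decide) (by decide) (by decide))
    exact RD hD (f := 0) [13, 5] (by decide) ⟨by decide, by decide, by decide, by decide⟩ (by decide) (by decide) h3

theorem no18_5 : NoOdd 18 5 := by
  intro V _ ρ hV hD hE v
  by_contra hv
  have hne : ∃ v : V, v ≠ 0 := ⟨v, hv⟩
  have h0 : FxT ρ 0 := R0 hv
  have hp : Nat.Prime 5 := by norm_num
  rcases mM (ρ := ρ) hp hV hne 13 (Nat.Prime.isPrimePow (by norm_num)) (by norm_num) (by decide) (by norm_num) (by norm_num) with h1 | h1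
  · exact RE hp hV hE (f := 1) [12, 5] 1 3 5 (by decide) ⟨by decide, by decide, by decide⟩ (by
        intro a ha t ht hta
        simp only [List.mem_cons, List.not_mem_nil, or_false] at ha
        rcases ha with rfl | rfl
        · exact dv3 (i := 2) (j := 1) (k := 0) (by norm_num) (by norm_num) (by norm_num) ht hta
        · exact dv3 (i := 0) (j := 0) (k := 1) (by norm_num) (by norm_num) (by norm_num) ht hta) (by decide) h1
  · have h3 := (altfx h1 ({11, 7} : Multiset ℕ) (by decide) (by decide) (by decide))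
    exact RD hD (f := 0) [11, 7] (by decide) ⟨by decide, by decide, by decide, by decide⟩ (by decide) (by decide) h3

theorem no18 {p : ℕ} (hp : p.Prime) (h2 : p ≠ 2) : NoOdd 18 p := by
  by_cases h3 : p = 3
  · rw [h3]; exact no18_3
  by_cases h5 : p = 5
  · rw [h5]; exact no18_5
  have d2 : ¬ p ∣ 2 := ndv1 hp (by norm_num) h2
  have d3 : ¬ p ∣ 3 := ndv1 hp (by norm_num) h3
  have d5 : ¬ p ∣ 5 := ndv1 hp (by norm_num) h5
  have e3 : ¬ p ∣ 3 := d3
  have e5 : ¬ p ∣ 5 := d5
  have e9 : ¬ p ∣ 9 := (ndvm hp d3 d3)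
  have e18 : ¬ p ∣ 18 := (ndvm hp (ndvm hp d2 d3) d3)
  intro V _ ρ hV hD hE v
  by_contra hv
  have hne : ∃ v : V, v ≠ 0 := ⟨v, hv⟩
  have h0 : FxT ρ 0 := R0 hv
  rcases mP (ρ := ρ) hp hV (b := 18) ⟨3, 6, by norm_num, by norm_num, (Ne.symm h3), by norm_num, by norm_num, by norm_num⟩ (by norm_num) with h1 | h1
  · exact RD hD (f := 0) [18] (by decide) ⟨by decide, by decide, by decide, by decide⟩ (by intro x hx; simp only [List.mem_cons, List.not_mem_nil, or_false] at hx; rcases hx with rfl <;> assumption) (by decide) h1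
  · have h3 := (mS hp hV hne h1 [9, 5, 3] (by decide) (by intro x hx; simp only [List.mem_cons, List.not_mem_nil, or_false] at hx; rcases hx with rfl | rfl | rfl <;> exact ⟨by decide, by decide, by assumption⟩) (by decide))
    exact RD hD (f := 1) [9, 5, 3] (by decide) ⟨by decide, by decide, by decide, by decide⟩ (by intro x hx; simp only [List.mem_cons, List.not_mem_nil, or_false] at hx; rcases hx with rfl | rfl | rfl <;> assumption) (by decide) h3


theorem no19_3 : NoOdd 19 3 := by
  intro V _ ρ hV hD hE v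
  by_contra hv
  have hne : ∃ v : V, v ≠ 0 := ⟨v, hv⟩
  have h0 : FxT ρ 0 := R0 hv
  have hp : Nat.Prime 3 := by norm_num
  rcases mM (ρ := ρ) hp hV hne 11 (Nat.Prime.isPrimePow (by norm_num)) (by norm_num) (by decide) (by norm_num) (by norm_num) with h1 | h1
  · exact RE hp hV hE (f := 0) [10, 9] 2 3 5 (by decide) ⟨by decide, by decide, by decide⟩ (by
        intro a ha t ht hta
        simp only [List.mem_cons, List.not_mem_nil, or_false] at ha
        rcases ha with rfl | rfl
        · exact dv3 (i := 1) (j := 0) (k := 1) (by norm_num) (by norm_num) (by norm_num) ht hta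
        · exact dv3 (i := 0) (j := 2) (k := 0) (by norm_num) (by norm_num) (by norm_num) ht hta) (by decide) h1
  · have h3 := (altfx h1 ({19} : Multiset ℕ) (by decide) (by decide) (by decide))
    exact RD hD (f := 0) [19] (by decide) ⟨by decide, by decide, by decide, by decide⟩ (by decide) (by decide) h3

theorem no19_19 : NoOdd 19 19 := by
  intro V _ ρ hV hD hE v
  by_contra hv
  have hne : ∃ v : V, v ≠ 0 := ⟨v, hv⟩
  have h0 : FxT ρ 0 := R0 hv
  have hp : Nat.Prime 19 := by norm_num
  exact RE hp hV hE (f := 0) [19] 1 19 19 (by decide) ⟨by decide, by decide, by decide⟩ (by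
      intro a ha t ht hta
      simp only [List.mem_cons, List.not_mem_nil, or_false] at ha
      rcases ha with rfl
      · exact dv3 (i := 0) (j := 1) (k := 0) (by norm_num) (by norm_num) (by norm_num) ht hta) (by decide) h0

theorem no19 {p : ℕ} (hp : p.Prime) (h2 : p ≠ 2) : NoOdd 19 p := by
  by_cases h3 : p = 3
  · rw [h3]; exact no19_3
  by_cases h19 : p = 19
  · rw [h19]; exact no19_19
  have d2 : ¬ p ∣ 2 := ndv1 hp (by norm_num) h2
  have d3 : ¬ p ∣ 3 := ndv1 hp (by norm_num) h3
  have d19 : ¬ p ∣ 19 := ndv1 hp (by norm_num) h19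
  have e18 : ¬ p ∣ 18 := (ndvm hp (ndvm hp d2 d3) d3)
  have e19 : ¬ p ∣ 19 := d19
  intro V _ ρ hV hD hE v
  by_contra hv
  have hne : ∃ v : V, v ≠ 0 := ⟨v, hv⟩
  have h0 : FxT ρ 0 := R0 hv
  rcases mM (ρ := ρ) hp hV hne 19 (Nat.Prime.isPrimePow (by norm_num)) (by norm_num) e19 (by norm_num) (by norm_num) with h1 | h1
  · exact RD hD (f := 1) [18] (by decide) ⟨by decide, by decide, by decide, by decide⟩ (by intro x hx; simp only [List.mem_cons, List.not_mem_nil, or_false] at hx; rcases hx with rfl <;> assumption) (by decide) h1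
  · have h3 := (altfx h1 ({19} : Multiset ℕ) (by decide) (by decide) (by decide))
    exact RD hD (f := 0) [19] (by decide) ⟨by decide, by decide, by decide, by decide⟩ (by intro x hx; simp only [List.mem_cons, List.not_mem_nil, or_false] at hx; rcases hx with rfl <;> assumption) (by decide) h3


theorem no20_3 : NoOdd 20 3 := by
  intro V _ ρ hV hD hE v
  by_contra hv
  have hne : ∃ v : V, v ≠ 0 := ⟨v, hv⟩
  have h0 : FxT ρ 0 := R0 hv
  have hp : Nat.Prime 3 := by norm_num
  rcases mM (ρ := ρ) hp hV hne 11 (Nat.Prime.isPrimePow (by norm_num)) (by norm_num) (by decide) (by norm_num) (by norm_num) with h1 | h1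
  · exact RE hp hV hE (f := 1) [10, 9] 2 3 5 (by decide) ⟨by decide, by decide, by decide⟩ (by
        intro a ha t ht hta
        simp only [List.mem_cons, List.not_mem_nil, or_false] at ha
        rcases ha with rfl | rfl
        · exact dv3 (i := 1) (j := 0) (k := 1) (by norm_num) (by norm_num) (by norm_num) ht hta
        · exact dv3 (i := 0) (j := 2) (k := 0) (by norm_num) (by norm_num) (by norm_num) ht hta) (by decide) h1
  · have h3 := (altfx h1 ({13, 7} : Multiset ℕ) (by decide) (by decide) (by decide))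
    exact RD hD (f := 0) [13, 7] (by decide) ⟨by decide, by decide, by decide, by decide⟩ (by decide) (by decide) h3

theorem no20_5 : NoOdd 20 5 := by
  intro V _ ρ hV hD hE v
  by_contra hv
  have hne : ∃ v : V, v ≠ 0 := ⟨v, hv⟩
  have h0 : FxT ρ 0 := R0 hv
  have hp : Nat.Prime 5 := by norm_num
  rcases mP (ρ := ρ) hp hV (b := 14) ⟨7, 2, by norm_num, by norm_num, (by decide), by norm_num, by norm_num, by norm_num⟩ (by norm_num) with h1 | h1
  · exact RE hp hV hE (f := 1) [14, 5] 1 5 7 (by decide) ⟨by decide, by decide, by decide⟩ (by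
        intro a ha t ht hta
        simp only [List.mem_cons, List.not_mem_nil, or_false] at ha
        rcases ha with rfl | rfl
        · exact dv3 (i := 1) (j := 0) (k := 1) (by norm_num) (by norm_num) (by norm_num) ht hta
        · exact dv3 (i := 0) (j := 1) (k := 0) (by norm_num) (by norm_num) (by norm_num) ht hta) (by decide) h1
  · have h3 := (mS hp hV hne h1 [9, 7, 3] (by decide) (by decide) (by decide))
    exact RD hD (f := 1) [9, 7, 3] (by decide) ⟨by decide, by decide, by decide, by decide⟩ (by decide) (by decide) h3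

theorem no20_11 : NoOdd 20 11 := by
  intro V _ ρ hV hD hE v
  by_contra hv
  have hne : ∃ v : V, v ≠ 0 := ⟨v, hv⟩
  have h0 : FxT ρ 0 := R0 hv
  have hp : Nat.Prime 11 := by norm_num
  rcases mM (ρ := ρ) hp hV hne 9 (by rw [show (9 : ℕ) = 3 ^ 2 by norm_num]; exact (Nat.Prime.isPrimePow (by norm_num)).pow (by norm_num)) (by norm_num) (by decide) (by norm_num) (by norm_num) with h1 | h1
  · exact RE hp hV hE (f := 1) [11, 8] 1 11 11 (by decide) ⟨by decide, by decide, by decide⟩ (by
        intro a ha t ht hta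
        simp only [List.mem_cons, List.not_mem_nil, or_false] at ha
        rcases ha with rfl | rfl
        · exact dv3 (i := 0) (j := 1) (k := 0) (by norm_num) (by norm_num) (by norm_num) ht hta
        · exact dv3 (i := 3) (j := 0) (k := 0) (by norm_num) (by norm_num) (by norm_num) ht hta) (by decide) h1
  · have h3 := (altfx h1 ({17, 3} : Multiset ℕ) (by decide) (by decide) (by decide))
    exact RD hD (f := 0) [17, 3] (by decide) ⟨by decide, by decide, by decide, by decide⟩ (by decide) (by decide) h3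

theorem no20 {p : ℕ} (hp : p.Prime) (h2 : p ≠ 2) : NoOdd 20 p := by
  by_cases h3 : p = 3
  · rw [h3]; exact no20_3
  by_cases h5 : p = 5
  · rw [h5]; exact no20_5
  by_cases h11 : p = 11
  · rw [h11]; exact no20_11
  have d2 : ¬ p ∣ 2 := ndv1 hp (by norm_num) h2
  have d3 : ¬ p ∣ 3 := ndv1 hp (by norm_num) h3
  have d5 : ¬ p ∣ 5 := ndv1 hp (by norm_num) h5
  have d11 : ¬ p ∣ 11 := ndv1 hp (by norm_num) h11
  have e3 : ¬ p ∣ 3 := d3
  have e5 : ¬ p ∣ 5 := d5
  have e11 : ¬ p ∣ 11 := d11
  have e20 : ¬ p ∣ 20 := (ndvm hp (ndvm hp d2 d2) d5)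
  intro V _ ρ hV hD hE v
  by_contra hv
  have hne : ∃ v : V, v ≠ 0 := ⟨v, hv⟩
  have h0 : FxT ρ 0 := R0 hv
  rcases mP (ρ := ρ) hp hV (b := 20) ⟨5, 4, by norm_num, by norm_num, (Ne.symm h5), by norm_num, by norm_num, by norm_num⟩ (by norm_num) with h1 | h1
  · exact RD hD (f := 0) [20] (by decide) ⟨by decide, by decide, by decide, by decide⟩ (by intro x hx; simp only [List.mem_cons, List.not_mem_nil, or_false] at hx; rcases hx with rfl <;> assumption) (by decide) h1
  · have h3 := (mS hp hV hne h1 [11, 5, 3] (by decide) (by intro x hx; simp only [List.mem_cons, List.not_mem_nil, or_false] at hx; rcases hx with rfl | rfl | rfl <;> exact ⟨by decide, by decide, by assumption⟩) (by decide))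
    exact RD hD (f := 1) [11, 5, 3] (by decide) ⟨by decide, by decide, by decide, by decide⟩ (by intro x hx; simp only [List.mem_cons, List.not_mem_nil, or_false] at hx; rcases hx with rfl | rfl | rfl <;> assumption) (by decide) h3


theorem no22_3 : NoOdd 22 3 := by
  intro V _ ρ hV hD hE v
  by_contra hv
  have hne : ∃ v : V, v ≠ 0 := ⟨v, hv⟩
  have h0 : FxT ρ 0 := R0 hv
  have hp : Nat.Prime 3 := by norm_num
  rcases mP (ρ := ρ) hp hV (b := 21) ⟨7, 3, by norm_num, by norm_num, (by decide), by norm_num, by norm_num, by norm_num⟩ (by norm_num) with h1 | h1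
  · exact RE0 hE (f := 1) [21] 3 7 (by decide) ⟨by decide, by decide, by decide⟩ (by
        intro a ha t ht hta
        simp only [List.mem_cons, List.not_mem_nil, or_false] at ha
        rcases ha with rfl
        · exact dv3 (i := 0) (j := 1) (k := 1) (by norm_num) (by norm_num) (by norm_num) ht hta) (by decide) h1
  · have h3 := (mS hp hV hne h1 [7, 7, 7] (by decide) (by decide) (by decide))
    exact RE hp hV hE (f := 1) [21] 1 3 7 (by decide) ⟨by decide, by decide, by decide⟩ (by
        intro a ha t ht hta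
        simp only [List.mem_cons, List.not_mem_nil, or_false] at ha
        rcases ha with rfl
        · exact dv3 (i := 0) (j := 1) (k := 1) (by norm_num) (by norm_num) (by norm_num) ht hta) (by decide) h3

theorem no22_5 : NoOdd 22 5 := by
  intro V _ ρ hV hD hE v
  by_contra hv
  have hne : ∃ v : V, v ≠ 0 := ⟨v, hv⟩
  have h0 : FxT ρ 0 := R0 hv
  have hp : Nat.Prime 5 := by norm_num
  rcases mM (ρ := ρ) hp hV hne 17 (Nat.Prime.isPrimePow (by norm_num)) (by norm_num) (by decide) (by norm_num) (by norm_num) with h1 | h1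
  · exact RE hp hV hE (f := 1) [16, 5] 1 5 5 (by decide) ⟨by decide, by decide, by decide⟩ (by
        intro a ha t ht hta
        simp only [List.mem_cons, List.not_mem_nil, or_false] at ha
        rcases ha with rfl | rfl
        · exact dv3 (i := 4) (j := 0) (k := 0) (by norm_num) (by norm_num) (by norm_num) ht hta
        · exact dv3 (i := 0) (j := 1) (k := 0) (by norm_num) (by norm_num) (by norm_num) ht hta) (by decide) h1
  · have h3 := (altfx h1 ({19, 3} : Multiset ℕ) (by decide) (by decide) (by decide))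
    exact RD hD (f := 0) [19, 3] (by decide) ⟨by decide, by decide, by decide, by decide⟩ (by decide) (by decide) h3

theorem no22_7 : NoOdd 22 7 := by
  intro V _ ρ hV hD hE v
  by_contra hv
  have hne : ∃ v : V, v ≠ 0 := ⟨v, hv⟩
  have h0 : FxT ρ 0 := R0 hv
  have hp : Nat.Prime 7 := by norm_num
  rcases mP (ρ := ρ) hp hV (b := 21) ⟨3, 7, by norm_num, by norm_num, (by decide), by norm_num, by norm_num, by norm_num⟩ (by norm_num) with h1 | h1
  · exact RE0 hE (f := 1) [21] 3 7 (by decide) ⟨by decide, by decide, by decide⟩ (by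
        intro a ha t ht hta
        simp only [List.mem_cons, List.not_mem_nil, or_false] at ha
        rcases ha with rfl
        · exact dv3 (i := 0) (j := 1) (k := 1) (by norm_num) (by norm_num) (by norm_num) ht hta) (by decide) h1
  · have h3 := (mS hp hV hne h1 [13, 5, 3] (by decide) (by decide) (by decide))
    exact RD hD (f := 1) [13, 5, 3] (by decide) ⟨by decide, by decide, by decide, by decide⟩ (by decide) (by decide) h3

theorem no22_13 : NoOdd 22 13 := by
  intro V _ ρ hV hD hE v
  by_contra hv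
  have hne : ∃ v : V, v ≠ 0 := ⟨v, hv⟩
  have h0 : FxT ρ 0 := R0 hv
  have hp : Nat.Prime 13 := by norm_num
  rcases mM (ρ := ρ) hp hV hne 9 (by rw [show (9 : ℕ) = 3 ^ 2 by norm_num]; exact (Nat.Prime.isPrimePow (by norm_num)).pow (by norm_num)) (by norm_num) (by decide) (by norm_num) (by norm_num) with h1 | h1
  · exact RE hp hV hE (f := 1) [13, 8] 1 13 13 (by decide) ⟨by decide, by decide, by decide⟩ (by
        intro a ha t ht hta
        simp only [List.mem_cons, List.not_mem_nil, or_false] at ha
        rcases ha with rfl | rfl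
        · exact dv3 (i := 0) (j := 1) (k := 0) (by norm_num) (by norm_num) (by norm_num) ht hta
        · exact dv3 (i := 3) (j := 0) (k := 0) (by norm_num) (by norm_num) (by norm_num) ht hta) (by decide) h1
  · have h3 := (altfx h1 ({19, 3} : Multiset ℕ) (by decide) (by decide) (by decide))
    exact RD hD (f := 0) [19, 3] (by decide) ⟨by decide, by decide, by decide, by decide⟩ (by decide) (by decide) h3

theorem no22 {p : ℕ} (hp : p.Prime) (h2 : p ≠ 2) : NoOdd 22 p := by
  by_cases h3 : p = 3
  · rw [h3]; exact no22_3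
  by_cases h5 : p = 5
  · rw [h5]; exact no22_5
  by_cases h7 : p = 7
  · rw [h7]; exact no22_7
  by_cases h13 : p = 13
  · rw [h13]; exact no22_13
  have d2 : ¬ p ∣ 2 := ndv1 hp (by norm_num) h2
  have d3 : ¬ p ∣ 3 := ndv1 hp (by norm_num) h3
  have d5 : ¬ p ∣ 5 := ndv1 hp (by norm_num) h5
  have d7 : ¬ p ∣ 7 := ndv1 hp (by norm_num) h7
  have d13 : ¬ p ∣ 13 := ndv1 hp (by norm_num) h13
  have e3 : ¬ p ∣ 3 := d3
  have e5 : ¬ p ∣ 5 := d5
  have e13 : ¬ p ∣ 13 := d13
  have e21 : ¬ p ∣ 21 := (ndvm hp d3 d7)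
  intro V _ ρ hV hD hE v
  by_contra hv
  have hne : ∃ v : V, v ≠ 0 := ⟨v, hv⟩
  have h0 : FxT ρ 0 := R0 hv
  rcases mP (ρ := ρ) hp hV (b := 21) ⟨3, 7, by norm_num, by norm_num, (Ne.symm h3), by norm_num, by norm_num, by norm_num⟩ (by norm_num) with h1 | h1
  · exact RD hD (f := 1) [21] (by decide) ⟨by decide, by decide, by decide, by decide⟩ (by intro x hx; simp only [List.mem_cons, List.not_mem_nil, or_false] at hx; rcases hx with rfl <;> assumption) (by decide) h1
  · have h3 := (mS hp hV hne h1 [13, 5, 3] (by decide) (by intro x hx; simp only [List.mem_cons, List.not_mem_nil, or_false] at hx; rcases hx with rfl | rfl | rfl <;> exact ⟨by decide, by decide, by assumption⟩) (by decide))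
    exact RD hD (f := 1) [13, 5, 3] (by decide) ⟨by decide, by decide, by decide, by decide⟩ (by intro x hx; simp only [List.mem_cons, List.not_mem_nil, or_false] at hx; rcases hx with rfl | rfl | rfl <;> assumption) (by decide) h3


theorem no31_3 : NoOdd 31 3 := by
  intro V _ ρ hV hD hE v
  by_contra hv
  have hne : ∃ v : V, v ≠ 0 := ⟨v, hv⟩
  have h0 : FxT ρ 0 := R0 hv
  have hp : Nat.Prime 3 := by norm_num
  rcases mM (ρ := ρ) hp hV hne 5 (Nat.Prime.isPrimePow (by norm_num)) (by norm_num) (by decide) (by norm_num) (by norm_num) with h1 | h1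
  · exact RE hp hV hE (f := 0) [27, 4] 3 3 3 (by decide) ⟨by decide, by decide, by decide⟩ (by
        intro a ha t ht hta
        simp only [List.mem_cons, List.not_mem_nil, or_false] at ha
        rcases ha with rfl | rfl
        · exact dv3 (i := 0) (j := 3) (k := 0) (by norm_num) (by norm_num) (by norm_num) ht hta
        · exact dv3 (i := 2) (j := 0) (k := 0) (by norm_num) (by norm_num) (by norm_num) ht hta) (by decide) h1
  · have h3 := (altfx h1 ({31} : Multiset ℕ) (by decide) (by decide) (by decide))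
    exact RD hD (f := 0) [31] (by decide) ⟨by decide, by decide, by decide, by decide⟩ (by decide) (by decide) h3

theorem no31_5 : NoOdd 31 5 := by
  intro V _ ρ hV hD hE v
  by_contra hv
  have hne : ∃ v : V, v ≠ 0 := ⟨v, hv⟩
  have h0 : FxT ρ 0 := R0 hv
  have hp : Nat.Prime 5 := by norm_num
  rcases mM (ρ := ρ) hp hV hne 7 (Nat.Prime.isPrimePow (by norm_num)) (by norm_num) (by decide) (by norm_num) (by norm_num) with h1 | h1
  · exact RE hp hV hE (f := 0) [25, 6] 2 3 5 (by decide) ⟨by decide, by decide, by decide⟩ (by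
        intro a ha t ht hta
        simp only [List.mem_cons, List.not_mem_nil, or_false] at ha
        rcases ha with rfl | rfl
        · exact dv3 (i := 0) (j := 0) (k := 2) (by norm_num) (by norm_num) (by norm_num) ht hta
        · exact dv3 (i := 1) (j := 1) (k := 0) (by norm_num) (by norm_num) (by norm_num) ht hta) (by decide) h1
  · have h3 := (altfx h1 ({31} : Multiset ℕ) (by decide) (by decide) (by decide))
    exact RD hD (f := 0) [31] (by decide) ⟨by decide, by decide, by decide, by decide⟩ (by decide) (by decide) h3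

theorem no31_31 : NoOdd 31 31 := by
  intro V _ ρ hV hD hE v
  by_contra hv
  have hne : ∃ v : V, v ≠ 0 := ⟨v, hv⟩
  have h0 : FxT ρ 0 := R0 hv
  have hp : Nat.Prime 31 := by norm_num
  exact RE hp hV hE (f := 0) [31] 1 31 31 (by decide) ⟨by decide, by decide, by decide⟩ (by
      intro a ha t ht hta
      simp only [List.mem_cons, List.not_mem_nil, or_false] at ha
      rcases ha with rfl
      · exact dv3 (i := 0) (j := 1) (k := 0) (by norm_num) (by norm_num) (by norm_num) ht hta) (by decide) h0

theorem no31 {p : ℕ} (hp : p.Prime) (h2 : p ≠ 2) : NoOdd 31 p := by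
  by_cases h3 : p = 3
  · rw [h3]; exact no31_3
  by_cases h5 : p = 5
  · rw [h5]; exact no31_5
  by_cases h31 : p = 31
  · rw [h31]; exact no31_31
  have d2 : ¬ p ∣ 2 := ndv1 hp (by norm_num) h2
  have d3 : ¬ p ∣ 3 := ndv1 hp (by norm_num) h3
  have d5 : ¬ p ∣ 5 := ndv1 hp (by norm_num) h5
  have d31 : ¬ p ∣ 31 := ndv1 hp (by norm_num) h31
  have e30 : ¬ p ∣ 30 := (ndvm hp (ndvm hp d2 d3) d5)
  have e31 : ¬ p ∣ 31 := d31
  intro V _ ρ hV hD hE v
  by_contra hv
  have hne : ∃ v : V, v ≠ 0 := ⟨v, hv⟩
  have h0 : FxT ρ 0 := R0 hv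
  rcases mM (ρ := ρ) hp hV hne 31 (Nat.Prime.isPrimePow (by norm_num)) (by norm_num) e31 (by norm_num) (by norm_num) with h1 | h1
  · exact RD hD (f := 1) [30] (by decide) ⟨by decide, by decide, by decide, by decide⟩ (by intro x hx; simp only [List.mem_cons, List.not_mem_nil, or_false] at hx; rcases hx with rfl <;> assumption) (by decide) h1
  · have h3 := (altfx h1 ({31} : Multiset ℕ) (by decide) (by decide) (by decide))
    exact RD hD (f := 0) [31] (by decide) ⟨by decide, by decide, by decide, by decide⟩ (by intro x hx; simp only [List.mem_cons, List.not_mem_nil, or_false] at hx; rcases hx with rfl <;> assumption) (by decide) h3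

end Pool.Agent.NbT
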