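import Pool.Agent.NbT.Sec
import Pool.Agent.NbT.Num
import Pool.Agent.NbT.Ng
import Pool.Agent.NbT.Tab
import Pool.Agent.NbT.Nd1
import Pool.Agent.NbT.Nd2
import Pool.Agent.NbT.Nd3

/-!
# The end
-/

set_option autoImplicit false

namespace Pool.Agent.NbT

open Equiv Pool.Agent.NbS

/-- The degrees which are not covered by `NoDo`. -/
def X : List ℕ := [5, 6, 7, 9, 10, 13, 14, 15, 16, 18, 19, 20, 22, 31]

theorem noDo {n p : ℕ} (hp : p.Prime) (h2 : p ≠ 2) (hn : 5 ≤ n) (hX : n ∉ X) : NoDo n p := by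
  rcases Nat.lt_or_ge n 70 with h | h
  · interval_cases n
    all_goals first
      | exact absurd (by decide) hX
      | exact nd8 hp h2
      | exact nd11 hp h2
      | exact nd12 hp h2
      | exact nd17 hp h2
      | exact nd21 hp h2
      | exact nd23 hp h2
      | exact nd24 hp h2
      | exact nd25 hp h2
      | exact nd26 hp h2
      | exact nd27 hp h2
      | exact nd28 hp h2
      | exact nd29 hp h2
      | exact nd30 hp h2
      | exact nd32 hp h2
      | exact nd33 hp h2
      | exact nd34 hp h2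
      | exact nd35 hp h2
      | exact nd36 hp h2
      | exact nd37 hp h2
      | exact nd38 hp h2
      | exact nd39 hp h2
      | exact nd40 hp h2
      | exact nd41 hp h2
      | exact nd42 hp h2
      | exact nd43 hp h2
      | exact nd44 hp h2
      | exact nd45 hp h2
      | exact nd46 hp h2
      | exact nd47 hp h2
      | exact nd48 hp h2
      | exact nd49 hp h2
      | exact nd50 hp h2
      | exact nd51 hp h2
      | exact nd52 hp h2
      | exact nd53 hp h2
      | exact nd54 hp h2
      | exact nd55 hp h2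
      | exact nd56 hp h2
      | exact nd57 hp h2
      | exact nd58 hp h2
      | exact nd59 hp h2
      | exact nd60 hp h2
      | exact nd61 hp h2
      | exact nd62 hp h2
      | exact nd63 hp h2
      | exact nd64 hp h2
      | exact nd65 hp h2
      | exact nd66 hp h2
      | exact nd67 hp h2
      | exact nd68 hp h2
      | exact nd69 hp h2
  · exact noDo_of_gd hp h2 (numG h hp h2)

theorem noOdd {n p : ℕ} (hp : p.Prime) (h2 : p ≠ 2) (hn : 5 ≤ n) (h6 : n ≠ 6) : NoOdd n p := by
  by_cases hX : n ∈ X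
  · simp only [X, List.mem_cons, List.not_mem_nil, or_false] at hX
    rcases hX with rfl | rfl | rfl | rfl | rfl | rfl | rfl | rfl | rfl | rfl | rfl | rfl | rfl | rfl
    · exact no5 hp h2
    · exact absurd rfl h6
    · exact no7 hp h2
    · exact no9 hp h2
    · exact no10 hp h2
    · exact no13 hp h2
    · exact no14 hp h2
    · exact no15 hp h2
    · exact no16 hp h2
    · exact no18 hp h2
    · exact no19 hp h2
    · exact no20 hp h2
    · exact no22 hp h2
    · exact no31 hp h2
  · exact noOdd_of_noDo (noDo hp h2 hn hX)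

/-- The degrees which are not covered for `p = 3`. -/
def X3 : List ℕ := [2, 3, 4, 6, 7, 9, 10, 13, 14, 15, 16, 19, 20, 22, 31]

theorem noG5 {n p : ℕ} (hp : p.Prime) (h2 : p ≠ 2) (hn : 5 ≤ n) (h3 : p = 3 → n ∉ X3) : NoG n p := by
  by_cases hX : n ∈ X
  · by_cases h : p = 3
    · subst h
      have h4 := h3 rfl
      simp only [X, List.mem_cons, List.not_mem_nil, or_false] at hX
      rcases hX with rfl | rfl | rfl | rfl | rfl | rfl | rfl | rfl | rfl | rfl | rfl | rfl | rfl | rfl
      · exact noG_of_noDo nd5_3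
      · exact absurd (by decide) h4
      · exact absurd (by decide) h4
      · exact absurd (by decide) h4
      · exact absurd (by decide) h4
      · exact absurd (by decide) h4
      · exact absurd (by decide) h4
      · exact absurd (by decide) h4
      · exact absurd (by decide) h4
      · exact noG_of_noDo nd18_3
      · exact absurd (by decide) h4
      · exact absurd (by decide) h4
      · exact absurd (by decide) h4
      · exact absurd (by decide) h4
    · simp only [X, List.mem_cons, List.not_mem_nil, or_false] at hX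
      rcases hX with rfl | rfl | rfl | rfl | rfl | rfl | rfl | rfl | rfl | rfl | rfl | rfl | rfl | rfl
      · exact ng5 hp h2 h
      · exact ng6 hp h2 h
      · exact ng7 hp h2 h
      · exact ng9 hp h2 h
      · exact ng10 hp h2 h
      · exact ng13 hp h2 h
      · exact ng14 hp h2 h
      · exact ng15 hp h2 h
      · exact ng16 hp h2 h
      · exact ng18 hp h2 h
      · exact ng19 hp h2 h
      · exact ng20 hp h2 h
      · exact ng22 hp h2 h
      · exact ng31 hp h2 h
  · exact noG_of_noDo (noDo hp h2 hn hX)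

theorem noG {n p : ℕ} (hp : p.Prime) (h2 : p ≠ 2) (h3 : p = 3 → n ∉ X3) : NoG n p := by
  rcases Nat.lt_or_ge n 5 with hn | hn
  · have h1 := hp.two_le
    have h4 : ¬ (p - 1) ∣ 1 := fun h => by
      have := Nat.le_of_dvd (by norm_num) h
      omega
    have h5 : p ≠ 3 → ¬ (p - 1) ∣ 2 := fun hp3 h => by
      have := Nat.le_of_dvd (by norm_num) h
      omega
    interval_cases n
    · exact ngs hp h4
    · exact ngs hp h4
    · exact ngs hp (h5 fun h => h3 h (by decide))
    · exact ng3 hp h2 fun h => h3 h (by decide)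
    · exact ng4 hp h2 fun h => h3 h (by decide)
  · exact noG5 hp h2 hn h3

theorem exists_ct {n : ℕ} {f : ℕ} {l : List ℕ} (h2 : ∀ a ∈ l, 2 ≤ a) (hs : l.sum + f = n) :
    ∃ σ : Perm (Fin n), σ.cycleType = (l : Multiset ℕ) := by
  refine (Perm.exists_with_cycleType_iff (Fin n)).2 ⟨?_, fun a ha => h2 a (by simpa using ha)⟩
  simp only [Fintype.card_fin, Multiset.sum_coe]
  omega

theorem not_dvd_order {n p : ℕ} (hp : p.Prime) {l : List ℕ} (hl : ∀ a ∈ l, ¬ p ∣ a) {σ : Perm (Fin n)}
    (hσ : σ.cycleType = (l : Multiset ℕ)) : ¬ p ∣ orderOf σ := by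
  intro h
  have h1 : orderOf σ ∣ l.prod := by
    rw [← Perm.lcm_cycleType, hσ]
    refine Multiset.lcm_dvd.2 fun a ha => ?_
    exact List.dvd_prod (by simpa using ha)
  obtain ⟨a, ha, hpa⟩ := (Prime.dvd_prod_iff hp.prime).1 (h.trans h1)
  exact hl a ha hpa

/-- The strong form of Lemma 1 on a section. -/
theorem gFreeK {G : Type} [Group G] [Finite G] (hG : Ah G) {n : ℕ} (π : G →* Perm (Fin n)) (hπ : Function.Surjective π)
    {K : Subgroup G} (hK : K.Normal) (hKp : K ≤ π.ker) {V : Type} [AddCommGroup V] {p : ℕ} (hp : p.Prime)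
    (T : TopK π K p V) : GFree T.ρ p := by
  intro σ r hc hpo hr
  obtain ⟨x, rfl⟩ := hπ σ
  exact free_dp hG π hK hKp hp T x hr hc hpo

/-- The freeness of the `Do` types on a section. -/
theorem doFreeK {G : Type} [Group G] [Finite G] (hG : Ah G) {n : ℕ} (π : G →* Perm (Fin n)) (hπ : Function.Surjective π)
    {K : Subgroup G} (hK : K.Normal) (hKp : K ≤ π.ker) {V : Type} [AddCommGroup V] {p : ℕ} (hp : p.Prime) (h2 : p ≠ 2)
    (T : TopK π K p V) : DoFree T.ρ p := by
  intro f l hf hl hpl σ hσ
  obtain ⟨r, hr, hx⟩ := cent_do hl hf hσ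
  refine gFreeK hG π hπ hK hKp hp T σ r hx (not_dvd_order hp hpl hσ) fun hd => ?_
  have h1 : p % 2 = 1 := (Nat.Prime.eq_two_or_odd hp).resolve_left h2
  have h3 : 2 ∣ p - 1 := by omega
  have h4 := h3.trans hd
  omega

theorem sect {G : Type} [Group G] [Finite G] (hG : Ah G) {n : ℕ} (π : G →* Perm (Fin n)) (hπ : Function.Surjective π)
    (K L : Subgroup G) [K.Normal] [L.Normal] (hK : K ≤ π.ker) (hc : ⁅π.ker, K⁆ ≤ L) {p : ℕ} (hp : p.Prime)
    (hd : p ∣ L.relIndex K) : p = 2 ∨ (p = 3 ∧ n ∈ X3) := by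
  by_contra hcon
  push Not at hcon
  obtain ⟨h2, h3⟩ := hcon
  obtain ⟨V, _, T, v, hv⟩ := exists_topK π hπ K L inferInstance hK hc hp hd
  exact hv (noG hp h2 h3 V T.ρ T.pV (doFreeK hG π hπ inferInstance hK hp h2 T)
    (gFreeK hG π hπ inferInstance hK hp T) v)

/-- The top of the kernel as a section. -/
def Top.toK {G H : Type} [Group G] [Group H] {π : G →* H} {p : ℕ} {V : Type} [AddCommGroup V] (T : Top π p V) :
    TopK π π.ker p V := ⟨T.ρ, T.f, T.mul, T.sur, T.pV, T.eqv⟩

/-- The strong form of Lemma 1 on the top of the kernel. -/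
theorem gFree {G : Type} [Group G] [Finite G] (hG : Ah G) {n : ℕ} (π : G →* Perm (Fin n)) (hπ : Function.Surjective π)
    {V : Type} [AddCommGroup V] {p : ℕ} (hp : p.Prime) (T : Top π p V) : GFree T.ρ p :=
  gFreeK hG π hπ inferInstance le_rfl hp T.toK

/-- The freeness of the `Do` types on the top of the kernel. -/
theorem doFree {G : Type} [Group G] [Finite G] (hG : Ah G) {n : ℕ} (π : G →* Perm (Fin n)) (hπ : Function.Surjective π)
    {V : Type} [AddCommGroup V] {p : ℕ} (hp : p.Prime) (h2 : p ≠ 2) (T : Top π p V) : DoFree T.ρ p :=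
  doFreeK hG π hπ inferInstance le_rfl hp h2 T.toK

/-- The freeness of the types with two odd primes, for a kernel of odd order. -/
theorem egFree {G : Type} [Group G] [Finite G] (hG : Ah G) {n : ℕ} (π : G →* Perm (Fin n)) (hπ : Function.Surjective π)
    (hodd : Nat.card π.ker % 2 = 1) {V : Type} [AddCommGroup V] {p : ℕ} (T : Top π p V) : EgFree T.ρ := by
  intro f l q r hf hl hqr σ hσ
  obtain ⟨x, rfl⟩ := hπ σ
  obtain ⟨hc, ho⟩ := cent_cp hl hσ
  have hf1 : f.factorial = 1 := by interval_cases f <;> decide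
  refine free_fpf π T x (egy hG π hodd x (by rw [hc, ho, hf1, one_mul]) q r ?_)
  intro t ht hto
  rw [ho] at hto
  obtain ⟨a, ha, hta⟩ := (Prime.dvd_prod_iff ht.prime).1 hto
  exact hqr a ha t ht hta

theorem part0 {G : Type} [Group G] [Finite G] (hG : Ah G) {n : ℕ} (π : G →* Perm (Fin n)) (hπ : Function.Surjective π)
    {p : ℕ} (hp : p.Prime) (hd : p ∣ Nat.card (Abelianization π.ker)) (h3 : p = 3 → n ∉ X3) : p = 2 := by
  by_contra h2
  obtain ⟨V, _, T, v, hv⟩ := exists_top π hπ hp hd
  exact hv (noG hp h2 h3 V T.ρ T.pV (doFree hG π hπ hp h2 T) (gFree hG π hπ hp T) v)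

theorem part1 {G : Type} [Group G] [Finite G] (hG : Ah G) {n : ℕ} (π : G →* Perm (Fin n)) (hπ : Function.Surjective π)
    (hX : n ∉ X3) : IsPGroup 2 (Abelianization π.ker) := by
  have hfin : Finite (Abelianization π.ker) := inferInstance
  have key : ∀ p : ℕ, p.Prime → p ∣ Nat.card (Abelianization π.ker) → p = 2 := fun p hp hd =>
    part0 hG π hπ hp hd fun _ => hX
  refine IsPGroup.iff_card.2 ⟨(Nat.card (Abelianization π.ker)).primeFactorsList.length, ?_⟩
  exact Nat.eq_prime_pow_of_unique_prime_dvd Nat.card_pos.ne' fun hd hdd => key _ hd hdd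

/-- Nontrivial solvable groups have a nontrivial abelianization. -/
theorem abel_of_solvable {N : Type*} [Group N] [Finite N] [Group.IsSolvable N] (h : Nat.card N ≠ 1) :
    Nat.card (Abelianization N) ≠ 1 := by
  intro h1
  have hc : commutator N = ⊤ := Subgroup.index_eq_one.1 h1
  have hs : Subsingleton N := by
    by_contra hns
    rw [not_subsingleton_iff_nontrivial] at hns
    exact Group.IsSolvable.commutator_lt_top_of_nontrivial N |>.ne hc
  exact h (Nat.card_eq_one_iff_unique.2 ⟨hs, ⟨1⟩⟩)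

theorem part3 {G : Type} [Group G] [Finite G] (hG : Ah G) {n : ℕ} (π : G →* Perm (Fin n)) (hπ : Function.Surjective π)
    (hn : 5 ≤ n) (hs : Group.IsSolvable π.ker) (hodd : Nat.card π.ker % 2 = 1) : False := by
  by_cases h1 : Nat.card π.ker = 1
  · have hsub : Subsingleton π.ker := (Nat.card_eq_one_iff_unique.1 h1).1
    have : Group.IsNilpotent π.ker := Group.isNilpotent_of_subsingleton
    exact no_four hG (by omega) π hπ
  by_cases h6 : n = 6
  · subst h6
    have key : ∀ (f : ℕ) (l : List ℕ), f ≤ 1 → Cp 6 f l → (∀ a ∈ l, ∀ t : ℕ, t.Prime → t ∣ a → t = 2 ∨ t = 3 ∨ t = 3) →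
        ∃ x : G, (π x).cycleType = (l : Multiset ℕ) ∧ Nat.card (Subgroup.centralizer {x}) = l.prod := by
      intro f l hf hl hqr
      obtain ⟨σ, hσ⟩ := exists_ct hl.two hl.sum
      obtain ⟨x, rfl⟩ := hπ σ
      obtain ⟨hc, ho⟩ := cent_cp hl hσ
      have hf1 : f.factorial = 1 := by interval_cases f <;> decide
      refine ⟨x, hσ, ?_⟩
      rw [full π hπ x (egy hG π hodd x (by rw [hc, ho, hf1, one_mul]) 3 3 ?_), hc, hf1, one_mul]
      intro t ht hto
      rw [ho] at hto
      obtain ⟨a, ha, hta⟩ := (Prime.dvd_prod_iff ht.prime).1 hto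
      exact hqr a ha t ht hta
    obtain ⟨x, hx, hcx⟩ := key 0 [6] (by decide) ⟨by decide, by decide, by decide⟩ (by
      intro a ha t ht hta
      simp only [List.mem_cons, List.not_mem_nil, or_false] at ha
      rcases ha with rfl
      exact dv3 (i := 1) (j := 1) (k := 0) (by norm_num) (by norm_num) (by norm_num) ht hta)
    obtain ⟨y, hy, hcy⟩ := key 1 [3, 2] (by decide) ⟨by decide, by decide, by decide⟩ (by
      intro a ha t ht hta
      simp only [List.mem_cons, List.not_mem_nil, or_false] at ha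
      rcases ha with rfl | rfl
      · exact dv3 (i := 0) (j := 1) (k := 0) (by norm_num) (by norm_num) (by norm_num) ht hta
      · exact dv3 (i := 1) (j := 0) (k := 0) (by norm_num) (by norm_num) (by norm_num) ht hta)
    have hxy := ah_conj hG x y (by rw [hcx, hcy]; decide)
    have h3 := Perm.isConj_iff_cycleType_eq.1 (π.map_isConj hxy)
    rw [hx, hy] at h3
    exact absurd h3 (by decide)
  · have ha := abel_of_solvable h1
    obtain ⟨p, hp, hd⟩ := Nat.exists_prime_and_dvd ha
    have h2 : p ≠ 2 := by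
      rintro rfl
      have h4 : Nat.card (Abelianization π.ker) ∣ Nat.card π.ker :=
        Subgroup.card_quotient_dvd_card (commutator π.ker)
      have := hd.trans h4
      omega
    obtain ⟨V, _, T, v, hv⟩ := exists_top π hπ hp hd
    exact hv (noOdd hp h2 hn h6 V T.ρ T.pV (doFree hG π hπ hp h2 T) (egFree hG π hπ hodd T) v)

theorem part2 {G : Type} [Group G] [Finite G] (hG : Ah G) {n : ℕ} (π : G →* Perm (Fin n)) (hπ : Function.Surjective π)
    (hn : 5 ≤ n) (hX : n ∉ X3) (hs : Group.IsSolvable π.ker) (T : Subgroup π.ker) [T.Normal] (hT : IsPGroup 2 T)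
    (hi : T.index % 2 = 1) : False := by
  have h1 := part1 hG π hπ hX
  have hTtop : T = ⊤ := by
    by_contra hne
    have hne1 : Nat.card (π.ker ⧸ T) ≠ 1 := by
      intro h
      exact hne (Subgroup.index_eq_one.1 h)
    have : Group.IsSolvable (π.ker ⧸ T) := inferInstance
    have h2 := abel_of_solvable hne1
    have hsurj : Function.Surjective (Abelianization.map (QuotientGroup.mk' T)) := by
      intro y
      obtain ⟨z, rfl⟩ := QuotientGroup.mk'_surjective _ y
      obtain ⟨w, rfl⟩ := QuotientGroup.mk'_surjective T z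
      exact ⟨Abelianization.of w, rfl⟩
    have h3 : IsPGroup 2 (Abelianization (π.ker ⧸ T)) := h1.of_surjective _ hsurj
    obtain ⟨k, hk⟩ := IsPGroup.iff_card.1 h3
    have h4 : Nat.card (Abelianization (π.ker ⧸ T)) ∣ Nat.card (π.ker ⧸ T) :=
      Subgroup.card_quotient_dvd_card (commutator (π.ker ⧸ T))
    have h5 : Nat.card (π.ker ⧸ T) % 2 = 1 := hi
    rcases Nat.eq_zero_or_pos k with rfl | hk0
    · exact h2 (by rw [hk, pow_zero])
    · have : 2 ∣ Nat.card (π.ker ⧸ T) := ((dvd_pow_self 2 hk0.ne').trans (by rw [hk])).trans h4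
      omega
  subst hTtop
  have hN : IsPGroup 2 π.ker := hT.of_equiv Subgroup.topEquiv
  have : Group.IsNilpotent π.ker := hN.isNilpotent
  exact no_four hG (by omega) π hπ

theorem exists_pi {G : Type} [Group G] (N : Subgroup G) [N.Normal] (n : ℕ) (e : G ⧸ N ≃* Perm (Fin n)) :
    ∃ π : G →* Perm (Fin n), Function.Surjective π ∧ π.ker = N := by
  refine ⟨e.toMonoidHom.comp (QuotientGroup.mk' N), ?_, ?_⟩
  · exact e.surjective.comp (QuotientGroup.mk'_surjective N)
  · ext g
    rw [MonoidHom.mem_ker]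
    show e (QuotientGroup.mk' N g) = 1 ↔ g ∈ N
    rw [map_eq_one_iff e e.injective]
    exact QuotientGroup.eq_one_iff g

theorem mainA {G : Type} [Group G] [Finite G] (hG : Ah G) (C K L : Subgroup G) [C.Normal] [K.Normal] [L.Normal]
    (hK : K ≤ C) (hc : ⁅C, K⁆ ≤ L) (n : ℕ) (e : G ⧸ C ≃* Perm (Fin n)) (p : ℕ) (hp : p.Prime)
    (hd : p ∣ L.relIndex K) : p = 2 ∨ (p = 3 ∧ n ∈ X3) := by
  obtain ⟨π, hπ, hker⟩ := exists_pi C n e
  subst hker
  exact sect hG π hπ K L hK hc hp hd

theorem mainB {G : Type} [Group G] [Finite G] (hG : Ah G) (N : Subgroup G) [N.Normal] (hs : Group.IsSolvable N)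
    (T : Subgroup N) (hTn : T.Normal) (hT : IsPGroup 2 T) (hi : Odd T.index) (n : ℕ)
    (e : G ⧸ N ≃* Perm (Fin n)) (hn : 5 ≤ n) : n ∈ X3 ∧ Even (Nat.card N) := by
  obtain ⟨π, hπ, hker⟩ := exists_pi N n e
  subst hker
  constructor
  · by_contra hX
    exact part2 hG π hπ hn hX hs T hT (Nat.odd_iff.1 hi)
  · rw [← Nat.not_odd_iff_even]
    exact fun h => part3 hG π hπ hn hs (Nat.odd_iff.1 h)

end Pool.Agent.NbT
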