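import Pool.Agent.NbT.Grp

/-!
# The strong form of Lemma 1
-/

set_option autoImplicit false

namespace Pool.Agent.NbT

open Equiv Pool.Agent.NbS

/-- An elementary abelian `p`-quotient `V` of a normal subgroup `K`, on which `G` acts through `π`. -/
structure TopK {G H : Type*} [Group G] [Group H] (π : G →* H) (K : Subgroup G) (p : ℕ) (V : Type*) [AddCommGroup V] where
  ρ : H →* AddMonoid.End V
  f : K → V
  mul : ∀ a b, f (a * b) = f a + f b
  sur : Function.Surjective f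
  pV : ∀ v : V, p • v = 0
  eqv : ∀ (g : G) (a b : K), (b : G) = g * a * g⁻¹ → f b = ρ (π g) (f a)

-- BEGIN fdp
/-- Exponents which separate commuting elements of coprime orders. -/
private theorem fdp_exp {m P : ℕ} (h : Nat.Coprime m P) :
    ∃ A : ℕ, ∀ {G : Type*} [Group G] (s t : G), Commute s t → s ^ m = 1 → t ^ P = 1 → (s * t) ^ A = s := by
  obtain ⟨A, hA1, hA2⟩ := Nat.chineseRemainder h 1 0
  refine ⟨A, ?_⟩
  intro G _ s t hc hs ht
  have h1 : t ^ A = 1 := by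
    obtain ⟨c, hc⟩ := (Nat.modEq_zero_iff_dvd.1 hA2)
    rw [hc, pow_mul, ht, one_pow]
  have h2 : s ^ A = s := by
    have h3 : s ^ A = s ^ 1 := pow_eq_pow_iff_modEq.2 (hA1.of_dvd (orderOf_dvd_of_pow_eq_one hs))
    rw [h3, pow_one]
  rw [hc.mul_pow, h1, h2, mul_one]

/-- A natural number of order `p - 1` modulo `p`. -/
private theorem fdp_root {p : ℕ} (hp : p.Prime) :
    ∃ j : ℕ, Nat.Coprime j p ∧ ∀ r : ℕ, j ^ r ≡ 1 [MOD p] → (p - 1) ∣ r := by
  have : Fact p.Prime := ⟨hp⟩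
  obtain ⟨g, hg⟩ := IsCyclic.exists_generator (α := (ZMod p)ˣ)
  have ho : orderOf g = p - 1 := by
    rw [orderOf_eq_card_of_forall_mem_zpowers hg, Nat.card_eq_fintype_card, ZMod.card_units_eq_totient,
      Nat.totient_prime hp]
  refine ⟨(g : ZMod p).val, ZMod.val_coe_unit_coprime g, ?_⟩
  intro r hr
  rw [← ho]
  refine orderOf_dvd_of_pow_eq_one ?_
  have h1 := (ZMod.natCast_eq_natCast_iff _ _ _).2 hr
  rw [Nat.cast_pow, ZMod.natCast_zmod_val, Nat.cast_one, ← Units.val_pow_eq_pow_val] at h1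
  exact Units.ext h1

/-- The element `y = d * x'`. -/
private theorem fdp_split {G H : Type*} [Group G] [Finite G] [Group H] (π : G →* H) {K : Subgroup G} (hK : K.Normal)
    (hle : K ≤ π.ker) {V : Type*} [AddCommGroup V] {p : ℕ} (hp : p.Prime) (T : TopK π K p V) (x : G)
    (hpx : ¬ p ∣ orderOf (π x)) (u : V) (hu : T.ρ (π x) u = u) :
    ∃ (x' d : G) (m e : ℕ) (hd : d ∈ K), Commute x' d ∧ Nat.Coprime m p ∧ x' ^ m = 1 ∧ d ^ p ^ e = 1 ∧
      π x' = π x ∧ T.f ⟨d, hd⟩ = u := by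
  obtain ⟨e₀, m, hm, hom⟩ := Nat.exists_eq_pow_mul_and_not_dvd (orderOf_pos x).ne' p hp.ne_one
  have hmp : Nat.Coprime m p := ((Nat.Prime.coprime_iff_not_dvd hp).2 hm).symm
  obtain ⟨k, hk1, hk2⟩ := Nat.chineseRemainder (hmp.pow_right e₀) 1 0
  -- `x₁ = x ^ k`
  obtain ⟨x₁, hx₁⟩ : ∃ x₁ : G, x₁ = x ^ k := ⟨_, rfl⟩
  have hx₁m : x₁ ^ m = 1 := by
    obtain ⟨c, hc⟩ := (Nat.modEq_zero_iff_dvd.1 hk2)
    rw [hx₁, ← pow_mul, hc, mul_right_comm, ← hom, pow_mul, pow_orderOf_eq_one, one_pow]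
  have hπx₁ : π x₁ = π x := by
    have h1 : orderOf (π x) ∣ m := by
      have h2 : orderOf (π x) ∣ p ^ e₀ * m := by
        rw [← hom]
        exact orderOf_map_dvd π x
      exact (((Nat.Prime.coprime_iff_not_dvd hp).2 hpx).symm.pow_right e₀).dvd_of_dvd_mul_left h2
    have h3 : (π x) ^ k = (π x) ^ 1 := pow_eq_pow_iff_modEq.2 (hk1.of_dvd h1)
    rw [hx₁, map_pow, h3, pow_one]
  have hone : T.f 1 = 0 := by
    have h1 := T.mul 1 1
    rw [mul_one] at h1
    exact left_eq_add.1 h1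
  obtain ⟨n₀, hn₀⟩ := T.sur u
  obtain ⟨y, hy⟩ : ∃ y : G, y = x₁ * n₀ := ⟨_, rfl⟩
  have hπy : π y = π x := by
    rw [hy, map_mul, MonoidHom.mem_ker.1 (hle n₀.2), mul_one, hπx₁]
  have huinv : T.ρ (π x₁)⁻¹ u = u := by
    have h1 : T.ρ (π x₁)⁻¹ (T.ρ (π x₁) u) = u := by
      have h2 : T.ρ ((π x₁)⁻¹ * π x₁) u = u := by
        rw [inv_mul_cancel, map_one]
        rfl
      rw [map_mul] at h2
      exact h2
    rw [hπx₁, hu] at h1
    rw [hπx₁]
    exact h1
  have hpow : ∀ i : ℕ, ∃ n : K, y ^ i = x₁ ^ i * n ∧ T.f n = i • u := by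
    intro i
    induction i with
    | zero => exact ⟨1, by simp, by rw [hone, zero_smul]⟩
    | succ i ih =>
      obtain ⟨n, h1, h2⟩ := ih
      have h3 : x₁⁻¹ * (n : G) * x₁⁻¹⁻¹ ∈ K := hK.conj_mem _ n.2 _
      refine ⟨⟨x₁⁻¹ * (n : G) * x₁⁻¹⁻¹, h3⟩ * n₀, ?_, ?_⟩
      · rw [pow_succ, h1, Subgroup.coe_mul, pow_succ]
        nth_rw 1 [hy]
        group
      · rw [T.mul, T.eqv x₁⁻¹ n ⟨x₁⁻¹ * (n : G) * x₁⁻¹⁻¹, h3⟩ rfl, h2, hn₀, map_inv, map_nsmul, huinv,
          succ_nsmul]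
  obtain ⟨e, m', hm', hom'⟩ := Nat.exists_eq_pow_mul_and_not_dvd (orderOf_pos y).ne' p hp.ne_one
  have hm'p : Nat.Coprime m' p := ((Nat.Prime.coprime_iff_not_dvd hp).2 hm').symm
  have hMp : Nat.Coprime (m * m') (p ^ (e + 1)) := (hmp.mul_left hm'p).pow_right _
  obtain ⟨a, ha0, ha1⟩ := Nat.chineseRemainder hMp 0 1
  obtain ⟨c, hc⟩ := (Nat.modEq_zero_iff_dvd.1 ha0)
  have hap : a ≡ 1 [MOD p] := ha1.of_dvd (dvd_pow_self p (Nat.succ_ne_zero e))
  have hae : a ≡ 1 [MOD p ^ e] := ha1.of_dvd (pow_dvd_pow p (Nat.le_succ e))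
  obtain ⟨n, hn1, hn2⟩ := hpow a
  have hx₁a : x₁ ^ a = 1 := by
    rw [hc, mul_assoc, pow_mul, hx₁m, one_pow]
  rw [hx₁a, one_mul] at hn1
  have hau : a • u = u := by
    have h1 : addOrderOf u ∣ p := addOrderOf_dvd_of_nsmul_eq_zero (T.pV u)
    have h2 : a • u = 1 • u := nsmul_eq_nsmul_iff_modEq.2 (hap.of_dvd h1)
    rw [h2, one_smul]
  have hcom : Commute y (y ^ a) := (Commute.refl y).pow_right a
  refine ⟨y * (y ^ a)⁻¹, y ^ a, m', e, hn1 ▸ n.2, ?_, hm'p, ?_, ?_, ?_, ?_⟩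
  · exact hcom.mul_left ((Commute.refl (y ^ a)).inv_left)
  · rw [(hcom.inv_right).mul_pow, inv_pow, ← pow_mul, mul_inv_eq_one]
    refine pow_eq_pow_iff_modEq.2 ?_
    rw [hom']
    have h1 := (hae.mul_right' m').symm
    rw [one_mul] at h1
    exact h1
  · rw [← pow_mul, hc]
    have h1 : m * m' * c * p ^ e = orderOf y * (m * c) := by
      rw [hom']
      ring
    rw [h1, pow_mul, pow_orderOf_eq_one, one_pow]
  · have h1 : π (y ^ a) = 1 := by
      rw [hn1]
      exact MonoidHom.mem_ker.1 (hle n.2)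
    rw [map_mul, map_inv, h1, inv_one, mul_one, hπy]
  · have h1 : (⟨y ^ a, hn1 ▸ n.2⟩ : K) = n := Subtype.ext hn1
    rw [h1, hn2, hau]

/-- LEMMA 1, strong form (it contains `free_do`: `p - 1` is even, `r` odd). PROOF. `u` with `ρ (π x) u = u`; suppose `u ≠ 0`. As in `free_do`: `y = d * x'` (commuting, `d` a `p`-element of the kernel, `f d = u`, `x'` of order prime to `p`, `π x' = π x`).
Let `j` be a primitive root modulo `p` (as a natural number prime to `p`). `x' * d` and `x' * d ^ j` have the same centralizer `C(x') ⊓ C(d)` (coprime orders; `d` is a power of `d ^ j`), so by `ah_conj` `g x' d g⁻¹ = x' d ^ j` for some `g`; taking powers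
`g x' g⁻¹ = x'` and `g d g⁻¹ = d ^ j`. `h = π g` centralizes `π x`, and `ρ h u = j • u` (`T.eqv`). `zpowers (π x)` is central of index `r` in the centralizer, so `h ^ r ∈ zpowers (π x)` and `ρ (h ^ r) u = u`; so `j ^ r • u = u`, `p ∣ j ^ r - 1`
(`p • u = 0`, `u ≠ 0`), so `p - 1 ∣ r`. -/
theorem free_dp {G H : Type*} [Group G] [Finite G] [Group H] [Finite H] (hG : Ah G) (π : G →* H) {K : Subgroup G}
    (hK : K.Normal) (hKp : K ≤ π.ker) {V : Type*} [AddCommGroup V] {p : ℕ} (hp : p.Prime) (T : TopK π K p V) (x : G) {r : ℕ}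
    (hr : ¬ (p - 1) ∣ r) (hx : Nat.card (Subgroup.centralizer {π x}) = r * orderOf (π x)) (hpx : ¬ p ∣ orderOf (π x)) :
    Free T.ρ (π x) := by
  intro u hu
  by_contra hu0
  obtain ⟨x', d, m, e, hd, hc, hmp, hx'm, hde, hπx', hfd⟩ := fdp_split π hK hKp hp T x hpx u hu
  obtain ⟨j, hjp, hj⟩ := fdp_root hp
  have hmP : Nat.Coprime m (p ^ e) := hmp.pow_right e
  obtain ⟨A, hA⟩ := fdp_exp hmP
  obtain ⟨B, hB⟩ := fdp_exp hmP.symm
  have hcj : Commute x' (d ^ j) := hc.pow_right j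
  have hdj : (d ^ j) ^ p ^ e = 1 := by rw [← pow_mul, mul_comm, pow_mul, hde, one_pow]
  -- `d` is a power of `d ^ j`
  obtain ⟨i, hi⟩ : ∃ i : ℕ, (d ^ j) ^ i = d := by
    obtain ⟨i, hi0, hi1⟩ := Nat.chineseRemainder (hjp.pow_right e) 0 1
    obtain ⟨c, hc⟩ := (Nat.modEq_zero_iff_dvd.1 hi0)
    refine ⟨c, ?_⟩
    have h1 : d ^ (j * c) = d ^ 1 := by
      rw [← hc]
      exact pow_eq_pow_iff_modEq.2 (hi1.of_dvd (orderOf_dvd_of_pow_eq_one hde))
    rw [← pow_mul, h1, pow_one]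
  have hcent : Subgroup.centralizer {x' * d} = Subgroup.centralizer {x' * d ^ j} := by
    have key : ∀ t : G, Commute x' t → t ^ p ^ e = 1 → ∀ z : G, z * (x' * t) = x' * t * z →
        Commute z x' ∧ Commute z t := by
      intro t ht hte z hz
      have hz' : Commute z (x' * t) := hz
      have h1 : Commute z ((x' * t) ^ A) := hz'.pow_right A
      have h2 : Commute z ((t * x') ^ B) := by
        have h3 : Commute z (t * x') := by
          rw [← ht.eq]
          exact hz'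
        exact h3.pow_right B
      rw [hA x' t ht hx'm hte] at h1
      rw [hB t x' ht.symm hte hx'm] at h2
      exact ⟨h1, h2⟩
    ext z
    rw [Subgroup.mem_centralizer_singleton_iff, Subgroup.mem_centralizer_singleton_iff]
    constructor
    · intro hz
      obtain ⟨h1, h2⟩ := key d hc hde z hz
      exact (h1.mul_right (h2.pow_right j)).eq
    · intro hz
      obtain ⟨h1, h2⟩ := key (d ^ j) hcj hdj z hz
      have h3 : Commute z d := by
        rw [← hi]
        exact h2.pow_right i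
      exact (h1.mul_right h3).eq
  obtain ⟨g, hg⟩ := isConj_iff.1 (ah_conj hG (x' * d) (x' * d ^ j) (by rw [hcent]))
  have hgx : g * x' * g⁻¹ = x' := by
    have h1 : (g * (x' * d) * g⁻¹) ^ A = (x' * d ^ j) ^ A := by rw [hg]
    rw [conj_pow, hA x' d hc hx'm hde, hA x' (d ^ j) hcj hx'm hdj] at h1
    exact h1
  have hgd : g * d * g⁻¹ = d ^ j := by
    have h1 : (g * (x' * d) * g⁻¹) ^ B = (x' * d ^ j) ^ B := by rw [hg]
    rw [conj_pow, hc.eq, hcj.eq, hB d x' hc.symm hde hx'm, hB (d ^ j) x' hcj.symm hdj hx'm] at h1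
    exact h1
  have hone : T.f 1 = 0 := by
    have h1 := T.mul 1 1
    rw [mul_one] at h1
    exact left_eq_add.1 h1
  have hfpow : ∀ (a : K) (i : ℕ), T.f (a ^ i) = i • T.f a := by
    intro a i
    induction i with
    | zero => rw [pow_zero, hone, zero_smul]
    | succ i ih => rw [pow_succ, T.mul, ih, succ_nsmul]
  have hρ : T.ρ (π g) u = j • u := by
    have h1 := T.eqv g ⟨d, hd⟩ (⟨d, hd⟩ ^ j) (by rw [hgd]; rfl)
    rw [hfpow, hfd] at h1
    exact h1.symm
  have hρi : ∀ i : ℕ, T.ρ (π g ^ i) u = (j ^ i) • u := by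
    intro i
    induction i with
    | zero => rw [pow_zero, pow_zero, one_smul, map_one]; rfl
    | succ i ih =>
      rw [pow_succ, map_mul]
      show T.ρ (π g ^ i) (T.ρ (π g) u) = _
      rw [hρ, map_nsmul, ih, smul_smul, pow_succ, mul_comm]
  have hgC : π g ∈ Subgroup.centralizer {π x} := by
    rw [Subgroup.mem_centralizer_singleton_iff, ← hπx', ← map_mul, ← map_mul]
    congr 1
    rw [mul_inv_eq_iff_eq_mul] at hgx
    exact hgx
  -- the index
  have hle : Subgroup.zpowers (π x) ≤ Subgroup.centralizer {π x} := by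
    rw [Subgroup.zpowers_le, Subgroup.mem_centralizer_singleton_iff]
  have hnorm : ((Subgroup.zpowers (π x)).subgroupOf (Subgroup.centralizer {π x})).Normal := by
    refine ⟨fun n hn c => ?_⟩
    rw [Subgroup.mem_subgroupOf] at hn ⊢
    have h1 : Commute (c : H) (π x) := Subgroup.mem_centralizer_singleton_iff.1 c.2
    obtain ⟨k, hk⟩ := Subgroup.mem_zpowers_iff.1 hn
    have h2 : ((c * n * c⁻¹ : Subgroup.centralizer {π x}) : H) = n := by
      rw [Subgroup.coe_mul, Subgroup.coe_mul, Subgroup.coe_inv, ← hk, (h1.zpow_right k).eq,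
        mul_inv_cancel_right]
    rw [h2]
    exact hn
  have hindex : ((Subgroup.zpowers (π x)).subgroupOf (Subgroup.centralizer {π x})).index = r := by
    have h1 := Subgroup.card_mul_index ((Subgroup.zpowers (π x)).subgroupOf (Subgroup.centralizer {π x}))
    rw [hx, Nat.card_congr (Subgroup.subgroupOfEquivOfLe hle).toEquiv, Nat.card_zpowers, mul_comm] at h1
    exact Nat.eq_of_mul_eq_mul_right (orderOf_pos _) h1
  have hmem : π g ^ r ∈ Subgroup.zpowers (π x) := by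
    have h1 := Subgroup.pow_index_mem ((Subgroup.zpowers (π x)).subgroupOf (Subgroup.centralizer {π x}))
      ⟨π g, hgC⟩
    rw [hindex, Subgroup.mem_subgroupOf] at h1
    exact h1
  have hfix : ∀ z ∈ Subgroup.zpowers (π x), T.ρ z u = u := by
    intro z hz
    obtain ⟨k, rfl⟩ := mem_powers_iff_mem_zpowers.2 hz
    show T.ρ (π x ^ k) u = u
    induction k with
    | zero => rw [pow_zero, map_one]; rfl
    | succ k ih =>
      rw [pow_succ, map_mul]
      show T.ρ (π x ^ k) (T.ρ (π x) u) = u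
      rw [hu]
      exact ih (mem_powers_iff_mem_zpowers.1 ⟨k, rfl⟩)
  have h1 := hρi r
  rw [hfix _ hmem] at h1
  have h2 : addOrderOf u = p := by
    have h3 : addOrderOf u ∣ p := addOrderOf_dvd_of_nsmul_eq_zero (T.pV u)
    rcases (Nat.dvd_prime hp).1 h3 with h4 | h4
    · exact absurd (AddMonoid.addOrderOf_eq_one_iff.1 h4) hu0
    · exact h4
  have h3 : (j ^ r) • u = 1 • u := by rw [one_smul, ← h1]
  have h4 := nsmul_eq_nsmul_iff_modEq.1 h3
  rw [h2] at h4
  exact hr (hj r h4)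
-- END fdp

end Pool.Agent.NbT
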