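import Pool.Agent.NbT.Defs

/-!
# The group theoretic part
-/

set_option autoImplicit false
set_option linter.unusedSectionVars false

namespace Pool.Agent.NbT

open Equiv Pool.Agent.NbS

-- BEGIN top
section top_aux

variable (N : Type) [Group N] (p : ℕ)

/-- the quotient of the abelianization by the `p`-th powers -/
private abbrev top_Q : Type := Abelianization N ⧸ (powMonoidHom p : Abelianization N →* Abelianization N).range

private def top_q : N →* top_Q N p :=
  (QuotientGroup.mk' _).comp (Abelianization.of (G := N))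

private theorem top_q_sur : Function.Surjective (top_q N p) := by
  intro z
  obtain ⟨b, rfl⟩ := QuotientGroup.mk'_surjective _ z
  obtain ⟨n, rfl⟩ := QuotientGroup.mk_surjective (s := commutator N) b
  exact ⟨n, rfl⟩

private def top_m (α : N →* N) : top_Q N p →* top_Q N p :=
  QuotientGroup.map _ _ (Abelianization.map α) (by
    rintro _ ⟨b, rfl⟩
    exact ⟨Abelianization.map α b, by simp [powMonoidHom_apply, map_pow]⟩)

private theorem top_m_q (α : N →* N) (n : N) : top_m N p α (top_q N p n) = top_q N p (α n) := rfl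

end top_aux

/-- PROOF. `N = π.ker`, `B = Abelianization N` (finite, commutative), `V = Additive (B ⧸ (powMonoidHom p).range)`. `p` divides `|B|`, so the `p`-power map of `B` is not injective, hence not
surjective, `V ≠ 0`. `H` acts: `g` acts on `N` by conjugation (`MulAut.conjNormal`), so on `B` (`Abelianization.map`), `N` acts trivially on `B`; `π` is surjective. `ρ h` = the action of any `g` over `h`. -/
theorem exists_top {G H : Type} [Group G] [Finite G] [Group H] (π : G →* H) (hπ : Function.Surjective π) {p : ℕ}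
    (hp : p.Prime) (h : p ∣ Nat.card (Abelianization π.ker)) :
    ∃ (V : Type) (_ : AddCommGroup V) (_ : Top π p V), ∃ v : V, v ≠ 0 := by
  classical
  let cj : G → (π.ker →* π.ker) := fun g => (MulAut.conjNormal g : MulAut π.ker).toMonoidHom
  let ψ : G →* AddMonoid.End (Additive (top_Q π.ker p)) :=
    { toFun := fun g => MonoidHom.toAdditive (top_m π.ker p (cj g))
      map_one' := by
        refine AddMonoidHom.ext fun v => ?_
        obtain ⟨n, hn⟩ := top_q_sur π.ker p v.toMul
        show Additive.ofMul (top_m π.ker p (cj 1) v.toMul) = v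
        rw [← hn, top_m_q]
        have : cj 1 n = n := by
          show (MulAut.conjNormal (1 : G)) n = n
          rw [map_one]; rfl
        rw [this, hn]; rfl
      map_mul' := by
        intro a b
        refine AddMonoidHom.ext fun v => ?_
        obtain ⟨n, hn⟩ := top_q_sur π.ker p v.toMul
        show Additive.ofMul (top_m π.ker p (cj (a * b)) v.toMul) =
          Additive.ofMul (top_m π.ker p (cj a) (top_m π.ker p (cj b) v.toMul))
        rw [← hn, top_m_q, top_m_q, top_m_q]
        have : cj (a * b) n = cj a (cj b n) := by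
          show (MulAut.conjNormal (a * b)) n = (MulAut.conjNormal a) ((MulAut.conjNormal b) n)
          rw [map_mul]; rfl
        rw [this] }
  have hψ : ∀ (g : G) (n : π.ker), ψ g (Additive.ofMul (top_q π.ker p n)) =
      Additive.ofMul (top_q π.ker p (cj g n)) := fun g n => rfl
  have hker : ∀ g ∈ π.ker, ψ g = 1 := by
    intro g hg
    refine AddMonoidHom.ext fun v => ?_
    obtain ⟨n, hn⟩ := top_q_sur π.ker p v.toMul
    have hv : v = Additive.ofMul (top_q π.ker p n) := by rw [hn]; rfl
    subst hv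
    refine (hψ g n).trans ?_
    show Additive.ofMul (top_q π.ker p (cj g n)) = Additive.ofMul (top_q π.ker p n)
    have : cj g n = (⟨g, hg⟩ : π.ker) * n * (⟨g, hg⟩ : π.ker)⁻¹ := by
      apply Subtype.ext
      show ((MulAut.conjNormal g n : π.ker) : G) = _
      rw [MulAut.conjNormal_apply]
      rfl
    have h2 : top_q π.ker p (cj g n) = top_q π.ker p n := by
      rw [this, map_mul, map_mul, map_inv, mul_comm (top_q π.ker p _) (top_q π.ker p n),
        mul_inv_cancel_right]
    exact congrArg Additive.ofMul h2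
  let ρ : H →* AddMonoid.End (Additive (top_Q π.ker p)) :=
    (QuotientGroup.lift π.ker ψ (fun g hg => hker g hg)).comp
      (QuotientGroup.quotientKerEquivOfSurjective π hπ).symm.toMonoidHom
  have hρ : ∀ g : G, ρ (π g) = ψ g := by
    intro g
    have h1 : (QuotientGroup.quotientKerEquivOfSurjective π hπ).symm (π g) = (g : G ⧸ π.ker) := by
      rw [MulEquiv.symm_apply_eq]; rfl
    show QuotientGroup.lift π.ker ψ (fun g hg => hker g hg)
      ((QuotientGroup.quotientKerEquivOfSurjective π hπ).symm (π g)) = ψ g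
    rw [h1]; rfl
  refine ⟨Additive (top_Q π.ker p), inferInstance, ?_⟩
  let T : Top π p (Additive (top_Q π.ker p)) :=
    { ρ := ρ
      f := fun n => Additive.ofMul (top_q π.ker p n)
      mul := fun a b => by rw [map_mul]; rfl
      sur := fun v => by
        obtain ⟨n, hn⟩ := top_q_sur π.ker p v.toMul
        exact ⟨n, by show Additive.ofMul (top_q π.ker p n) = v; rw [hn]; rfl⟩
      pV := fun v => by
        obtain ⟨n, hn⟩ := top_q_sur π.ker p v.toMul
        have hv : v = Additive.ofMul (top_q π.ker p n) := by rw [hn]; rfl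
        rw [hv, ← ofMul_pow, ← map_pow]
        show Additive.ofMul (((Abelianization.of (n ^ p) : Abelianization π.ker)) : top_Q π.ker p) = 0
        have : ((Abelianization.of (n ^ p) : Abelianization π.ker) : top_Q π.ker p) = 1 := by
          rw [QuotientGroup.eq_one_iff]
          exact ⟨Abelianization.of n, by rw [powMonoidHom_apply, map_pow]⟩
        rw [this]; rfl
      eqv := fun g a b hb => by
        rw [hρ, hψ]
        have : b = cj g a := by
          apply Subtype.ext
          show (b : G) = ((MulAut.conjNormal g a : π.ker) : G)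
          rw [MulAut.conjNormal_apply, hb]
        rw [this] }
  refine ⟨T, ?_⟩
  -- nonzero
  have : Fact p.Prime := ⟨hp⟩
  have hrange : (powMonoidHom p : Abelianization π.ker →* Abelianization π.ker).range ≠ ⊤ := by
    intro htop
    have hs : Function.Surjective (powMonoidHom p : Abelianization π.ker →* Abelianization π.ker) :=
      MonoidHom.range_eq_top.1 htop
    have hi := Finite.injective_iff_surjective.2 hs
    obtain ⟨b, hb⟩ := exists_prime_orderOf_dvd_card' p h
    have h1 : (powMonoidHom p : Abelianization π.ker →* Abelianization π.ker) b = 1 := by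
      rw [powMonoidHom_apply, ← hb, pow_orderOf_eq_one]
    have h2 : b = 1 := hi (by rw [h1, map_one])
    rw [h2, orderOf_one] at hb
    exact hp.ne_one hb.symm
  obtain ⟨b, hb⟩ : ∃ b, b ∉ (powMonoidHom p : Abelianization π.ker →* Abelianization π.ker).range := by
    by_contra hcon
    push Not at hcon
    exact hrange ((Subgroup.eq_top_iff' _).2 hcon)
  refine ⟨Additive.ofMul ((b : top_Q π.ker p)), ?_⟩
  intro h0
  apply hb
  rw [← QuotientGroup.eq_one_iff]
  exact h0
-- END top

-- BEGIN real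
private theorem real_crt {G : Type*} [Group G] [Finite G] {a b : ℕ} (h : a.Coprime b) (x d : G)
    (hx : x ^ a = 1) (hd : d ^ b = 1) (hc : Commute x d) :
    ∃ n m : ℕ, (x * d) ^ n = x ∧ (x * d⁻¹) ^ n = x ∧ (x * d) ^ m = d ∧ (x * d⁻¹) ^ m = d⁻¹ := by
  obtain ⟨n, hn1, hn2⟩ := Nat.chineseRemainder h 1 0
  obtain ⟨m, hm1, hm2⟩ := Nat.chineseRemainder h 0 1
  have hxn : x ^ n = x := by
    have : x ^ n = x ^ 1 := pow_eq_pow_iff_modEq.2 (hn1.of_dvd (orderOf_dvd_of_pow_eq_one hx))
    simpa using this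
  have hdn : d ^ n = 1 := by
    have : d ^ n = d ^ 0 := pow_eq_pow_iff_modEq.2 (hn2.of_dvd (orderOf_dvd_of_pow_eq_one hd))
    simpa using this
  have hxm : x ^ m = 1 := by
    have : x ^ m = x ^ 0 := pow_eq_pow_iff_modEq.2 (hm1.of_dvd (orderOf_dvd_of_pow_eq_one hx))
    simpa using this
  have hdm : d ^ m = d := by
    have : d ^ m = d ^ 1 := pow_eq_pow_iff_modEq.2 (hm2.of_dvd (orderOf_dvd_of_pow_eq_one hd))
    simpa using this
  have hc' : Commute x d⁻¹ := hc.inv_right
  refine ⟨n, m, ?_, ?_, ?_, ?_⟩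
  · rw [hc.mul_pow, hxn, hdn, mul_one]
  · rw [hc'.mul_pow, hxn, inv_pow, hdn, inv_one, mul_one]
  · rw [hc.mul_pow, hxm, hdm, one_mul]
  · rw [hc'.mul_pow, hxm, inv_pow, hdm, one_mul]

/-- LEMMA 2, first part. PROOF. Suppose `t` does not divide `orderOf (π y)`. `d` of order `t` in the centralizer of `y` in the kernel (Cauchy); `t` is odd. `x'` = a power of `y` of order prime to `t` with `π x' = π y`; it commutes with `d`.
`x' * d`, `x' * d⁻¹` have the same centralizer, so they are conjugate by `g` (`ah_conj`), `g` commutes with `x'` and inverts `d`. `π g` centralizes `π y`, whose centralizer is `zpowers (π y)` (same order), so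
`g = x' ^ k * ν`, `ν` in the kernel, `ν` inverts `d`. `ν` has odd order `o`: `ν = (ν ^ 2) ^ ((o + 1) / 2)` centralizes `d`. So `d ^ 2 = 1`, `d = 1`. -/
theorem real_pr {G H : Type*} [Group G] [Finite G] [Group H] [Finite H] (hG : Ah G) (π : G →* H)
    (hodd : Nat.card π.ker % 2 = 1) (y : G) (hy : Nat.card (Subgroup.centralizer {π y}) = orderOf (π y)) {t : ℕ}
    (ht : t.Prime) (h : t ∣ Nat.card (Subgroup.centralizer {y} ⊓ π.ker : Subgroup G)) : t ∣ orderOf (π y) := by
  by_contra hnt
  have : Fact t.Prime := ⟨ht⟩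
  obtain ⟨d', hd'⟩ := exists_prime_orderOf_dvd_card' t h
  obtain ⟨d, hdC, hdN⟩ := d'
  have hdo : orderOf d = t := by
    rw [← hd']; exact (Subgroup.orderOf_coe (⟨d, hdC, hdN⟩ : (Subgroup.centralizer {y} ⊓ π.ker : Subgroup G)))
  have hyd : Commute y d := Subgroup.mem_centralizer_singleton_iff.1 hdC |>.symm
  have htk : t ∣ Nat.card π.ker := by
    refine h.trans ?_
    exact Subgroup.card_dvd_of_le inf_le_right
  have ht2 : t ≠ 2 := by
    rintro rfl
    omega
  -- the power of y
  obtain ⟨e, m, hm, hem⟩ := Nat.exists_eq_pow_mul_and_not_dvd (orderOf_pos y).ne' t ht.ne_one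
  have hcop : (orderOf (π y)).Coprime (t ^ e) :=
    Nat.Coprime.pow_right _ ((Nat.Prime.coprime_iff_not_dvd ht).2 hnt).symm
  obtain ⟨k, hk1, hk2⟩ := Nat.chineseRemainder hcop 1 0
  set x := y ^ k with hx
  have hπx : π x = π y := by
    rw [hx, map_pow]
    have : (π y) ^ k = (π y) ^ 1 := pow_eq_pow_iff_modEq.2 hk1
    simpa using this
  have hxm : x ^ m = 1 := by
    rw [hx, ← pow_mul]
    apply orderOf_dvd_iff_pow_eq_one.1
    rw [hem]
    exact Nat.mul_dvd_mul_right ((Nat.modEq_zero_iff_dvd).1 hk2) m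
  have hxd : Commute x d := hyd.pow_left k
  have hmt : m.Coprime t := ((Nat.Prime.coprime_iff_not_dvd ht).2 hm).symm
  have hdt : d ^ t = 1 := by rw [← hdo]; exact pow_orderOf_eq_one d
  obtain ⟨n1, n2, h1, h2, h3, h4⟩ := real_crt hmt x d hxm hdt hxd
  -- same centralizer
  have hcent : Subgroup.centralizer {x * d} = Subgroup.centralizer {x * d⁻¹} := by
    ext g
    rw [Subgroup.mem_centralizer_singleton_iff, Subgroup.mem_centralizer_singleton_iff]
    constructor
    · intro hg
      have hg' : Commute g (x * d) := hg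
      have ha : Commute g x := by have := hg'.pow_right n1; rwa [h1] at this
      have hb : Commute g d := by have := hg'.pow_right n2; rwa [h3] at this
      exact ha.mul_right hb.inv_right
    · intro hg
      have hg' : Commute g (x * d⁻¹) := hg
      have ha : Commute g x := by have := hg'.pow_right n1; rwa [h2] at this
      have hb : Commute g d⁻¹ := by have := hg'.pow_right n2; rwa [h4] at this
      have hb' : Commute g d := by have := hb.inv_right; rwa [inv_inv] at this
      exact ha.mul_right hb'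
  obtain ⟨g, hg⟩ := isConj_iff.1 (ah_conj hG (x * d) (x * d⁻¹) (by rw [hcent]))
  have hgx : g * x * g⁻¹ = x := by
    have := congrArg (fun z => z ^ n1) hg
    simp only [conj_pow, h1, h2] at this
    exact this
  have hgd : g * d * g⁻¹ = d⁻¹ := by
    have := congrArg (fun z => z ^ n2) hg
    simp only [conj_pow, h3, h4] at this
    exact this
  have hz : Subgroup.zpowers (π y) = Subgroup.centralizer {π y} := by
    refine Subgroup.eq_of_le_of_card_ge ?_ ?_
    · rw [Subgroup.zpowers_le, Subgroup.mem_centralizer_singleton_iff]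
    · rw [hy, Nat.card_zpowers]
  have hπg : π g ∈ Subgroup.zpowers (π y) := by
    rw [hz, Subgroup.mem_centralizer_singleton_iff, ← hπx]
    have h5 : g * x = x * g := mul_inv_eq_iff_eq_mul.1 hgx
    rw [← map_mul, ← map_mul, h5]
  obtain ⟨j, hj⟩ := Subgroup.mem_zpowers_iff.1 hπg
  set ν := x ^ (-j) * g with hν
  have hνk : ν ∈ π.ker := by
    rw [MonoidHom.mem_ker, hν, map_mul, map_zpow, hπx, ← hj, zpow_neg, inv_mul_cancel]
  have hνd : ν * d * ν⁻¹ = d⁻¹ := by
    have h6 : Commute (x ^ (-j)) d⁻¹ := (hxd.zpow_left _).inv_right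
    calc ν * d * ν⁻¹ = x ^ (-j) * (g * d * g⁻¹) * (x ^ (-j))⁻¹ := by rw [hν]; group
      _ = x ^ (-j) * d⁻¹ * (x ^ (-j))⁻¹ := by rw [hgd]
      _ = d⁻¹ := by rw [h6.eq, mul_inv_cancel_right]
  have hν2 : Commute (ν ^ 2) d := by
    have h7 : ν * d = d⁻¹ * ν := mul_inv_eq_iff_eq_mul.1 hνd
    have h8 : ν * d⁻¹ = d * ν := by
      have := congrArg (fun z => z⁻¹) hνd
      have h9 : ν * d⁻¹ * ν⁻¹ = d := by
        simpa [mul_inv_rev, mul_assoc] using this
      exact mul_inv_eq_iff_eq_mul.1 h9
    show ν ^ 2 * d = d * ν ^ 2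
    rw [pow_two, mul_assoc, h7, ← mul_assoc, h8, mul_assoc]
  have hνo : orderOf ν % 2 = 1 := by
    have h10 : orderOf ν ∣ Nat.card π.ker := Subgroup.orderOf_dvd_natCard π.ker hνk
    obtain ⟨c, hc⟩ := h10
    rcases Nat.mod_two_eq_zero_or_one (orderOf ν) with h11 | h11
    · rw [hc, Nat.mul_mod, h11] at hodd
      simp at hodd
    · exact h11
  have hνc : Commute ν d := by
    have h12 := hν2.pow_left ((orderOf ν + 1) / 2)
    rw [← pow_mul] at h12
    have h13 : 2 * ((orderOf ν + 1) / 2) = orderOf ν + 1 := by omega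
    rw [h13, pow_succ, pow_orderOf_eq_one, one_mul] at h12
    exact h12
  have hd2 : d = d⁻¹ := by
    rw [← hνd, hνc.eq, mul_inv_cancel_right]
  have hdd : d ^ 2 = 1 := by
    rw [pow_two]
    nth_rw 2 [hd2]
    exact mul_inv_cancel d
  have : t ∣ 2 := by rw [← hdo]; exact orderOf_dvd_of_pow_eq_one hdd
  rcases (Nat.dvd_prime Nat.prime_two).1 this with h14 | h14
  · exact ht.ne_one h14
  · exact ht2 h14
-- END real

-- BEGIN psd2
/-- The action of a normal subgroup `P` by conjugation on the coset `x P`. -/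
@[instance_reducible] private def psd2_act {G : Type*} [Group G] (P : Subgroup G) [P.Normal] (x : G) : MulAction P {w : G // x⁻¹ * w ∈ P} where
  smul a w := ⟨(a : G) * w.1 * (a : G)⁻¹, by
    have h1 : x⁻¹ * (a : G) * x ∈ P := by
      have := ‹P.Normal›.conj_mem (a : G) a.2 x⁻¹
      simpa using this
    have h2 := P.mul_mem (P.mul_mem h1 w.2) (P.inv_mem a.2)
    have e : x⁻¹ * (a : G) * x * (x⁻¹ * w.1) * (a : G)⁻¹ = x⁻¹ * ((a : G) * w.1 * (a : G)⁻¹) := by group
    rw [e] at h2
    exact h2⟩
  one_smul w := by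
    apply Subtype.ext
    show ((1 : P) : G) * w.1 * ((1 : P) : G)⁻¹ = w.1
    simp
  mul_smul a b w := by
    apply Subtype.ext
    show ((a * b : P) : G) * w.1 * ((a * b : P) : G)⁻¹ = (a : G) * ((b : G) * w.1 * (b : G)⁻¹) * (a : G)⁻¹
    rw [Subgroup.coe_mul]
    group

/-- PROOF. As `NbS.psd` (same proof, replace `|N|` by `M`): the kernel acts by conjugation on the coset of `x`; the orbit sizes `|N| / |C_N(y_i)|` are distinct with the sum `|N|`; so `∑ 1 / |C_N(y_i)| = 1` and the numbers
`M / |C_N(y_i)|` are distinct divisors of `M` with the sum `M`. If none is `M` then `M` is pseudoperfect. So some `C_N(y_i)` is trivial and the coset is one orbit. -/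
theorem psd2 {G H : Type*} [Group G] [Finite G] [Group H] [Finite H] (hG : Ah G) (π : G →* H) (x : G)
    (hx : Nat.card (Subgroup.centralizer {π x}) = orderOf (π x)) (M : ℕ) (hM0 : 0 < M)
    (hM : ∀ y : G, π y = π x → Nat.card (Subgroup.centralizer {y} ⊓ π.ker : Subgroup G) ∣ M)
    (hps : ¬ Nat.Pseudoperfect M) : ∀ v ∈ π.ker, x * v = v * x → v = 1 := by
  classical
  letI act := psd2_act π.ker x
  have hsm : ∀ (a : π.ker) (w : {w : G // x⁻¹ * w ∈ π.ker}), (a • w).1 = (a : G) * w.1 * (a : G)⁻¹ := fun _ _ => rfl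
  have hπ : ∀ w : {w : G // x⁻¹ * w ∈ π.ker}, π w.1 = π x := by
    intro w
    have h := w.2
    rw [MonoidHom.mem_ker, map_mul, map_inv, inv_mul_eq_one] at h
    exact h.symm
  have hcard : Nat.card {w : G // x⁻¹ * w ∈ π.ker} = Nat.card π.ker := by
    refine Nat.card_congr
      { toFun := fun w => ⟨x⁻¹ * w.1, w.2⟩
        invFun := fun v => ⟨x * v.1, by rw [inv_mul_cancel_left]; exact v.2⟩
        left_inv := fun w => Subtype.ext (by simp)
        right_inv := fun v => Subtype.ext (by simp) }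
  -- stabilizers and centralizers
  have hst : ∀ w : {w : G // x⁻¹ * w ∈ π.ker},
      Nat.card (Subgroup.centralizer {w.1} ⊓ π.ker : Subgroup G) = Nat.card (MulAction.stabilizer π.ker w) := by
    intro w
    refine Nat.card_congr
      { toFun := fun g => ⟨⟨g.1, g.2.2⟩, by
          rw [MulAction.mem_stabilizer_iff]
          apply Subtype.ext
          rw [hsm]
          show g.1 * w.1 * g.1⁻¹ = w.1
          have hg := (Subgroup.mem_centralizer_singleton_iff).1 g.2.1
          rw [hg, mul_assoc, mul_inv_cancel, mul_one]⟩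
        invFun := fun g => ⟨(g.1 : G), by
          refine ⟨?_, g.1.2⟩
          have hg := g.2
          rw [MulAction.mem_stabilizer_iff] at hg
          have h2 := congrArg Subtype.val hg
          rw [hsm] at h2
          rw [mul_inv_eq_iff_eq_mul] at h2
          exact (Subgroup.mem_centralizer_singleton_iff).2 h2⟩
        left_inv := fun g => rfl
        right_inv := fun g => rfl }
  have hmul : ∀ w : {w : G // x⁻¹ * w ∈ π.ker},
      Nat.card (MulAction.orbit π.ker w) * Nat.card (MulAction.stabilizer π.ker w) = Nat.card π.ker := by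
    intro w
    rw [← Nat.card_congr (MulAction.orbitProdStabilizerEquivGroup π.ker w), Nat.card_prod]
  have hNpos : 0 < Nat.card π.ker := Nat.card_pos
  -- the centralizer of `π x`
  have hcz : Subgroup.centralizer {π x} = Subgroup.zpowers (π x) := by
    symm
    apply Subgroup.eq_of_le_of_card_ge
    · rw [Subgroup.zpowers_le]
      exact Subgroup.mem_centralizer_singleton_iff.2 rfl
    · rw [hx, Nat.card_zpowers]
  -- two orbits of the same size are equal
  have hsame : ∀ w w' : {w : G // x⁻¹ * w ∈ π.ker},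
      Nat.card (MulAction.orbit π.ker w) = Nat.card (MulAction.orbit π.ker w') →
      w' ∈ MulAction.orbit π.ker w := by
    intro w w' hww
    have h1 := hmul w
    have h2 := hmul w'
    rw [hww] at h1
    have hop : 0 < Nat.card (MulAction.orbit π.ker w') := by
      rcases Nat.eq_zero_or_pos (Nat.card (MulAction.orbit π.ker w')) with h | h
      · rw [h, zero_mul] at h2; omega
      · exact h
    have h3 : Nat.card (MulAction.stabilizer π.ker w) = Nat.card (MulAction.stabilizer π.ker w') :=
      Nat.eq_of_mul_eq_mul_left hop (h1.trans h2.symm)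
    have hC : ∀ y : {w : G // x⁻¹ * w ∈ π.ker}, Nat.card (Subgroup.centralizer {y.1}) =
        Nat.card (MulAction.stabilizer π.ker y) * orderOf (π x) := by
      intro y
      rw [card_cent π y.1, hst y]
      have h4 := im_cent π (r := 1) (Or.inl rfl) y.1 (by rw [hπ y, hx, one_mul])
      rw [hπ y] at h4
      rcases h4 with h4 | ⟨h4, -⟩
      · rw [h4]
      · omega
    have h5 : Nat.card (Subgroup.centralizer {w.1}) = Nat.card (Subgroup.centralizer {w'.1}) := by
      rw [hC, hC, h3]
    obtain ⟨g, hg⟩ := isConj_iff.1 (ah_conj hG w.1 w'.1 h5)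
    have h6 : π g ∈ Subgroup.centralizer {π x} := by
      rw [Subgroup.mem_centralizer_singleton_iff]
      have h7 := congrArg π hg
      rw [map_mul, map_mul, map_inv, hπ w, hπ w', mul_inv_eq_iff_eq_mul] at h7
      exact h7
    rw [hcz, Subgroup.mem_zpowers_iff] at h6
    obtain ⟨k, hk⟩ := h6
    have h8 : g * (w.1 ^ k)⁻¹ ∈ π.ker := by
      rw [MonoidHom.mem_ker, map_mul, map_inv, map_zpow, hπ w, hk, mul_inv_cancel]
    refine ⟨⟨g * (w.1 ^ k)⁻¹, h8⟩, ?_⟩
    apply Subtype.ext
    show (g * (w.1 ^ k)⁻¹) * w.1 * (g * (w.1 ^ k)⁻¹)⁻¹ = w'.1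
    rw [← hg]
    have h9 : (w.1 ^ k)⁻¹ * w.1 * w.1 ^ k = w.1 := by
      rw [← zpow_neg, ← zpow_add_one, ← zpow_add]
      have : (-k + 1 + k) = 1 := by ring
      rw [this, zpow_one]
    calc (g * (w.1 ^ k)⁻¹) * w.1 * (g * (w.1 ^ k)⁻¹)⁻¹ = g * ((w.1 ^ k)⁻¹ * w.1 * w.1 ^ k) * g⁻¹ := by group
      _ = g * w.1 * g⁻¹ := by rw [h9]
  -- some orbit is everything
  haveI : Finite (MulAction.orbitRel.Quotient π.ker {w : G // x⁻¹ * w ∈ π.ker}) := Quotient.finite _
  haveI : Fintype (MulAction.orbitRel.Quotient π.ker {w : G // x⁻¹ * w ∈ π.ker}) := Fintype.ofFinite _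
  have hsum : ∑ q : MulAction.orbitRel.Quotient π.ker {w : G // x⁻¹ * w ∈ π.ker},
      Nat.card (MulAction.orbit π.ker q.out) = Nat.card π.ker := by
    rw [← hcard, Nat.card_congr (MulAction.selfEquivSigmaOrbits π.ker {w : G // x⁻¹ * w ∈ π.ker}), Nat.card_sigma]
  have hex : ∃ q : MulAction.orbitRel.Quotient π.ker {w : G // x⁻¹ * w ∈ π.ker},
      Nat.card (MulAction.orbit π.ker q.out) = Nat.card π.ker := by
    by_contra hcon
    push Not at hcon
    apply hps
    have hsd : ∀ w : {w : G // x⁻¹ * w ∈ π.ker}, Nat.card (MulAction.stabilizer π.ker w) ∣ M := by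
      intro w
      rw [← hst w]
      exact hM w.1 (hπ w)
    have hspos : ∀ w : {w : G // x⁻¹ * w ∈ π.ker}, 0 < Nat.card (MulAction.stabilizer π.ker w) := by
      intro w
      rcases Nat.eq_zero_or_pos (Nat.card (MulAction.stabilizer π.ker w)) with h | h
      · have := hmul w
        rw [h, mul_zero] at this
        omega
      · exact h
    -- `M / |stab|` and `|orbit|` are proportional
    have hprop : ∀ w : {w : G // x⁻¹ * w ∈ π.ker},
        M / Nat.card (MulAction.stabilizer π.ker w) * Nat.card π.ker = M * Nat.card (MulAction.orbit π.ker w) := by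
      intro w
      obtain ⟨c, hc⟩ := hsd w
      have h1 : M / Nat.card (MulAction.stabilizer π.ker w) = c := by
        rw [hc]
        exact Nat.mul_div_cancel_left c (hspos w)
      rw [h1, ← hmul w]
      calc c * (Nat.card (MulAction.orbit π.ker w) * Nat.card (MulAction.stabilizer π.ker w))
          = (Nat.card (MulAction.stabilizer π.ker w) * c) * Nat.card (MulAction.orbit π.ker w) := by ring
        _ = M * Nat.card (MulAction.orbit π.ker w) := by rw [← hc]
    refine ⟨hM0, Finset.univ.image (fun q : MulAction.orbitRel.Quotient π.ker {w : G // x⁻¹ * w ∈ π.ker} =>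
      M / Nat.card (MulAction.stabilizer π.ker q.out)), ?_, ?_⟩
    · intro s hs
      rw [Finset.mem_image] at hs
      obtain ⟨q, -, rfl⟩ := hs
      rw [Nat.mem_properDivisors]
      refine ⟨Nat.div_dvd_of_dvd (hsd q.out), Nat.div_lt_self hM0 ?_⟩
      have h1 := hspos q.out
      by_contra h2
      have h3 : Nat.card (MulAction.stabilizer π.ker q.out) = 1 := by omega
      have h4 := hmul q.out
      rw [h3, mul_one] at h4
      exact hcon q h4
    · have hinj : ∀ q ∈ (Finset.univ : Finset (MulAction.orbitRel.Quotient π.ker {w : G // x⁻¹ * w ∈ π.ker})),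
          ∀ q' ∈ (Finset.univ : Finset (MulAction.orbitRel.Quotient π.ker {w : G // x⁻¹ * w ∈ π.ker})),
          M / Nat.card (MulAction.stabilizer π.ker q.out) = M / Nat.card (MulAction.stabilizer π.ker q'.out) → q = q' := by
        intro q _ q' _ hqq
        have h0 : M * Nat.card (MulAction.orbit π.ker q.out) = M * Nat.card (MulAction.orbit π.ker q'.out) := by
          rw [← hprop, ← hprop, hqq]
        have h1 := hsame q.out q'.out (Nat.eq_of_mul_eq_mul_left hM0 h0)
        have h2 : (Quotient.mk (MulAction.orbitRel π.ker {w : G // x⁻¹ * w ∈ π.ker}) q'.out) =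
            Quotient.mk (MulAction.orbitRel π.ker {w : G // x⁻¹ * w ∈ π.ker}) q.out :=
          Quotient.sound ((MulAction.orbitRel_apply).mpr h1)
        exact ((Quotient.out_eq q').symm.trans (h2.trans (Quotient.out_eq q))).symm
      rw [Finset.sum_image hinj]
      refine Nat.eq_of_mul_eq_mul_right hNpos ?_
      rw [Finset.sum_mul, Finset.sum_congr rfl fun q _ => hprop q.out, ← Finset.mul_sum, hsum]
  obtain ⟨q, hq⟩ := hex
  have hall : MulAction.orbit π.ker q.out = Set.univ := by
    apply (Set.eq_univ_iff_ncard _).2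
    rw [hcard]
    exact hq
  intro v hv hxv
  have hxm : x⁻¹ * x ∈ π.ker := by rw [inv_mul_cancel]; exact π.ker.one_mem
  have h1 : (⟨x, hxm⟩ : {w : G // x⁻¹ * w ∈ π.ker}) ∈ MulAction.orbit π.ker q.out := by
    rw [hall]; trivial
  have h2 : MulAction.orbit π.ker (⟨x, hxm⟩ : {w : G // x⁻¹ * w ∈ π.ker}) = MulAction.orbit π.ker q.out :=
    MulAction.orbit_eq_iff.2 h1
  have h3 := hmul ⟨x, hxm⟩
  rw [h2, hq] at h3
  have h4 : Nat.card (MulAction.stabilizer π.ker (⟨x, hxm⟩ : {w : G // x⁻¹ * w ∈ π.ker})) = 1 :=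
    Nat.eq_of_mul_eq_mul_left hNpos (by rw [h3, mul_one])
  have h5 := Subgroup.card_eq_one.mp h4
  have h6 : (⟨v, hv⟩ : π.ker) ∈ MulAction.stabilizer π.ker (⟨x, hxm⟩ : {w : G // x⁻¹ * w ∈ π.ker}) := by
    rw [MulAction.mem_stabilizer_iff]
    apply Subtype.ext
    show v * x * v⁻¹ = x
    rw [← hxv, mul_assoc, mul_inv_cancel, mul_one]
  rw [h5, Subgroup.mem_bot] at h6
  exact congrArg Subtype.val h6
-- END psd2

-- BEGIN nps
private theorem nps_pp {p : ℕ} (hp : p.Prime) (a : ℕ) :
    (∑ d ∈ (p ^ a).divisors, d) * (p - 1) + 1 = p * p ^ a := by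
  rw [Nat.sum_divisors_prime_pow hp]
  obtain ⟨x, rfl⟩ : ∃ x, p = x + 1 := ⟨p - 1, (Nat.succ_pred_eq_of_pos hp.pos).symm⟩
  rw [Nat.add_sub_cancel, geom_sum_mul_add, pow_succ, mul_comm]

/-- PROOF. The sum of all divisors of `q ^ a * r ^ b` is less than `q / (q - 1) * r / (r - 1) * q ^ a r ^ b ≤ 15 / 8 * q ^ a * r ^ b` (`q, r` distinct odd primes; `Nat.divisors` of a product of coprime numbers,
`Nat.Coprime.sum_divisors_mul`, `Nat.divisors_prime_pow`, geometric sums), so the sum of the proper divisors is less than the number (`Nat.Deficient`). -/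
theorem nps {q r : ℕ} (hq : q.Prime) (hr : r.Prime) (h2q : q ≠ 2) (h2r : r ≠ 2) (hqr : q ≠ r) (a b : ℕ) :
    ¬ Nat.Pseudoperfect (q ^ a * r ^ b) := by
  rintro ⟨h0, s, hs, hsum⟩
  have hcop : Nat.Coprime (q ^ a) (r ^ b) := ((Nat.coprime_primes hq hr).2 hqr).pow a b
  have h1 := nps_pp hq a
  have h2 := nps_pp hr b
  have h3 : ∑ d ∈ (q ^ a * r ^ b).divisors, d = (∑ d ∈ (q ^ a).divisors, d) * ∑ d ∈ (r ^ b).divisors, d :=
    hcop.sum_divisors_mul
  have h4 : ∑ d ∈ (q ^ a * r ^ b).divisors, d = (∑ d ∈ (q ^ a * r ^ b).properDivisors, d) + q ^ a * r ^ b :=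
    Nat.sum_divisors_eq_sum_properDivisors_add_self
  have h5 : q ^ a * r ^ b ≤ ∑ d ∈ (q ^ a * r ^ b).properDivisors, d := by
    conv_lhs => rw [← hsum]
    exact Finset.sum_le_sum_of_subset hs
  have hq3 : 3 ≤ q := by have := hq.two_le; omega
  have hr3 : 3 ≤ r := by have := hr.two_le; omega
  have hq4 : q ≠ 4 := by rintro rfl; exact absurd hq (by norm_num)
  have hr4 : r ≠ 4 := by rintro rfl; exact absurd hr (by norm_num)
  have h6 : q * r ≤ 2 * ((q - 1) * (r - 1)) := by
    obtain ⟨x, rfl⟩ : ∃ x, q = x + 3 := ⟨q - 3, by omega⟩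
    obtain ⟨y, rfl⟩ : ∃ y, r = y + 3 := ⟨r - 3, by omega⟩
    have e1 : x + 3 - 1 = x + 2 := by omega
    have e2 : y + 3 - 1 = y + 2 := by omega
    rw [e1, e2]
    have h7 : 1 ≤ x + y := by omega
    nlinarith [Nat.zero_le (x * y)]
  have hMpos : 0 < q ^ a * r ^ b := h0
  set S := ∑ d ∈ (q ^ a).divisors, d with hS
  set T := ∑ d ∈ (r ^ b).divisors, d with hT
  set A := q ^ a with hA
  set B := r ^ b with hB
  have h8 : S * (q - 1) < q * A := by omega
  have h9 : T * (r - 1) < r * B := by omega
  have h10 : 2 * (A * B) ≤ S * T := by rw [← h3, h4]; omega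
  have h11 : S * (q - 1) * (T * (r - 1)) < q * A * (r * B) := Nat.mul_lt_mul'' h8 h9
  have h12 : 2 * (A * B) * ((q - 1) * (r - 1)) ≤ S * T * ((q - 1) * (r - 1)) := Nat.mul_le_mul_right _ h10
  have h13 : q * r * (A * B) ≤ 2 * ((q - 1) * (r - 1)) * (A * B) := Nat.mul_le_mul_right _ h6
  nlinarith [h11, h12, h13]
-- END nps

-- BEGIN egy
private theorem egy_ex (q : ℕ) : ∃ s : ℕ, s.Prime ∧ s ≠ 2 ∧ s ≠ q := by
  by_cases h : q = 3
  · exact ⟨5, by norm_num, by norm_num, by omega⟩
  · exact ⟨3, by norm_num, by norm_num, fun h2 => h h2.symm⟩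

private theorem egy_two (q r : ℕ) : ∃ q' r' : ℕ, q'.Prime ∧ r'.Prime ∧ q' ≠ 2 ∧ r' ≠ 2 ∧ q' ≠ r' ∧
    ∀ t : ℕ, t.Prime → (t = 2 ∨ t = q ∨ t = r) → (t = 2 ∨ t = q' ∨ t = r') := by
  by_cases hq : q.Prime ∧ q ≠ 2
  · by_cases hr : (r.Prime ∧ r ≠ 2) ∧ q ≠ r
    · exact ⟨q, r, hq.1, hr.1.1, hq.2, hr.1.2, hr.2, fun t _ h => h⟩
    · obtain ⟨s, hs, hs2, hsq⟩ := egy_ex q
      refine ⟨q, s, hq.1, hs, hq.2, hs2, fun h => hsq h.symm, fun t ht h => ?_⟩
      rcases h with h | h | h
      · exact Or.inl h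
      · exact Or.inr (Or.inl h)
      · by_cases h2 : t = 2
        · exact Or.inl h2
        · right; left
          by_contra h3
          apply hr
          rw [← h]
          exact ⟨⟨ht, h2⟩, fun h4 => h3 h4.symm⟩
  · by_cases hr : r.Prime ∧ r ≠ 2
    · obtain ⟨s, hs, hs2, hsr⟩ := egy_ex r
      refine ⟨s, r, hs, hr.1, hs2, hr.2, hsr, fun t ht h => ?_⟩
      rcases h with h | h | h
      · exact Or.inl h
      · left
        by_contra h2
        exact hq (h ▸ ⟨ht, h2⟩)
      · exact Or.inr (Or.inr h)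
    · refine ⟨3, 5, by norm_num, by norm_num, by norm_num, by norm_num, by norm_num, fun t ht h => ?_⟩
      left
      rcases h with h | h | h
      · exact h
      · by_contra h2
        exact hq (h ▸ ⟨ht, h2⟩)
      · by_contra h2
        exact hr (h ▸ ⟨ht, h2⟩)

/-- LEMMA 2, assembly. PROOF. We may take `q, r` distinct odd primes (replace the wrong ones by `3`, `5`, `7`: the hypothesis `h` gets weaker only for primes which do not divide). `M = q ^ a * r ^ b` with
`a = (Nat.card π.ker).factorization q` and so on; `|C_N(y)|` divides `|ker π|` (odd) and its primes are `q` or `r` (`real_pr`), so it divides `M`. `psd2`, `nps`. -/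
theorem egy {G H : Type*} [Group G] [Finite G] [Group H] [Finite H] (hG : Ah G) (π : G →* H)
    (hodd : Nat.card π.ker % 2 = 1) (x : G) (hx : Nat.card (Subgroup.centralizer {π x}) = orderOf (π x)) (q r : ℕ)
    (h : ∀ t : ℕ, t.Prime → t ∣ orderOf (π x) → t = 2 ∨ t = q ∨ t = r) : ∀ v ∈ π.ker, x * v = v * x → v = 1 := by
  obtain ⟨q', r', hq', hr', hq2, hr2, hqr, htr⟩ := egy_two q r
  have hcard : Nat.card π.ker ≠ 0 := Nat.card_pos.ne'
  set a := (Nat.card π.ker).factorization q' with ha
  set b := (Nat.card π.ker).factorization r' with hb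
  have hM0 : 0 < q' ^ a * r' ^ b := Nat.mul_pos (pow_pos hq'.pos _) (pow_pos hr'.pos _)
  refine psd2 hG π x hx (q' ^ a * r' ^ b) hM0 ?_ (nps hq' hr' hq2 hr2 hqr a b)
  intro y hy
  have hdvd : Nat.card (Subgroup.centralizer {y} ⊓ π.ker : Subgroup G) ∣ Nat.card π.ker :=
    Subgroup.card_dvd_of_le inf_le_right
  have hn0 : Nat.card (Subgroup.centralizer {y} ⊓ π.ker : Subgroup G) ≠ 0 := Nat.card_pos.ne'
  have hycard : Nat.card (Subgroup.centralizer {π y}) = orderOf (π y) := by rw [hy]; exact hx
  rw [← Nat.factorization_prime_le_iff_dvd hn0 hM0.ne']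
  intro t ht
  by_cases htn : t ∣ Nat.card (Subgroup.centralizer {y} ⊓ π.ker : Subgroup G)
  · have h1 : t ∣ orderOf (π x) := by
      have := real_pr hG π hodd y hycard ht htn
      rwa [hy] at this
    have h2 : t ≠ 2 := by
      rintro rfl
      have := htn.trans hdvd
      omega
    have hle : (Nat.card (Subgroup.centralizer {y} ⊓ π.ker : Subgroup G)).factorization t ≤
        (Nat.card π.ker).factorization t :=
      (Nat.factorization_le_iff_dvd hn0 hcard).2 hdvd t
    rcases htr t ht (h t ht h1) with h3 | h3 | h3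
    · exact absurd h3 h2
    · subst h3
      refine hle.trans ?_
      exact (Nat.Prime.pow_dvd_iff_le_factorization ht hM0.ne').1 (dvd_mul_right _ _)
    · subst h3
      refine hle.trans ?_
      exact (Nat.Prime.pow_dvd_iff_le_factorization ht hM0.ne').1 (dvd_mul_left _ _)
  · rw [Nat.factorization_eq_zero_of_not_dvd htn]
    exact Nat.zero_le _
-- END egy

-- BEGIN ffpf
/-- PROOF. The map `v ↦ v⁻¹ * (x v x⁻¹)` of the kernel is injective, so surjective; so `w ↦ ρ (π x) w - w` is surjective on `V` (`T.sur`, `T.mul`, `T.eqv`), `V` is finite, so it is injective. -/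
theorem free_fpf {G H : Type*} [Group G] [Finite G] [Group H] (π : G →* H) {V : Type*} [AddCommGroup V] {p : ℕ}
    (T : Top π p V) (x : G) (h : ∀ v ∈ π.ker, x * v = v * x → v = 1) : Free T.ρ (π x) := by
  have hker : ∀ v : π.ker, x * v * x⁻¹ ∈ π.ker := by
    intro v
    have := v.2
    rw [MonoidHom.mem_ker] at this ⊢
    rw [map_mul, map_mul, this, mul_one, ← map_mul, mul_inv_cancel, map_one]
  let F : π.ker → π.ker := fun v => v⁻¹ * ⟨x * v * x⁻¹, hker v⟩
  have hF : Function.Injective F := by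
    intro a b hab
    have h1 : (a : G)⁻¹ * (x * a * x⁻¹) = (b : G)⁻¹ * (x * b * x⁻¹) := congrArg Subtype.val hab
    have h2 : x * ((b : G) * (a : G)⁻¹) = ((b : G) * (a : G)⁻¹) * x := by
      have h3 : (b : G) * (a : G)⁻¹ * (x * a * x⁻¹) = x * b * x⁻¹ := by
        rw [mul_assoc, h1, ← mul_assoc, mul_inv_cancel, one_mul]
      calc x * ((b : G) * (a : G)⁻¹) = (x * b * x⁻¹) * (x * (a : G)⁻¹) := by group
        _ = ((b : G) * (a : G)⁻¹ * (x * a * x⁻¹)) * (x * (a : G)⁻¹) := by rw [h3]
        _ = ((b : G) * (a : G)⁻¹) * x := by group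
    have h4 := h _ (π.ker.mul_mem b.2 (π.ker.inv_mem a.2)) h2
    exact Subtype.ext (by rw [mul_inv_eq_one] at h4; exact h4.symm)
  have hS : Function.Surjective F := Finite.surjective_of_injective hF
  have f1 : T.f 1 = 0 := by
    have := T.mul 1 1
    rw [one_mul] at this
    exact left_eq_add.1 this
  have finv : ∀ v, T.f v⁻¹ = - T.f v := by
    intro v
    have := T.mul v⁻¹ v
    rw [inv_mul_cancel, f1] at this
    exact eq_neg_of_add_eq_zero_left this.symm
  have : Finite V := Finite.of_surjective T.f T.sur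
  have hS2 : Function.Surjective (fun w : V => T.ρ (π x) w - w) := by
    intro y
    obtain ⟨a, rfl⟩ := T.sur y
    obtain ⟨v, rfl⟩ := hS a
    refine ⟨T.f v, ?_⟩
    show T.ρ (π x) (T.f v) - T.f v = T.f (v⁻¹ * ⟨x * v * x⁻¹, hker v⟩)
    rw [T.mul, finv, T.eqv x v ⟨x * v * x⁻¹, hker v⟩ rfl]
    abel
  have hI : Function.Injective (fun w : V => T.ρ (π x) w - w) := Finite.injective_iff_surjective.2 hS2
  intro v hv
  refine hI ?_
  show T.ρ (π x) v - v = T.ρ (π x) 0 - 0
  rw [hv, sub_self, map_zero, sub_zero]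
-- END ffpf

end Pool.Agent.NbT
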