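import Pool.Agent.NbT.Defs

/-!
# Modules
-/

set_option autoImplicit false
set_option linter.unusedSectionVars false

namespace Pool.Agent.NbT

open Equiv Pool.Agent.NbS

section

variable {H U : Type*} [Group H] [AddCommGroup U] (ρ : H →* AddMonoid.End U) {p : ℕ}

-- BEGIN MT
/-- MOVE M. PROOF. `∑ j < e, ρ (m ^ j) u` is fixed by `m`, so it is `0` for all `u`. Sum over `a : A`: `0 = ∑ a, ∑ j < e, ρ (τ a * m ^ j * (τ a)⁻¹) u`, `τ a * m ^ j * (τ a)⁻¹ = τ (a - α^[j] a) * m ^ j`, and for `0 < j < e` the map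
`a ↦ a - α^[j] a` is a bijection of `A` (injective, finite). So with `N = ∑ a, ρ (τ a)`: `0 = |A| • u + N (∑_{0 < j < e} ρ (m ^ j) u) = |A| • u - N u`. So `|A| • u = N u` is fixed by `τ a`; `|A|` is invertible modulo `p`. -/
theorem MT (hp : p.Prime) (hU : ∀ u : U, p • u = 0) {A : Type*} [AddCommGroup A] [Fintype A]
    (hA : ¬ p ∣ Fintype.card A) (τ : Multiplicative A →* H) (m : H) (α : A ≃+ A) (e : ℕ) (he1 : 1 ≤ e) (he : m ^ e = 1)
    (hm : ∀ a : A, m * τ (Multiplicative.ofAdd a) = τ (Multiplicative.ofAdd (α a)) * m)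
    (hj : ∀ j, 0 < j → j < e → ∀ a : A, (α^[j]) a = a → a = 0) (hF : ¬ Fx ρ {m}) (a : A) (u : U) :
    ρ (τ (Multiplicative.ofAdd a)) u = u := by
  classical
  obtain ⟨T, hT⟩ : ∃ T : A → AddMonoid.End U, ∀ a, T a = ρ (τ (Multiplicative.ofAdd a)) :=
    ⟨_, fun _ => rfl⟩
  have hTadd : ∀ (a b : A) (w : U), T (a + b) w = T a (T b w) := by
    intro a b w
    rw [hT, hT, hT, ofAdd_add, map_mul, map_mul]
    rfl
  have hT0 : ∀ w : U, T 0 w = w := by
    intro w
    rw [hT, ofAdd_zero, map_one, map_one]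
    rfl
  have hz : ∀ w : U, ∑ j ∈ Finset.range e, ρ (m ^ j) w = 0 := by
    intro w
    by_contra hne
    refine hF ⟨_, hne, ?_⟩
    intro s hs
    rw [Set.mem_singleton_iff] at hs
    rw [hs, map_sum]
    have h1 : ∀ j, ρ m (ρ (m ^ j) w) = ρ (m ^ (j + 1)) w := by
      intro j
      rw [pow_succ', map_mul]
      rfl
    rw [Finset.sum_congr rfl fun j _ => h1 j]
    have h2 := Finset.sum_range_succ (fun j => ρ (m ^ j) w) e
    have h3 := Finset.sum_range_succ' (fun j => ρ (m ^ j) w) e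
    rw [h2] at h3
    simp only [he, pow_zero] at h3
    exact (add_right_cancel h3).symm
  have hsub : ∀ (j : ℕ) (a b : A), (α^[j]) (a - b) = (α^[j]) a - (α^[j]) b := by
    intro j
    induction j with
    | zero => intro a b; rfl
    | succ j ih =>
      intro a b
      rw [Function.iterate_succ_apply', Function.iterate_succ_apply', Function.iterate_succ_apply',
        ih, map_sub]
  have hzero : ∀ j : ℕ, (α^[j]) (0 : A) = 0 := by
    intro j
    have h := hsub j 0 0
    rw [sub_self, sub_self] at h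
    exact h
  have hneg : ∀ (j : ℕ) (a : A), (α^[j]) (-a) = -((α^[j]) a) := by
    intro j a
    have h := hsub j 0 a
    rw [zero_sub, hzero, zero_sub] at h
    exact h
  have hcomm : ∀ (j : ℕ) (a : A), m ^ j * τ (Multiplicative.ofAdd a) =
      τ (Multiplicative.ofAdd ((α^[j]) a)) * m ^ j := by
    intro j
    induction j with
    | zero => intro a; simp
    | succ j ih =>
      intro a
      rw [pow_succ', mul_assoc, ih, ← mul_assoc, hm, mul_assoc, Function.iterate_succ_apply']
  have hconj : ∀ (j : ℕ) (a : A) (w : U),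
      T a (ρ (m ^ j) (T (-a) w)) = T (a - (α^[j]) a) (ρ (m ^ j) w) := by
    intro j a w
    have h1 : ρ (m ^ j) (T (-a) w) = T ((α^[j]) (-a)) (ρ (m ^ j) w) := by
      have h2 := congrArg (fun x => ρ x w) (hcomm j (-a))
      simp only [map_mul] at h2
      rw [hT, hT]
      exact h2
    rw [h1, ← hTadd, hneg, sub_eq_add_neg]
  have hbij : ∀ j, 0 < j → j < e → ∀ w : U, ∑ a : A, T (a - (α^[j]) a) w = ∑ b : A, T b w := by
    intro j h0 h1 w
    have hinj : Function.Injective (fun a : A => a - (α^[j]) a) := by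
      intro a b hab
      have h2 : (α^[j]) (a - b) = a - b := by
        have h3 : a - (α^[j]) a = b - (α^[j]) b := hab
        rw [hsub]
        have h4 : a - b = (α^[j]) a - (α^[j]) b := by
          rw [sub_eq_sub_iff_add_eq_add] at h3 ⊢
          rw [h3, add_comm]
        exact h4.symm
      exact sub_eq_zero.mp (hj j h0 h1 _ h2)
    have hb : Function.Bijective (fun a : A => a - (α^[j]) a) :=
      (Finite.injective_iff_bijective).mp hinj
    exact hb.sum_comp (fun b => T b w)
  have hmain : ∑ b : A, T b u = Fintype.card A • u := by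
    obtain ⟨e', rfl⟩ : ∃ e', e = e' + 1 := ⟨e - 1, by omega⟩
    have h0 : ∑ a : A, ∑ j ∈ Finset.range (e' + 1), T (a - (α^[j]) a) (ρ (m ^ j) u) = 0 := by
      refine Finset.sum_eq_zero fun a _ => ?_
      rw [Finset.sum_congr rfl fun j _ => (hconj j a u).symm, ← map_sum, hz, map_zero]
    rw [Finset.sum_comm, Finset.sum_range_succ'] at h0
    have h1 : ∀ j ∈ Finset.range e', ∑ a : A, T (a - (α^[j + 1]) a) (ρ (m ^ (j + 1)) u) =
        ∑ b : A, T b (ρ (m ^ (j + 1)) u) := by
      intro j hj'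
      rw [Finset.mem_range] at hj'
      exact hbij (j + 1) (by omega) (by omega) _
    rw [Finset.sum_congr rfl h1, Finset.sum_comm] at h0
    have h2 : ∑ j ∈ Finset.range e', ρ (m ^ (j + 1)) u = -u := by
      have h3 := hz u
      rw [Finset.sum_range_succ', pow_zero, map_one] at h3
      exact eq_neg_of_add_eq_zero_left h3
    have h4 : ∀ b : A, ∑ j ∈ Finset.range e', T b (ρ (m ^ (j + 1)) u) = -(T b u) := by
      intro b
      rw [← map_sum, h2, map_neg]
    rw [Finset.sum_congr rfl fun b _ => h4 b, Finset.sum_neg_distrib] at h0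
    have h5 : ∑ a : A, T (a - (α^[0]) a) (ρ (m ^ 0) u) = Fintype.card A • u := by
      have h6 : ∀ a : A, T (a - (α^[0]) a) (ρ (m ^ 0) u) = u := by
        intro a
        rw [Function.iterate_zero, id_eq, sub_self, hT0, pow_zero, map_one]
        rfl
      rw [Finset.sum_congr rfl fun a _ => h6 a, Finset.sum_const, Finset.card_univ]
    rw [h5] at h0
    exact (neg_add_eq_zero.mp h0)
  have hfix : T a (∑ b : A, T b u) = ∑ b : A, T b u := by
    rw [map_sum]
    rw [Finset.sum_congr rfl fun b _ => (hTadd a b u).symm]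
    exact (Equiv.addLeft a).bijective.sum_comp (fun b => T b u)
  rw [hmain, map_nsmul] at hfix
  have h1 : Fintype.card A • (T a u - u) = 0 := by
    rw [smul_sub, hfix, sub_self]
  have h2 : addOrderOf (T a u - u) ∣ 1 := by
    have h3 : Nat.Coprime p (Fintype.card A) := (Nat.Prime.coprime_iff_not_dvd hp).mpr hA
    rw [← h3]
    exact Nat.dvd_gcd (addOrderOf_dvd_iff_nsmul_eq_zero.mpr (hU _))
      (addOrderOf_dvd_iff_nsmul_eq_zero.mpr h1)
  have h4 : T a u - u = 0 := by
    rw [← AddMonoid.addOrderOf_eq_one_iff]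
    exact Nat.dvd_one.mp h2
  rw [← hT]
  exact sub_eq_zero.mp h4
-- END MT

-- BEGIN EV
/-- PROOF. `Y` = the set of the `v` with `∑ j < q, ρ (τ (j • a₀)) v = 0` and `∑ j < q, ρ (τ (j • a₁)) v = 0`: an additive subgroup, stable under all `τ a`, it contains `w₀ = u - τ a₀ u - τ a₁ u + τ (a₀ + a₁) u ≠ 0`. Choose `v ∈ Y`, `v ≠ 0` with
`K = {a | ρ (τ a) v = v}` of maximal cardinality. For `a ∉ K` the vector `N_a v = ∑ j < q, ρ (τ (j • a)) v` is in `Y` and is fixed by `K` and `a`, so it is `0`. `a₀ ∉ K` (otherwise `q • v = 0`), same for `a₁`. For `b : A`: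
`∑ i < q, N_{i a₀ + b} v = q • v + ∑_{0 < j < q} N_{a₀} (τ (j b) v) = q • v ≠ 0` (`N_{a₀}` vanishes on `Y`), so some `i • a₀ + b ∈ K`. So `A ⧸ K` is cyclic of order `q`, generated by `a₀`: `χ a` = the unique `i : ZMod q` with `a - i a₀ ∈ K`. -/
theorem EV (hp : p.Prime) (hU : ∀ u : U, p • u = 0) {A : Type*} [AddCommGroup A] [Finite A] {q : ℕ} (hq : q.Prime)
    (hpq : q ≠ p) (hA : ∀ a : A, q • a = 0) (τ : Multiplicative A →* H) (a₀ a₁ : A) (u : U)
    (hu : ρ (τ (Multiplicative.ofAdd a₀)) (ρ (τ (Multiplicative.ofAdd a₁)) u) + u ≠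
      ρ (τ (Multiplicative.ofAdd a₀)) u + ρ (τ (Multiplicative.ofAdd a₁)) u) :
    ∃ (v : U) (χ : A →+ ZMod q), v ≠ 0 ∧ χ a₀ = 1 ∧ χ a₁ ≠ 0 ∧
      (∀ a, χ a = 0 → ρ (τ (Multiplicative.ofAdd a)) v = v) ∧
      ∑ j ∈ Finset.range q, ρ (τ (Multiplicative.ofAdd (j • a₀))) v = 0 := by
  classical
  obtain ⟨T, hT⟩ : ∃ T : A → AddMonoid.End U, ∀ a, T a = ρ (τ (Multiplicative.ofAdd a)) := ⟨_, fun _ => rfl⟩
  simp only [← hT] at hu ⊢
  have hT0 : ∀ v, T 0 v = v := by
    intro v
    rw [hT, ofAdd_zero, map_one, map_one]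
    rfl
  have hTadd : ∀ a b v, T (a + b) v = T a (T b v) := by
    intro a b v
    rw [hT, hT, hT, ofAdd_add, map_mul, map_mul]
    rfl
  have hTcomm : ∀ a b v, T a (T b v) = T b (T a v) := by
    intro a b v
    rw [← hTadd, ← hTadd, add_comm]
  obtain ⟨N, hN⟩ : ∃ N : A → U → U, ∀ a v, N a v = ∑ j ∈ Finset.range q, T (j • a) v := ⟨_, fun _ _ => rfl⟩
  simp only [← hN]
  have hNadd : ∀ a v w, N a (v + w) = N a v + N a w := by
    intro a v w
    rw [hN, hN, hN, ← Finset.sum_add_distrib]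
    exact Finset.sum_congr rfl fun j _ => map_add _ _ _
  have hNsub : ∀ a v w, N a (v - w) = N a v - N a w := by
    intro a v w
    rw [hN, hN, hN, ← Finset.sum_sub_distrib]
    exact Finset.sum_congr rfl fun j _ => map_sub _ _ _
  have hN0 : ∀ a, N a 0 = 0 := by
    intro a
    rw [hN]
    exact Finset.sum_eq_zero fun j _ => map_zero _
  have hNT : ∀ a b v, N a (T b v) = T b (N a v) := by
    intro a b v
    rw [hN, hN, map_sum]
    exact Finset.sum_congr rfl fun j _ => hTcomm _ _ _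
  have hTN : ∀ a v, T a (N a v) = N a v := by
    intro a v
    have h1 : T a (N a v) = ∑ j ∈ Finset.range q, T ((j + 1) • a) v := by
      rw [hN, map_sum]
      refine Finset.sum_congr rfl fun j _ => ?_
      rw [← hTadd, add_comm, succ_nsmul]
    have h2 := Finset.sum_range_succ (fun j => T (j • a) v) q
    have h3 := Finset.sum_range_succ' (fun j => T (j • a) v) q
    rw [h2] at h3
    rw [h1, hN]
    simp only [hA, zero_smul] at h3
    exact (add_right_cancel h3).symm
  have hNN : ∀ a b v, N a (N b v) = N b (N a v) := by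
    intro a b v
    rw [hN b v, hN b (N a v)]
    have h1 : ∀ (s : Finset ℕ), N a (∑ j ∈ s, T (j • b) v) = ∑ j ∈ s, N a (T (j • b) v) := by
      intro s
      induction s using Finset.induction_on with
      | empty => rw [Finset.sum_empty, Finset.sum_empty, hN0]
      | insert x s hx ih => rw [Finset.sum_insert hx, Finset.sum_insert hx, hNadd, ih]
    rw [h1]
    exact Finset.sum_congr rfl fun j _ => hNT _ _ _
  have hqv : ∀ v : U, q • v = 0 → v = 0 := by
    intro v hv
    have hco : Nat.Coprime q p := (Nat.coprime_primes hq hp).2 hpq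
    have h2 : addOrderOf v ∣ Nat.gcd q p :=
      Nat.dvd_gcd (addOrderOf_dvd_of_nsmul_eq_zero hv) (addOrderOf_dvd_of_nsmul_eq_zero (hU v))
    rw [hco] at h2
    exact AddMonoid.addOrderOf_eq_one_iff.1 (Nat.dvd_one.1 h2)
  have hTj : ∀ a v, T a v = v → ∀ j : ℕ, T (j • a) v = v := by
    intro a v h j
    induction j with
    | zero => rw [zero_smul, hT0]
    | succ j ih => rw [succ_nsmul, hTadd, h, ih]
  have hNfix : ∀ a v, T a v = v → N a v = q • v := by
    intro a v h
    rw [hN, Finset.sum_congr rfl (fun j _ => hTj a v h j), Finset.sum_const, Finset.card_range]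
  -- the set of stabilizers
  set S : Set (Set A) := {K | ∃ v : U, v ≠ 0 ∧ N a₀ v = 0 ∧ N a₁ v = 0 ∧ K = {a | T a v = v}} with hS
  have hSne : S.Nonempty := by
    refine ⟨_, u - T a₀ u - T a₁ (u - T a₀ u), ?_, ?_, ?_, rfl⟩
    · intro h
      apply hu
      rw [map_sub] at h
      rw [hTcomm a₀ a₁ u]
      have h2 : T a₁ (T a₀ u) + u - (T a₀ u + T a₁ u) = u - T a₀ u - (T a₁ u - T a₁ (T a₀ u)) := by abel
      rw [← sub_eq_zero, h2, h]
    · rw [hNsub, hNT, hNsub, hNT, hTN, sub_self, map_zero, sub_zero]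
    · rw [hNsub, hNT, hTN, sub_self]
  have wf : WellFounded ((· > ·) : Set A → Set A → Prop) := wellFounded_gt
  obtain ⟨K, ⟨v, hv0, hv1, hv2, hK⟩, hmax⟩ := wf.has_min S hSne
  have hmem : ∀ a, a ∈ K ↔ T a v = v := fun a => by rw [hK]; exact Iff.rfl
  have hkey : ∀ a, a ∉ K → N a v = 0 := by
    intro a ha
    by_contra hne
    refine hmax {b | T b (N a v) = N a v} ⟨N a v, hne, ?_, ?_, rfl⟩ ?_
    · rw [hNN, hv1, hN0]
    · rw [hNN, hv2, hN0]
    · refine (Set.ssubset_iff_of_subset ?_).2 ⟨a, hTN a v, ha⟩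
      intro b hb
      have h1 := (hmem b).1 hb
      show T b (N a v) = N a v
      rw [← hNT, h1]
  have hnot : ∀ a, N a v = 0 → a ∉ K := by
    intro a h ha
    rw [hNfix a v ((hmem a).1 ha)] at h
    exact hv0 (hqv v h)
  have ha0 : a₀ ∉ K := hnot a₀ hv1
  have ha1 : a₁ ∉ K := hnot a₁ hv2
  let K' : AddSubgroup A :=
    { carrier := K
      zero_mem' := (hmem 0).2 (hT0 v)
      add_mem' := fun {a b} h1 h2 => (hmem _).2 (by rw [hTadd, (hmem b).1 h2, (hmem a).1 h1])
      neg_mem' := fun {a} h => (hmem _).2 (by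
        have h1 : T (-a) (T a v) = v := by rw [← hTadd, neg_add_cancel, hT0]
        rwa [(hmem a).1 h] at h1) }
  have hK' : ∀ a, a ∈ K' ↔ a ∈ K := fun a => Iff.rfl
  have hjK : ∀ j : ℕ, 0 < j → j < q → j • a₀ ∉ K := by
    intro j hj0 hjq h
    apply ha0
    have hco : Nat.Coprime j q := (Nat.coprime_of_lt_prime hj0.ne' hjq hq).symm
    have h1 : ∃ m : ℕ, (m * j) % q = 1 % q := by
      obtain ⟨m, hm⟩ := Nat.exists_mul_mod_eq_one_of_coprime hco hq.one_lt
      refine ⟨m, ?_⟩
      rw [mul_comm, hm.2, Nat.mod_eq_of_lt hq.one_lt]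
    obtain ⟨m, hm⟩ := h1
    have h2 : (m * j) • a₀ = a₀ := by
      have h3 : (m * j) • a₀ = ((m * j) % q) • a₀ := by
        conv_lhs => rw [← Nat.mod_add_div (m * j) q, add_smul, mul_comm q, mul_smul, hA, smul_zero, add_zero]
      rw [h3, hm, Nat.mod_eq_of_lt hq.one_lt, one_smul]
    rw [← h2, mul_smul]
    exact K'.nsmul_mem h m
  have hex : ∀ b : A, ∃ i : ℕ, i • a₀ + b ∈ K := by
    intro b
    by_contra hcon
    push Not at hcon
    have h1 : ∑ i ∈ Finset.range q, N (i • a₀ + b) v = 0 :=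
      Finset.sum_eq_zero fun i _ => hkey _ (hcon i)
    have h2 : ∑ i ∈ Finset.range q, N (i • a₀ + b) v = ∑ j ∈ Finset.range q, T (j • b) (N (j • a₀) v) := by
      simp only [hN]
      rw [Finset.sum_comm]
      refine Finset.sum_congr rfl fun j _ => ?_
      rw [map_sum]
      refine Finset.sum_congr rfl fun i _ => ?_
      rw [← hTadd]
      congr 2
      rw [smul_add, add_comm, smul_smul, smul_smul, mul_comm]
    have h3 : ∑ j ∈ Finset.range q, T (j • b) (N (j • a₀) v) = q • v := by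
      rw [Finset.sum_eq_single_of_mem 0 (Finset.mem_range.2 hq.pos)]
      · rw [zero_smul, zero_smul, hT0, hNfix 0 v (hT0 v)]
      · intro j hj hj0
        rw [hkey _ (hjK j (Nat.pos_of_ne_zero hj0) (Finset.mem_range.1 hj)), map_zero]
    rw [h2, h3] at h1
    exact hv0 (hqv v h1)
  have : Fact q.Prime := ⟨hq⟩
  have hq0 : (zmultiplesHom (A ⧸ K')) (QuotientAddGroup.mk a₀) (q : ℤ) = 0 := by
    rw [zmultiplesHom_apply, natCast_zsmul, ← QuotientAddGroup.mk_nsmul, hA]
    rfl
  let f : ZMod q →+ A ⧸ K' := ZMod.lift q ⟨(zmultiplesHom (A ⧸ K')) (QuotientAddGroup.mk a₀), hq0⟩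
  have hf : ∀ i : ℤ, f (i : ZMod q) = i • (QuotientAddGroup.mk a₀ : A ⧸ K') := by
    intro i
    show ZMod.lift q ⟨(zmultiplesHom (A ⧸ K')) (QuotientAddGroup.mk a₀), hq0⟩ (i : ZMod q) = _
    rw [ZMod.lift_coe]
    rfl
  have hinj : Function.Injective f := by
    rw [injective_iff_map_eq_zero]
    intro c hc
    have h1 : ((c.val : ℤ) : ZMod q) = c := by
      rw [Int.cast_natCast, ZMod.natCast_zmod_val]
    rw [← h1, hf, natCast_zsmul, ← QuotientAddGroup.mk_nsmul, QuotientAddGroup.eq_zero_iff, hK'] at hc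
    by_contra hne
    exact hjK c.val (Nat.pos_of_ne_zero (fun h => hne ((ZMod.val_eq_zero c).1 h))) (ZMod.val_lt c) hc
  have hsur : Function.Surjective f := by
    intro y
    obtain ⟨b, rfl⟩ := QuotientAddGroup.mk_surjective y
    obtain ⟨i, hi⟩ := hex b
    refine ⟨((-(i : ℤ) : ℤ) : ZMod q), ?_⟩
    rw [hf, neg_smul, natCast_zsmul, neg_eq_iff_add_eq_zero, ← QuotientAddGroup.mk_nsmul]
    exact (QuotientAddGroup.eq_zero_iff _).2 hi
  let e : ZMod q ≃+ A ⧸ K' := AddEquiv.ofBijective f ⟨hinj, hsur⟩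
  have hee : ∀ c, e c = f c := fun c => rfl
  have hχ : ∀ a : A, e.symm (QuotientAddGroup.mk a) = 0 → a ∈ K := by
    intro a h
    rw [e.symm_apply_eq, map_zero] at h
    exact (QuotientAddGroup.eq_zero_iff _).1 h
  refine ⟨v, e.symm.toAddMonoidHom.comp (QuotientAddGroup.mk' K'), hv0, ?_, ?_, ?_, hv1⟩
  · show e.symm (QuotientAddGroup.mk a₀) = 1
    rw [e.symm_apply_eq, hee]
    have h1 := hf 1
    rw [Int.cast_one, one_smul] at h1
    exact h1.symm
  · intro h
    exact ha1 (hχ a₁ h)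
  · intro a h
    exact (hmem a).1 (hχ a h)
-- END EV

-- BEGIN core
private theorem core_fin {U' : Type*} [AddCommGroup U'] {p k : ℕ} {v : U'} (h1 : p • v = 0) (h2 : k • v = 0)
    (hc : Nat.Coprime p k) : v = 0 := by
  have h3 := addOrderOf_dvd_of_nsmul_eq_zero h1
  have h4 := addOrderOf_dvd_of_nsmul_eq_zero h2
  have h5 : addOrderOf v ∣ 1 := by
    have h6 := Nat.dvd_gcd h3 h4
    rwa [Nat.Coprime.gcd_eq_one hc] at h6
  exact AddMonoid.addOrderOf_eq_one_iff.1 (Nat.dvd_one.1 h5)

private theorem core_B {U' A : Type*} [AddCommGroup U'] [AddCommGroup A] [Fintype A] {p q : ℕ} (hp : p.Prime) (hq : q.Prime)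
    (hpq : q ≠ p) (hU : ∀ u : U', p • u = 0) (T : A → U' →+ U') (T0 : ∀ u, T 0 u = u) (Ta : ∀ a b u, T (a + b) u = T a (T b u))
    (a₀ : A) (χ : A →+ ZMod q) (hχ : χ a₀ = 1) (v : U') (h1 : ∀ a, χ a = 0 → T a v = v)
    (h2 : ∑ j ∈ Finset.range q, T (j • a₀) v = 0) (φ : A → A) (hφ : ∀ a b, φ (a + b) = φ a + φ b) (t₀ : A) (ht : χ (φ t₀) ≠ 0) :
    ∑ t : A, T (φ t) v = 0 := by
  haveI : Fact q.Prime := ⟨hq⟩
  have Tc : ∀ a b u, T a (T b u) = T b (T a u) := fun a b u => by rw [← Ta, ← Ta, add_comm]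
  set B : U' := ∑ t : A, T (φ t) v with hB
  have hB1 : ∀ a, χ a = 0 → T a B = B := by
    intro a ha
    rw [hB, map_sum]
    refine Finset.sum_congr rfl fun t _ => ?_
    rw [Tc, h1 a ha]
  have hB2 : ∑ j ∈ Finset.range q, T (j • a₀) B = 0 := by
    have h3 : ∀ j ∈ Finset.range q, T (j • a₀) B = ∑ t : A, T (φ t) (T (j • a₀) v) := by
      intro j _
      rw [hB, map_sum]
      exact Finset.sum_congr rfl fun t _ => Tc _ _ _
    rw [Finset.sum_congr rfl h3, Finset.sum_comm]
    refine Finset.sum_eq_zero fun t _ => ?_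
    rw [← map_sum, h2, map_zero]
  have hB3 : T (φ t₀) B = B := by
    rw [hB, map_sum]
    refine Fintype.sum_equiv (Equiv.addLeft t₀) _ _ fun t => ?_
    show T (φ t₀) (T (φ t) v) = T (φ (t₀ + t)) v
    rw [hφ, Ta]
  have hB4 : ∀ k : ℕ, T (k • φ t₀) B = B := by
    intro k
    induction k with
    | zero => rw [zero_nsmul, T0]
    | succ k ih => rw [succ_nsmul, Ta, hB3, ih]
  set k : ℕ := ((χ (φ t₀))⁻¹).val with hk
  have hk1 : ((k : ℕ) : ZMod q) * χ (φ t₀) = 1 := by
    rw [hk, ZMod.natCast_zmod_val]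
    exact inv_mul_cancel₀ ht
  have hB5 : T a₀ B = B := by
    have h3 : χ (a₀ - k • φ t₀) = 0 := by
      rw [map_sub, map_nsmul, hχ, nsmul_eq_mul, hk1, sub_self]
    have h4 : a₀ = (a₀ - k • φ t₀) + k • φ t₀ := by abel
    rw [h4, Ta, hB4, hB1 _ h3]
  have hB6 : ∀ j : ℕ, T (j • a₀) B = B := by
    intro j
    induction j with
    | zero => rw [zero_nsmul, T0]
    | succ j ih => rw [succ_nsmul, Ta, hB5, ih]
  rw [Finset.sum_congr rfl fun j _ => hB6 j, Finset.sum_const, Finset.card_range] at hB2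
  exact core_fin (hU B) hB2 ((Nat.coprime_primes hp hq).2 (Ne.symm hpq))

/-- THE CORE OF MOVE P. -/
theorem core (hp : p.Prime) (hU : ∀ u : U, p • u = 0) {A : Type*} [AddCommGroup A] [Finite A] {q : ℕ} (hq : q.Prime)
    (hpq : q ≠ p) (hA : ∀ a : A, q • a = 0) (τ : Multiplicative A →* H) (a₀ : A) (χ : A →+ ZMod q) (hχ : χ a₀ = 1)
    (v : U) (hv : v ≠ 0) (h1 : ∀ a, χ a = 0 → ρ (τ (Multiplicative.ofAdd a)) v = v)
    (h2 : ∑ j ∈ Finset.range q, ρ (τ (Multiplicative.ofAdd (j • a₀))) v = 0) (g : H) (α : A ≃+ A)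
    (hg : ∀ a : A, g * τ (Multiplicative.ofAdd a) = τ (Multiplicative.ofAdd (α a)) * g) (m : ℕ) (hm : 1 ≤ m) (c : A)
    (hgm : g ^ m = τ (Multiplicative.ofAdd c)) (hc : χ c = 0)
    (hap : ∀ i, 0 < i → i < m → ∃ a, χ ((α.symm^[i]) a) ≠ χ a) : Fx ρ {g} := by
  classical
  haveI : Fintype A := Fintype.ofFinite A
  by_contra hF
  have hF' : ∀ u, ρ g u = u → u = 0 := by
    intro u hu
    by_contra h
    exact hF ⟨u, h, fun s hs => by rw [Set.mem_singleton_iff.1 hs]; exact hu⟩
  have hmul : ∀ (x y : H) (u : U), ρ (x * y) u = ρ x (ρ y u) := fun x y u => by rw [map_mul]; rfl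
  have hone : ∀ u : U, ρ 1 u = u := fun u => by rw [map_one]; rfl
  set T : A → U →+ U := fun a => ρ (τ (Multiplicative.ofAdd a)) with hT
  have T0 : ∀ u, T 0 u = u := fun u => by
    show ρ (τ (Multiplicative.ofAdd (0 : A))) u = u
    rw [ofAdd_zero, map_one, hone]
  have Ta : ∀ a b u, T (a + b) u = T a (T b u) := fun a b u => by
    show ρ (τ (Multiplicative.ofAdd (a + b))) u = _
    rw [ofAdd_add, map_mul, hmul]
    rfl
  have Tc : ∀ a b u, T a (T b u) = T b (T a u) := fun a b u => by rw [← Ta, ← Ta, add_comm]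
  have h1' : ∀ a, χ a = 0 → T a v = v := h1
  have hβ : ∀ (i : ℕ) (t : A), τ (Multiplicative.ofAdd t) * g ^ i = g ^ i * τ (Multiplicative.ofAdd ((α.symm^[i]) t)) := by
    intro i
    induction i with
    | zero => intro t; simp
    | succ i ih =>
      intro t
      rw [pow_succ, ← mul_assoc, ih, mul_assoc, Function.iterate_succ_apply']
      have h3 := hg (α.symm ((α.symm^[i]) t))
      rw [α.apply_symm_apply] at h3
      rw [← h3, mul_assoc]
  -- vectors on which the kernel acts trivially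
  have star : ∀ w : U, (∀ a, χ a = 0 → T a w = w) → ∑ i ∈ Finset.range m, ρ (g ^ i) w = 0 := by
    intro w hw
    apply hF'
    rw [map_sum]
    have h3 : ∀ i ∈ Finset.range m, ρ g (ρ (g ^ i) w) = ρ (g ^ (i + 1)) w := by
      intro i _
      rw [pow_succ', hmul]
    rw [Finset.sum_congr rfl h3]
    have h4 := Finset.sum_range_succ (fun i => ρ (g ^ i) w) m
    have h5 := Finset.sum_range_succ' (fun i => ρ (g ^ i) w) m
    rw [h4] at h5
    have h6 : ρ (g ^ m) w = w := by
      rw [hgm]; exact hw c hc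
    have h7 : ρ (g ^ 0) w = w := by rw [pow_zero, hone]
    simp only [h6, h7] at h5
    exact (add_right_cancel h5).symm
  have key : ∀ t : A, ∑ i ∈ Finset.range m, ρ (g ^ i) (T ((α.symm^[i]) t + -t) v) = 0 := by
    intro t
    have h3 := star (T (-t) v) (fun a ha => by rw [Tc, h1' a ha])
    have h4 := congrArg (fun u => T t u) h3
    simp only [map_sum, map_zero] at h4
    rw [← h4]
    refine Finset.sum_congr rfl fun i _ => ?_
    show ρ (g ^ i) (T ((α.symm^[i]) t + -t) v) = ρ (τ (Multiplicative.ofAdd t)) (ρ (g ^ i) (T (-t) v))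
    rw [← hmul, hβ, hmul, Ta]
    rfl
  have key2 : ∑ i ∈ Finset.range m, ρ (g ^ i) (∑ t : A, T ((α.symm^[i]) t + -t) v) = 0 := by
    have h3 : ∑ t : A, ∑ i ∈ Finset.range m, ρ (g ^ i) (T ((α.symm^[i]) t + -t) v) = 0 :=
      Finset.sum_eq_zero fun t _ => key t
    rw [Finset.sum_comm] at h3
    rw [← h3]
    exact Finset.sum_congr rfl fun i _ => map_sum _ _ _
  have key3 : ∀ i ∈ Finset.range m, 0 < i → ρ (g ^ i) (∑ t : A, T ((α.symm^[i]) t + -t) v) = 0 := by
    intro i hi hi0
    obtain ⟨t₀, ht₀⟩ := hap i hi0 (Finset.mem_range.1 hi)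
    rw [core_B hp hq hpq hU T T0 Ta a₀ χ hχ v h1 h2 (fun t => (α.symm^[i]) t + -t) (fun a b => by
      show (α.symm^[i]) (a + b) + -(a + b) = ((α.symm^[i]) a + -a) + ((α.symm^[i]) b + -b)
      rw [iterate_map_add]
      abel) t₀ (by
      show χ ((α.symm^[i]) t₀ + -t₀) ≠ 0
      rw [← sub_eq_add_neg, map_sub]
      exact sub_ne_zero.2 ht₀), map_zero]
  have key4 : Fintype.card A • v = 0 := by
    rw [Finset.sum_eq_single_of_mem 0 (Finset.mem_range.2 (by omega)) (fun i hi hi0 => key3 i hi (Nat.pos_of_ne_zero hi0))] at key2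
    rw [pow_zero, hone] at key2
    simp only [Function.iterate_zero, id_eq, add_neg_cancel, T0, Finset.sum_const, Finset.card_univ] at key2
    exact key2
  have hcop : Nat.Coprime p (Fintype.card A) := by
    rw [Nat.Prime.coprime_iff_not_dvd hp]
    intro hdvd
    haveI : Fact p.Prime := ⟨hp⟩
    obtain ⟨x, hx⟩ := exists_prime_addOrderOf_dvd_card p hdvd
    have h3 := addOrderOf_dvd_of_nsmul_eq_zero (hA x)
    rw [hx] at h3
    exact hpq ((Nat.prime_dvd_prime_iff_eq hp hq).1 h3).symm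
  exact hv (core_fin (hU v) key4 hcop)
-- END core

end

section

variable {k : ℕ} {U : Type*} [AddCommGroup U] (ρ : Perm (Fin k) →* AddMonoid.End U) {p : ℕ}

-- BEGIN gen
/-- A `q`-cycle in `X` through `a`, `b`, `c`. -/
theorem gen_cyc {q : ℕ} (h3 : 3 ≤ q) (X : Finset (Fin k)) (hX : q ≤ X.card) {a b c : Fin k}
    (ha : a ∈ X) (hb : b ∈ X) (hc : c ∈ X) (hab : a ≠ b) (hac : a ≠ c) (hbc : b ≠ c) :
    ∃ z : Perm (Fin k), z.cycleType = {q} ∧ z.support ⊆ X ∧ z a = b ∧ z b = c := by
  have hT : ({a, b, c} : Finset (Fin k)).card = 3 := Finset.card_eq_three.2 ⟨a, b, c, hab, hac, hbc, rfl⟩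
  have hTX : ({a, b, c} : Finset (Fin k)) ⊆ X := by
    intro x hx
    simp only [Finset.mem_insert, Finset.mem_singleton] at hx
    rcases hx with rfl | rfl | rfl <;> assumption
  have hcard : q - 3 ≤ (X \ {a, b, c}).card := by
    rw [Finset.card_sdiff_of_subset hTX, hT]
    omega
  obtain ⟨S, hS, hSc⟩ := Finset.exists_subset_card_eq hcard
  have hmem : ∀ x ∈ S, x ∈ X ∧ x ≠ a ∧ x ≠ b ∧ x ≠ c := by
    intro x hx
    have := hS hx
    simp only [Finset.mem_sdiff, Finset.mem_insert, Finset.mem_singleton, not_or] at this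
    exact this
  set l : List (Fin k) := a :: b :: c :: S.toList with hl
  have hnd : l.Nodup := by
    rw [hl]
    simp only [List.nodup_cons, List.mem_cons, Finset.mem_toList, not_or]
    exact ⟨⟨hab, hac, fun h => (hmem a h).2.1 rfl⟩, ⟨hbc, fun h => (hmem b h).2.2.1 rfl⟩,
      fun h => (hmem c h).2.2.2 rfl, S.nodup_toList⟩
  have hlen : l.length = q := by
    rw [hl]
    simp only [List.length_cons, Finset.length_toList, hSc]
    omega
  have hne : ∀ x, l ≠ [x] := by
    intro x h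
    have := congrArg List.length h
    rw [hlen, List.length_singleton] at this
    omega
  have hsup := List.support_formPerm_of_nodup l hnd hne
  refine ⟨l.formPerm, ?_, ?_, ?_, ?_⟩
  · rw [(List.isCycle_formPerm hnd (by omega)).cycleType, hsup, List.toFinset_card_of_nodup hnd, hlen]
  · rw [hsup]
    intro x hx
    rw [List.mem_toFinset, hl] at hx
    simp only [List.mem_cons, Finset.mem_toList] at hx
    rcases hx with rfl | rfl | rfl | hx
    · exact ha
    · exact hb
    · exact hc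
    · exact (hmem x hx).1
  · exact List.formPerm_apply_head a b (c :: S.toList) hnd
  · exact List.formPerm_apply_lt_getElem l hnd 1 (by omega)

theorem gen_three {q : ℕ} (h3 : 3 ≤ q) (X : Finset (Fin k)) (hX : q ≤ X.card) (K : Subgroup (Perm (Fin k)))
    (hK : ∀ z : Perm (Fin k), z.cycleType = {q} → z.support ⊆ X → z ∈ K) {g : Perm (Fin k)}
    (hg : g.IsThreeCycle) (hs : g.support ⊆ X) : g ∈ K := by
  have hc3 : g.support.card = 3 := hg.card_support
  have hcyc := hg.isCycle
  obtain ⟨a, ha, -⟩ := id hcyc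
  have haS : a ∈ g.support := Perm.mem_support.2 ha
  have hcS : g a ∈ g.support := Perm.apply_mem_support.2 haS
  have hbS : g (g a) ∈ g.support := Perm.apply_mem_support.2 hcS
  have hord : g ^ 3 = 1 := by
    rw [← hg.orderOf, pow_orderOf_eq_one]
  have h3a : g (g (g a)) = a := by
    have := congrArg (fun σ : Perm (Fin k) => σ a) hord
    simpa [pow_succ, Perm.mul_apply] using this
  have hca : g a ≠ a := ha
  have hbc : g (g a) ≠ g a := fun h => hca (g.injective h)
  have hba : g (g a) ≠ a := by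
    intro h
    rw [h] at h3a
    exact hca h3a
  have hSeq : g.support = {a, g a, g (g a)} := by
    symm
    apply Finset.eq_of_subset_of_card_le
    · intro x hx
      simp only [Finset.mem_insert, Finset.mem_singleton] at hx
      rcases hx with rfl | rfl | rfl
      · exact haS
      · exact hcS
      · exact hbS
    · rw [hc3, Finset.card_eq_three.2 ⟨a, g a, g (g a), hca.symm, hba.symm, hbc.symm, rfl⟩]
  set b := g (g a) with hb
  set c := g a with hc
  -- `a → c → b → a`
  obtain ⟨z, hz1, hz2, hza, hzb⟩ := gen_cyc h3 X hX (hs haS) (hs hbS) (hs hcS) hba.symm hca.symm hbc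
  have hgeq : g = z * (swap a b * z⁻¹ * (swap a b)⁻¹) := by
    have e1 : z * (swap a b * z⁻¹ * (swap a b)⁻¹) = swap b c * swap a b := by
      have e2 : z * swap a b = swap b c * z := by
        rw [Equiv.mul_swap_eq_swap_mul, hza, hzb]
      rw [swap_inv, ← mul_assoc, ← mul_assoc, e2, mul_assoc (swap b c), mul_inv_cancel, mul_one]
    rw [e1]
    ext x
    congr 1
    rw [Perm.mul_apply]
    by_cases hxa : x = a
    · rw [hxa, swap_apply_left, swap_apply_left]
    · by_cases hxb : x = b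
      · rw [hxb, swap_apply_right, swap_apply_of_ne_of_ne hba.symm hca.symm, h3a]
      · by_cases hxc : x = c
        · rw [hxc, swap_apply_of_ne_of_ne hca hbc.symm, swap_apply_right]
        · rw [swap_apply_of_ne_of_ne hxa hxb, swap_apply_of_ne_of_ne hxb hxc]
          have : x ∉ g.support := by
            rw [hSeq]
            simp only [Finset.mem_insert, Finset.mem_singleton, not_or]
            exact ⟨hxa, hxc, hxb⟩
          exact Perm.notMem_support.1 this
  rw [hgeq]
  apply K.mul_mem (hK z hz1 hz2)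
  apply hK
  · rw [Perm.cycleType_conj, Perm.cycleType_inv, hz1]
  · intro x hx
    by_contra hxX
    rw [Perm.mem_support] at hx
    apply hx
    have hxa : x ≠ a := fun h => hxX (h ▸ hs haS)
    have hxb : x ≠ b := fun h => hxX (h ▸ hs hbS)
    have hxz : z⁻¹ x = x := by
      rw [Perm.inv_eq_iff_eq]
      exact (Perm.notMem_support.1 (fun h => hxX (hz2 h))).symm
    rw [Perm.mul_apply, Perm.mul_apply, swap_inv, swap_apply_of_ne_of_ne hxa hxb, hxz,
      swap_apply_of_ne_of_ne hxa hxb]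

/-- PROOF. Let `K` contain all `q`-cycles with support in `X`. A `3`-cycle `(a b c)` in `X` is a product `z * (t z⁻¹ t⁻¹)` with a `q`-cycle `z` in `X` through `a, b, c` in a suitable order and a transposition `t` in `X` (`t z⁻¹ t⁻¹` is again a `q`-cycle in `X`;
`q = 3`: nothing to do). An even permutation with support in `X` is a product of `3`-cycles in `X` (`Equiv.Perm.closure_three_cycles_eq_alternating` for `Perm X`, `Equiv.Perm.ofSubtype`). -/
theorem gen {q : ℕ} (hq : q % 2 = 1) (h3 : 3 ≤ q) (X : Finset (Fin k)) (hX : q ≤ X.card) (K : Subgroup (Perm (Fin k)))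
    (hK : ∀ z : Perm (Fin k), z.cycleType = {q} → z.support ⊆ X → z ∈ K) (σ : Perm (Fin k)) (hσ : Perm.sign σ = 1)
    (hs : σ.support ⊆ X) : σ ∈ K := by
  have h1 : ∀ x, σ x ∈ X ↔ x ∈ X := by
    intro x
    by_cases hx : x ∈ σ.support
    · exact ⟨fun _ => hs hx, fun _ => hs (Perm.apply_mem_support.2 hx)⟩
    · rw [Perm.notMem_support.1 hx]
  have h2 : ∀ x, σ x ≠ x → x ∈ X := fun x hx => hs (Perm.mem_support.2 hx)
  set τ : Perm {x // x ∈ X} := σ.subtypePerm h1 with hτ
  have hof : Perm.ofSubtype τ = σ := Perm.ofSubtype_subtypePerm h1 h2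
  have hτs : Perm.sign τ = 1 := by
    rw [← hσ, ← hof, Perm.sign_ofSubtype]
  have hmem : τ ∈ alternatingGroup {x // x ∈ X} := Perm.mem_alternatingGroup.2 hτs
  rw [← Equiv.Perm.closure_three_cycles_eq_alternating] at hmem
  have hle : Subgroup.closure {ρ : Perm {x // x ∈ X} | ρ.IsThreeCycle} ≤
      K.comap (Perm.ofSubtype : Perm {x // x ∈ X} →* Perm (Fin k)) := by
    rw [Subgroup.closure_le]
    intro ρ hρ
    change Perm.ofSubtype ρ ∈ K
    have hρ' : ρ.IsThreeCycle := hρ
    apply gen_three h3 X hX K hK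
    · change (Perm.ofSubtype ρ).cycleType = {3}
      rw [Perm.cycleType_ofSubtype]
      exact hρ'
    · intro x hx
      by_contra hxX
      exact Perm.mem_support.1 hx (Perm.ofSubtype_apply_of_not_mem ρ hxX)
  have := hle hmem
  change Perm.ofSubtype τ ∈ K at this
  rwa [hof] at this
-- END gen

-- BEGIN small1
/-- The stabilizer of a vector. -/
private def small1_K (w : U) : Subgroup (Perm (Fin k)) where
  carrier := {σ | ρ σ w = w}
  one_mem' := by
    show ρ 1 w = w
    rw [map_one]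
    rfl
  mul_mem' := by
    intro a b ha hb
    show ρ (a * b) w = w
    have h1 : ρ (a * b) w = ρ a (ρ b w) := by
      rw [map_mul]
      rfl
    have ha' : ρ a w = w := ha
    have hb' : ρ b w = w := hb
    rw [h1, hb', ha']
  inv_mem' := by
    intro a ha
    show ρ a⁻¹ w = w
    have ha' : ρ a w = w := ha
    have h1 : ρ (a⁻¹ * a) w = ρ a⁻¹ (ρ a w) := by
      rw [map_mul]
      rfl
    rw [inv_mul_cancel, ha'] at h1
    rw [← h1, map_one]
    rfl

private theorem small1_iff (σ τ : Perm (Fin k)) (u : U) :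
    ρ σ (ρ τ u) + u = ρ σ u + ρ τ u ↔ σ ∈ small1_K ρ (ρ τ u - u) := by
  have h1 : σ ∈ small1_K ρ (ρ τ u - u) ↔ ρ σ (ρ τ u - u) = ρ τ u - u := Iff.rfl
  rw [h1, map_sub, sub_eq_sub_iff_add_eq_add]
  constructor
  · intro h
    rw [h, add_comm]
  · intro h
    rw [h, add_comm]

private theorem small1_symm {σ τ : Perm (Fin k)} (hd : Perm.Disjoint σ τ) {u : U}
    (h : ρ σ (ρ τ u) + u = ρ σ u + ρ τ u) : ρ τ (ρ σ u) + u = ρ τ u + ρ σ u := by
  have h1 : ρ τ (ρ σ u) = ρ σ (ρ τ u) := by
    have h2 : ρ (τ * σ) u = ρ τ (ρ σ u) := by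
      rw [map_mul]
      rfl
    have h3 : ρ (σ * τ) u = ρ σ (ρ τ u) := by
      rw [map_mul]
      rfl
    rw [← h2, ← h3, hd.commute.eq]
  rw [h1, h, add_comm]

private theorem small1_sup {σ τ : Perm (Fin k)} : Perm.Disjoint σ τ ↔ σ.support ⊆ τ.supportᶜ := by
  rw [Perm.disjoint_iff_disjoint_support, Finset.disjoint_left]
  constructor
  · intro h x hx
    exact Finset.mem_compl.2 (h hx)
  · intro h x hx
    exact Finset.mem_compl.1 (h hx)

private theorem small1_step {r : ℕ} (hr : r % 2 = 1) (hr3 : 3 ≤ r) (τ : Perm (Fin k)) (hX : r ≤ (τ.supportᶜ).card)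
    (u : U) (hz : ∀ z : Perm (Fin k), z.cycleType = {r} → Perm.Disjoint z τ → ρ z (ρ τ u) + u = ρ z u + ρ τ u)
    (σ : Perm (Fin k)) (hσ : Perm.sign σ = 1) (hd : Perm.Disjoint σ τ) : ρ σ (ρ τ u) + u = ρ σ u + ρ τ u := by
  rw [small1_iff]
  refine gen hr hr3 τ.supportᶜ hX _ (fun z hz1 hz2 => ?_) σ hσ (small1_sup.1 hd)
  rw [← small1_iff]
  exact hz z hz1 (small1_sup.2 hz2)

/-- PROOF. (`gen` with `K` = the stabilizer of a vector.) Step 1: fix a `q`-cycle `z'` and `u`; all `q`-cycles with support in the complement `X` of the support of `z'` (`|X| = k - q ≥ q`) fix `y = ρ z' u - u`; so all even `σ` disjoint from `z'` fix `y`.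
Step 2: fix a `3`-cycle `σ`: by step 1 (the two commute) all `q`-cycles in the complement of its support (`k - 3 ≥ q` points) fix `ρ σ u - u`; so all even `τ` disjoint from it do. Step 3: let `σ, τ` be even, disjoint. If the complement `X` of the support of `τ` has
less than `3` points, `σ = 1`. Otherwise all `3`-cycles in `X` fix `ρ τ u - u` (step 2), so `σ` does (`gen` with `q = 3`). -/
theorem small1 {q : ℕ} (hq : q % 2 = 1) (h3 : 3 ≤ q) (hk : 2 * q ≤ k)
    (h : ∀ z z' : Perm (Fin k), z.cycleType = {q} → z'.cycleType = {q} → Perm.Disjoint z z' → ∀ u : U,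
      ρ z (ρ z' u) + u = ρ z u + ρ z' u) : Small ρ := by
  have hcard : ∀ (r : ℕ) (z : Perm (Fin k)), z.cycleType = {r} → z.support.card = r := by
    intro r z hz
    rw [← Perm.sum_cycleType, hz, Multiset.sum_singleton]
  have hsign : ∀ (r : ℕ), r % 2 = 1 → ∀ z : Perm (Fin k), z.cycleType = {r} → Perm.sign z = 1 := by
    intro r hr z hz
    rw [Perm.sign_of_cycleType, hz]
    simp only [Multiset.sum_singleton, Multiset.card_singleton]
    exact Even.neg_one_pow (by rw [Nat.even_iff]; omega)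
  have s1 : ∀ z : Perm (Fin k), z.cycleType = {q} → ∀ σ : Perm (Fin k), Perm.sign σ = 1 → Perm.Disjoint σ z →
      ∀ u : U, ρ σ (ρ z u) + u = ρ σ u + ρ z u := by
    intro z hz σ hσ hd u
    refine small1_step ρ hq h3 z ?_ u (fun z' hz' hd' => h z' z hz' hz hd' u) σ hσ hd
    rw [Finset.card_compl, Fintype.card_fin, hcard q z hz]
    omega
  have s2 : ∀ z : Perm (Fin k), z.cycleType = {3} → ∀ σ : Perm (Fin k), Perm.sign σ = 1 → Perm.Disjoint σ z →
      ∀ u : U, ρ σ (ρ z u) + u = ρ σ u + ρ z u := by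
    intro z hz σ hσ hd u
    refine small1_step ρ hq h3 z ?_ u (fun z' hz' hd' => ?_) σ hσ hd
    · rw [Finset.card_compl, Fintype.card_fin, hcard 3 z hz]
      omega
    · exact small1_symm ρ hd'.symm (s1 z' hz' z (hsign 3 (by norm_num) z hz) hd'.symm u)
  intro σ τ hd hσ hτ u
  by_cases hX : 3 ≤ (τ.supportᶜ).card
  · refine small1_step ρ (by norm_num) le_rfl τ hX u (fun z hz hd' => ?_) σ hσ hd
    exact small1_symm ρ hd'.symm (s2 z hz τ hτ hd'.symm u)
  · have h1 : σ.support.card ≤ 2 := by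
      have := Finset.card_le_card (small1_sup.1 hd)
      omega
    have h2 : σ = 1 := by
      by_contra hne
      have h4 : 2 ≤ σ.support.card := Perm.two_le_card_support_of_ne_one hne
      have h5 : σ.support.card = 2 := le_antisymm h1 h4
      have h6 : Perm.IsSwap σ := Perm.card_support_eq_two.1 h5
      have h7 := h6.sign_eq
      rw [hσ] at h7
      exact absurd h7 (by decide)
    rw [h2, map_one]
    show ρ τ u + u = u + ρ τ u
    rw [add_comm]
-- END small1

-- BEGIN SM
private theorem SM_mul (x y : Perm (Fin k)) (u : U) : ρ (x * y) u = ρ x (ρ y u) := by rw [map_mul]; rfl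

private theorem SM_one (u : U) : ρ 1 u = u := by rw [map_one]; rfl

/-- the fixed vectors of `s` are of the form `ρ t y - y` -/
private theorem SM_img (hp : p.Prime) (hU : ∀ u : U, p • u = 0) (h : Small ρ) {s t : Perm (Fin k)} (hd : Perm.Disjoint s t)
    (hs : Perm.sign s = 1) (ht : Perm.sign t = 1) (htp : ¬ p ∣ orderOf t) (hN : ∀ u, ρ s u = u → ρ t u = u → u = 0)
    (u : U) (hu : ρ s u = u) : ∃ y, u = ρ t y - y := by
  set n := orderOf t with hn
  have hfix : ∀ y, ρ s (ρ t y - y) = ρ t y - y := by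
    intro y
    have h1 := h s t hd hs ht y
    rw [map_sub]
    have h2 : ρ s (ρ t y) = ρ s y + ρ t y - y := eq_sub_of_add_eq h1
    rw [h2]
    abel
  have hpow : ∀ j : ℕ, ∃ y, ρ (t ^ j) u - u = ρ t y - y := by
    intro j
    induction j with
    | zero => exact ⟨0, by rw [pow_zero, SM_one]; simp⟩
    | succ j ih =>
      obtain ⟨y, hy⟩ := ih
      refine ⟨ρ (t ^ j) u + y, ?_⟩
      rw [pow_succ', SM_mul, map_add]
      have : ρ t (ρ (t ^ j) u) - u = (ρ t (ρ (t ^ j) u) - ρ (t ^ j) u) + (ρ (t ^ j) u - u) := by abel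
      rw [this, hy]
      abel
  choose y hy using hpow
  set N : U := ∑ j ∈ Finset.range n, ρ (t ^ j) u with hNdef
  have hNfix : ρ t N = N := by
    rw [hNdef, map_sum]
    have h3 : ∀ j ∈ Finset.range n, ρ t (ρ (t ^ j) u) = ρ (t ^ (j + 1)) u := fun j _ => by rw [pow_succ', SM_mul]
    rw [Finset.sum_congr rfl h3]
    have h4 := Finset.sum_range_succ (fun j => ρ (t ^ j) u) n
    have h5 := Finset.sum_range_succ' (fun j => ρ (t ^ j) u) n
    rw [h4] at h5
    have h6 : ρ (t ^ n) u = ρ (t ^ 0) u := by rw [hn, pow_orderOf_eq_one, pow_zero]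
    simp only [h6] at h5
    exact (add_right_cancel h5).symm
  have hsum : N - n • u = ρ t (∑ j ∈ Finset.range n, y j) - ∑ j ∈ Finset.range n, y j := by
    rw [map_sum, ← Finset.sum_sub_distrib, ← Finset.sum_congr rfl fun j _ => hy j, Finset.sum_sub_distrib,
      Finset.sum_const, Finset.card_range]
  have hNs : ρ s N = N := by
    have h7 : N = (N - n • u) + n • u := by abel
    rw [h7, map_add, map_nsmul, hu, hsum, hfix]
  have hN0 : N = 0 := hN N hNs hNfix
  -- invert `n`
  have hcop : Nat.Coprime n p := ((Nat.Prime.coprime_iff_not_dvd hp).2 htp).symm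
  obtain ⟨m, hm⟩ : ∃ m : ℤ, ∃ l : ℤ, m * n + l * p = 1 := by
    obtain ⟨a, b, hab⟩ := (Int.isCoprime_iff_gcd_eq_one (m := (n : ℤ)) (n := (p : ℤ))).2 (by
      rw [Int.gcd_natCast_natCast]; exact hcop)
    exact ⟨a, b, hab⟩
  obtain ⟨l, hl⟩ := hm
  refine ⟨(-m) • ∑ j ∈ Finset.range n, y j, ?_⟩
  rw [map_zsmul, ← zsmul_sub, ← hsum, hN0, zero_sub, neg_zsmul, zsmul_neg, neg_neg]
  have h8 : (p : ℤ) • u = 0 := by rw [natCast_zsmul]; exact hU u
  calc u = (1 : ℤ) • u := (one_zsmul u).symm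
    _ = (m * n + l * p) • u := by rw [hl]
    _ = m • (n • u) := by rw [add_zsmul, mul_zsmul, mul_zsmul, h8, zsmul_zero, add_zero, natCast_zsmul]

private theorem SM_fix (h : Small ρ) {s t : Perm (Fin k)} (hd : Perm.Disjoint s t)
    (hs : Perm.sign s = 1) (ht : Perm.sign t = 1) (y : U) : ρ s (ρ t y - y) = ρ t y - y := by
  have h1 := h s t hd hs ht y
  rw [map_sub]
  have h2 : ρ s (ρ t y) = ρ s y + ρ t y - y := eq_sub_of_add_eq h1
  rw [h2]
  abel

private theorem SM_main (hp : p.Prime) (hU : ∀ u : U, p • u = 0) (h : Small ρ) (s t : Perm (Fin k))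
    (hd : Perm.Disjoint s t) (hs : Perm.sign s = 1) (ht : Perm.sign t = 1) (hs1 : s ≠ 1) (ht1 : t ≠ 1)
    (htp : ¬ p ∣ orderOf t) (w : Fin k) (hsw : s w = w) (htw : t w = w)
    (hN : ∀ u, ρ s u = u → ρ t u = u → u = 0) (u : U) (hu : ρ s u = u) : u = 0 := by
  -- `W` = fixed vectors of `s`
  have hsw2 : ∀ x : Fin k, x ≠ w → ∀ v : U, ρ s v = v → ρ s (ρ (swap x w) v) = ρ (swap x w) v := by
    intro x hx v hv
    by_cases hsx : s x = x
    · have hc : s * swap x w = swap x w * s := by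
        have := Equiv.mul_swap_eq_swap_mul s x w
        rw [hsx, hsw] at this
        exact this
      rw [← SM_mul, hc, SM_mul, hv]
    · have htx : t x = x := (hd x).resolve_left hsx
      have htc : t * swap x w = swap x w * t := by
        have := Equiv.mul_swap_eq_swap_mul t x w
        rw [htx, htw] at this
        exact this
      set s' : Perm (Fin k) := swap x w * s * swap x w with hs'
      have hsq : swap x w * swap x w = 1 := Equiv.swap_mul_self x w
      have hs's : swap x w * s' = s * swap x w := by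
        rw [hs', ← mul_assoc, ← mul_assoc, hsq, one_mul]
      have hd' : Perm.Disjoint s' t := by
        intro z
        by_cases hz : t z = z
        · exact Or.inr hz
        · left
          have hzx : z ≠ x := fun e => hz (by rw [e]; exact htx)
          have hzw : z ≠ w := fun e => hz (by rw [e]; exact htw)
          have hsz : s z = z := (hd z).resolve_right hz
          rw [hs']
          simp only [Perm.coe_mul, Function.comp_apply]
          rw [Equiv.swap_apply_of_ne_of_ne hzx hzw, hsz, Equiv.swap_apply_of_ne_of_ne hzx hzw]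
      have hsg : Perm.sign s' = 1 := by
        have h0 : Perm.sign (swap x w) * Perm.sign (swap x w) = 1 := by rw [← Perm.sign_mul, hsq, Perm.sign_one]
        rw [hs', Perm.sign_mul, Perm.sign_mul, hs, mul_one, h0]
      have hN' : ∀ v, ρ s' v = v → ρ t v = v → v = 0 := by
        intro v h1 h2
        have h3 : ρ s (ρ (swap x w) v) = ρ (swap x w) v := by
          rw [← SM_mul, ← hs's, SM_mul, h1]
        have h4 : ρ t (ρ (swap x w) v) = ρ (swap x w) v := by
          rw [← SM_mul, htc, SM_mul, h2]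
        have h5 := hN _ h3 h4
        have h6 : ρ (swap x w) (ρ (swap x w) v) = v := by rw [← SM_mul, hsq, SM_one]
        rw [h5, map_zero] at h6
        exact h6.symm
      have h7 : ρ s' (ρ (swap x w) v) = ρ (swap x w) v := by
        rw [hs', SM_mul, ← SM_mul ρ (swap x w) (swap x w), hsq, SM_one, SM_mul, hv]
      obtain ⟨y, hy⟩ := SM_img ρ hp hU h hd' hsg ht htp hN' _ h7
      rw [hy]
      exact SM_fix ρ h hd hs ht y
  have hall : ∀ g : Perm (Fin k), ∀ v : U, ρ s v = v → ρ s (ρ g v) = ρ g v := by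
    intro g
    induction g using Equiv.Perm.swap_induction_on with
    | one => intro v hv; rw [SM_one]; exact hv
    | swap_mul f x y hxy ih =>
      intro v hv
      have hsw3 : ∀ v' : U, ρ s v' = v' → ρ s (ρ (swap x y) v') = ρ (swap x y) v' := by
        by_cases hxw : x = w
        · subst hxw
          rw [Equiv.swap_comm]
          exact hsw2 y (Ne.symm hxy)
        · by_cases hyw : y = w
          · subst hyw
            exact hsw2 x hxy
          · intro v' hv'
            have h8 := Equiv.swap_apply_apply (swap x w) w y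
            rw [Equiv.swap_apply_right, Equiv.swap_apply_of_ne_of_ne (Ne.symm hxy) hyw, Equiv.swap_inv] at h8
            rw [h8, SM_mul, SM_mul]
            have h9 := hsw2 x hxw v' hv'
            have h10 := hsw2 y hyw _ h9
            rw [Equiv.swap_comm y w] at h10
            exact hsw2 x hxw _ h10
      rw [SM_mul]
      exact hsw3 _ (ih v hv)
  -- the pointwise stabilizer
  let K : Subgroup (Perm (Fin k)) :=
    { carrier := {g | ∀ v : U, ρ s v = v → ρ g v = v}
      one_mem' := fun v _ => SM_one ρ v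
      mul_mem' := fun {a b} ha hb v hv => by rw [SM_mul, hb v hv, ha v hv]
      inv_mem' := fun {a} ha v hv => by
        have h1 : ρ a⁻¹ (ρ a v) = v := by rw [← SM_mul, inv_mul_cancel, SM_one]
        rw [ha v hv] at h1
        exact h1 }
  haveI hK : K.Normal := ⟨fun a ha g v hv => by
    have h1 : ρ a (ρ g⁻¹ v) = ρ g⁻¹ v := ha _ (hall g⁻¹ v hv)
    rw [SM_mul, SM_mul, h1, ← SM_mul, mul_inv_cancel, SM_one]⟩
  have hsK : s ∈ K := fun v hv => hv
  have hKn : Nontrivial K := ⟨⟨⟨s, hsK⟩, 1, fun e => hs1 (congrArg Subtype.val e)⟩⟩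
  have h5 : 5 ≤ Nat.card (Fin k) := by
    rw [Nat.card_eq_fintype_card]
    have h1 := Equiv.Perm.two_le_card_support_of_ne_one hs1
    have h2 := Equiv.Perm.two_le_card_support_of_ne_one ht1
    have h3 : _root_.Disjoint s.support t.support := Equiv.Perm.disjoint_iff_disjoint_support.1 hd
    have h4 : w ∉ s.support ∪ t.support := by
      rw [Finset.mem_union, Perm.mem_support, Perm.mem_support]
      simp [hsw, htw]
    have h6 : (insert w (s.support ∪ t.support)).card ≤ Fintype.card (Fin k) := Finset.card_le_univ _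
    rw [Finset.card_insert_of_notMem h4, Finset.card_union_of_disjoint h3] at h6
    omega
  have htK : t ∈ K := Equiv.Perm.alternatingGroup_le_of_normal h5 hKn (Perm.mem_alternatingGroup.2 ht)
  exact hN u hu (htK u hu)

/-- Two disjoint permutations have a common fixed vector. -/
theorem SM (hp : p.Prime) (hU : ∀ u : U, p • u = 0) (hne : ∃ u : U, u ≠ 0) (h : Small ρ) (s t : Perm (Fin k))
    (hd : Perm.Disjoint s t) (hs : Perm.sign s = 1) (ht : Perm.sign t = 1) (hs1 : s ≠ 1) (ht1 : t ≠ 1)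
    (hsp : ¬ p ∣ orderOf s) (htp : ¬ p ∣ orderOf t) (w : Fin k) (hsw : s w = w) (htw : t w = w) :
    ∃ u : U, u ≠ 0 ∧ ρ s u = u ∧ ρ t u = u := by
  by_contra hcon
  have hN : ∀ u, ρ s u = u → ρ t u = u → u = 0 := by
    intro u h1 h2
    by_contra h3
    exact hcon ⟨u, h3, h1, h2⟩
  have hC := SM_main ρ hp hU h s t hd hs ht hs1 ht1 htp w hsw htw hN
  have hC' := SM_main ρ hp hU h t s hd.symm ht hs ht1 hs1 hsp w htw hsw (fun u h1 h2 => hN u h2 h1)
  obtain ⟨u, hu⟩ := hne
  apply hu
  apply hC'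
  have h1 := hC _ (SM_fix ρ h hd hs ht u)
  exact sub_eq_zero.1 h1
-- END SM

end

end Pool.Agent.NbT
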