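import Pool.Agent.NbT.Sml

/-!
# The types which are free by the strong form of Lemma 1
-/

set_option autoImplicit false

namespace Pool.Agent.NbT

open Equiv Pool.Agent.NbS

/-- The permutations `σ` of order prime to `p` with `p - 1` not dividing the index of `zpowers σ` in the centralizer have no nonzero fixed vector. -/
def GFree {n : ℕ} {V : Type*} [AddCommGroup V] (ρ : Perm (Fin n) →* AddMonoid.End V) (p : ℕ) : Prop :=
  ∀ (σ : Perm (Fin n)) (r : ℕ), Nat.card (Subgroup.centralizer {σ}) = r * orderOf σ → ¬ p ∣ orderOf σ → ¬ (p - 1) ∣ r →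
    Free ρ σ

/-- There is no nonzero `F_p S_n`-module with `DoFree` and `GFree`. -/
def NoG (n p : ℕ) : Prop :=
  ∀ (V : Type) [AddCommGroup V] (ρ : Perm (Fin n) →* AddMonoid.End V), (∀ v : V, p • v = 0) → DoFree ρ p → GFree ρ p →
    ∀ v : V, v = 0

theorem noG_of_noDo {n p : ℕ} (h : NoDo n p) : NoG n p := fun V _ ρ hV hD _ v => h V ρ hV hD v

theorem RG {n p : ℕ} {V : Type*} [AddCommGroup V] {ρ : Perm (Fin n) →* AddMonoid.End V} (hG : GFree ρ p) (l : List ℕ)
    (r : ℕ) (hc : (n - (l : Multiset ℕ).sum).factorial * (l : Multiset ℕ).prod *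
      ∏ a ∈ (l : Multiset ℕ).toFinset, ((l : Multiset ℕ).count a).factorial = r * (l : Multiset ℕ).lcm)
    (hp : ¬ p ∣ (l : Multiset ℕ).lcm) (hr : ¬ (p - 1) ∣ r) {μ : Multiset ℕ} (hμ : μ = (l : Multiset ℕ)) :
    ¬ FxT ρ μ := by
  rintro ⟨σ, hσ, v, hv, h⟩
  rw [hμ] at hσ
  refine hv (hG σ r ?_ ?_ hr v h)
  · rw [Perm.nat_card_centralizer, Fintype.card_fin, ← Perm.lcm_cycleType, hσ, hc]
  · rw [← Perm.lcm_cycleType, hσ]
    exact hp

end Pool.Agent.NbT
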