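import Pool.Agent.NbT.Gfr

/-!
# Sections centralized by the kernel
-/

set_option autoImplicit false
set_option linter.unusedSectionVars false

namespace Pool.Agent.NbT

open Equiv Pool.Agent.NbS

section aux

variable (K : Type) [Group K] (M : Subgroup K) (p : ℕ)

/-- the subgroup generated by the image of `M` and the `p`-th powers -/
private abbrev kS : Subgroup (Abelianization K) :=
  M.map Abelianization.of ⊔ (powMonoidHom p : Abelianization K →* Abelianization K).range

private abbrev kQ : Type := Abelianization K ⧸ kS K M p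

private def kq : K →* kQ K M p :=
  (QuotientGroup.mk' _).comp (Abelianization.of (G := K))

private theorem kq_sur : Function.Surjective (kq K M p) := by
  intro z
  obtain ⟨b, rfl⟩ := QuotientGroup.mk'_surjective _ z
  obtain ⟨n, rfl⟩ := QuotientGroup.mk_surjective (s := commutator K) b
  exact ⟨n, rfl⟩

private theorem kq_M {x : K} (hx : x ∈ M) : kq K M p x = 1 := by
  show ((Abelianization.of x : Abelianization K) : kQ K M p) = 1
  rw [QuotientGroup.eq_one_iff]
  exact Subgroup.mem_sup_left ⟨x, hx, rfl⟩

private def km (α : K →* K) (hα : ∀ x ∈ M, α x ∈ M) : kQ K M p →* kQ K M p :=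
  QuotientGroup.map _ _ (Abelianization.map α) (by
    rw [sup_le_iff]
    constructor
    · rintro _ ⟨x, hx, rfl⟩
      exact Subgroup.mem_sup_left ⟨α x, hα x hx, rfl⟩
    · rintro _ ⟨b, rfl⟩
      exact Subgroup.mem_sup_right ⟨Abelianization.map α b, by simp [powMonoidHom_apply, map_pow]⟩)

private theorem km_q (α : K →* K) (hα : ∀ x ∈ M, α x ∈ M) (n : K) : km K M p α hα (kq K M p n) = kq K M p (α n) := rfl

end aux

theorem exists_topK {G H : Type} [Group G] [Finite G] [Group H] (π : G →* H) (hπ : Function.Surjective π)
    (K L : Subgroup G) [K.Normal] (hL : L.Normal) (hK : K ≤ π.ker) (hc : ⁅π.ker, K⁆ ≤ L) {p : ℕ}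
    (hp : p.Prime) (h : p ∣ L.relIndex K) :
    ∃ (V : Type) (_ : AddCommGroup V) (_ : TopK π K p V), ∃ v : V, v ≠ 0 := by
  classical
  obtain ⟨M, hM⟩ : ∃ M : Subgroup K, M = L.subgroupOf K := ⟨_, rfl⟩
  let cj : G → (K →* K) := fun g => (MulAut.conjNormal g : MulAut K).toMonoidHom
  have hcj : ∀ (g : G) (n : K), ((cj g n : K) : G) = g * n * g⁻¹ := fun g n => MulAut.conjNormal_apply g n
  have hα : ∀ (g : G), ∀ x ∈ M, cj g x ∈ M := by
    intro g x hx
    rw [hM, Subgroup.mem_subgroupOf] at hx ⊢
    rw [hcj]
    exact hL.conj_mem _ hx g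
  let ψ : G →* AddMonoid.End (Additive (kQ K M p)) :=
    { toFun := fun g => MonoidHom.toAdditive (km K M p (cj g) (hα g))
      map_one' := by
        refine AddMonoidHom.ext fun v => ?_
        obtain ⟨n, hn⟩ := kq_sur K M p v.toMul
        show Additive.ofMul (km K M p (cj 1) (hα 1) v.toMul) = v
        rw [← hn, km_q]
        have : cj 1 n = n := by
          show (MulAut.conjNormal (1 : G)) n = n
          rw [map_one]; rfl
        rw [this, hn]; rfl
      map_mul' := by
        intro a b
        refine AddMonoidHom.ext fun v => ?_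
        obtain ⟨n, hn⟩ := kq_sur K M p v.toMul
        show Additive.ofMul (km K M p (cj (a * b)) (hα (a * b)) v.toMul) =
          Additive.ofMul (km K M p (cj a) (hα a) (km K M p (cj b) (hα b) v.toMul))
        rw [← hn, km_q, km_q, km_q]
        have : cj (a * b) n = cj a (cj b n) := by
          show (MulAut.conjNormal (a * b)) n = (MulAut.conjNormal a) ((MulAut.conjNormal b) n)
          rw [map_mul]; rfl
        rw [this] }
  have hψ : ∀ (g : G) (n : K), ψ g (Additive.ofMul (kq K M p n)) =
      Additive.ofMul (kq K M p (cj g n)) := fun g n => rfl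
  have hker : ∀ g ∈ π.ker, ψ g = 1 := by
    intro g hg
    refine AddMonoidHom.ext fun v => ?_
    obtain ⟨n, hn⟩ := kq_sur K M p v.toMul
    have hv : v = Additive.ofMul (kq K M p n) := by rw [hn]; rfl
    subst hv
    refine (hψ g n).trans ?_
    show Additive.ofMul (kq K M p (cj g n)) = Additive.ofMul (kq K M p n)
    have h1 : cj g n * n⁻¹ ∈ M := by
      rw [hM, Subgroup.mem_subgroupOf, Subgroup.coe_mul, hcj, Subgroup.coe_inv]
      exact hc (Subgroup.commutator_mem_commutator hg n.2)
    have h2 : kq K M p (cj g n) = kq K M p n := by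
      have h3 := kq_M K M p h1
      rw [map_mul, map_inv, mul_inv_eq_one] at h3
      exact h3
    exact congrArg Additive.ofMul h2
  let ρ : H →* AddMonoid.End (Additive (kQ K M p)) :=
    (QuotientGroup.lift π.ker ψ (fun g hg => hker g hg)).comp
      (QuotientGroup.quotientKerEquivOfSurjective π hπ).symm.toMonoidHom
  have hρ : ∀ g : G, ρ (π g) = ψ g := by
    intro g
    have h1 : (QuotientGroup.quotientKerEquivOfSurjective π hπ).symm (π g) = (g : G ⧸ π.ker) := by
      rw [MulEquiv.symm_apply_eq]; rfl
    show QuotientGroup.lift π.ker ψ (fun g hg => hker g hg)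
      ((QuotientGroup.quotientKerEquivOfSurjective π hπ).symm (π g)) = ψ g
    rw [h1]; rfl
  refine ⟨Additive (kQ K M p), inferInstance, ?_⟩
  let T : TopK π K p (Additive (kQ K M p)) :=
    { ρ := ρ
      f := fun n => Additive.ofMul (kq K M p n)
      mul := fun a b => by rw [map_mul]; rfl
      sur := fun v => by
        obtain ⟨n, hn⟩ := kq_sur K M p v.toMul
        exact ⟨n, by show Additive.ofMul (kq K M p n) = v; rw [hn]; rfl⟩
      pV := fun v => by
        obtain ⟨n, hn⟩ := kq_sur K M p v.toMul
        have hv : v = Additive.ofMul (kq K M p n) := by rw [hn]; rfl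
        rw [hv, ← ofMul_pow, ← map_pow]
        show Additive.ofMul (((Abelianization.of (n ^ p) : Abelianization K)) : kQ K M p) = 0
        have : ((Abelianization.of (n ^ p) : Abelianization K) : kQ K M p) = 1 := by
          rw [QuotientGroup.eq_one_iff]
          exact Subgroup.mem_sup_right ⟨Abelianization.of n, by rw [powMonoidHom_apply, map_pow]⟩
        rw [this]; rfl
      eqv := fun g a b hb => by
        rw [hρ, hψ]
        have : b = cj g a := by
          apply Subtype.ext
          rw [hcj, hb]
        rw [this] }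
  refine ⟨T, ?_⟩
  -- nonzero
  have : Fact p.Prime := ⟨hp⟩
  have htop : kS K M p ≠ ⊤ := by
    intro htop
    obtain ⟨B, hB⟩ : ∃ B : Subgroup (Abelianization K), B = M.map Abelianization.of := ⟨_, rfl⟩
    have hidx : B.index = L.relIndex K := by
      have h1 : B.comap (Abelianization.of (G := K)) = M := by
        rw [hB, Subgroup.comap_map_eq]
        refine sup_eq_left.2 ?_
        rw [Abelianization.ker_of, commutator_def]
        refine Subgroup.commutator_le.2 fun a _ b _ => ?_
        rw [hM, Subgroup.mem_subgroupOf]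
        exact hc (Subgroup.commutator_mem_commutator (hK a.2) b.2)
      have h2 := Subgroup.index_comap_of_surjective B (f := Abelianization.of (G := K)) QuotientGroup.mk_surjective
      rw [h1, hM] at h2
      exact h2.symm
    have hs : Function.Surjective (powMonoidHom p : (Abelianization K ⧸ B) →* (Abelianization K ⧸ B)) := by
      intro z
      obtain ⟨b, rfl⟩ := QuotientGroup.mk'_surjective B z
      have hb : b ∈ kS K M p := by rw [htop]; trivial
      obtain ⟨c, hc, d, ⟨e, rfl⟩, rfl⟩ := Subgroup.mem_sup.1 hb
      refine ⟨QuotientGroup.mk' B e, ?_⟩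
      rw [map_mul]
      have h1 : QuotientGroup.mk' B c = 1 := by
        rw [QuotientGroup.mk'_apply, QuotientGroup.eq_one_iff, hB]
        exact hc
      rw [h1, one_mul, powMonoidHom_apply, powMonoidHom_apply, map_pow]
    have hi := Finite.injective_iff_surjective.2 hs
    have hd : p ∣ Nat.card (Abelianization K ⧸ B) := by
      rw [← hidx] at h
      exact h
    obtain ⟨b, hb⟩ := exists_prime_orderOf_dvd_card' p hd
    have h1 : b = 1 := by
      apply hi
      rw [powMonoidHom_apply, powMonoidHom_apply, ← hb, pow_orderOf_eq_one, one_pow]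
    rw [h1, orderOf_one] at hb
    exact hp.one_lt.ne hb
  by_contra hall
  push Not at hall
  apply htop
  rw [eq_top_iff]
  intro b _
  have h1 := hall (Additive.ofMul ((b : Abelianization K) : kQ K M p))
  exact (QuotientGroup.eq_one_iff b).1 (congrArg Additive.toMul h1)

end Pool.Agent.NbT
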