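import Pool.Agent.NbT.Cal

/-!
# Small lemmas for the tables
-/

set_option autoImplicit false

namespace Pool.Agent.NbT

open Equiv Pool.Agent.NbS

theorem ndv1 {p a : ℕ} (hp : p.Prime) (ha : a.Prime) (h : p ≠ a) : ¬ p ∣ a := fun hd =>
  h ((Nat.prime_dvd_prime_iff_eq hp ha).1 hd)

theorem ndvm {p a b : ℕ} (hp : p.Prime) (ha : ¬ p ∣ a) (hb : ¬ p ∣ b) : ¬ p ∣ a * b := fun h =>
  ((Nat.Prime.dvd_mul hp).1 h).elim ha hb

theorem dv3 {q r t a i j k : ℕ} (hq : q.Prime) (hr : r.Prime) (ha : a = 2 ^ i * q ^ j * r ^ k) (ht : t.Prime)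
    (h : t ∣ a) : t = 2 ∨ t = q ∨ t = r := by
  rw [ha] at h
  rcases (Nat.Prime.dvd_mul ht).1 h with h | h
  · rcases (Nat.Prime.dvd_mul ht).1 h with h | h
    · exact Or.inl ((Nat.prime_dvd_prime_iff_eq ht Nat.prime_two).1 (ht.dvd_of_dvd_pow h))
    · exact Or.inr (Or.inl ((Nat.prime_dvd_prime_iff_eq ht hq).1 (ht.dvd_of_dvd_pow h)))
  · exact Or.inr (Or.inr ((Nat.prime_dvd_prime_iff_eq ht hr).1 (ht.dvd_of_dvd_pow h)))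

theorem altfx {k : ℕ} {U : Type*} [AddCommGroup U] {ρ : Perm (Fin k) →* AddMonoid.End U} (h : AltFx ρ)
    (ν : Multiset ℕ) (h2 : ∀ a ∈ ν, 2 ≤ a) (hs : ν.sum ≤ k) (he : (ν.sum + ν.card) % 2 = 0) : FxT ρ ν := by
  obtain ⟨σ, hσ⟩ : ∃ σ : Perm (Fin k), σ.cycleType = ν :=
    (Perm.exists_with_cycleType_iff (Fin k)).2 ⟨by simpa using hs, h2⟩
  rw [← hσ]
  refine h σ ?_
  rw [Perm.sign_of_cycleType, hσ]
  exact Even.neg_one_pow (Nat.even_iff.2 he)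

theorem RE0 {n : ℕ} {V : Type*} [AddCommGroup V] {ρ : Perm (Fin n) →* AddMonoid.End V} (hE : EgFree ρ) {f : ℕ} (l : List ℕ)
    (q r : ℕ) (hf : f ≤ 1) (hl : Cp n f l) (hqr : ∀ a ∈ l, ∀ t : ℕ, t.Prime → t ∣ a → t = 2 ∨ t = q ∨ t = r)
    {μ : Multiset ℕ} (hμ : μ = (l : Multiset ℕ)) : ¬ FxT ρ μ := by
  rintro ⟨σ, hσ, v, hv, h⟩
  exact hv (hE f l q r hf hl hqr σ (hσ.trans hμ) v h)

theorem noOdd_of_noDo {n p : ℕ} (h : NoDo n p) : NoOdd n p := fun V _ ρ hV hD _ v => h V ρ hV hD v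

end Pool.Agent.NbT
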